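import Pool.Agent.H763R2.Dm.Core

/-! Closed curves parametrised by the line, and signed distance functions. -/

set_option autoImplicit false
open Complex Set Topology Metric

namespace Pool.Agent.H763R2.An

open Sq (Dv Cv Dv_re Dv_im Cv_re Cv_im)
open Dm (b b_true b_false b_congr eps fl fl_add eps_eq cell floor_const two_zero parts sum_floor
  tele mid_step log_step exp_rot NoSq fine_real)

/-- a closed curve of period 1 -/
structure Loop (c : ℝ → ℂ) : Prop where
  cont : Continuous c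
  per : ∀ t, c (t + 1) = c t

/-- the closed curve is simple -/
def Inj (c : ℝ → ℂ) : Prop := ∀ x y, x < y → y < x + 1 → c x ≠ c y

/-- the closed curve passes through `c 0` only once -/
def Inj0 (c : ℝ → ℂ) : Prop := ∀ t, 0 < t → t < 1 → c t ≠ c 0

theorem Inj.inj0 {c : ℝ → ℂ} (J : Inj c) : Inj0 c := fun t h1 h2 =>
  (J 0 t h1 (by linarith)).symm

/-- winding number -/
def IsWc (c : ℝ → ℂ) (z : ℂ) (n : ℤ) : Prop :=
  ∃ k : ℝ → ℂ, Continuous k ∧ (∀ t, exp (k t) = c t - z) ∧ k 1 - k 0 = n * (2 * Real.pi * I)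

/-- signed distance function -/
structure Sg (c : ℝ → ℂ) (M : ℂ → ℝ) (κ : ZMod 2) : Prop where
  abs : ∀ z, |M z| = infDist z (range c)
  lip : ∀ z w, |M z - M w| ≤ ‖z - w‖
  par : ∀ z, z ∉ range c → ∀ n : ℤ, IsWc c z n → ((n : ℤ) : ZMod 2) = b (0 < M z) + κ

variable {c : ℝ → ℂ} {M : ℂ → ℝ} {κ : ZMod 2}

theorem Loop.per_int (L : Loop c) (t : ℝ) (n : ℤ) : c (t + n) = c t := by
  have h : Function.Periodic c 1 := L.per
  have := h.int_mul n t
  simpa using this

theorem Loop.range_eq (L : Loop c) : range c = c '' Icc 0 1 := by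
  apply Subset.antisymm
  · rintro _ ⟨u, rfl⟩
    refine ⟨Int.fract u, ⟨Int.fract_nonneg u, (Int.fract_lt_one u).le⟩, ?_⟩
    have := L.per_int (Int.fract u) ⌊u⌋
    rw [Int.fract_add_floor] at this
    exact this.symm
  · exact image_subset_range _ _

theorem Loop.compact (L : Loop c) : IsCompact (range c) := by
  rw [L.range_eq]; exact isCompact_Icc.image L.cont

theorem Loop.closed (L : Loop c) : IsClosed (range c) := L.compact.isClosed

theorem Loop.ne (_L : Loop c) : (range c).Nonempty := ⟨c 0, mem_range_self 0⟩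

theorem Sg.zero (S : Sg c M κ) (L : Loop c) {z : ℂ} : M z = 0 ↔ z ∈ range c := by
  rw [← abs_eq_zero, S.abs, L.closed.mem_iff_infDist_zero L.ne]

theorem Sg.cont (S : Sg c M κ) : Continuous M :=
  (LipschitzWith.mk_one (f := M) fun z w => by
    rw [Real.dist_eq, dist_eq_norm]; exact S.lip z w).continuous

theorem Sg.neg (S : Sg c M κ) (L : Loop c) : Sg c (fun z => - M z) (κ + 1) where
  abs z := by rw [abs_neg, S.abs]
  lip z w := by
    rw [← abs_neg]; convert S.lip z w using 2; ring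
  par z hz n hn := by
    rw [S.par z hz n hn]
    have h0 : M z ≠ 0 := fun h => hz ((S.zero L).1 h)
    have h2 : (1 : ZMod 2) + 1 = 0 := by decide
    rcases lt_or_gt_of_ne h0 with h | h
    · rw [b_false (not_lt.2 h.le), b_true (neg_pos.2 h)]
      linear_combination -h2
    · rw [b_true h, b_false (by simp only [neg_pos, not_lt]; exact h.le)]
      ring

theorem Loop.exW (L : Loop c) {z : ℂ} (hz : z ∉ range c) : ∃ n, IsWc c z n := by
  obtain ⟨k, hk, hke⟩ := H777R2.exists_log (X := ℝ) (g := fun t => c t - z)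
    (L.cont.sub continuous_const) (fun t h => hz (by
      rw [sub_eq_zero] at h; rw [← h]; exact mem_range_self t))
  have e : exp (k 1 - k 0) = 1 := by
    have a0 : c 0 - z ≠ 0 := fun h => hz (by
      rw [sub_eq_zero] at h; rw [← h]; exact mem_range_self 0)
    have h1 := L.per 0
    rw [zero_add] at h1
    rw [exp_sub, hke, hke, h1, div_self a0]
  obtain ⟨n, hn⟩ := exp_eq_one_iff.1 e
  exact ⟨n, k, hk, hke, hn⟩

/-- the curve moved in the parameter -/
theorem Loop.shift (L : Loop c) (s : ℝ) : Loop (fun t => c (t + s)) where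
  cont := L.cont.comp (by fun_prop)
  per t := by
    have := L.per (t + s)
    rw [← this]; congr 1; ring

theorem Inj.shift (J : Inj c) (s : ℝ) : Inj (fun t => c (t + s)) :=
  fun _ _ h1 h2 => J _ _ (by linarith) (by linarith)

theorem range_shift (s : ℝ) : range (fun t => c (t + s)) = range c := by
  apply Subset.antisymm
  · rintro _ ⟨t, rfl⟩; exact mem_range_self _
  · rintro _ ⟨t, rfl⟩; exact ⟨t - s, by simp⟩

theorem Sg.shift (S : Sg c M κ) (L : Loop c) (s : ℝ) : Sg (fun t => c (t + s)) M κ where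
  abs z := by rw [range_shift]; exact S.abs z
  lip := S.lip
  par z hz n := by
    rintro ⟨k, hk, hke, hn⟩
    rw [range_shift] at hz
    refine S.par z hz n ⟨fun t => k (t - s), by fun_prop, fun t => by rw [hke]; simp, ?_⟩
    -- k (t + 1) - k t is constant
    have hz' : ∀ t, c t - z ≠ 0 := fun t h => hz (by
      rw [sub_eq_zero] at h; rw [← h]; exact mem_range_self t)
    have := H777R2.exp_const (X := ℝ) (k := fun t => k (t + 1) - k t) (by fun_prop) (c := 1)
      (fun t => by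
        rw [exp_sub, hke, hke]
        have h1 := L.per (t + s)
        simp only
        rw [show t + 1 + s = t + s + 1 by ring, h1, div_self (hz' _)]) (-s) 0
    simp only [zero_add] at this
    rw [← hn, ← this]
    show k (1 - s) - k (0 - s) = k (-s + 1) - k (-s)
    rw [show (1 - s) = -s + 1 by ring, show (0 - s) = -s by ring]

/-- third and fourth vertices -/
noncomputable def DD (c : ℝ → ℂ) (x y : ℝ) : ℂ := Dv (c x) (c y)
noncomputable def CC (c : ℝ → ℂ) (x y : ℝ) : ℂ := Cv (c x) (c y)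

theorem Loop.DD_per (L : Loop c) (x y : ℝ) : DD c (x + 1) (y + 1) = DD c x y := by
  unfold DD; rw [L.per, L.per]
theorem Loop.CC_per (L : Loop c) (x y : ℝ) : CC c (x + 1) (y + 1) = CC c x y := by
  unfold CC; rw [L.per, L.per]

theorem Loop.DD_cont (L : Loop c) : Continuous fun p : ℝ × ℝ => DD c p.1 p.2 := by
  have := L.cont
  unfold DD Sq.Dv; fun_prop
theorem Loop.CC_cont (L : Loop c) : Continuous fun p : ℝ × ℝ => CC c p.1 p.2 := by
  have := L.cont
  unfold CC Sq.Cv; fun_prop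

theorem nz (L : Loop c) (J : Inj c) (S : Sg c M κ) (nosq : NoSq (range c)) {x y : ℝ} (h1 : x < y)
    (h2 : y < x + 1) : ¬ (M (DD c x y) = 0 ∧ M (CC c x y) = 0) := by
  rintro ⟨a1, a2⟩
  rw [S.zero L] at a1 a2
  refine nosq ⟨c x, c y - c x, sub_ne_zero.2 (J x y h1 h2).symm, mem_range_self _, ?_, ?_, ?_⟩
  · rw [add_sub_cancel]; exact mem_range_self _
  · rw [add_sub_cancel]; exact a2
  · exact a1

/-- no square has the vertex `c 0` -/
def NZ0 (c : ℝ → ℂ) (M : ℂ → ℝ) : Prop := ∀ y, 0 < y → y < 1 →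
  ¬ (M (DD c 0 y) = 0 ∧ M (CC c 0 y) = 0) ∧ ¬ (M (DD c y 1) = 0 ∧ M (CC c y 1) = 0)

theorem nz0 (L : Loop c) (J : Inj c) (S : Sg c M κ) (nosq : NoSq (range c)) : NZ0 c M :=
  fun _ h1 h2 => ⟨nz L J S nosq (by linarith) (by linarith), nz L J S nosq (by linarith)
    (by linarith)⟩

/-- the open annulus in the universal cover -/
def UU : Set (ℝ × ℝ) := {p | p.1 < p.2 ∧ p.2 < p.1 + 1}

theorem UU_open : IsOpen UU :=
  (isOpen_lt continuous_fst continuous_snd).inter
    (isOpen_lt continuous_snd (continuous_fst.add continuous_const))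

theorem UU_convex : Convex ℝ UU := by
  rintro ⟨x, y⟩ ⟨h1, h2⟩ ⟨x', y'⟩ ⟨h1', h2'⟩ a d ha hd had
  simp only at h1 h2 h1' h2'
  refine ⟨?_, ?_⟩
  · simp only [Prod.smul_mk, Prod.mk_add_mk, smul_eq_mul]
    rcases lt_or_eq_of_le ha with h | h
    · nlinarith [mul_le_mul_of_nonneg_left h1'.le hd, mul_lt_mul_of_pos_left h1 h]
    · have : d = 1 := by linarith
      rw [← h, this]; linarith
  · simp only [Prod.smul_mk, Prod.mk_add_mk, smul_eq_mul]
    rcases lt_or_eq_of_le ha with h | h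
    · nlinarith [mul_le_mul_of_nonneg_left h2'.le hd, mul_lt_mul_of_pos_left h2 h]
    · have : d = 1 := by linarith
      rw [← h, this]; linarith

/-- the angle function -/
structure Ang (c : ℝ → ℂ) (M : ℂ → ℝ) (θ : ℝ → ℝ → ℝ) (g : ℤ) : Prop where
  cont : ContinuousOn (fun p : ℝ × ℝ => θ p.1 p.2) UU
  ex : ∀ x y, x < y → y < x + 1 → ∃ ρ > 0, M (DD c x y) = ρ * Real.cos (θ x y) ∧
    M (CC c x y) = ρ * Real.sin (θ x y)
  per : ∀ x y, x < y → y < x + 1 → θ (x + 1) (y + 1) = θ x y + g * (2 * Real.pi)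

theorem exists_ang (L : Loop c) (J : Inj c) (S : Sg c M κ) (nosq : NoSq (range c)) :
    ∃ θ g, Ang c M θ g := by
  have hne : UU.Nonempty := ⟨(0, 1/2), by norm_num [UU]⟩
  have : ContractibleSpace UU := UU_convex.contractibleSpace hne
  have : LocallyPathConnectedSpace UU := UU_open.locallyPathConnectedSpace
  have hM := S.cont
  have hD := L.DD_cont
  have hC := L.CC_cont
  obtain ⟨K, hK, hKe⟩ := H777R2.exists_log (X := UU)
    (g := fun p => ((M (DD c p.1.1 p.1.2) : ℝ) : ℂ) + ((M (CC c p.1.1 p.1.2) : ℝ) : ℂ) * I)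
    (by
      have h1 : Continuous fun p : UU => M (DD c p.1.1 p.1.2) :=
        hM.comp (hD.comp continuous_subtype_val)
      have h2 : Continuous fun p : UU => M (CC c p.1.1 p.1.2) :=
        hM.comp (hC.comp continuous_subtype_val)
      fun_prop) (fun p hp => by
      have e1 := congrArg Complex.re hp
      have e2 := congrArg Complex.im hp
      simp at e1 e2
      exact nz L J S nosq p.2.1 p.2.2 ⟨e1, e2⟩)
  classical
  set θ : ℝ → ℝ → ℝ := fun x y => if h : ((x, y) : ℝ × ℝ) ∈ UU then (K ⟨(x, y), h⟩).im else 0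
    with hθ
  have hθe : ∀ x y (h : ((x, y) : ℝ × ℝ) ∈ UU), θ x y = (K ⟨(x, y), h⟩).im := by
    intro x y h; rw [hθ]; simp only; rw [dif_pos h]
  have hcont : ContinuousOn (fun p : ℝ × ℝ => θ p.1 p.2) UU := by
    rw [continuousOn_iff_continuous_domRestrict]
    have : UU.domRestrict (fun p : ℝ × ℝ => θ p.1 p.2) = fun p : UU => (K p).im := by
      funext p
      exact hθe p.1.1 p.1.2 p.2
    rw [this]
    exact continuous_im.comp hK
  have hexp : ∀ x y (h : ((x, y) : ℝ × ℝ) ∈ UU),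
      M (DD c x y) = Real.exp (K ⟨(x, y), h⟩).re * Real.cos (θ x y) ∧
      M (CC c x y) = Real.exp (K ⟨(x, y), h⟩).re * Real.sin (θ x y) := by
    intro x y h
    have e := hKe ⟨(x, y), h⟩
    have e1 := congrArg Complex.re e
    have e2 := congrArg Complex.im e
    rw [exp_re] at e1
    rw [exp_im] at e2
    rw [hθe x y h]
    simp at e1 e2
    exact ⟨e1.symm, e2.symm⟩
  -- the shift map
  have hsh : ∀ p : UU, (p.1 + (1, 1) : ℝ × ℝ) ∈ UU := by
    rintro ⟨⟨x, y⟩, h1, h2⟩
    simp only at h1 h2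
    exact ⟨by simp; linarith, by simp; linarith⟩
  have hconst := H777R2.exp_const (X := UU)
    (k := fun p => K ⟨p.1 + (1, 1), hsh p⟩ - K p)
    ((hK.comp (by fun_prop)).sub hK) (c := 1) (fun p => by
      rw [exp_sub, hKe, hKe]
      simp only [Prod.fst_add, Prod.snd_add, L.DD_per, L.CC_per]
      refine div_self ?_
      rw [← hKe p]; exact exp_ne_zero _)
  obtain ⟨g, hg⟩ : ∃ g : ℤ, K ⟨((0, 1/2) : ℝ × ℝ) + (1, 1), hsh ⟨(0, 1/2), by norm_num [UU]⟩⟩ -
      K ⟨(0, 1/2), by norm_num [UU]⟩ = g * (2 * Real.pi * I) := by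
    refine exp_eq_one_iff.1 ?_
    rw [exp_sub, hKe, hKe]
    simp only [Prod.fst_add, Prod.snd_add, L.DD_per, L.CC_per]
    refine div_self ?_
    have := hKe ⟨(0, 1/2), by norm_num [UU]⟩
    rw [← this]; exact exp_ne_zero _
  refine ⟨θ, g, hcont, fun x y h1 h2 => ⟨_, Real.exp_pos _, hexp x y ⟨h1, h2⟩⟩, ?_⟩
  intro x y h1 h2
  have hp : ((x, y) : ℝ × ℝ) ∈ UU := ⟨h1, h2⟩
  have hp' : ((x + 1, y + 1) : ℝ × ℝ) ∈ UU := ⟨by simp; linarith, by simp; linarith⟩
  have e := hconst ⟨(x, y), hp⟩ ⟨(0, 1/2), by norm_num [UU]⟩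
  simp only at e
  rw [hg] at e
  have e2 := congrArg Complex.im e
  rw [hθe _ _ hp, hθe _ _ hp']
  have h3 : ((g : ℂ) * (2 * Real.pi * I)).im = g * (2 * Real.pi) := by
    rw [show (g : ℂ) * (2 * Real.pi * I) = ((g * (2 * Real.pi) : ℝ) : ℂ) * I by push_cast; ring]
    simp
  rw [h3, sub_im] at e2
  have h4 : (⟨((x, y) : ℝ × ℝ) + (1, 1), hsh ⟨(x, y), hp⟩⟩ : UU) = ⟨(x + 1, y + 1), hp'⟩ := by
    apply Subtype.ext; simp
  rw [h4] at e2
  linarith

end Pool.Agent.H763R2.An
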