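import Pool.Agent.H763R2.An.A

/-! Double counting of the isosceles right triangles with a given apex. -/

set_option autoImplicit false
open Complex Set Topology Metric

namespace Pool.Agent.H763R2.An

open Sq (Dv Cv Dv_re Dv_im Cv_re Cv_im)
open Dm (b b_true b_false b_congr eps fl fl_add eps_eq cell floor_const two_zero parts sum_floor
  tele mid_step log_step exp_rot NoSq fine_real)

variable {c : ℝ → ℂ} {M : ℂ → ℝ} {κ : ZMod 2}

/-- winding numbers on a fine grid -/
theorem count {n : ℤ} {z α : ℂ} (hα : α ≠ 0) (hc : Continuous c) (h : IsWc c z n) {δ : ℝ} {N : ℕ}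
    (hN : 0 < N) (hf : ∀ s t : ℝ, |s - t| ≤ 1 / N → ‖c s - c t‖ < δ)
    (hd : ∀ t, δ ≤ ‖c t - z‖) :
    ∑ j ∈ Finset.range N, eps (α * (c (j / N : ℝ) - z)) (α * (c ((j + 1 : ℕ) / N : ℝ) - z)) =
      ((n : ℤ) : ZMod 2) := by
  obtain ⟨k, hk, hke, e⟩ := h
  have hG : ∀ t, exp (k t + log α) = α * (c t - z) := by
    intro t
    rw [exp_add, hke, exp_log hα]; ring
  have hsum := tele (fun t => k t + log α) hN (fun j hj => by
    have := log_step (g := fun t => c t - z) (l := k) (by fun_prop) hk hke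
      (s := (j / N : ℝ)) (t := ((j + 1 : ℕ) / N : ℝ)) (fun x hx => by
        have h1 := hf _ _ (mid_step hN j hx)
        have h2 := hd (j / N : ℝ)
        simp only [sub_sub_sub_cancel_right]
        linarith)
    simpa using this)
  simp only [hG] at hsum
  rw [hsum]
  have : k 1 + log α = k 0 + log α + n * (2 * Real.pi * I) := by
    linear_combination e
  rw [this, fl_add]
  congr 1
  ring

/-- double counting modulo 2 on a torus -/
theorem double' {N : ℕ} {Hh Vv : ℕ → ℕ → ZMod 2} (hV : ∀ i < N, Vv i 0 = Vv i N)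
    (hH : ∀ j < N, Hh 0 j = Hh N j) {X Y : ℕ → ZMod 2}
    (h : ∀ i < N, ∀ j < N, Hh i j + Hh (i + 1) j + Vv i j + Vv i (j + 1) ≠ 0 → X i = Y j) :
    ∑ i ∈ Finset.range N, X i * (∑ j ∈ Finset.range N, Hh i j +
      ∑ j ∈ Finset.range N, Hh (i + 1) j) =
    ∑ j ∈ Finset.range N, Y j * (∑ i ∈ Finset.range N, Vv i j +
      ∑ i ∈ Finset.range N, Vv i (j + 1)) := by
  have tel : ∀ (f : ℕ → ZMod 2) (n : ℕ), ∑ i ∈ Finset.range n, (f i + f (i + 1)) = f 0 + f n := by
    intro f n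
    induction n with
    | zero => simp [two_zero]
    | succ n ih =>
      rw [Finset.sum_range_succ, ih]
      linear_combination two_zero (f n)
  have e1 : ∀ i ∈ Finset.range N, X i * (∑ j ∈ Finset.range N, Hh i j +
      ∑ j ∈ Finset.range N, Hh (i + 1) j) =
      ∑ j ∈ Finset.range N, X i * (Hh i j + Hh (i + 1) j + Vv i j + Vv i (j + 1)) := by
    intro i hi
    rw [← Finset.mul_sum]
    congr 1
    have := tel (fun j => Vv i j) N
    rw [hV i (Finset.mem_range.1 hi), two_zero] at this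
    rw [← Finset.sum_add_distrib, ← add_zero (∑ j ∈ Finset.range N, _), ← this,
      ← Finset.sum_add_distrib]
    exact Finset.sum_congr rfl fun j _ => by ring
  have e2 : ∀ j ∈ Finset.range N, Y j * (∑ i ∈ Finset.range N, Vv i j +
      ∑ i ∈ Finset.range N, Vv i (j + 1)) =
      ∑ i ∈ Finset.range N, Y j * (Hh i j + Hh (i + 1) j + Vv i j + Vv i (j + 1)) := by
    intro j hj
    rw [← Finset.mul_sum]
    congr 1
    have := tel (fun i => Hh i j) N
    rw [hH j (Finset.mem_range.1 hj), two_zero] at this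
    rw [← Finset.sum_add_distrib, ← add_zero (∑ j ∈ Finset.range N, _), ← this,
      ← Finset.sum_add_distrib]
    exact Finset.sum_congr rfl fun i _ => by ring
  rw [Finset.sum_congr rfl e1, Finset.sum_congr rfl e2, Finset.sum_comm]
  refine Finset.sum_congr rfl fun j hj => Finset.sum_congr rfl fun i hi => ?_
  by_cases hg : Hh i j + Hh (i + 1) j + Vv i j + Vv i (j + 1) = 0
  · rw [hg]; simp
  · rw [h i (Finset.mem_range.1 hi) j (Finset.mem_range.1 hj) hg]

/-- replacing counts by values -/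
theorem oneside {u v : ℝ → ℝ} {N K : ℕ} {η δ : ℝ} (hK : 0 < K) (hKN : 2 * K < N)
    (hη : (K : ℝ) / N = η) {α : ℕ → ZMod 2} {κ : ZMod 2}
    (hα : ∀ i ≤ N, δ ≤ |v (i / N)| → α i = b (0 < v (i / N)) + κ)
    (sep : ∀ x ∈ Icc η (1 - η), δ ≤ |u x| ∨ δ ≤ |v x|) (h1 : δ ≤ |v η|) (h2 : δ ≤ |v (1 - η)|)
    (st : ∀ i : ℕ, |u ((i + 1 : ℕ) / N) - u (i / N)| < δ) :
    ∑ i ∈ Finset.range N, b (K ≤ i ∧ i < N - K ∧ u (i / N) < 0) * (α i + α (i + 1)) =
    ∑ i ∈ Finset.range N, b (K ≤ i ∧ i < N - K ∧ u (i / N) < 0) *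
      (b (0 < v (i / N)) + b (0 < v ((i + 1 : ℕ) / N))) := by
  have hNr : (0:ℝ) < N := by
    have : 0 < N := by omega
    exact_mod_cast this
  have hcut : ((N - K : ℕ) : ℝ) / N = 1 - η := by
    rw [Nat.cast_sub (by omega), sub_div, div_self hNr.ne', hη]
  obtain ⟨n, rfl⟩ : ∃ n, N = n + 1 := ⟨N - 1, by omega⟩
  have PX := parts (n := n)
    (X := fun i => b (K ≤ i ∧ i < n + 1 - K ∧ u (i / (n + 1 : ℕ)) < 0))
    (a := fun i => α i + b (0 < v (i / (n + 1 : ℕ))) + κ)
    (by rw [b_false (fun h => absurd h.1 (by omega)), zero_mul])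
    (by
      intro i hi hi'
      by_cases hy : δ ≤ |v (i / (n + 1 : ℕ))|
      · have := hα i hi'.le hy
        simp only [this]
        have h3 := two_zero (b (0 < v (i / (n + 1 : ℕ))))
        have h4 := two_zero κ
        have : b (0 < v (i / (n + 1 : ℕ))) + κ + b (0 < v (i / (n + 1 : ℕ))) + κ = 0 := by
          linear_combination h3 + h4
        rw [this, mul_zero]
      · push Not at hy
        have hprev : ((i - 1 + 1 : ℕ) : ℝ) = (i : ℝ) := by congr 1; omega
        have hs := st (i - 1)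
        rw [hprev] at hs
        have hXX : b (K ≤ i ∧ i < n + 1 - K ∧ u (i / (n + 1 : ℕ)) < 0) =
            b (K ≤ i - 1 ∧ i - 1 < n + 1 - K ∧ u ((i - 1 : ℕ) / (n + 1 : ℕ)) < 0) := by
          rcases lt_trichotomy i K with hc | hc | hc
          · rw [b_false (fun h => absurd h.1 (by omega)),
              b_false (fun h => absurd h.1 (by omega))]
          · exfalso
            rw [hc, hη] at hy
            linarith
          rcases lt_trichotomy i (n + 1 - K) with hc' | hc' | hc'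
          · have hx : δ ≤ |u (i / (n + 1 : ℕ))| := by
              rcases sep (i / (n + 1 : ℕ)) ⟨by
                rw [← hη]; gcongr, by
                rw [← hcut]; gcongr⟩ with h | h
              · exact h
              · linarith
            refine b_congr ?_
            constructor
            · rintro ⟨-, -, h⟩
              rw [abs_of_neg h] at hx
              exact ⟨by omega, by omega, by linarith [(abs_lt.1 hs).1]⟩
            · rintro ⟨-, -, h⟩
              refine ⟨by omega, hc', ?_⟩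
              by_contra h'
              push Not at h'
              rw [abs_of_nonneg h'] at hx
              linarith [(abs_lt.1 hs).2]
          · exfalso
            rw [hc', hcut] at hy
            linarith
          · rw [b_false (fun h => absurd h.2.1 (by omega)),
              b_false (fun h => absurd h.2.1 (by omega))]
        simp only [hXX, two_zero, zero_mul])
  have rX : (b (K ≤ n ∧ n < n + 1 - K ∧ u (n / (n + 1 : ℕ)) < 0) : ZMod 2) = 0 :=
    b_false (fun h => absurd h.2.1 (by omega))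
  simp only [rX, zero_mul] at PX
  have h2' : ∀ i, b (K ≤ i ∧ i < n + 1 - K ∧ u (i / (n + 1 : ℕ)) < 0) * (α i +
      b (0 < v (i / (n + 1 : ℕ))) + κ + (α (i + 1) + b (0 < v ((i + 1 : ℕ) / (n + 1 : ℕ))) + κ)) =
      b (K ≤ i ∧ i < n + 1 - K ∧ u (i / (n + 1 : ℕ)) < 0) * (α i + α (i + 1)) +
      b (K ≤ i ∧ i < n + 1 - K ∧ u (i / (n + 1 : ℕ)) < 0) *
      (b (0 < v (i / (n + 1 : ℕ))) + b (0 < v ((i + 1 : ℕ) / (n + 1 : ℕ)))) := by
    intro i
    linear_combination b (K ≤ i ∧ i < n + 1 - K ∧ u (i / (n + 1 : ℕ)) < 0) * two_zero κ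
  simp only [h2'] at PX
  rw [Finset.sum_add_distrib] at PX
  have h5 := two_zero (∑ i ∈ Finset.range (n + 1),
    b (K ≤ i ∧ i < n + 1 - K ∧ u (i / (n + 1 : ℕ)) < 0) *
      (b (0 < v (i / (n + 1 : ℕ))) + b (0 < v ((i + 1 : ℕ) / (n + 1 : ℕ)))))
  linear_combination PX - h5

/-- the map whose zeros are the right triangles with apex `c 0` -/
noncomputable def Gc (c : ℝ → ℂ) (x y : ℝ) : ℂ := (c x - c 0) - I * (c y - c 0)

theorem Gc_D (x y : ℝ) : Gc c x y = 1 * (c x - DD c 0 y) := by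
  unfold Gc DD Sq.Dv; ring

theorem Gc_C (L : Loop c) (x y : ℝ) : Gc c x y = -I * (c y - CC c x 1) := by
  have h1 : c 1 = c 0 := by have := L.per 0; rwa [zero_add] at this
  unfold Gc CC Sq.Cv
  rw [h1]
  linear_combination (-c 0 + c x) * I_mul_I

theorem Gc_lip (x y x' y' : ℝ) : ‖Gc c x' y' - Gc c x y‖ ≤ ‖c x' - c x‖ + ‖c y' - c y‖ := by
  have e : Gc c x' y' - Gc c x y = (c x' - c x) - I * (c y' - c y) := by
    unfold Gc; ring
  rw [e]
  have := norm_sub_le (c x' - c x) (I * (c y' - c y))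
  rw [norm_mul, norm_I, one_mul] at this
  linarith

theorem DC (L : Loop c) (x y : ℝ) : DD c x 1 - CC c 0 y = (1 - I) * Gc c x y := by
  have h1 : c 1 = c 0 := by have := L.per 0; rwa [zero_add] at this
  unfold Gc DD CC Sq.Cv Sq.Dv
  rw [h1]
  linear_combination (c 0 - c y) * I_mul_I

theorem norm_one_sub_I : ‖(1 - I : ℂ)‖ ≤ 2 := by
  have := norm_sub_le (1:ℂ) I
  rw [norm_one, norm_I] at this
  linarith

theorem DD_lip (S : Sg c M κ) (x y x' y' : ℝ) :
    |M (DD c x' y') - M (DD c x y)| ≤ 2 * ‖c x' - c x‖ + ‖c y' - c y‖ := by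
  refine (S.lip _ _).trans ?_
  have e : DD c x' y' - DD c x y = (c x' - c x) - I * (c x' - c x) + I * (c y' - c y) := by
    unfold DD Sq.Dv; ring
  rw [e]
  have h1 := norm_add_le ((c x' - c x) - I * (c x' - c x)) (I * (c y' - c y))
  have h2 := norm_sub_le (c x' - c x) (I * (c x' - c x))
  rw [norm_mul, norm_I, one_mul] at h1 h2
  linarith

theorem CC_lip (S : Sg c M κ) (x y x' y' : ℝ) :
    |M (CC c x' y') - M (CC c x y)| ≤ ‖c x' - c x‖ + 2 * ‖c y' - c y‖ := by
  refine (S.lip _ _).trans ?_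
  have e : CC c x' y' - CC c x y = (c y' - c y) + I * (c y' - c y) - I * (c x' - c x) := by
    unfold CC Sq.Cv; ring
  rw [e]
  have h1 := norm_sub_le ((c y' - c y) + I * (c y' - c y)) (I * (c x' - c x))
  have h2 := norm_add_le (c y' - c y) (I * (c y' - c y))
  rw [norm_mul, norm_I, one_mul] at h1 h2
  linarith

/-- regularity of the curve at `c 0`, at the scale given by the parameter `η` -/
structure Loc (c : ℝ → ℂ) (M : ℂ → ℝ) (η : ℝ) : Prop where
  pos : 0 < η
  lt : η < 1 / 2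
  in1 : ∀ x ∈ Icc (-η) 0, 0 < M (DD c x η) ∧ 0 < M (CC c x η)
  in2 : ∀ y ∈ Icc 0 η, 0 < M (DD c (-η) y) ∧ 0 < M (CC c (-η) y)
  out1 : ∀ x ∈ Icc 0 η, M (DD c x (-η)) < 0 ∧ M (CC c x (-η)) < 0
  out2 : ∀ y ∈ Icc (-η) 0, M (DD c η y) < 0 ∧ M (CC c η y) < 0
  T : ∀ x ∈ Icc (-η) η, ∀ y ∈ Icc η (1 - η), c x - c 0 ≠ I * (c y - c 0) ∧
    c y - c 0 ≠ I * (c x - c 0)

theorem cptc (L : Loop c) (S : Sg c M κ) (hz : NZ0 c M) {η : ℝ} (Λ : Loc c M η) :
    ∃ δ > 0, ∀ x ∈ Icc (0:ℝ) 1, ∀ y ∈ Icc (0:ℝ) 1, (x ∈ Icc η (1 - η) ∨ y ∈ Icc η (1 - η)) →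
      ‖Gc c x y‖ < δ → (x ∈ Ioo η (1 - η) ∧ y ∈ Ioo η (1 - η) ∧ δ ≤ |M (CC c 0 y)|) := by
  have hη := Λ.pos
  have hη2 := Λ.lt
  have hMc := S.cont
  have hc := L.cont
  have hcz : Continuous fun p : ℝ × ℝ => M (CC c 0 p.2) :=
    hMc.comp (by unfold CC Sq.Cv; fun_prop)
  set F : ℝ × ℝ → ℝ := fun p => max ‖Gc c p.1 p.2‖ (min (min (p.1 - η) (1 - η - p.1))
    (min (min (p.2 - η) (1 - η - p.2)) |M (CC c 0 p.2)|)) with hF
  have hFc : Continuous F := by
    have h1 : Continuous fun p : ℝ × ℝ => Gc c p.1 p.2 := by unfold Gc; fun_prop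
    exact h1.norm.max (((continuous_fst.sub continuous_const).min
      (continuous_const.sub continuous_fst)).min (((continuous_snd.sub continuous_const).min
      (continuous_const.sub continuous_snd)).min hcz.abs))
  set Z : Set (ℝ × ℝ) := (Icc (0:ℝ) 1 ×ˢ Icc (0:ℝ) 1) ∩ {p | p.1 ∈ Icc η (1 - η) ∨
    p.2 ∈ Icc η (1 - η)} with hZ
  have hZc : IsCompact Z := by
    refine (isCompact_Icc.prod isCompact_Icc).inter_right ?_
    exact (isClosed_Icc.preimage continuous_fst).union (isClosed_Icc.preimage continuous_snd)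
  have hZn : Z.Nonempty := ⟨(η, η), ⟨⟨by linarith, by linarith⟩, ⟨by linarith, by linarith⟩⟩,
    Or.inl ⟨le_rfl, by linarith⟩⟩
  obtain ⟨p, hp, hmin⟩ := hZc.exists_isMinOn hZn hFc.continuousOn
  -- near points of the parameter
  have near : ∀ x ∈ Icc (0:ℝ) 1, x ∉ Ioo η (1 - η) → ∃ x' ∈ Icc (-η) η, c x' = c x := by
    intro x hx hx'
    rcases le_or_gt x η with h | h
    · exact ⟨x, ⟨by linarith [hx.1], h⟩, rfl⟩
    · have h2 : 1 - η ≤ x := by
        by_contra hc
        push Not at hc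
        exact hx' ⟨h, hc⟩
      refine ⟨x - 1, ⟨by linarith, by linarith [hx.2]⟩, ?_⟩
      have := L.per (x - 1)
      rw [sub_add_cancel] at this
      exact this.symm
  have key : 0 < F p := by
    obtain ⟨⟨hp1, hp2⟩, hp3⟩ := hp
    by_contra hle
    push Not at hle
    have g0 : ‖Gc c p.1 p.2‖ ≤ 0 := (le_max_left _ _).trans hle
    have g1 := norm_le_zero_iff.1 g0
    have g2 : c p.1 - c 0 = I * (c p.2 - c 0) := by
      unfold Gc at g1; linear_combination g1
    have hx : p.1 ∈ Ioo η (1 - η) ∧ p.2 ∈ Ioo η (1 - η) := by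
      have A : p.2 ∈ Icc η (1 - η) → p.1 ∈ Ioo η (1 - η) := by
        intro h
        by_contra hn
        obtain ⟨x', hx', e⟩ := near p.1 hp1 hn
        exact (Λ.T x' hx' p.2 h).1 (by rw [e]; exact g2)
      have B : p.1 ∈ Icc η (1 - η) → p.2 ∈ Ioo η (1 - η) := by
        intro h
        by_contra hn
        obtain ⟨x', hx', e⟩ := near p.2 hp2 hn
        exact (Λ.T x' hx' p.1 h).2 (by rw [e]; exact g2)
      rcases hp3 with h | h
      · have h2 := B h
        exact ⟨A ⟨h2.1.le, h2.2.le⟩, h2⟩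
      · have h2 := A h
        exact ⟨h2, B ⟨h2.1.le, h2.2.le⟩⟩
    have g3 : 0 < |M (CC c 0 p.2)| := by
      rw [abs_pos]
      intro h0
      refine (hz p.2 (by linarith [hx.2.1]) (by linarith [hx.2.2])).1 ⟨?_, h0⟩
      rw [S.zero L]
      have := Gc_D (c := c) p.1 p.2
      rw [g1, one_mul] at this
      rw [← sub_eq_zero.1 this.symm]
      exact mem_range_self _
    have g4 := (le_max_right _ _).trans hle
    have : 0 < min (min (p.1 - η) (1 - η - p.1))
        (min (min (p.2 - η) (1 - η - p.2)) |M (CC c 0 p.2)|) :=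
      lt_min (lt_min (by linarith [hx.1.1]) (by linarith [hx.1.2]))
        (lt_min (lt_min (by linarith [hx.2.1]) (by linarith [hx.2.2])) g3)
    linarith
  refine ⟨F p, key, fun x hx y hy hxy hG => ?_⟩
  have h := hmin (show ((x, y) : ℝ × ℝ) ∈ Z from ⟨⟨hx, hy⟩, hxy⟩)
  have h' : F p ≤ F (x, y) := h
  have h2 : F p ≤ min (min (x - η) (1 - η - x)) (min (min (y - η) (1 - η - y))
      |M (CC c 0 y)|) := by
    rcases le_max_iff.1 h' with h3 | h3
    · simp only at h3; linarith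
    · exact h3
  simp only [le_min_iff] at h2
  obtain ⟨⟨a1, a2⟩, ⟨a3, a4⟩, a5⟩ := h2
  exact ⟨⟨by linarith, by linarith⟩, ⟨by linarith, by linarith⟩, a5⟩

theorem sep1 {η : ℝ} (h1 : η < 1 / 2) {u v : ℝ → ℝ} (hu : Continuous u) (hv : Continuous v)
    (h : ∀ x ∈ Icc η (1 - η), ¬ (u x = 0 ∧ v x = 0)) :
    ∃ δ > 0, ∀ x ∈ Icc η (1 - η), δ ≤ |u x| ∨ δ ≤ |v x| := by
  obtain ⟨x, hx, hmin⟩ := isCompact_Icc.exists_isMinOn (nonempty_Icc.2 (show η ≤ 1 - η by linarith))
    (f := fun x => max |u x| |v x|) (by fun_prop)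
  refine ⟨max |u x| |v x|, ?_, fun y hy => le_max_iff.1 (hmin hy)⟩
  by_contra hc
  push Not at hc
  exact h x hx ⟨abs_eq_zero.1 (le_antisymm ((le_max_left _ _).trans hc) (abs_nonneg _)),
    abs_eq_zero.1 (le_antisymm ((le_max_right _ _).trans hc) (abs_nonneg _))⟩

end Pool.Agent.H763R2.An
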