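import Pool.Agent.H763R2.An.B

/-! The degree is odd as soon as the curve is regular at one point. -/

set_option autoImplicit false
open Complex Set Topology Metric

namespace Pool.Agent.H763R2.An

open Sq (Dv Cv Dv_re Dv_im Cv_re Cv_im)
open Dm (b b_true b_false b_congr eps fl fl_add eps_eq cell floor_const two_zero parts sum_floor
  tele mid_step log_step exp_rot NoSq fine_real floor_of neg_iff)

variable {c : ℝ → ℂ} {M : ℂ → ℝ} {κ : ZMod 2}

theorem Loop.fine (L : Loop c) {δ : ℝ} (hδ : 0 < δ) : ∃ N0 : ℕ, 0 < N0 ∧ ∀ N : ℕ, N0 ≤ N →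
    ∀ s t : ℝ, |s - t| ≤ 1 / N → ‖c s - c t‖ < δ := by
  have h := (isCompact_Icc (a := (-1:ℝ)) (b := 2)).uniformContinuousOn_of_continuous
    L.cont.continuousOn
  obtain ⟨d, hd, h1⟩ := Metric.uniformContinuousOn_iff.1 h δ hδ
  obtain ⟨n, hn⟩ := exists_nat_one_div_lt hd
  refine ⟨n + 1, Nat.succ_pos _, fun N hN s t hst => ?_⟩
  have hN' : ((n + 1 : ℕ) : ℝ) ≤ N := by exact_mod_cast hN
  have h2 : (1 : ℝ) / N ≤ 1 / (n + 1) := by
    push_cast at hN'
    exact one_div_le_one_div_of_le (by positivity) hN'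
  have h3 : (1 : ℝ) / (n + 1) ≤ 1 := by
    rw [div_le_one (by positivity)]
    have : (0:ℝ) ≤ n := Nat.cast_nonneg n
    linarith
  have h4 := abs_le.1 hst
  have f0 := Int.fract_nonneg s
  have f1 := Int.fract_lt_one s
  have e1 : c s = c (Int.fract s) := by
    have := L.per_int (Int.fract s) ⌊s⌋
    rwa [Int.fract_add_floor] at this
  have e2 : c t = c (t - ⌊s⌋) := by
    have := L.per_int (t - ⌊s⌋) ⌊s⌋
    rwa [sub_add_cancel] at this
  have e3 : t - ⌊s⌋ = Int.fract s - (s - t) := by unfold Int.fract; ring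
  rw [e1, e2, ← dist_eq_norm]
  refine h1 _ ⟨by linarith, by linarith⟩ _ ⟨?_, ?_⟩ ?_
  · rw [e3]; linarith
  · rw [e3]; linarith
  · rw [Real.dist_eq, e3, sub_sub_cancel]
    linarith

theorem grid (L : Loop c) (S : Sg c M κ) (hz : NZ0 c M) {η : ℝ} (Λ : Loc c M η) :
    ∃ N0 : ℕ, ∀ N K : ℕ, N0 ≤ N → 0 < K → 2 * K < N → (K : ℝ) / N = η →
      ∑ i ∈ Finset.range N, b (K ≤ i ∧ i < N - K ∧ M (DD c (i / N) 1) < 0) *
        (b (0 < M (CC c (i / N) 1)) + b (0 < M (CC c ((i + 1 : ℕ) / N) 1))) =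
      ∑ j ∈ Finset.range N, b (K ≤ j ∧ j < N - K ∧ M (CC c 0 (j / N)) < 0) *
        (b (0 < M (DD c 0 (j / N))) + b (0 < M (DD c 0 ((j + 1 : ℕ) / N)))) := by
  have hη := Λ.pos
  have hη2 := Λ.lt
  have hc1 : c 1 = c 0 := by have := L.per 0; rwa [zero_add] at this
  have hMc := S.cont
  have cD1 : Continuous fun x : ℝ => M (DD c x 1) :=
    hMc.comp (L.DD_cont.comp (by fun_prop : Continuous fun x : ℝ => ((x, 1) : ℝ × ℝ)))
  have cC1 : Continuous fun x : ℝ => M (CC c x 1) :=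
    hMc.comp (L.CC_cont.comp (by fun_prop : Continuous fun x : ℝ => ((x, 1) : ℝ × ℝ)))
  have cD0 : Continuous fun y : ℝ => M (DD c 0 y) :=
    hMc.comp (L.DD_cont.comp (by fun_prop : Continuous fun y : ℝ => ((0, y) : ℝ × ℝ)))
  have cC0 : Continuous fun y : ℝ => M (CC c 0 y) :=
    hMc.comp (L.CC_cont.comp (by fun_prop : Continuous fun y : ℝ => ((0, y) : ℝ × ℝ)))
  obtain ⟨δ1, hδ1, P1⟩ := cptc L S hz Λ
  obtain ⟨δ2, hδ2, P2⟩ := sep1 (η := η) hη2 cD1 cC1 (fun x hx =>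
    (hz x (by linarith [hx.1]) (by linarith [hx.2])).2)
  obtain ⟨δ3, hδ3, P3⟩ := sep1 (η := η) hη2 cC0 cD0 (fun x hx h =>
    (hz x (by linarith [hx.1]) (by linarith [hx.2])).1 ⟨h.2, h.1⟩)
  -- boundary values
  have v1 : 0 < |M (CC c η 1)| := by
    have := (Λ.out2 0 ⟨by linarith, le_rfl⟩).2
    have e : CC c η 1 = CC c η 0 := by unfold CC; rw [hc1]
    rw [e]; exact abs_pos.2 this.ne
  have v2 : 0 < |M (CC c (1 - η) 1)| := by
    have := (Λ.in2 0 ⟨le_rfl, hη.le⟩).2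
    have e : CC c (1 - η) 1 = CC c (-η) 0 := by
      have := L.CC_per (-η) 0
      rw [zero_add, neg_add_eq_sub] at this
      exact this
    rw [e]; exact abs_pos.2 this.ne'
  have v3 : 0 < |M (DD c 0 η)| := abs_pos.2 (Λ.in1 0 ⟨by linarith, le_rfl⟩).1.ne'
  have v4 : 0 < |M (DD c 0 (1 - η))| := by
    have := (Λ.out1 0 ⟨le_rfl, hη.le⟩).1
    have e : DD c 0 (1 - η) = DD c 0 (-η) := by
      unfold DD
      have := L.per (-η)
      rw [neg_add_eq_sub] at this
      rw [this]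
    rw [e]; exact abs_pos.2 this.ne
  obtain ⟨δ, hδ, L1, L2, L3, L4, L5, L6, L7⟩ : ∃ δ > 0, δ ≤ δ1 ∧ δ ≤ δ2 ∧ δ ≤ δ3 ∧
      δ ≤ |M (CC c η 1)| ∧ δ ≤ |M (CC c (1 - η) 1)| ∧ δ ≤ |M (DD c 0 η)| ∧
      δ ≤ |M (DD c 0 (1 - η))| :=
    ⟨min δ1 (min δ2 (min δ3 (min |M (CC c η 1)| (min |M (CC c (1 - η) 1)|
      (min |M (DD c 0 η)| |M (DD c 0 (1 - η))|))))), by positivity, by simp, by simp, by simp,
      by simp, by simp, by simp, by simp⟩
  obtain ⟨N0, hN0, hfine⟩ := L.fine (δ := δ / 16) (by positivity)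
  refine ⟨N0, fun N K hN hK hKN hKh => ?_⟩
  have hf := hfine N hN
  have hN1 : 0 < N := by omega
  have hNr : (0:ℝ) < N := by exact_mod_cast hN1
  have hstep : ∀ i : ℕ, |((i + 1 : ℕ) : ℝ) / N - i / N| ≤ 1 / N := by
    intro i
    have : ((i + 1 : ℕ) : ℝ) / N - i / N = 1 / N := by push_cast; field_simp; ring
    rw [this, abs_of_pos (by positivity)]
  have hmem : ∀ i ≤ N, (i : ℝ) / N ∈ Icc (0:ℝ) 1 := by
    intro i hi
    refine ⟨by positivity, ?_⟩
    rw [div_le_one hNr]; exact_mod_cast hi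
  have c1 : (N : ℝ) / N = 1 := div_self hNr.ne'
  have hcut : ((N - K : ℕ) : ℝ) / N = 1 - η := by
    rw [Nat.cast_sub (by omega), sub_div, c1, hKh]
  have hiffK : ∀ i : ℕ, K < i ↔ η < (i : ℝ) / N := by
    intro i
    rw [← hKh, div_lt_div_iff_of_pos_right hNr, Nat.cast_lt]
  have hiffL : ∀ i : ℕ, i < N - K ↔ (i : ℝ) / N < 1 - η := by
    intro i
    rw [← hcut, div_lt_div_iff_of_pos_right hNr, Nat.cast_lt]
  have hK' : ∀ i : ℕ, K ≤ i → η ≤ (i : ℝ) / N := by
    intro i hi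
    rw [← hKh]; gcongr
  have hL' : ∀ i : ℕ, i < N - K → (i : ℝ) / N ≤ 1 - η := fun i hi => ((hiffL i).1 hi).le
  set Hh : ℕ → ℕ → ZMod 2 := fun i j =>
    eps (Gc c (i / N) (j / N)) (Gc c (i / N) ((j + 1 : ℕ) / N)) with hHh
  set Vv : ℕ → ℕ → ZMod 2 := fun i j =>
    eps (Gc c (i / N) (j / N)) (Gc c ((i + 1 : ℕ) / N) (j / N)) with hVv
  have Gp1 : ∀ y, Gc c 1 y = Gc c 0 y := by intro y; unfold Gc; rw [hc1]
  have Gp2 : ∀ x, Gc c x 1 = Gc c x 0 := by intro x; unfold Gc; rw [hc1]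
  have Dbl := double' (N := N) (Hh := Hh) (Vv := Vv)
    (X := fun i => b (K ≤ i ∧ i < N - K ∧ M (DD c (i / N) 1) < 0))
    (Y := fun j => b (K ≤ j ∧ j < N - K ∧ M (CC c 0 (j / N)) < 0))
    (fun i _ => by simp only [hVv, Nat.cast_zero, zero_div, c1, Gp2])
    (fun j _ => by simp only [hHh, Nat.cast_zero, zero_div, c1, Gp1])
    (fun i hi j hj hg => by
      have hsmall : ‖Gc c (i / N) (j / N)‖ < δ / 2 := by
        by_contra hc
        push Not at hc
        refine hg ?_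
        have s1 := hf _ _ (hstep i)
        have s2 := hf _ _ (hstep j)
        refine cell (δ := δ / 2) hc ?_ ?_ ?_
        · refine (Gc_lip _ _ _ _).trans_lt ?_
          rw [sub_self, norm_zero]
          linarith
        · refine (Gc_lip _ _ _ _).trans_lt ?_
          rw [sub_self, norm_zero]
          linarith
        · refine (Gc_lip _ _ _ _).trans_lt ?_
          linarith
      by_cases hin : (i : ℝ) / N ∈ Icc η (1 - η) ∨ (j : ℝ) / N ∈ Icc η (1 - η)
      · obtain ⟨q1, q2, q3⟩ := P1 _ (hmem i hi.le) _ (hmem j hj.le) hin (by linarith)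
        have k1 : K ≤ i := ((hiffK i).2 q1.1).le
        have k2 : i < N - K := (hiffL i).2 q1.2
        have k3 : K ≤ j := ((hiffK j).2 q2.1).le
        have k4 : j < N - K := (hiffL j).2 q2.2
        have hd := S.lip (DD c (i / N) 1) (CC c 0 (j / N))
        rw [DC L, norm_mul] at hd
        have hd2 : |M (DD c (i / N) 1) - M (CC c 0 (j / N))| < δ := by
          refine hd.trans_lt ?_
          have := mul_le_mul_of_nonneg_right norm_one_sub_I (norm_nonneg (Gc c (i / N) (j / N)))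
          linarith
        refine b_congr ⟨fun h => ⟨k3, k4, ?_⟩, fun h => ⟨k1, k2, ?_⟩⟩
        · by_contra h'
          push Not at h'
          rw [abs_of_nonneg h'] at q3
          linarith [(abs_lt.1 hd2).1, h.2.2]
        · have h' := h.2.2
          rw [abs_of_neg h'] at q3
          linarith [(abs_lt.1 hd2).2]
      · push Not at hin
        rw [b_false (fun h => hin.1 ⟨hK' i h.1, hL' i h.2.1⟩),
          b_false (fun h => hin.2 ⟨hK' j h.1, hL' j h.2.1⟩)])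
  have hlt : ∀ s t : ℝ, |s - t| ≤ 1 / N → ‖c s - c t‖ < δ := fun s t h => by
    linarith [hf s t h]
  have stD1 : ∀ i : ℕ, |M (DD c ((i + 1 : ℕ) / N) 1) - M (DD c (i / N) 1)| < δ := by
    intro i
    refine (DD_lip S _ _ _ _).trans_lt ?_
    rw [sub_self, norm_zero]
    linarith [hf _ _ (hstep i)]
  have stC0 : ∀ i : ℕ, |M (CC c 0 ((i + 1 : ℕ) / N)) - M (CC c 0 (i / N))| < δ := by
    intro i
    refine (CC_lip S _ _ _ _).trans_lt ?_
    rw [sub_self, norm_zero]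
    linarith [hf _ _ (hstep i)]
  have cX : ∀ i ≤ N, δ ≤ |M (CC c (i / N) 1)| →
      ∑ j ∈ Finset.range N, Hh i j = b (0 < M (CC c (i / N) 1)) + κ := by
    intro i hi h
    rw [S.abs] at h
    have hzz : CC c (i / N) 1 ∉ range c :=
      (L.closed.notMem_iff_infDist_pos L.ne).2 (by linarith)
    obtain ⟨n, hn⟩ := L.exW hzz
    rw [← S.par _ hzz n hn, ← count (α := -I) (neg_ne_zero.2 I_ne_zero) L.cont hn hN1 hlt
      (fun t => h.trans (by
        rw [← dist_eq_norm, dist_comm]; exact infDist_le_dist_of_mem (mem_range_self _)))]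
    refine Finset.sum_congr rfl fun j _ => ?_
    rw [hHh]; simp only
    rw [Gc_C L, Gc_C L]
  have cY : ∀ j ≤ N, δ ≤ |M (DD c 0 (j / N))| →
      ∑ i ∈ Finset.range N, Vv i j = b (0 < M (DD c 0 (j / N))) + κ := by
    intro j hj h
    rw [S.abs] at h
    have hzz : DD c 0 (j / N) ∉ range c :=
      (L.closed.notMem_iff_infDist_pos L.ne).2 (by linarith)
    obtain ⟨n, hn⟩ := L.exW hzz
    rw [← S.par _ hzz n hn, ← count (α := 1) one_ne_zero L.cont hn hN1 hlt
      (fun t => h.trans (by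
        rw [← dist_eq_norm, dist_comm]; exact infDist_le_dist_of_mem (mem_range_self _)))]
    refine Finset.sum_congr rfl fun i _ => ?_
    rw [hVv]; simp only
    rw [Gc_D, Gc_D]
  have OX := oneside (u := fun x => M (DD c x 1)) (v := fun x => M (CC c x 1)) hK hKN hKh
    (α := fun i => ∑ j ∈ Finset.range N, Hh i j) cX
    (fun x hx => (P2 x hx).imp (fun h => L2.trans h) (fun h => L2.trans h)) L4 L5 stD1
  have OY := oneside (u := fun y => M (CC c 0 y)) (v := fun y => M (DD c 0 y)) hK hKN hKh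
    (α := fun j => ∑ i ∈ Finset.range N, Vv i j) cY
    (fun x hx => (P3 x hx).imp (fun h => L3.trans h) (fun h => L3.trans h)) L6 L7 stC0
  rw [← OX, ← OY]
  exact Dbl

end Pool.Agent.H763R2.An
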