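import Pool.Agent.H763R2.An.Ev

/-! Comparison of nearby closed curves; generic curves. -/

set_option autoImplicit false
open Complex Set Topology Metric

namespace Pool.Agent.H763R2.An

open Sq (Dv Cv)

variable {c q : ℝ → ℂ} {M : ℂ → ℝ} {κ : ZMod 2} {θ : ℝ → ℝ → ℝ} {g : ℤ}

theorem infDist_close {ε : ℝ} (h : ∀ t, ‖q t - c t‖ ≤ ε) (z : ℂ) :
    infDist z (range q) ≤ infDist z (range c) + ε := by
  refine le_of_forall_pos_le_add fun r hr => ?_
  obtain ⟨w, ⟨t, rfl⟩, hw⟩ := (infDist_lt_iff (range_nonempty c)).1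
    (show infDist z (range c) < infDist z (range c) + r by linarith)
  have h1 := infDist_le_dist_of_mem (x := z) (mem_range_self (f := q) t)
  have h2 := dist_triangle z (c t) (q t)
  rw [dist_comm (c t), dist_eq_norm (q t)] at h2
  linarith [h t]

theorem mgc_close (L : Loop c) (L' : Loop q) {ε : ℝ} (h : ∀ t, ‖q t - c t‖ ≤ ε) (z : ℂ) :
    |mgc q z - mgc c z| ≤ 3 * ε := by
  have hε : 0 ≤ ε := (norm_nonneg _).trans (h 0)
  have hc := L.cont
  have hq := L'.cont
  have i1 := infDist_close h z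
  have i2 := infDist_close (c := q) (q := c) (fun t => by rw [norm_sub_rev]; exact h t) z
  rcases le_or_gt (infDist z (range c)) ε with h1 | h1
  · have a1 : |mgc c z| ≤ ε := by rw [mgc_abs]; exact h1
    have a2 : |mgc q z| ≤ 2 * ε := by rw [mgc_abs]; linarith
    rw [abs_le] at a1 a2 ⊢
    constructor <;> linarith
  · have hne : ∀ s t : ℝ, (c t + (cl s 1 : ℝ) * (q t - c t)) - z ≠ 0 := by
      intro s t h0
      have h2 : infDist z (range c) ≤ ‖z - c t‖ := by
        rw [← dist_eq_norm]; exact infDist_le_dist_of_mem (mem_range_self t)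
      have h3 : z - c t = (cl s 1 : ℝ) * (q t - c t) := by linear_combination -h0
      have h4 : ‖((cl s 1 : ℝ) : ℂ) * (q t - c t)‖ ≤ 1 * ε := by
        rw [norm_mul, norm_real, Real.norm_eq_abs]
        have c0 : 0 ≤ cl s 1 := le_max_left _ _
        have c1 : cl s 1 ≤ 1 := max_le zero_le_one (min_le_left _ _)
        rw [abs_of_nonneg c0]
        exact mul_le_mul c1 (h t) (norm_nonneg _) zero_le_one
      rw [h3] at h2
      linarith
    have hc1 : c 1 = c 0 := by have := L.per 0; rwa [zero_add] at this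
    have hq1 : q 1 = q 0 := by have := L'.per 0; rwa [zero_add] at this
    have c0 : cl 0 1 = 0 := cl_lo zero_le_one le_rfl
    have c1 : cl 1 1 = 1 := cl_hi zero_le_one le_rfl
    have hF : Continuous fun p : ℝ × ℝ => (c p.2 + (cl p.1 1 : ℝ) * (q p.2 - c p.2)) - z := by
      unfold cl; fun_prop
    have hiff : ∀ n, IsWc c z n → IsWc q z n := by
      rintro n ⟨k, hk, ek, e⟩
      obtain ⟨k', hk', ek'⟩ := H777R2.exists_log (X := ℝ) (g := fun t => q t - z)
        (by fun_prop) (fun t => by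
          have := hne 1 t
          rw [c1] at this
          intro h0; apply this
          push_cast; linear_combination h0)
      refine ⟨k', hk', ek', ?_⟩
      rw [← e]
      exact (homW (F := fun s t => (c t + (cl s 1 : ℝ) * (q t - c t)) - z) hF
        (fun s => by simp only [hc1, hq1]) hne hk (fun t => by rw [ek, c0]; push_cast; ring) hk'
        (fun t => by rw [ek', c1]; push_cast; ring)).symm
    have hz : z ∉ range c := by
      intro hz
      rw [L.closed.mem_iff_infDist_zero L.ne] at hz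
      linarith
    obtain ⟨n, hn⟩ := L.exW hz
    have hn' := hiff n hn
    have ho : Odc c z ↔ Odc q z := by
      constructor
      · rintro ⟨m, hm, ho⟩
        exact ⟨m, hiff m hm, ho⟩
      · rintro ⟨m, hm, ho⟩
        rw [hm.unique hn'] at ho
        exact ⟨n, hn, ho⟩
    unfold mgc
    by_cases o : Odc c z
    · rw [if_pos o, if_pos (ho.1 o), abs_le]
      constructor <;> linarith
    · rw [if_neg o, if_neg (fun h => o (ho.2 h)), abs_le]
      constructor <;> linarith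

theorem norm_DD {ε : ℝ} (h : ∀ t, ‖q t - c t‖ ≤ ε) (x y : ℝ) : ‖DD q x y - DD c x y‖ ≤ 3 * ε := by
  have e : DD q x y - DD c x y = (q x - c x) - I * (q x - c x) + I * (q y - c y) := by
    unfold DD Dv; ring
  rw [e]
  have h1 := norm_add_le ((q x - c x) - I * (q x - c x)) (I * (q y - c y))
  have h2 := norm_sub_le (q x - c x) (I * (q x - c x))
  rw [norm_mul, norm_I, one_mul] at h1 h2
  linarith [h x, h y]

theorem norm_CC {ε : ℝ} (h : ∀ t, ‖q t - c t‖ ≤ ε) (x y : ℝ) : ‖CC q x y - CC c x y‖ ≤ 3 * ε := by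
  have e : CC q x y - CC c x y = (q y - c y) + I * (q y - c y) - I * (q x - c x) := by
    unfold CC Cv; ring
  rw [e]
  have h1 := norm_sub_le ((q y - c y) + I * (q y - c y)) (I * (q x - c x))
  have h2 := norm_add_le (q y - c y) (I * (q y - c y))
  rw [norm_mul, norm_I, one_mul] at h1 h2
  linarith [h x, h y]

theorem GG_close (L : Loop c) (L' : Loop q) {ε : ℝ} (h : ∀ t, ‖q t - c t‖ ≤ ε) (x y : ℝ) :
    ‖GG q (mgc q) x y - GG c (mgc c) x y‖ ≤ 12 * ε := by
  have S := mgc_sg L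
  have a1 := mgc_close L L' h (DD q x y)
  have a2 := mgc_close L L' h (CC q x y)
  have b1 := (S.lip (DD q x y) (DD c x y)).trans (norm_DD h x y)
  have b2 := (S.lip (CC q x y) (CC c x y)).trans (norm_CC h x y)
  have e : GG q (mgc q) x y - GG c (mgc c) x y =
      ((mgc q (DD q x y) - mgc c (DD c x y) : ℝ) : ℂ) +
      ((mgc q (CC q x y) - mgc c (CC c x y) : ℝ) : ℂ) * I := by
    unfold GG; push_cast; ring
  rw [e]
  refine (norm_add_le _ _).trans ?_
  rw [norm_mul, norm_I, mul_one, norm_real, norm_real, Real.norm_eq_abs, Real.norm_eq_abs]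
  rw [abs_le] at a1 a2 b1 b2
  have c1 : |mgc q (DD q x y) - mgc c (DD c x y)| ≤ 6 * ε := by
    rw [abs_le]; constructor <;> linarith
  have c2 : |mgc q (CC q x y) - mgc c (CC c x y)| ≤ 6 * ε := by
    rw [abs_le]; constructor <;> linarith
  linarith

/-- far from the diagonal -/
def Kr (ρ : ℝ) (x y : ℝ) : Prop := x + ρ ≤ y ∧ y ≤ x + 1 - ρ

theorem Kr_bound (L : Loop c) (J : Inj c) (S : Sg c M κ) (nosq : Dm.NoSq (range c)) {ρ : ℝ}
    (hρ : 0 < ρ) (hρ2 : ρ < 1 / 2) : ∃ δ > 0, ∀ x y, Kr ρ x y → δ ≤ ‖GG c M x y‖ := by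
  have hG := GG_cont L S.cont
  have hK : IsCompact {p : ℝ × ℝ | (p.1 ∈ Icc (0:ℝ) 1 ∧ p.2 ∈ Icc (0:ℝ) 2) ∧ Kr ρ p.1 p.2} := by
    refine (isCompact_Icc.prod isCompact_Icc).inter_right ?_
    exact (isClosed_le (f := fun p : ℝ × ℝ => p.1 + ρ) (g := fun p : ℝ × ℝ => p.2)
      (by fun_prop) (by fun_prop)).inter (isClosed_le (f := fun p : ℝ × ℝ => p.2)
      (g := fun p : ℝ × ℝ => p.1 + 1 - ρ) (by fun_prop) (by fun_prop))
  obtain ⟨p, hp, hmin⟩ := hK.exists_isMinOn ⟨(0, 1 / 2), ⟨⟨by norm_num, by norm_num⟩,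
    ⟨by norm_num, by norm_num⟩⟩, by simp only; linarith, by simp only; linarith⟩
    (f := fun p => ‖GG c M p.1 p.2‖) hG.norm.continuousOn
  refine ⟨‖GG c M p.1 p.2‖, ?_, fun x y h => ?_⟩
  · refine norm_pos_iff.2 (GG_ne.2 (nz L J S nosq ?_ ?_))
    · have := hp.2.1; linarith
    · have := hp.2.2; linarith
  · have e : GG c M (Int.fract x) (y - ⌊x⌋) = GG c M x y := by
      unfold GG DD CC
      have e1 : c (Int.fract x) = c x := by
        have := L.per_int (Int.fract x) ⌊x⌋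
        rw [Int.fract_add_floor] at this
        exact this.symm
      have e2 : c (y - ⌊x⌋) = c y := by
        have := L.per_int (y - ⌊x⌋) ⌊x⌋
        rw [sub_add_cancel] at this
        exact this.symm
      rw [e1, e2]
    rw [← e]
    have f0 := Int.fract_nonneg x
    have f1 := Int.fract_lt_one x
    have f2 := Int.fract_add_floor x
    obtain ⟨h1, h2⟩ := h
    exact hmin (show ((Int.fract x, y - ⌊x⌋) : ℝ × ℝ) ∈ {p : ℝ × ℝ | (p.1 ∈ Icc (0:ℝ) 1 ∧
      p.2 ∈ Icc (0:ℝ) 2) ∧ Kr ρ p.1 p.2} from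
      ⟨⟨⟨f0, f1.le⟩, by simp only; constructor <;> linarith⟩, by simp only; linarith,
        by simp only; linarith⟩)

/-- simple straight point -/
def Simple (q : ℝ → ℂ) (z : ℂ) : Prop := ∃ (t : ℝ) (e : ℂ) (η : ℝ), e ≠ 0 ∧ 0 < η ∧ q t = z ∧
  Lin q t e η ∧ ∀ t', q t' = z → ∃ n : ℤ, t' = t + n

theorem Simple.odd {z : ℂ} (h : Simple q z) (L : Loop q) (S : Sg q M κ) : OddAt M z := by
  obtain ⟨t, e, η, he, hη, rfl, hl, hf⟩ := h
  exact odd_simple L S he hη hl hf

/-- the zero set -/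
def Zq (q : ℝ → ℂ) : Set (ℝ × ℝ) := {p | p ∈ UU ∧ DD q p.1 p.2 ∈ range q ∧ CC q p.1 p.2 ∈ range q}

/-- generic closed curve -/
structure Gen (q : ℝ → ℂ) : Prop where
  L : Loop q
  sq : ∀ x y, q x ≠ q y → DD q x y ∈ range q → CC q x y ∈ range q →
    Simple q (q x) ∧ Simple q (q y) ∧ Simple q (CC q x y) ∧ Simple q (DD q x y)
  db : ∀ x y, x < y → y < x + 1 → q x = q y → ∃ (e f : ℂ) (η : ℝ), e ≠ 0 ∧ f ≠ 0 ∧
    (e / f).im ≠ 0 ∧ 0 < η ∧ Lin q x e η ∧ Lin q y f η ∧
    ∀ t, q t = q x → (∃ n : ℤ, t = x + n) ∨ ∃ n : ℤ, t = y + n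
  fin : ∀ R : ℝ, (Zq q ∩ {p | |p.1| ≤ R}).Finite
  lin : ∃ a b, a < b ∧ ∀ t ∈ Ioo a b, ∃ (e : ℂ) (η : ℝ), e ≠ 0 ∧ 0 < η ∧ Lin q t e η

end Pool.Agent.H763R2.An
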