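import Pool.Agent.H763R2.An.Fi

/-! Rotation of the vertices: the zeros separated by a point are even in number. -/

set_option autoImplicit false
open Complex Set Topology Metric

namespace Pool.Agent.H763R2.An

open Sq (Dv Cv)

variable {q : ℝ → ℂ} {M : ℂ → ℝ} {κ : ZMod 2}

/-- inscribed squares by the parameters of two vertices -/
structure SqP (q : ℝ → ℂ) (a b : ℝ) : Prop where
  ha : a ∈ Ico (0:ℝ) 1
  hb : b ∈ Ico (0:ℝ) 1
  ne : q a ≠ q b
  hC : CC q a b ∈ range q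
  hD : DD q a b ∈ range q

theorem SqP.toZ {a b : ℝ} (h : SqP q a b) (L : Loop q) :
    (a < b → (a, b) ∈ Zq q) ∧ (b < a → (a, b + 1) ∈ Zq q) ∧ a ≠ b := by
  refine ⟨fun hab => ⟨⟨hab, by simp only; linarith [h.ha.1, h.hb.2]⟩, h.hD, h.hC⟩,
    fun hab => ⟨⟨by simp only; linarith [h.ha.2, h.hb.1], by simp only; linarith⟩, ?_, ?_⟩,
    fun hab => h.ne (by rw [hab])⟩
  · have : DD q a (b + 1) = DD q a b := by unfold DD; rw [L.per]
    simp only; rw [this]; exact h.hD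
  · have : CC q a (b + 1) = CC q a b := by unfold CC; rw [L.per]
    simp only; rw [this]; exact h.hC

theorem SqP.adj {a b ρ : ℝ} (h : SqP q a b) (L : Loop q) (hK : ∀ x y, Kr ρ x y → (x, y) ∉ Zq q) :
    |a - b| < ρ ∨ 1 - ρ < |a - b| := by
  obtain ⟨h1, h2, h3⟩ := h.toZ L
  rcases lt_or_gt_of_ne h3 with hab | hab
  · rw [abs_sub_comm, abs_of_pos (by linarith)]
    by_contra hc
    push Not at hc
    exact hK a b ⟨by linarith [hc.1], by linarith [hc.2]⟩ (h1 hab)
  · rw [abs_of_pos (by linarith)]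
    by_contra hc
    push Not at hc
    exact hK a (b + 1) ⟨by linarith [hc.2], by linarith [hc.1]⟩ (h2 hab)

/-- the rotated square -/
theorem SqP.rot {a b : ℝ} (h : SqP q a b) (L : Loop q) : SqP q b (pr q (CC q a b)) := by
  obtain ⟨h1, h2⟩ := pr_spec L h.hC
  exact ⟨h.hb, h1, rot_ne h.ne h2, by rw [rot_CC h2]; exact h.hD,
    by rw [rot_DD h2]; exact mem_range_self a⟩

theorem SqP.tor {a b : ℝ} (h : SqP q a b) (L : Loop q) : SqP q (pr q (DD q a b)) a := by
  obtain ⟨h1, h2⟩ := pr_spec L h.hD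
  exact ⟨h1, h.ha, tor_ne h.ne h2, by rw [tor_CC h2]; exact mem_range_self b,
    by rw [tor_DD h2]; exact h.hC⟩

/-- near zero modulo one -/
def Ner (r t : ℝ) : Prop := t < r ∨ 1 - r < t

theorem Ner.step {r ρ a b : ℝ} (h : Ner r a) (ha : a ∈ Ico (0:ℝ) 1) (hb : b ∈ Ico (0:ℝ) 1)
    (hr : 0 ≤ r) (hadj : |a - b| < ρ ∨ 1 - ρ < |a - b|) : Ner (r + ρ) b := by
  unfold Ner at *
  obtain ⟨a0, a1⟩ := ha
  obtain ⟨b0, b1⟩ := hb
  rcases hadj with g | g
  · rw [abs_lt] at g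
    rcases h with h | h
    · left; linarith [g.1]
    · right; linarith [g.2]
  · rcases lt_abs.1 g with g | g
    · rcases h with h | h
      · left; linarith
      · left; linarith
    · rcases h with h | h
      · right; linarith
      · right; linarith

/-- points near the base point -/
def Np (q : ℝ → ℂ) : Set ℂ := {z | ∃ t ∈ Ico (0:ℝ) 1, Ner (1 / 4) t ∧ q t = z}

/-- squares near the base point -/
structure Nr (q : ℝ → ℂ) (p : ℝ × ℝ) : Prop where
  s : SqP q p.1 p.2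
  n0 : q p.1 ∈ Np q
  n1 : q p.2 ∈ Np q
  n2 : CC q p.1 p.2 ∈ Np q
  n3 : DD q p.1 p.2 ∈ Np q

theorem Nr_fin (hG : Gen q) : {p | Nr q p}.Finite := by
  refine ((hG.fin 3).image (fun z : ℝ × ℝ => (z.1, Int.fract z.2))).subset ?_
  rintro ⟨a, b⟩ h
  obtain ⟨h1, h2, h3⟩ := h.s.toZ hG.L
  have ha := h.s.ha
  have hb := h.s.hb
  simp only at h1 h2 h3 ha hb
  have haa : |a| ≤ 3 := by rw [abs_le]; constructor <;> linarith [ha.1, ha.2]
  have fb : Int.fract b = b := Int.fract_eq_self.2 hb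
  rcases lt_or_gt_of_ne h3 with hab | hab
  · exact ⟨(a, b), ⟨h1 hab, haa⟩, by simp [fb]⟩
  · exact ⟨(a, b + 1), ⟨h2 hab, haa⟩, by simp [fb]⟩

theorem Nr_near (hG : Gen q) {p : ℝ × ℝ} (h : Nr q p) : Ner (1 / 4) p.1 ∧ Ner (1 / 4) p.2 := by
  obtain ⟨s1, s2, -, -⟩ := hG.sq _ _ h.s.ne h.s.hD h.s.hC
  obtain ⟨t, ht, ht', e⟩ := h.n0
  obtain ⟨u, hu, hu', e'⟩ := h.n1
  have f1 := pr_eq hG.L s1 ht e
  have f2 := pr_eq hG.L s1 h.s.ha rfl
  have f3 := pr_eq hG.L s2 hu e'
  have f4 := pr_eq hG.L s2 h.s.hb rfl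
  rw [← f2, f1, ← f4, f3]
  exact ⟨ht', hu'⟩

open Classical in
theorem Nr_card (hG : Gen q) :
    ((Nr_fin hG).toFinset.filter (fun p => p.1 < 1 / 2 ∧ ¬ p.2 < 1 / 2)).card =
    ((Nr_fin hG).toFinset.filter (fun p => ¬ p.1 < 1 / 2 ∧ p.2 < 1 / 2)).card := by
  set T := (Nr_fin hG).toFinset with hT
  have hmT : ∀ p, p ∈ T ↔ Nr q p := fun p => by rw [hT]; simp
  have hL := hG.L
  have key : (T.filter (fun p => p.2 < 1 / 2)).card = (T.filter (fun p => p.1 < 1 / 2)).card := by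
    refine Finset.card_nbij' (fun p => (p.2, pr q (CC q p.1 p.2)))
      (fun p => (pr q (DD q p.1 p.2), p.1)) ?_ ?_ ?_ ?_
    · intro p hp
      simp only [Finset.coe_filter, mem_ofPred_eq, hmT] at hp ⊢
      obtain ⟨h, hp2⟩ := hp
      obtain ⟨h1, h2⟩ := pr_spec hL h.s.hC
      refine ⟨⟨h.s.rot hL, h.n1, by simp only; rw [h2]; exact h.n2, by
        simp only; rw [rot_CC h2]; exact h.n3, by simp only; rw [rot_DD h2]; exact h.n0⟩, hp2⟩
    · intro p hp
      simp only [Finset.coe_filter, mem_ofPred_eq, hmT] at hp ⊢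
      obtain ⟨h, hp2⟩ := hp
      obtain ⟨h1, h2⟩ := pr_spec hL h.s.hD
      refine ⟨⟨h.s.tor hL, by simp only; rw [h2]; exact h.n3, h.n0, by
        simp only; rw [tor_CC h2]; exact h.n1, by simp only; rw [tor_DD h2]; exact h.n2⟩, hp2⟩
    · intro p hp
      simp only [Finset.coe_filter, mem_ofPred_eq, hmT] at hp
      obtain ⟨h, hp2⟩ := hp
      obtain ⟨s1, s2, -, -⟩ := hG.sq _ _ h.s.ne h.s.hD h.s.hC
      obtain ⟨h1, h2⟩ := pr_spec hL h.s.hC
      simp only
      rw [rot_DD h2, pr_eq hL s1 h.s.ha rfl]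
    · intro p hp
      simp only [Finset.coe_filter, mem_ofPred_eq, hmT] at hp
      obtain ⟨h, hp2⟩ := hp
      obtain ⟨s1, s2, -, -⟩ := hG.sq _ _ h.s.ne h.s.hD h.s.hC
      obtain ⟨h1, h2⟩ := pr_spec hL h.s.hD
      simp only
      rw [tor_CC h2, pr_eq hL s2 h.s.hb rfl]
  have e1 := Finset.card_filter_add_card_filter_not (s := T.filter (fun p => p.1 < 1 / 2))
    (fun p => p.2 < 1 / 2)
  have e2 := Finset.card_filter_add_card_filter_not (s := T.filter (fun p => p.2 < 1 / 2))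
    (fun p => p.1 < 1 / 2)
  rw [Finset.filter_filter, Finset.filter_filter] at e1 e2
  have e3 : T.filter (fun p => p.2 < 1 / 2 ∧ p.1 < 1 / 2) =
      T.filter (fun p => p.1 < 1 / 2 ∧ p.2 < 1 / 2) := by
    ext p; simp only [Finset.mem_filter]; tauto
  have e4 : T.filter (fun p => p.2 < 1 / 2 ∧ ¬ p.1 < 1 / 2) =
      T.filter (fun p => ¬ p.1 < 1 / 2 ∧ p.2 < 1 / 2) := by
    ext p; simp only [Finset.mem_filter]; tauto
  rw [e3, e4] at e2
  omega

open Classical in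
theorem io_sum (Z : Finset (ℝ × ℝ)) : ∑ z ∈ Z, io q z =
    ((Z.filter (fun z => q z.1 ≠ q z.2)).card : ZMod 2) := by
  have : ∀ z ∈ Z, io q z = if q z.1 ≠ q z.2 then 1 else 0 := by
    intro z _
    unfold io
    by_cases h : q z.1 = q z.2
    · rw [if_pos h, if_neg (not_not.2 h)]
    · rw [if_neg h, if_pos h]
  rw [Finset.sum_congr rfl this, Finset.sum_boole]

/-- a square whose first two vertices have parameters near zero is near -/
theorem Nr_of (hG : Gen q) {ρ : ℝ} (hρ0 : 0 < ρ) (hρ : ρ ≤ 1 / 8)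
    (hK : ∀ x y, Kr ρ x y → (x, y) ∉ Zq q) {a b : ℝ} (h : SqP q a b) (ha : Ner ρ a)
    (hb : Ner ρ b) : Nr q (a, b) := by
  have hL := hG.L
  have mono : ∀ {r t : ℝ}, r ≤ 1 / 4 → Ner r t → Ner (1 / 4) t := by
    intro r t hr h
    rcases h with h | h
    · exact Or.inl (by linarith)
    · exact Or.inr (by linarith)
  obtain ⟨h1, h2⟩ := pr_spec hL h.hC
  obtain ⟨h3, h4⟩ := pr_spec hL h.hD
  have r1 := (h.rot hL).adj hL hK
  have r2 := (h.tor hL).adj hL hK
  rw [abs_sub_comm] at r2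
  exact ⟨h, ⟨a, h.ha, mono (by linarith) ha, rfl⟩, ⟨b, h.hb, mono (by linarith) hb, rfl⟩,
    ⟨_, h1, mono (by linarith) (hb.step h.hb h1 hρ0.le r1), h2⟩,
    ⟨_, h3, mono (by linarith) (ha.step h.ha h3 hρ0.le r2), h4⟩⟩

open Classical in
theorem sums_eq (hG : Gen q) {ρ η : ℝ} (hρ0 : 0 < ρ) (hρ : ρ ≤ 1 / 8) (hη : 0 < η)
    (hK : ∀ x y, Kr ρ x y → (x, y) ∉ Zq q)
    (hm : ∀ x y, (x, y) ∈ Zq q → |x| ≤ 3 → ∀ n : ℤ, η < |x - n| ∧ η < |y - n|) :
    (∑ z ∈ (hG.fin 3).toFinset.filter (InR 0 ρ (1 - ρ) (1 - η)), io q z) =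
    ∑ z ∈ (hG.fin 3).toFinset.filter (InR (1 - ρ) 1 (1 + η) (1 + ρ)), io q z := by
  have hL := hG.L
  rw [io_sum, io_sum]
  congr 1
  have hmZ : ∀ z, z ∈ (hG.fin 3).toFinset ↔ z ∈ Zq q ∧ |z.1| ≤ 3 := fun z => by simp
  have hmT : ∀ p, p ∈ (Nr_fin hG).toFinset ↔ Nr q p := fun p => by simp
  have c1 : (((hG.fin 3).toFinset.filter (InR 0 ρ (1 - ρ) (1 - η))).filter
      (fun z => q z.1 ≠ q z.2)) =
      (Nr_fin hG).toFinset.filter (fun p => p.1 < 1 / 2 ∧ ¬ p.2 < 1 / 2) := by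
    ext ⟨x, y⟩
    simp only [Finset.mem_filter, hmZ, hmT]
    constructor
    · rintro ⟨⟨⟨hz, -⟩, ⟨x0, x1⟩, ⟨y0, y1⟩⟩, hne⟩
      simp only at x0 x1 y0 y1 hne
      have hs : SqP q x y := ⟨⟨x0.le, by linarith⟩, ⟨by linarith, by linarith⟩, hne, hz.2.2,
        hz.2.1⟩
      exact ⟨Nr_of hG hρ0 hρ hK hs (Or.inl x1) (Or.inr y0), by linarith, by linarith⟩
    · rintro ⟨hN, h1, h2⟩
      obtain ⟨n1, n2⟩ := Nr_near hG hN
      simp only at n1 n2
      have hx := hN.s.ha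
      have hy := hN.s.hb
      simp only at hx hy
      have a1 : x < 1 / 4 := by rcases n1 with h | h <;> linarith
      have a2 : 3 / 4 < y := by rcases n2 with h | h <;> linarith
      have hz := (hN.s.toZ hL).1 (by simp only; linarith)
      simp only at hz
      have hxx : |x| ≤ 3 := by rw [abs_le]; constructor <;> linarith [hx.1]
      have hm0 := (hm x y hz hxx 0).1
      have hm1 := (hm x y hz hxx 1).2
      rw [Int.cast_zero, sub_zero, abs_of_nonneg hx.1] at hm0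
      rw [Int.cast_one, abs_sub_comm, abs_of_pos (by linarith [hy.2])] at hm1
      have hadj := hN.s.adj hL hK
      simp only at hadj
      rw [abs_sub_comm, abs_of_pos (by linarith)] at hadj
      have hb : 1 - ρ < y - x := by
        rcases hadj with h | h
        · linarith
        · exact h
      exact ⟨⟨⟨hz, hxx⟩, ⟨by simp only; linarith, by simp only; linarith [hy.2]⟩,
        ⟨by simp only; linarith [hx.1], by simp only; linarith⟩⟩, hN.s.ne⟩
  have c3 : (((hG.fin 3).toFinset.filter (InR (1 - ρ) 1 (1 + η) (1 + ρ))).filter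
      (fun z => q z.1 ≠ q z.2)).card =
      ((Nr_fin hG).toFinset.filter (fun p => ¬ p.1 < 1 / 2 ∧ p.2 < 1 / 2)).card := by
    refine Finset.card_nbij' (fun z => (z.1, z.2 - 1)) (fun p => (p.1, p.2 + 1)) ?_ ?_ ?_ ?_
    · rintro ⟨x, y⟩ hz
      simp only [Finset.coe_filter, mem_ofPred_eq, hmT, hmZ, Finset.mem_filter] at hz ⊢
      obtain ⟨⟨⟨hz, -⟩, ⟨x0, x1⟩, ⟨y0, y1⟩⟩, hne⟩ := hz
      simp only at x0 x1 y0 y1
      have e : q (y - 1) = q y := by have := hL.per (y - 1); rw [sub_add_cancel] at this; exact this.symm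
      have hs : SqP q x (y - 1) := by
        refine ⟨⟨by linarith, x1⟩, ⟨by linarith, by linarith⟩, by rw [e]; exact hne, ?_, ?_⟩
        · have : CC q x (y - 1) = CC q x y := by unfold CC; rw [e]
          rw [this]; exact hz.2.2
        · have : DD q x (y - 1) = DD q x y := by unfold DD; rw [e]
          rw [this]; exact hz.2.1
      exact ⟨Nr_of hG hρ0 hρ hK hs (Or.inr x0) (Or.inl (by linarith)), by linarith, by linarith⟩
    · rintro ⟨a, b⟩ hp
      simp only [Finset.coe_filter, mem_ofPred_eq, hmT, hmZ, Finset.mem_filter] at hp ⊢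
      obtain ⟨hN, h1, h2⟩ := hp
      obtain ⟨n1, n2⟩ := Nr_near hG hN
      simp only at n1 n2
      have hx := hN.s.ha
      have hy := hN.s.hb
      simp only at hx hy
      have a1 : 3 / 4 < a := by rcases n1 with h | h <;> linarith
      have a2 : b < 1 / 4 := by rcases n2 with h | h <;> linarith
      have hz := (hN.s.toZ hL).2.1 (by simp only; linarith)
      simp only at hz
      have hxx : |a| ≤ 3 := by rw [abs_le]; constructor <;> linarith [hx.2]
      have hm1 := (hm a (b + 1) hz hxx 1).2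
      rw [Int.cast_one, add_sub_cancel_right, abs_of_nonneg hy.1] at hm1
      have hadj := hN.s.adj hL hK
      simp only at hadj
      rw [abs_of_pos (by linarith)] at hadj
      have hb : 1 - ρ < a - b := by
        rcases hadj with h | h
        · linarith
        · exact h
      refine ⟨⟨⟨hz, hxx⟩, ⟨by simp only; linarith [hy.1], by simp only; linarith [hx.2]⟩,
        ⟨by simp only; linarith, by simp only; linarith [hx.2]⟩⟩, ?_⟩
      rw [hL.per]; exact hN.s.ne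
    · rintro ⟨x, y⟩ _; simp
    · rintro ⟨x, y⟩ _; simp
  rw [c1, c3]
  exact Nr_card hG

end Pool.Agent.H763R2.An
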