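import Pool.Agent.H763R2.An.C

/-! The degree is odd as soon as the curve is regular at one point: conclusion. -/

set_option autoImplicit false
open Complex Set Topology Metric

namespace Pool.Agent.H763R2.An

open Sq (Dv Cv Dv_re Dv_im Cv_re Cv_im)
open Dm (b b_true b_false b_congr eps fl fl_add eps_eq cell floor_const two_zero parts sum_floor
  tele mid_step log_step exp_rot NoSq fine_real floor_of neg_iff)

variable {c : ℝ → ℂ} {M : ℂ → ℝ} {κ : ZMod 2} {θ : ℝ → ℝ → ℝ} {g : ℤ}

theorem Ang.path (A : Ang c M θ g) {p : ℝ → ℝ × ℝ} (hp : Continuous p) (hU : ∀ t, p t ∈ UU) :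
    Continuous fun t => θ (p t).1 (p t).2 :=
  A.cont.comp_continuous hp hU

theorem Ang.sx (A : Ang c M θ g) {x y : ℝ} (h1 : x < y) (h2 : y < x + 1) :
    (M (DD c x y) < 0 ↔ Real.cos (θ x y) < 0) ∧ (0 < M (DD c x y) ↔ 0 < Real.cos (θ x y)) := by
  obtain ⟨ρ, hρ, e1, -⟩ := A.ex x y h1 h2
  rw [e1]
  exact ⟨neg_iff hρ, mul_pos_iff_of_pos_left hρ⟩

theorem Ang.sy (A : Ang c M θ g) {x y : ℝ} (h1 : x < y) (h2 : y < x + 1) :
    (M (CC c x y) < 0 ↔ Real.sin (θ x y) < 0) ∧ (0 < M (CC c x y) ↔ 0 < Real.sin (θ x y)) := by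
  obtain ⟨ρ, hρ, -, e2⟩ := A.ex x y h1 h2
  rw [e2]
  exact ⟨neg_iff hρ, mul_pos_iff_of_pos_left hρ⟩

theorem fl_mem (x : ℝ) : 0 ≤ x - ⌊x / (2 * Real.pi)⌋ * (2 * Real.pi) ∧
    x - ⌊x / (2 * Real.pi)⌋ * (2 * Real.pi) < 2 * Real.pi := by
  have hπ := Real.pi_pos
  constructor
  · have := Int.floor_le (x / (2 * Real.pi))
    rw [le_div_iff₀ (by positivity)] at this
    linarith
  · have := Int.lt_floor_add_one (x / (2 * Real.pi))
    rw [div_lt_iff₀ (by positivity)] at this
    linarith

theorem quad1 {x : ℝ} (h1 : 0 < Real.cos x) (h2 : 0 < Real.sin x) :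
    0 < x - ⌊x / (2 * Real.pi)⌋ * (2 * Real.pi) ∧
      x - ⌊x / (2 * Real.pi)⌋ * (2 * Real.pi) < Real.pi / 2 := by
  have hπ := Real.pi_pos
  obtain ⟨f0, f1⟩ := fl_mem x
  rw [← Real.cos_sub_int_mul_two_pi x ⌊x / (2 * Real.pi)⌋] at h1
  rw [← Real.sin_sub_int_mul_two_pi x ⌊x / (2 * Real.pi)⌋] at h2
  set y := x - ⌊x / (2 * Real.pi)⌋ * (2 * Real.pi)
  refine ⟨lt_of_le_of_ne f0 (fun h => by rw [← h, Real.sin_zero] at h2; exact lt_irrefl _ h2), ?_⟩
  by_contra hc
  push Not at hc
  have h3 : y ≤ Real.pi := by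
    by_contra h
    push Not at h
    have := Real.sin_nonneg_of_nonneg_of_le_pi (x := y - Real.pi) (by linarith) (by linarith)
    rw [Real.sin_sub_pi] at this
    linarith
  have := Real.cos_nonpos_of_pi_div_two_le_of_le hc (by linarith)
  linarith

theorem quad3 {x : ℝ} (h1 : Real.cos x < 0) (h2 : Real.sin x < 0) :
    Real.pi < x - ⌊x / (2 * Real.pi)⌋ * (2 * Real.pi) ∧
      x - ⌊x / (2 * Real.pi)⌋ * (2 * Real.pi) < 3 * Real.pi / 2 := by
  have hπ := Real.pi_pos
  obtain ⟨f0, f1⟩ := fl_mem x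
  rw [← Real.cos_sub_int_mul_two_pi x ⌊x / (2 * Real.pi)⌋] at h1
  rw [← Real.sin_sub_int_mul_two_pi x ⌊x / (2 * Real.pi)⌋] at h2
  set y := x - ⌊x / (2 * Real.pi)⌋ * (2 * Real.pi)
  constructor
  · by_contra hc
    push Not at hc
    have := Real.sin_nonneg_of_nonneg_of_le_pi f0 hc
    linarith
  · by_contra hc
    push Not at hc
    have := Real.cos_nonneg_of_mem_Icc (x := y - 2 * Real.pi) ⟨by linarith, by linarith⟩
    rw [Real.cos_sub_two_pi] at this
    linarith

theorem cos_neg_half (x : ℝ) : Real.cos (-(Real.pi / 2) - x) = - Real.sin x := by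
  rw [show -(Real.pi / 2) - x = -(x + Real.pi / 2) by ring, Real.cos_neg,
    Real.cos_add_pi_div_two]

theorem sin_neg_half (x : ℝ) : Real.sin (-(Real.pi / 2) - x) = - Real.cos x := by
  rw [show -(Real.pi / 2) - x = -(x + Real.pi / 2) by ring, Real.sin_neg,
    Real.sin_add_pi_div_two]

/-- a truncated sum -/
theorem trunc {f : ℕ → ZMod 2} {K L : ℕ} (h : ∀ i, ¬ (K ≤ i ∧ i < K + L) → f i = 0) :
    ∑ i ∈ Finset.range (K + L + K), f i = ∑ i ∈ Finset.range L, f (K + i) := by
  rw [Finset.sum_range_add, Finset.sum_range_add]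
  rw [Finset.sum_eq_zero (s := Finset.range K) (f := f) (fun i hi => h i (fun h' => by
    have := Finset.mem_range.1 hi; omega))]
  rw [Finset.sum_eq_zero (s := Finset.range K) (f := fun i => f (K + L + i)) (fun i hi =>
    h _ (fun h' => by omega)), zero_add, add_zero]

/-- floor of a side of the count -/
theorem side_sum {φ : ℝ → ℝ} {u v : ℝ → ℝ} {η : ℝ} (hφ : Continuous φ)
    (hu : ∀ t ∈ Icc η (1 - η), u t < 0 ↔ 0 < Real.cos (φ t))
    (hv : ∀ t ∈ Icc η (1 - η), 0 < v t ↔ Real.sin (φ t) < 0) :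
    ∃ N0 : ℕ, ∀ K L : ℕ, N0 ≤ K + L + K → 0 < K → (K : ℝ) / ((K + L + K : ℕ) : ℝ) = η →
      ∑ i ∈ Finset.range (K + L + K), b (K ≤ i ∧ i < K + L + K - K ∧
        u (i / ((K + L + K : ℕ) : ℝ)) < 0) * (b (0 < v (i / ((K + L + K : ℕ) : ℝ))) +
          b (0 < v ((i + 1 : ℕ) / ((K + L + K : ℕ) : ℝ)))) =
      ((⌊φ (1 - η) / (2 * Real.pi)⌋ - ⌊φ η / (2 * Real.pi)⌋ : ℤ) : ZMod 2) := by
  have hπ := Real.pi_pos
  obtain ⟨N1, hN1, f1⟩ := fine_real hφ (δ := Real.pi / 2) (by positivity)
  refine ⟨N1, fun K L hN hK hKh => ?_⟩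
  have hNr : (0:ℝ) < ((K + L + K : ℕ) : ℝ) := by exact_mod_cast (by omega : 0 < K + L + K)
  have hsub : K + L + K - K = K + L := by omega
  have hLh : ((K + L : ℕ) : ℝ) / ((K + L + K : ℕ) : ℝ) = 1 - η := by
    rw [← hKh, eq_sub_iff_add_eq, ← add_div, ← Nat.cast_add, div_self hNr.ne']
  set N : ℝ := ((K + L + K : ℕ) : ℝ) with hNdef
  have hmem : ∀ i ≤ K + L + K, (i : ℝ) / N ∈ Icc (0:ℝ) 1 := by
    intro i hi
    refine ⟨by positivity, ?_⟩
    rw [div_le_one hNr]; exact Nat.cast_le.2 hi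
  have hmem2 : ∀ i ≤ L, ((K + i : ℕ) : ℝ) / N ∈ Icc η (1 - η) := by
    intro i hi
    constructor
    · rw [← hKh]
      gcongr
      exact_mod_cast Nat.le_add_right K i
    · rw [← hLh]
      gcongr
  rw [trunc (fun i hi => by
    rw [hsub, b_false (fun h => hi ⟨h.1, h.2.1⟩), zero_mul])]
  have sf := sum_floor (ψ := fun i => φ ((K + i : ℕ) / N)) (m := L) (fun i hi => by
    have g1 := hmem (K + i) (by omega)
    have g2 := hmem (K + (i + 1)) (by omega)
    have := f1 (K + L + K) hN _ g2 _ g1 (by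
      have e : ((K + (i + 1) : ℕ) : ℝ) / N - ((K + i : ℕ) : ℝ) / N = 1 / N := by
        push_cast; field_simp; ring
      rw [e, abs_of_pos (by positivity)])
    exact this)
  simp only [add_zero, hLh, hKh] at sf
  rw [← sf]
  refine Finset.sum_congr rfl fun k hk => ?_
  have hk' := Finset.mem_range.1 hk
  have m1 := hmem2 k hk'.le
  have m2 := hmem2 (k + 1) hk'
  congr 1
  · refine b_congr ⟨fun h => (hu _ m1).1 h.2.2, fun h => ⟨by omega, by omega, (hu _ m1).2 h⟩⟩
  · congr 1
    · exact b_congr (hv _ m1)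
    · exact b_congr (hv _ m2)

theorem odd_of_loc (L : Loop c) (S : Sg c M κ) (hz : NZ0 c M) (A : Ang c M θ g)
    {m : ℕ} (Λ : Loc c M (1 / m)) : Odd g := by
  have hπ := Real.pi_pos
  set η : ℝ := 1 / m with hηdef
  have hη := Λ.pos
  have hη2 := Λ.lt
  have hm0 : 0 < (m : ℝ) := by
    rw [hηdef] at hη
    exact one_div_pos.1 hη
  have hm3 : 2 < m := by
    rw [hηdef, div_lt_div_iff₀ hm0 (by norm_num)] at hη2
    have : (2:ℝ) < m := by linarith
    exact_mod_cast this
  have hc1 : c 1 = c 0 := by have := L.per 0; rwa [zero_add] at this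
  -- the inner path
  have inn : ⌊θ (1 - η) 1 / (2 * Real.pi)⌋ = ⌊θ 0 η / (2 * Real.pi)⌋ + g := by
    set cl : ℝ → ℝ := fun t => max 0 (min 1 t) with hcl
    have ccl : Continuous cl := by rw [hcl]; fun_prop
    have c0 : ∀ t, 0 ≤ cl t := fun t => le_max_left _ _
    have c1' : ∀ t, cl t ≤ 1 := fun t => max_le zero_le_one (min_le_left _ _)
    have alt : ∀ t, cl (t - 1) = 0 ∨ cl t = 1 := by
      intro t
      rcases le_total t 1 with h | h
      · left; rw [hcl]; simp only; rw [min_eq_right (by linarith), max_eq_left (by linarith)]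
      · right; rw [hcl]; simp only; rw [min_eq_left h, max_eq_right zero_le_one]
    set p : ℝ → ℝ × ℝ := fun t => (1 - η + η * cl (t - 1), 1 + η * cl t) with hp
    have cp : Continuous p := by rw [hp]; fun_prop
    have hU : ∀ t, p t ∈ UU := by
      intro t
      have a1 := c0 t
      have a2 := c1' t
      have a3 := c0 (t - 1)
      have a4 := c1' (t - 1)
      have a5 : η * cl t ≤ η := by nlinarith
      have a6 : 0 ≤ η * cl t := by positivity
      have a7 : η * cl (t - 1) ≤ η := by nlinarith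
      have a8 : 0 ≤ η * cl (t - 1) := by positivity
      refine ⟨?_, ?_⟩
      · simp only [hp]
        rcases alt t with h | h
        · rw [h]; linarith
        · rw [h]; linarith
      · simp only [hp]; linarith
    have hpos : ∀ t, 0 < Real.sin (θ (p t).1 (p t).2) := by
      intro t
      rw [← (A.sy (hU t).1 (hU t).2).2]
      have e1 : CC c (p t).1 (p t).2 = CC c (-η + η * cl (t - 1)) (η * cl t) := by
        rw [← L.CC_per (-η + η * cl (t - 1)) (η * cl t)]; simp only [hp]; congr 1 <;> ring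
      rw [e1]
      have a1 := c0 t
      have a2 := c1' t
      have a3 := c0 (t - 1)
      have a4 := c1' (t - 1)
      rcases alt t with h | h
      · rw [h, mul_zero, add_zero]
        exact (Λ.in2 _ ⟨by positivity, by nlinarith⟩).2
      · rw [h, mul_one]
        have : 0 ≤ η * cl (t - 1) := by positivity
        exact (Λ.in1 _ ⟨by linarith, by nlinarith⟩).2
    have := floor_const (ψ := fun t => θ (p t).1 (p t).2) (A.path cp hU) (fun t h => by
      linarith [hpos t, h.1]) 0 2
    have e0 : p 0 = (1 - η, 1) := by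
      simp only [hp, hcl]; norm_num
    have e2 : p 2 = (0 + 1, η + 1) := by
      simp only [hp, hcl]; norm_num; ring
    rw [e0, e2] at this
    simp only at this
    rw [this, A.per 0 η hη (by linarith), add_div, mul_div_assoc, div_self (by positivity),
      mul_one, Int.floor_add_intCast]
  -- the outer path
  have out : ⌊θ 0 (1 - η) / (2 * Real.pi)⌋ = ⌊θ η 1 / (2 * Real.pi)⌋ := by
    set cl : ℝ → ℝ := fun t => max 0 (min 1 t) with hcl
    have ccl : Continuous cl := by rw [hcl]; fun_prop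
    have c0 : ∀ t, 0 ≤ cl t := fun t => le_max_left _ _
    have c1' : ∀ t, cl t ≤ 1 := fun t => max_le zero_le_one (min_le_left _ _)
    have alt : ∀ t, cl (t - 1) = 0 ∨ cl t = 1 := by
      intro t
      rcases le_total t 1 with h | h
      · left; rw [hcl]; simp only; rw [min_eq_right (by linarith), max_eq_left (by linarith)]
      · right; rw [hcl]; simp only; rw [min_eq_left h, max_eq_right zero_le_one]
    set p : ℝ → ℝ × ℝ := fun t => (η * cl t, 1 - η + η * cl (t - 1)) with hp
    have cp : Continuous p := by rw [hp]; fun_prop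
    have hU : ∀ t, p t ∈ UU := by
      intro t
      have a1 := c0 t
      have a2 := c1' t
      have a3 := c0 (t - 1)
      have a4 := c1' (t - 1)
      have a5 : η * cl t ≤ η := by nlinarith
      have a6 : 0 ≤ η * cl t := by positivity
      have a7 : η * cl (t - 1) ≤ η := by nlinarith
      have a8 : 0 ≤ η * cl (t - 1) := by positivity
      refine ⟨?_, ?_⟩
      · simp only [hp]; linarith
      · simp only [hp]
        rcases alt t with h | h
        · rw [h]; linarith
        · rw [h]; linarith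
    have hneg : ∀ t, Real.cos (θ (p t).1 (p t).2) < 0 := by
      intro t
      rw [← (A.sx (hU t).1 (hU t).2).1]
      have e1 : DD c (p t).1 (p t).2 = DD c (η * cl t) (-η + η * cl (t - 1)) := by
        unfold DD
        simp only [hp]
        rw [← L.per (-η + η * cl (t - 1))]; congr 2; ring
      rw [e1]
      have a1 := c0 t
      have a2 := c1' t
      have a3 := c0 (t - 1)
      have a4 := c1' (t - 1)
      rcases alt t with h | h
      · rw [h, mul_zero, add_zero]
        exact (Λ.out1 _ ⟨by positivity, by nlinarith⟩).1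
      · rw [h, mul_one]
        have : 0 ≤ η * cl (t - 1) := by positivity
        exact (Λ.out2 _ ⟨by linarith, by nlinarith⟩).1
    have := floor_const (ψ := fun t => θ (p t).1 (p t).2) (A.path cp hU) (fun t h => by
      linarith [hneg t, h.2]) 0 2
    have e0 : p 0 = (0, 1 - η) := by
      simp only [hp, hcl]; norm_num
    have e2 : p 2 = (η, 1) := by
      simp only [hp, hcl]; norm_num
    rw [e0, e2] at this
    exact this
  -- the two counts
  set cη : ℝ → ℝ := fun t => max η (min (1 - η) t) with hcη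
  have ccη : Continuous cη := by rw [hcη]; fun_prop
  have cη0 : ∀ t, η ≤ cη t := fun t => le_max_left _ _
  have cη1 : ∀ t, cη t ≤ 1 - η := fun t => max_le (by linarith) (min_le_left _ _)
  have cηe : ∀ t ∈ Icc η (1 - η), cη t = t := by
    intro t ht
    rw [hcη]; simp only; rw [min_eq_right ht.2, max_eq_right ht.1]
  have φ1 : Continuous fun t => -(Real.pi / 2) - θ 0 (cη t) :=
    continuous_const.sub (A.path (p := fun t => (0, cη t)) (by fun_prop) (fun t =>
      ⟨by simp only; linarith [cη0 t], by simp only; linarith [cη1 t]⟩))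
  have φ2 : Continuous fun t => θ (cη t) 1 - Real.pi :=
    (A.path (p := fun t => (cη t, 1)) (by fun_prop) (fun t =>
      ⟨by simp only; linarith [cη1 t], by simp only; linarith [cη0 t]⟩)).sub continuous_const
  obtain ⟨N1, s1⟩ := side_sum (u := fun t => M (CC c 0 t)) (v := fun t => M (DD c 0 t)) (η := η)
    φ1 (fun t ht => by
      rw [cηe t ht, cos_neg_half, neg_pos]
      exact (A.sy (by linarith [ht.1]) (by linarith [ht.2])).1)
    (fun t ht => by
      rw [cηe t ht, sin_neg_half, neg_lt_zero]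
      exact (A.sx (by linarith [ht.1]) (by linarith [ht.2])).2)
  obtain ⟨N2, s2⟩ := side_sum (u := fun t => M (DD c t 1)) (v := fun t => M (CC c t 1)) (η := η)
    φ2 (fun t ht => by
      rw [cηe t ht, Real.cos_sub_pi, neg_pos]
      exact (A.sx (by linarith [ht.2]) (by linarith [ht.1])).1)
    (fun t ht => by
      rw [cηe t ht, Real.sin_sub_pi, neg_lt_zero]
      exact (A.sy (by linarith [ht.2]) (by linarith [ht.1])).2)
  obtain ⟨N3, s3⟩ := grid L S hz Λ
  set K := N1 + N2 + N3 + 1 with hK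
  obtain ⟨m', rfl⟩ : ∃ m', m = m' + 2 := ⟨m - 2, by omega⟩
  have hm' : 0 < m' := by omega
  set Ln := m' * K with hLn
  have hN : K + Ln + K = (m' + 2) * K := by rw [hLn]; ring
  have hKL : N1 + N2 + N3 ≤ K + Ln + K := by omega
  have hKh : (K : ℝ) / ((K + Ln + K : ℕ) : ℝ) = η := by
    rw [hN, hηdef]
    have : (K : ℝ) ≠ 0 := by
      have : 0 < K := by omega
      exact_mod_cast this.ne'
    push_cast at hm0 ⊢
    field_simp
  have hLn0 : 0 < Ln := Nat.mul_pos hm' (by omega)
  have G := s3 (K + Ln + K) K (by omega) (by omega) (by omega) hKh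
  rw [s1 K Ln (by omega) (by omega) hKh, s2 K Ln (by omega) (by omega) hKh] at G
  rw [cηe η ⟨le_rfl, by linarith⟩, cηe (1 - η) ⟨by linarith, le_rfl⟩] at G
  -- quadrants
  have e10 : ∀ x, c (x + 1) = c x := L.per
  have q1 := quad1 (x := θ 0 η) (by
    rw [← (A.sx hη (by linarith)).2]
    exact (Λ.in1 0 ⟨by linarith, le_rfl⟩).1) (by
    rw [← (A.sy hη (by linarith)).2]
    exact (Λ.in1 0 ⟨by linarith, le_rfl⟩).2)
  have hcη' : c (1 - η) = c (-η) := by
    rw [← L.per (-η)]; congr 1; ring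
  have q2 := quad3 (x := θ 0 (1 - η)) (by
    rw [← (A.sx (by linarith) (by linarith)).1]
    have := (Λ.out1 0 ⟨le_rfl, hη.le⟩).1
    unfold DD at this ⊢
    rwa [hcη']) (by
    rw [← (A.sy (by linarith) (by linarith)).1]
    have := (Λ.out1 0 ⟨le_rfl, hη.le⟩).2
    unfold CC at this ⊢
    rwa [hcη'])
  have q3 := quad3 (x := θ η 1) (by
    rw [← (A.sx (by linarith) (by linarith)).1]
    have := (Λ.out2 0 ⟨by linarith, le_rfl⟩).1
    unfold DD at this ⊢
    rwa [hc1]) (by
    rw [← (A.sy (by linarith) (by linarith)).1]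
    have := (Λ.out2 0 ⟨by linarith, le_rfl⟩).2
    unfold CC at this ⊢
    rwa [hc1])
  have q4 := quad1 (x := θ (1 - η) 1) (by
    rw [← (A.sx (by linarith) (by linarith)).2]
    have := (Λ.in2 0 ⟨le_rfl, hη.le⟩).1
    unfold DD at this ⊢
    rwa [hcη', hc1]) (by
    rw [← (A.sy (by linarith) (by linarith)).2]
    have := (Λ.in2 0 ⟨le_rfl, hη.le⟩).2
    unfold CC at this ⊢
    rwa [hcη', hc1])
  rw [inn] at q4
  rw [out] at q2
  set k := ⌊θ 0 η / (2 * Real.pi)⌋
  set n := ⌊θ η 1 / (2 * Real.pi)⌋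
  push_cast at q4
  rw [floor_of (x := θ (1 - η) 1 - Real.pi) (m := k + g - 1) (by push_cast; linarith [q4.1])
      (by push_cast; linarith [q4.2]),
    floor_of (x := θ η 1 - Real.pi) (m := n) (by linarith [q3.1]) (by linarith [q3.2]),
    floor_of (x := -(Real.pi / 2) - θ 0 (1 - η)) (m := -n - 1) (by push_cast; linarith [q2.2])
      (by push_cast; linarith [q2.1]),
    floor_of (x := -(Real.pi / 2) - θ 0 η) (m := -k - 1) (by push_cast; linarith [q1.2])
      (by push_cast; linarith [q1.1])] at G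
  by_contra hodd
  rw [Int.not_odd_iff_even] at hodd
  obtain ⟨r, rfl⟩ := hodd
  push_cast at G
  have h1 := two_zero ((k : ℤ) : ZMod 2)
  have h2 := two_zero ((n : ℤ) : ZMod 2)
  have h3 := two_zero ((r : ℤ) : ZMod 2)
  have : (1 : ZMod 2) = 0 := by linear_combination -G + h3
  exact absurd this (by decide)

end Pool.Agent.H763R2.An
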