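import Pool.Agent.H763R2.An.Wd

/-! The apex count along the staircase path. -/

set_option autoImplicit false
open Complex Set Topology Metric

namespace Pool.Agent.H763R2.An

open Sq (Dv Cv Dv_re Dv_im Cv_re Cv_im)
open Dm (b b_true b_false b_congr eps fl fl_add eps_eq cell floor_const two_zero parts sum_floor
  tele mid_step log_step exp_rot NoSq fine_real floor_of neg_iff)

variable {c : ℝ → ℂ} {M : ℂ → ℝ} {κ : ZMod 2} {θ : ℝ → ℝ → ℝ} {g : ℤ}

/-- the staircase from `(0, η)` to `(1, 1 + η)` -/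
def Stc (η : ℝ) (p : ℝ × ℝ) : Prop :=
  (p.1 = 0 ∧ p.2 ∈ Icc η (1 - η)) ∨ (p.2 = 1 - η ∧ p.1 ∈ Icc 0 η) ∨
  (p.1 = η ∧ p.2 ∈ Icc (1 - η) 1) ∨ (p.2 = 1 ∧ p.1 ∈ Icc η (1 - η)) ∨
  (p.1 = 1 - η ∧ p.2 ∈ Icc 1 (1 + η)) ∨ (p.2 = 1 + η ∧ p.1 ∈ Icc (1 - η) 1)

/-- an angle along the staircase -/
structure AngS (c : ℝ → ℂ) (M : ℂ → ℝ) (η : ℝ) (θ : ℝ → ℝ → ℝ) (g : ℤ) : Prop where
  cont : Continuous (fun p : ℝ × ℝ => θ p.1 p.2)
  ex : ∀ x y, Stc η (x, y) → ∃ ρ > 0, M (DD c x y) = ρ * Real.cos (θ x y) ∧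
    M (CC c x y) = ρ * Real.sin (θ x y)
  per : θ 1 (η + 1) = θ 0 η + g * (2 * Real.pi)

theorem AngS.path {η : ℝ} (A : AngS c M η θ g) {p : ℝ → ℝ × ℝ} (hp : Continuous p) :
    Continuous fun t => θ (p t).1 (p t).2 :=
  A.cont.comp hp

theorem AngS.sx {η : ℝ} (A : AngS c M η θ g) {x y : ℝ} (h : Stc η (x, y)) :
    (M (DD c x y) < 0 ↔ Real.cos (θ x y) < 0) ∧ (0 < M (DD c x y) ↔ 0 < Real.cos (θ x y)) := by
  obtain ⟨ρ, hρ, e1, -⟩ := A.ex x y h
  rw [e1]
  exact ⟨neg_iff hρ, mul_pos_iff_of_pos_left hρ⟩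

theorem AngS.sy {η : ℝ} (A : AngS c M η θ g) {x y : ℝ} (h : Stc η (x, y)) :
    (M (CC c x y) < 0 ↔ Real.sin (θ x y) < 0) ∧ (0 < M (CC c x y) ↔ 0 < Real.sin (θ x y)) := by
  obtain ⟨ρ, hρ, -, e2⟩ := A.ex x y h
  rw [e2]
  exact ⟨neg_iff hρ, mul_pos_iff_of_pos_left hρ⟩

theorem odd_of_locS (L : Loop c) (S : Sg c M κ) (hz : NZ0 c M) {m : ℕ}
    (A : AngS c M (1 / m) θ g) (Λ : Loc c M (1 / m)) : Odd g := by
  have hπ := Real.pi_pos
  set η : ℝ := 1 / m with hηdef
  have hη := Λ.pos
  have hη2 := Λ.lt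
  have hm0 : 0 < (m : ℝ) := by
    rw [hηdef] at hη
    exact one_div_pos.1 hη
  have hm3 : 2 < m := by
    rw [hηdef, div_lt_div_iff₀ hm0 (by norm_num)] at hη2
    have : (2:ℝ) < m := by linarith
    exact_mod_cast this
  have hc1 : c 1 = c 0 := by have := L.per 0; rwa [zero_add] at this
  -- the inner path
  have inn : ⌊θ (1 - η) 1 / (2 * Real.pi)⌋ = ⌊θ 0 η / (2 * Real.pi)⌋ + g := by
    set cl : ℝ → ℝ := fun t => max 0 (min 1 t) with hcl
    have ccl : Continuous cl := by rw [hcl]; fun_prop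
    have c0 : ∀ t, 0 ≤ cl t := fun t => le_max_left _ _
    have c1' : ∀ t, cl t ≤ 1 := fun t => max_le zero_le_one (min_le_left _ _)
    have alt : ∀ t, cl (t - 1) = 0 ∨ cl t = 1 := by
      intro t
      rcases le_total t 1 with h | h
      · left; rw [hcl]; simp only; rw [min_eq_right (by linarith), max_eq_left (by linarith)]
      · right; rw [hcl]; simp only; rw [min_eq_left h, max_eq_right zero_le_one]
    set p : ℝ → ℝ × ℝ := fun t => (1 - η + η * cl (t - 1), 1 + η * cl t) with hp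
    have cp : Continuous p := by rw [hp]; fun_prop
    have hU : ∀ t, Stc η (p t) := by
      intro t
      have a1 := c0 t
      have a2 := c1' t
      have a3 := c0 (t - 1)
      have a4 := c1' (t - 1)
      have a5 : η * cl t ≤ η := by nlinarith
      have a6 : 0 ≤ η * cl t := by positivity
      have a7 : η * cl (t - 1) ≤ η := by nlinarith
      have a8 : 0 ≤ η * cl (t - 1) := by positivity
      rcases alt t with h | h
      · refine Or.inr (Or.inr (Or.inr (Or.inr (Or.inl ⟨?_, ?_, ?_⟩))))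
        · simp only [hp]; rw [h]; ring
        · simp only [hp]; linarith
        · simp only [hp]; linarith
      · refine Or.inr (Or.inr (Or.inr (Or.inr (Or.inr ⟨?_, ?_, ?_⟩))))
        · simp only [hp]; rw [h]; ring
        · simp only [hp]; linarith
        · simp only [hp]; linarith
    have hpos : ∀ t, 0 < Real.sin (θ (p t).1 (p t).2) := by
      intro t
      rw [← (A.sy (hU t)).2]
      have e1 : CC c (p t).1 (p t).2 = CC c (-η + η * cl (t - 1)) (η * cl t) := by
        rw [← L.CC_per (-η + η * cl (t - 1)) (η * cl t)]; simp only [hp]; congr 1 <;> ring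
      rw [e1]
      have a1 := c0 t
      have a2 := c1' t
      have a3 := c0 (t - 1)
      have a4 := c1' (t - 1)
      rcases alt t with h | h
      · rw [h, mul_zero, add_zero]
        exact (Λ.in2 _ ⟨by positivity, by nlinarith⟩).2
      · rw [h, mul_one]
        have : 0 ≤ η * cl (t - 1) := by positivity
        exact (Λ.in1 _ ⟨by linarith, by nlinarith⟩).2
    have := floor_const (ψ := fun t => θ (p t).1 (p t).2) (A.path cp) (fun t h => by
      linarith [hpos t, h.1]) 0 2
    have e0 : p 0 = (1 - η, 1) := by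
      simp only [hp, hcl]; norm_num
    have e2 : p 2 = (0 + 1, η + 1) := by
      simp only [hp, hcl]; norm_num; ring
    rw [e0, e2] at this
    simp only at this
    rw [zero_add] at this
    rw [this, A.per, add_div, mul_div_assoc, div_self (by positivity),
      mul_one, Int.floor_add_intCast]
  -- the outer path
  have out : ⌊θ 0 (1 - η) / (2 * Real.pi)⌋ = ⌊θ η 1 / (2 * Real.pi)⌋ := by
    set cl : ℝ → ℝ := fun t => max 0 (min 1 t) with hcl
    have ccl : Continuous cl := by rw [hcl]; fun_prop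
    have c0 : ∀ t, 0 ≤ cl t := fun t => le_max_left _ _
    have c1' : ∀ t, cl t ≤ 1 := fun t => max_le zero_le_one (min_le_left _ _)
    have alt : ∀ t, cl (t - 1) = 0 ∨ cl t = 1 := by
      intro t
      rcases le_total t 1 with h | h
      · left; rw [hcl]; simp only; rw [min_eq_right (by linarith), max_eq_left (by linarith)]
      · right; rw [hcl]; simp only; rw [min_eq_left h, max_eq_right zero_le_one]
    set p : ℝ → ℝ × ℝ := fun t => (η * cl t, 1 - η + η * cl (t - 1)) with hp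
    have cp : Continuous p := by rw [hp]; fun_prop
    have hU : ∀ t, Stc η (p t) := by
      intro t
      have a1 := c0 t
      have a2 := c1' t
      have a3 := c0 (t - 1)
      have a4 := c1' (t - 1)
      have a5 : η * cl t ≤ η := by nlinarith
      have a6 : 0 ≤ η * cl t := by positivity
      have a7 : η * cl (t - 1) ≤ η := by nlinarith
      have a8 : 0 ≤ η * cl (t - 1) := by positivity
      rcases alt t with h | h
      · refine Or.inr (Or.inl ⟨?_, ?_, ?_⟩)
        · simp only [hp]; rw [h]; ring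
        · simp only [hp]; linarith
        · simp only [hp]; linarith
      · refine Or.inr (Or.inr (Or.inl ⟨?_, ?_, ?_⟩))
        · simp only [hp]; rw [h]; ring
        · simp only [hp]; linarith
        · simp only [hp]; linarith
    have hneg : ∀ t, Real.cos (θ (p t).1 (p t).2) < 0 := by
      intro t
      rw [← (A.sx (hU t)).1]
      have e1 : DD c (p t).1 (p t).2 = DD c (η * cl t) (-η + η * cl (t - 1)) := by
        unfold DD
        simp only [hp]
        rw [← L.per (-η + η * cl (t - 1))]; congr 2; ring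
      rw [e1]
      have a1 := c0 t
      have a2 := c1' t
      have a3 := c0 (t - 1)
      have a4 := c1' (t - 1)
      rcases alt t with h | h
      · rw [h, mul_zero, add_zero]
        exact (Λ.out1 _ ⟨by positivity, by nlinarith⟩).1
      · rw [h, mul_one]
        have : 0 ≤ η * cl (t - 1) := by positivity
        exact (Λ.out2 _ ⟨by linarith, by nlinarith⟩).1
    have := floor_const (ψ := fun t => θ (p t).1 (p t).2) (A.path cp) (fun t h => by
      linarith [hneg t, h.2]) 0 2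
    have e0 : p 0 = (0, 1 - η) := by
      simp only [hp, hcl]; norm_num
    have e2 : p 2 = (η, 1) := by
      simp only [hp, hcl]; norm_num
    rw [e0, e2] at this
    exact this
  have st0 : ∀ t ∈ Icc η (1 - η), Stc η (0, t) := fun t ht => Or.inl ⟨rfl, ht⟩
  have st1 : ∀ t ∈ Icc η (1 - η), Stc η (t, 1) := fun t ht =>
    Or.inr (Or.inr (Or.inr (Or.inl ⟨rfl, ht⟩)))
  -- the two counts
  set cη : ℝ → ℝ := fun t => max η (min (1 - η) t) with hcη
  have ccη : Continuous cη := by rw [hcη]; fun_prop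
  have cη0 : ∀ t, η ≤ cη t := fun t => le_max_left _ _
  have cη1 : ∀ t, cη t ≤ 1 - η := fun t => max_le (by linarith) (min_le_left _ _)
  have cηe : ∀ t ∈ Icc η (1 - η), cη t = t := by
    intro t ht
    rw [hcη]; simp only; rw [min_eq_right ht.2, max_eq_right ht.1]
  have φ1 : Continuous fun t => -(Real.pi / 2) - θ 0 (cη t) :=
    continuous_const.sub (A.path (p := fun t => (0, cη t)) (by fun_prop))
  have φ2 : Continuous fun t => θ (cη t) 1 - Real.pi :=
    (A.path (p := fun t => (cη t, 1)) (by fun_prop)).sub continuous_const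
  obtain ⟨N1, s1⟩ := side_sum (u := fun t => M (CC c 0 t)) (v := fun t => M (DD c 0 t)) (η := η)
    φ1 (fun t ht => by
      rw [cηe t ht, cos_neg_half, neg_pos]
      exact (A.sy (st0 t ht)).1)
    (fun t ht => by
      rw [cηe t ht, sin_neg_half, neg_lt_zero]
      exact (A.sx (st0 t ht)).2)
  obtain ⟨N2, s2⟩ := side_sum (u := fun t => M (DD c t 1)) (v := fun t => M (CC c t 1)) (η := η)
    φ2 (fun t ht => by
      rw [cηe t ht, Real.cos_sub_pi, neg_pos]
      exact (A.sx (st1 t ht)).1)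
    (fun t ht => by
      rw [cηe t ht, Real.sin_sub_pi, neg_lt_zero]
      exact (A.sy (st1 t ht)).2)
  obtain ⟨N3, s3⟩ := grid L S hz Λ
  set K := N1 + N2 + N3 + 1 with hK
  obtain ⟨m', rfl⟩ : ∃ m', m = m' + 2 := ⟨m - 2, by omega⟩
  have hm' : 0 < m' := by omega
  set Ln := m' * K with hLn
  have hN : K + Ln + K = (m' + 2) * K := by rw [hLn]; ring
  have hKL : N1 + N2 + N3 ≤ K + Ln + K := by omega
  have hKh : (K : ℝ) / ((K + Ln + K : ℕ) : ℝ) = η := by
    rw [hN, hηdef]
    have : (K : ℝ) ≠ 0 := by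
      have : 0 < K := by omega
      exact_mod_cast this.ne'
    push_cast at hm0 ⊢
    field_simp
  have hLn0 : 0 < Ln := Nat.mul_pos hm' (by omega)
  have G := s3 (K + Ln + K) K (by omega) (by omega) (by omega) hKh
  rw [s1 K Ln (by omega) (by omega) hKh, s2 K Ln (by omega) (by omega) hKh] at G
  rw [cηe η ⟨le_rfl, by linarith⟩, cηe (1 - η) ⟨by linarith, le_rfl⟩] at G
  -- quadrants
  have e10 : ∀ x, c (x + 1) = c x := L.per
  have m0 : η ∈ Icc η (1 - η) := ⟨le_rfl, by linarith⟩
  have m1 : 1 - η ∈ Icc η (1 - η) := ⟨by linarith, le_rfl⟩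
  have q1 := quad1 (x := θ 0 η) (by
    rw [← (A.sx (st0 _ m0)).2]
    exact (Λ.in1 0 ⟨by linarith, le_rfl⟩).1) (by
    rw [← (A.sy (st0 _ m0)).2]
    exact (Λ.in1 0 ⟨by linarith, le_rfl⟩).2)
  have hcη' : c (1 - η) = c (-η) := by
    rw [← L.per (-η)]; congr 1; ring
  have q2 := quad3 (x := θ 0 (1 - η)) (by
    rw [← (A.sx (st0 _ m1)).1]
    have := (Λ.out1 0 ⟨le_rfl, hη.le⟩).1
    unfold DD at this ⊢
    rwa [hcη']) (by
    rw [← (A.sy (st0 _ m1)).1]
    have := (Λ.out1 0 ⟨le_rfl, hη.le⟩).2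
    unfold CC at this ⊢
    rwa [hcη'])
  have q3 := quad3 (x := θ η 1) (by
    rw [← (A.sx (st1 _ m0)).1]
    have := (Λ.out2 0 ⟨by linarith, le_rfl⟩).1
    unfold DD at this ⊢
    rwa [hc1]) (by
    rw [← (A.sy (st1 _ m0)).1]
    have := (Λ.out2 0 ⟨by linarith, le_rfl⟩).2
    unfold CC at this ⊢
    rwa [hc1])
  have q4 := quad1 (x := θ (1 - η) 1) (by
    rw [← (A.sx (st1 _ m1)).2]
    have := (Λ.in2 0 ⟨le_rfl, hη.le⟩).1
    unfold DD at this ⊢
    rwa [hcη', hc1]) (by
    rw [← (A.sy (st1 _ m1)).2]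
    have := (Λ.in2 0 ⟨le_rfl, hη.le⟩).2
    unfold CC at this ⊢
    rwa [hcη', hc1])
  rw [inn] at q4
  rw [out] at q2
  set k := ⌊θ 0 η / (2 * Real.pi)⌋
  set n := ⌊θ η 1 / (2 * Real.pi)⌋
  push_cast at q4
  rw [floor_of (x := θ (1 - η) 1 - Real.pi) (m := k + g - 1) (by push_cast; linarith [q4.1])
      (by push_cast; linarith [q4.2]),
    floor_of (x := θ η 1 - Real.pi) (m := n) (by linarith [q3.1]) (by linarith [q3.2]),
    floor_of (x := -(Real.pi / 2) - θ 0 (1 - η)) (m := -n - 1) (by push_cast; linarith [q2.2])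
      (by push_cast; linarith [q2.1]),
    floor_of (x := -(Real.pi / 2) - θ 0 η) (m := -k - 1) (by push_cast; linarith [q1.2])
      (by push_cast; linarith [q1.1])] at G
  by_contra hodd
  rw [Int.not_odd_iff_even] at hodd
  obtain ⟨r, rfl⟩ := hodd
  push_cast at G
  have h1 := two_zero ((k : ℤ) : ZMod 2)
  have h2 := two_zero ((n : ℤ) : ZMod 2)
  have h3 := two_zero ((r : ℤ) : ZMod 2)
  have : (1 : ZMod 2) = 0 := by linear_combination -G + h3
  exact absurd this (by decide)

end Pool.Agent.H763R2.An
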