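import Pool.Agent.H763R2.An.Pl

/-! Generic directions. -/

set_option autoImplicit false
open Complex Set

namespace Pool.Agent.H763R2.An

/-- cross product -/
def cr (u v : ℂ) : ℝ := u.re * v.im - u.im * v.re

theorem cr_self (u : ℂ) : cr u u = 0 := by unfold cr; ring
theorem cr_add (u v w : ℂ) : cr u (v + w) = cr u v + cr u w := by unfold cr; simp; ring
theorem cr_sub (u v w : ℂ) : cr u (v - w) = cr u v - cr u w := by unfold cr; simp; ring
theorem cr_smul (u v : ℂ) (s : ℝ) : cr u (s * v) = s * cr u v := by unfold cr; simp; ring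
theorem cr_smul' (u v : ℂ) (s : ℝ) : cr (s * u) v = s * cr u v := by unfold cr; simp; ring
theorem cr_neg (u v : ℂ) : cr u (-v) = - cr u v := by unfold cr; simp; ring

/-- the determinant of four directions -/
noncomputable def Dt (u0 u1 u2 u3 : ℂ) : ℝ :=
  cr u3 ((1 - I) * u0) * cr u2 ((1 + I) * u1) - cr u3 (I * u1) * cr u2 (-I * u0)

theorem Dt_rot (u0 u1 u2 u3 : ℂ) : Dt u1 u2 u3 u0 = - Dt u0 u1 u2 u3 := by
  unfold Dt cr; simp; ring

theorem Dt_lin (u v b c e : ℂ) (x : ℝ) : Dt (u + x * v) b c e = Dt u b c e + x * Dt v b c e := by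
  unfold Dt cr; simp; ring

theorem Dt_perp {b c e : ℂ} (h1 : Dt 1 b c e = 0) (h2 : Dt I b c e = 0) :
    cr b (I * e) ^ 2 * (c.re ^ 2 + c.im ^ 2) = 0 := by
  have : cr b (I * e) ^ 2 * (c.re ^ 2 + c.im ^ 2) =
      (((b.re * e.re - b.im * e.im) * c.re + (b.re * e.im + b.im * e.re) * c.im) -
        c.re * (b.im * e.re - b.re * e.im)) * Dt I b c e +
      (((b.re * e.re - b.im * e.im) * c.im - (b.re * e.im + b.im * e.re) * c.re) +
        c.im * (b.im * e.re - b.re * e.im)) * Dt 1 b c e := by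
    unfold Dt cr; simp; ring
  rw [this, h1, h2]; ring

theorem cr_basis {d B : ℂ} (hd : d ≠ 0) (h1 : cr d B = 0) (h2 : cr (I * d) B = 0) : B = 0 := by
  have hn : 0 < d.re ^ 2 + d.im ^ 2 := by
    have := normSq_pos.2 hd
    rw [normSq_apply] at this
    nlinarith
  have e1 : (d.re ^ 2 + d.im ^ 2) * B.re = 0 := by
    have : (d.re ^ 2 + d.im ^ 2) * B.re = -d.im * cr d B - d.re * cr (I * d) B := by
      unfold cr; simp; ring
    rw [this, h1, h2]; ring
  have e2 : (d.re ^ 2 + d.im ^ 2) * B.im = 0 := by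
    have : (d.re ^ 2 + d.im ^ 2) * B.im = d.re * cr d B - d.im * cr (I * d) B := by
      unfold cr; simp; ring
    rw [this, h1, h2]; ring
  apply Complex.ext
  · rcases mul_eq_zero.1 e1 with h | h
    · exact absurd h hn.ne'
    · exact h
  · rcases mul_eq_zero.1 e2 with h | h
    · exact absurd h hn.ne'
    · exact h

/-- no two directions make a multiple of 45 degrees -/
def D1 {ι : Type*} (d : ι → ℂ) : Prop := ∀ i j, i ≠ j → cr (d i) (1 * d j) ≠ 0 ∧
  cr (d i) (I * d j) ≠ 0 ∧ cr (d i) ((1 + I) * d j) ≠ 0 ∧ cr (d i) ((1 - I) * d j) ≠ 0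

def D2 {ι : Type*} (d : ι → ℂ) : Prop := ∀ a b c e, a ≠ b → a ≠ c → a ≠ e →
  Dt (d a) (d b) (d c) (d e) ≠ 0

/-- the four angles -/
noncomputable def Wf : Fin 4 → ℂ := ![1, I, 1 + I, 1 - I]

theorem Wf_ne (k : Fin 4) : Wf k ≠ 0 := by
  have h1 : (1 + I : ℂ) ≠ 0 := fun h => by
    have := congrArg Complex.re h; simp at this
  have h2 : (1 - I : ℂ) ≠ 0 := fun h => by
    have := congrArg Complex.re h; simp at this
  fin_cases k <;> simp [Wf, h1, h2]

/-- the perturbed direction -/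
noncomputable def dp {ι : Type*} (d0 : ι → ℂ) (f : ι → ℝ) (i : ι) : ℂ := d0 i * (1 + I * f i)

theorem dp_ne {ι : Type*} {d0 : ι → ℂ} (h : ∀ i, d0 i ≠ 0) (f : ι → ℝ) (i : ι) :
    dp d0 f i ≠ 0 := by
  unfold dp
  refine mul_ne_zero (h i) fun h' => ?_
  have := congrArg Complex.re h'
  simp at this

theorem lin_uniq {P Q x y : ℝ} (h : ¬ (P = 0 ∧ Q = 0)) (h1 : P + x * Q = 0) (h2 : P + y * Q = 0) :
    x = y := by
  by_contra hne
  have h3 : (x - y) * Q = 0 := by linarith
  rcases mul_eq_zero.1 h3 with h4 | h4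
  · exact hne (by linarith)
  · exact h ⟨by rw [h4] at h1; linarith, h4⟩

theorem stageA {ι : Type*} [Fintype ι] [DecidableEq ι] {d0 : ι → ℂ} (hd : ∀ i, d0 i ≠ 0)
    (S : ι → Set ℝ) (hS : ∀ i, (S i).Infinite) :
    ∃ f : ι → ℝ, (∀ i, f i ∈ S i) ∧ D1 (dp d0 f) ∧ D2 (dp d0 f) := by
  obtain ⟨f, hf, hbad⟩ := pigeon (ι := ι) (J := (ι × ι × Fin 4) ⊕ (ι × ι × ι × ι))
    (fun j => Sum.elim (fun p => p.1) (fun p => p.1) j)
    (fun j f => Sum.elim
      (fun p => p.1 ≠ p.2.1 ∧ cr (dp d0 f p.1) (Wf p.2.2 * dp d0 f p.2.1) = 0)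
      (fun p => (p.1 ≠ p.2.1 ∧ p.1 ≠ p.2.2.1 ∧ p.1 ≠ p.2.2.2) ∧
        cr (dp d0 f p.2.1) (I * dp d0 f p.2.2.2) ≠ 0 ∧
        Dt (dp d0 f p.1) (dp d0 f p.2.1) (dp d0 f p.2.2.1) (dp d0 f p.2.2.2) = 0) j)
    (by
      have up : ∀ (f : ι → ℝ) (i j : ι) (x : ℝ), i ≠ j →
          dp d0 (Function.update f i x) j = dp d0 f j := by
        intro f i j x h
        unfold dp; rw [Function.update_of_ne h.symm]
      have us : ∀ (f : ι → ℝ) (i : ι) (x : ℝ),
          dp d0 (Function.update f i x) i = d0 i + x * (I * d0 i) := by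
        intro f i x
        unfold dp; rw [Function.update_self]; ring
      rintro (⟨i, j, k⟩ | ⟨a, b, c, e⟩) f x y h1 h2
      · simp only [Sum.elim_inl] at h1 h2
        obtain ⟨hij, h1⟩ := h1
        obtain ⟨-, h2⟩ := h2
        rw [us, up f i j x hij] at h1
        rw [us, up f i j y hij] at h2
        set B := Wf k * dp d0 f j with hB
        have key : ∀ x : ℝ, cr (d0 i + x * (I * d0 i)) B = cr (d0 i) B + x * cr (I * d0 i) B := by
          intro x; unfold cr; simp; ring
        rw [key] at h1 h2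
        refine lin_uniq (fun h => ?_) h1 h2
        exact mul_ne_zero (Wf_ne k) (dp_ne hd f j) (cr_basis (hd i) h.1 h.2)
      · simp only [Sum.elim_inr] at h1 h2
        obtain ⟨⟨n1, n2, n3⟩, h0, h1⟩ := h1
        obtain ⟨-, -, h2⟩ := h2
        rw [up f a b x n1, up f a e x n3] at h0
        rw [us, up f a b x n1, up f a c x n2, up f a e x n3, Dt_lin] at h1
        rw [us, up f a b y n1, up f a c y n2, up f a e y n3, Dt_lin] at h2
        refine lin_uniq (fun h => ?_) h1 h2
        obtain ⟨g1, g2⟩ := h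
        set b' := dp d0 f b
        set c' := dp d0 f c with hc'
        set e' := dp d0 f e
        have hn : 0 < (d0 a).re ^ 2 + (d0 a).im ^ 2 := by
          have := normSq_pos.2 (hd a)
          rw [normSq_apply] at this
          nlinarith
        have f1 : ((d0 a).re ^ 2 + (d0 a).im ^ 2) * Dt 1 b' c' e' = 0 := by
          have : ((d0 a).re ^ 2 + (d0 a).im ^ 2) * Dt 1 b' c' e' =
              (d0 a).re * Dt (d0 a) b' c' e' - (d0 a).im * Dt (I * d0 a) b' c' e' := by
            unfold Dt cr; simp; ring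
          rw [this, g1, g2]; ring
        have f2 : ((d0 a).re ^ 2 + (d0 a).im ^ 2) * Dt I b' c' e' = 0 := by
          have : ((d0 a).re ^ 2 + (d0 a).im ^ 2) * Dt I b' c' e' =
              (d0 a).im * Dt (d0 a) b' c' e' + (d0 a).re * Dt (I * d0 a) b' c' e' := by
            unfold Dt cr; simp; ring
          rw [this, g1, g2]; ring
        have f3 : Dt 1 b' c' e' = 0 := by
          rcases mul_eq_zero.1 f1 with h | h
          · exact absurd h hn.ne'
          · exact h
        have f4 : Dt I b' c' e' = 0 := by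
          rcases mul_eq_zero.1 f2 with h | h
          · exact absurd h hn.ne'
          · exact h
        have f5 := Dt_perp f3 f4
        have hc0 : 0 < c'.re ^ 2 + c'.im ^ 2 := by
          have := normSq_pos.2 (dp_ne hd f c)
          rw [normSq_apply] at this
          rw [hc']; nlinarith
        rcases mul_eq_zero.1 f5 with h | h
        · exact h0 (pow_eq_zero_iff (two_ne_zero) |>.1 h)
        · exact absurd h hc0.ne')
    S hS
  have hD1 : D1 (dp d0 f) := by
    intro i j hij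
    have key : ∀ k, cr (dp d0 f i) (Wf k * dp d0 f j) ≠ 0 := fun k h =>
      hbad (Sum.inl (i, j, k)) ⟨hij, h⟩
    exact ⟨key 0, key 1, key 2, key 3⟩
  refine ⟨f, hf, hD1, fun a b c e n1 n2 n3 h => ?_⟩
  refine hbad (Sum.inr (a, b, c, e)) ⟨⟨n1, n2, n3⟩, ?_, h⟩
  by_cases hbe : b = e
  · subst hbe
    have hn := normSq_pos.2 (dp_ne hd f b)
    rw [normSq_apply] at hn
    have : cr (dp d0 f b) (I * dp d0 f b) = (dp d0 f b).re * (dp d0 f b).re +
        (dp d0 f b).im * (dp d0 f b).im := by unfold cr; simp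
    simp only
    rw [this]; exact hn.ne'
  · exact (hD1 b e hbe).2.1

end Pool.Agent.H763R2.An
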