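import Pool.Agent.H763R2.An.D

/-! A flat point of the curve. -/

set_option autoImplicit false
open Complex Set Topology Metric

namespace Pool.Agent.H763R2.An

open Sq (Dv Cv Dv_re Dv_im Cv_re Cv_im)
open Dm (b b_true b_false b_congr eps fl fl_add eps_eq cell floor_const two_zero parts sum_floor
  tele mid_step log_step exp_rot NoSq fine_real floor_of neg_iff)

variable {c : ℝ → ℂ} {M : ℂ → ℝ} {κ : ZMod 2}

theorem log_diff_ab {g k : ℝ → ℂ} (hg : Continuous g) (hk : Continuous k)
    (hexp : ∀ s, exp (k s) = g s) {w : ℂ} (hc0 : w ≠ 0) {a d : ℝ} (had : a ≤ d)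
    (hc : ∀ s ∈ Icc a d, g s / w ∈ slitPlane) :
    k d - k a = log (g d / w) - log (g a / w) := by
  have := Sq.log_diff_on (g := fun s => g (a + s * (d - a))) (k := fun s => k (a + s * (d - a)))
    (by fun_prop) (by fun_prop) (fun s => hexp _) hc0 (fun s hs => hc _ ⟨by
      have := mul_nonneg hs.1 (sub_nonneg.2 had); linarith, by
      have := mul_le_mul_of_nonneg_right hs.2 (sub_nonneg.2 had); linarith⟩)
  simpa using this

theorem div_slit_add {w : ℂ} (h : 0 < w.re ∨ 0 < w.im ∨ w = -1) : w / (1 + I) ∈ slitPlane := by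
  have e : w / (1 + I) = w * (1 - I) / 2 := by
    have h1 : (1 + I : ℂ) ≠ 0 := by
      intro h; have := congrArg Complex.re h; simp at this
    rw [div_eq_div_iff h1 (by norm_num)]
    linear_combination w * I_mul_I
  have e1 : (w * (1 - I) / 2).re = (w.re + w.im) / 2 := by
    simp
  have e2 : (w * (1 - I) / 2).im = (w.im - w.re) / 2 := by
    simp; ring
  rw [e, mem_slitPlane_iff, e1, e2]
  rcases h with h | h | h
  · by_cases h2 : w.im = w.re
    · left; rw [h2]; linarith
    · right; intro h3; apply h2; linarith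
  · by_cases h2 : w.im = w.re
    · left; rw [← h2]; linarith
    · right; intro h3; apply h2; linarith
  · right; rw [h]; simp

theorem div_slit_sub {w : ℂ} (h : w.im < 0 ∨ w = -1) : w / (1 - I) ∈ slitPlane := by
  have e : w / (1 - I) = w * (1 + I) / 2 := by
    have h1 : (1 - I : ℂ) ≠ 0 := by
      intro h; have := congrArg Complex.re h; simp at this
    rw [div_eq_div_iff h1 (by norm_num)]
    linear_combination w * I_mul_I
  have e1 : (w * (1 + I) / 2).re = (w.re - w.im) / 2 := by
    simp
  have e2 : (w * (1 + I) / 2).im = (w.re + w.im) / 2 := by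
    simp
  rw [e, mem_slitPlane_iff, e1, e2]
  rcases h with h | h
  · by_cases h2 : w.re + w.im = 0
    · left; linarith
    · right; intro h3; apply h2; linarith
  · right; rw [h]; simp

/-- the winding numbers on the two sides of a flat point differ by one -/
theorem cross {n n' : ℤ} {p e : ℂ} (he : e ≠ 0) {δ η : ℝ} (hδ : 0 < δ) (hη : 0 < η)
    (hη2 : η < 1 / 2) (L : Loop c) (h0 : c 0 = p)
    (h : IsWc c (p + δ * I * e) n) (h' : IsWc c (p - δ * I * e) n')
    (hfar : ∀ t ∈ Icc η (1 - η), δ < ‖(c t - p) / e‖)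
    (hpos : ∀ t ∈ Ioc 0 η, 0 < ((c t - p) / e).re)
    (hneg : ∀ t ∈ Ico (-η) 0, ((c t - p) / e).re < 0) : n = n' + 1 := by
  obtain ⟨k, hk, hke, hn⟩ := h
  obtain ⟨l, hl, hle, hn'⟩ := h'
  have hπ := Real.pi_pos
  set ζ : ℝ → ℂ := fun t => (c t - p) / e with hζ
  have cζ : Continuous ζ := by have := L.cont; rw [hζ]; fun_prop
  have a1 : ∀ t, c t - (p + δ * I * e) = e * (ζ t - δ * I) := by
    intro t; rw [hζ]; simp only; field_simp; ring
  have a2 : ∀ t, c t - (p - δ * I * e) = e * (ζ t + δ * I) := by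
    intro t; rw [hζ]; simp only; field_simp; ring
  have ne1 : ∀ t, ζ t - δ * I ≠ 0 := by
    intro t h; have := exp_ne_zero (k t); rw [hke, a1, h, mul_zero] at this; exact this rfl
  have ne2 : ∀ t, ζ t + δ * I ≠ 0 := by
    intro t h; have := exp_ne_zero (l t); rw [hle, a2, h, mul_zero] at this; exact this rfl
  set f : ℝ → ℂ := fun t => (ζ t - δ * I) / (ζ t + δ * I) with hf
  have cf : Continuous f := by
    rw [hf]
    exact (cζ.sub continuous_const).div (cζ.add continuous_const) ne2
  have hexp : ∀ t, exp (k t - l t) = f t := by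
    intro t
    rw [exp_sub, hke, hle, a1, a2, mul_div_mul_left _ _ he]
  have fre : ∀ t, (f t).re = (‖ζ t‖ ^ 2 - δ ^ 2) / normSq (ζ t + δ * I) := by
    intro t
    rw [hf]; simp only
    rw [div_re, Sq.normSq_of]
    simp
    ring
  have fim : ∀ t, (f t).im = -(2 * δ * (ζ t).re) / normSq (ζ t + δ * I) := by
    intro t
    rw [hf]; simp only
    rw [div_im]
    simp
    ring
  have nn : ∀ t, 0 < normSq (ζ t + δ * I) := fun t => normSq_pos.2 (ne2 t)
  have z0 : ζ 0 = 0 := by rw [hζ]; simp only; rw [h0]; simp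
  have z1 : ζ 1 = 0 := by
    rw [hζ]; simp only
    have := L.per 0
    rw [zero_add] at this
    rw [this, h0]; simp
  have hδI : (δ : ℂ) * I ≠ 0 := mul_ne_zero (by exact_mod_cast hδ.ne') I_ne_zero
  have f0 : f 0 = -1 := by
    rw [hf]; simp only; rw [z0, zero_sub, zero_add, neg_div, div_self hδI]
  have f1 : f 1 = -1 := by
    rw [hf]; simp only; rw [z1, zero_sub, zero_add, neg_div, div_self hδI]
  have pos_re : ∀ t ∈ Icc η (1 - η), 0 < (f t).re := by
    intro t ht
    rw [fre]
    refine div_pos ?_ (nn t)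
    have := hfar t ht
    have h2 : δ ^ 2 < ‖ζ t‖ ^ 2 := by
      apply pow_lt_pow_left₀ this hδ.le (by norm_num)
    linarith
  have i1 := log_diff_ab (g := f) (k := fun t => k t - l t) cf (by fun_prop) hexp
    (w := 1 + I) (by intro h; have := congrArg Complex.re h; simp at this) (a := η) (d := 1)
    (by linarith) (fun t ht => by
      apply div_slit_add
      rcases le_or_gt t (1 - η) with h | h
      · exact Or.inl (pos_re t ⟨ht.1, h⟩)
      · right
        rcases lt_or_eq_of_le ht.2 with h1 | h1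
        · left
          rw [fim]
          refine div_pos ?_ (nn t)
          have e1 : ζ t = ζ (t - 1) := by
            rw [hζ]; simp only
            have := L.per (t - 1)
            rw [sub_add_cancel] at this
            rw [this]
          have := hneg (t - 1) ⟨by linarith, by linarith⟩
          rw [e1]
          have h3 : 0 < 2 * δ * -(ζ (t - 1)).re := by
            have : 0 < -(ζ (t - 1)).re := by linarith
            positivity
          linarith
        · right; rw [h1, f1])
  have i2 := log_diff_ab (g := f) (k := fun t => k t - l t) cf (by fun_prop) hexp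
    (w := 1 - I) (by intro h; have := congrArg Complex.re h; simp at this) (a := 0) (d := η)
    hη.le (fun t ht => by
      apply div_slit_sub
      rcases lt_or_eq_of_le ht.1 with h1 | h1
      · left
        rw [fim]
        refine div_neg_of_neg_of_pos ?_ (nn t)
        have := hpos t ⟨h1, ht.2⟩
        have h3 : 0 < 2 * δ * (ζ t).re := by positivity
        linarith
      · right; rw [← h1, f0])
  have wre := pos_re η ⟨le_rfl, by linarith⟩
  have wim : (f η).im < 0 := by
    rw [fim]
    refine div_neg_of_neg_of_pos ?_ (nn η)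
    have := hpos η ⟨hη, le_rfl⟩
    have h3 : 0 < 2 * δ * (ζ η).re := by positivity
    linarith
  rw [f1] at i1
  rw [f0] at i2
  set w := f η
  -- arguments
  have E1 : (-1 : ℂ) / (1 + I) = ⟨-1/2, 1/2⟩ := by
    have h1 : (1 + I : ℂ) ≠ 0 := by
      intro h; have := congrArg Complex.re h; simp at this
    rw [div_eq_iff h1]
    apply Complex.ext <;> simp <;> norm_num
  have E2 : (-1 : ℂ) / (1 - I) = ⟨-1/2, -1/2⟩ := by
    have h1 : (1 - I : ℂ) ≠ 0 := by
      intro h; have := congrArg Complex.re h; simp at this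
    rw [div_eq_iff h1]
    apply Complex.ext <;> simp <;> norm_num
  have E3 : (w / (1 - I)).re = (w.re - w.im) / 2 := by
    have h1 : (1 - I : ℂ) ≠ 0 := by
      intro h; have := congrArg Complex.re h; simp at this
    have : w / (1 - I) = w * (1 + I) / 2 := by
      rw [div_eq_div_iff h1 (by norm_num)]
      linear_combination w * I_mul_I
    rw [this]; simp
  have E4 : (w / (1 + I)).im = (w.im - w.re) / 2 := by
    have h1 : (1 + I : ℂ) ≠ 0 := by
      intro h; have := congrArg Complex.re h; simp at this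
    have : w / (1 + I) = w * (1 - I) / 2 := by
      rw [div_eq_div_iff h1 (by norm_num)]
      linear_combination w * I_mul_I
    rw [this]; simp; ring
  have A1 : Real.pi / 2 < arg ((-1 : ℂ) / (1 + I)) ∧ arg ((-1 : ℂ) / (1 + I)) ≤ Real.pi := by
    refine ⟨?_, arg_le_pi _⟩
    by_contra hc
    push Not at hc
    have h1 : 0 ≤ arg ((-1 : ℂ) / (1 + I)) := arg_nonneg_iff.2 (by rw [E1]; norm_num)
    have h2 := abs_arg_le_pi_div_two_iff.1 (show |arg ((-1 : ℂ) / (1 + I))| ≤ Real.pi / 2 by
      rw [abs_of_nonneg h1]; exact hc)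
    rw [E1] at h2
    norm_num at h2
  have A2 : arg ((-1 : ℂ) / (1 - I)) < -(Real.pi / 2) ∧ -Real.pi < arg ((-1 : ℂ) / (1 - I)) := by
    refine ⟨?_, neg_pi_lt_arg _⟩
    by_contra hc
    push Not at hc
    have h1 : arg ((-1 : ℂ) / (1 - I)) < 0 := arg_neg_iff.2 (by rw [E2]; norm_num)
    have h2 := abs_arg_le_pi_div_two_iff.1 (show |arg ((-1 : ℂ) / (1 - I))| ≤ Real.pi / 2 by
      rw [abs_of_neg h1]; linarith)
    rw [E2] at h2
    norm_num at h2
  have A3 := abs_lt.1 (abs_arg_lt_pi_div_two_iff.2 (Or.inl (show 0 < (w / (1 - I)).re by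
    rw [E3]; linarith)))
  have A4 : arg (w / (1 + I)) < 0 := arg_neg_iff.2 (by rw [E4]; linarith)
  have A5 := neg_pi_lt_arg (w / (1 + I))
  have tot : ((n - n' : ℤ) : ℝ) * (2 * Real.pi) = arg ((-1 : ℂ) / (1 + I)) - arg (w / (1 + I)) +
      (arg (w / (1 - I)) - arg ((-1 : ℂ) / (1 - I))) := by
    have h1 : k 1 - k 0 - (l 1 - l 0) = ((n - n' : ℤ) : ℂ) * (2 * Real.pi * I) := by
      rw [hn, hn']; push_cast; ring
    have h2 : k 1 - k 0 - (l 1 - l 0) = (k 1 - l 1 - (k η - l η)) + (k η - l η - (k 0 - l 0)) := by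
      ring
    rw [h2, i1, i2] at h1
    have h3 := congrArg Complex.im h1
    have h4 : (((n - n' : ℤ) : ℂ) * (2 * Real.pi * I)).im = ((n - n' : ℤ) : ℝ) * (2 * Real.pi) := by
      rw [show ((n - n' : ℤ) : ℂ) * (2 * Real.pi * I) =
        ((((n - n' : ℤ) : ℝ) * (2 * Real.pi) : ℝ) : ℂ) * I by push_cast; ring]
      simp
    rw [h4] at h3
    rw [← h3]
    simp only [add_im, sub_im, log_im]
  have b1 : (0:ℝ) < ((n - n' : ℤ) : ℝ) * (2 * Real.pi) := by
    rw [tot]; linarith [A1.1, A2.1, A3.1]
  have b2 : ((n - n' : ℤ) : ℝ) * (2 * Real.pi) < 2 * (2 * Real.pi) := by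
    rw [tot]; linarith [A1.2, A2.2, A3.2]
  have c1 : (0:ℝ) < ((n - n' : ℤ) : ℝ) := by
    by_contra hc
    push Not at hc
    have := mul_nonpos_of_nonpos_of_nonneg hc (show 0 ≤ 2 * Real.pi by positivity)
    linarith
  have c2 : ((n - n' : ℤ) : ℝ) < 2 := by
    by_contra hc
    push Not at hc
    have := mul_le_mul_of_nonneg_right hc (show 0 ≤ 2 * Real.pi by positivity)
    linarith
  have c3 : 0 < n - n' := by exact_mod_cast c1
  have c4 : n - n' < 2 := by exact_mod_cast c2
  omega

end Pool.Agent.H763R2.An
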