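import Pool.Agent.H763R2.An.Lo

/-! The signed distance near a double point is even. -/

set_option autoImplicit false
open Complex Set Topology Metric

namespace Pool.Agent.H763R2.An

variable {c : ℝ → ℂ} {M : ℂ → ℝ} {κ : ZMod 2}

theorem pick {P : ℝ → Prop} (h : ∀ᶠ d in 𝓝 (0:ℝ), P d) : ∃ d > 0, P d := by
  obtain ⟨ε, hε, h1⟩ := Metric.eventually_nhds_iff.1 h
  refine ⟨ε / 2, by positivity, h1 ?_⟩
  rw [dist_zero_right, Real.norm_eq_abs, abs_of_pos (by positivity)]
  linarith

theorem sgn4 {A B C D : ℝ} (h1 : 0 < A * -B) (h2 : 0 < B * -C) (h3 : 0 < C * D) :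
    0 < A * D := by
  rcases mul_pos_iff.1 h1 with ⟨a, b⟩ | ⟨a, b⟩ <;> rcases mul_pos_iff.1 h2 with ⟨c, d⟩ | ⟨c, d⟩ <;>
  rcases mul_pos_iff.1 h3 with ⟨e, f⟩ | ⟨e, f⟩ <;>
  first
    | (exfalso; linarith)
    | exact mul_pos a f
    | exact mul_pos_of_neg_of_neg a f

theorem ev_pos {f : ℝ → ℝ} (hf : Continuous f) (h : 0 < f 0) : ∀ᶠ d in 𝓝 (0:ℝ), 0 < f d :=
  hf.continuousAt.eventually (lt_mem_nhds h)

theorem ev_lt {f : ℝ → ℝ} {a : ℝ} (hf : Continuous f) (h : f 0 < a) :
    ∀ᶠ d in 𝓝 (0:ℝ), f d < a :=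
  hf.continuousAt.eventually (gt_mem_nhds h)

/-- branch points near a double point are simple -/
theorem branch (L : Loop c) (S : Sg c M κ) {x0 y0 η δ : ℝ} {e f : ℂ} (he : e ≠ 0) (hf : f ≠ 0)
    (hef : (e / f).im ≠ 0) (hη : 0 < η)
    (hx : Lin c x0 e η) (hy : Lin c y0 f η) (hxy : c x0 = c y0)
    (hfib : ∀ t, c t = c x0 → (∃ n : ℤ, t = x0 + n) ∨ ∃ n : ℤ, t = y0 + n)
    (hnear : ∀ t, ‖c t - c x0‖ < δ → ∃ t', c t' = c x0 ∧ |t - t'| < η)
    {s : ℝ} (hs : s ≠ 0) (hs1 : |s| < η / 2) (hs2 : |s| * ‖e‖ < δ) :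
    OddAt M (c x0 + s * e) := by
  have e1 : c (x0 + s) = c x0 + s * e := hx s (by linarith)
  rw [← e1]
  refine odd_simple L S (t0 := x0 + s) (η := η / 2) he (by positivity) (fun s' hs' => ?_)
    (fun t ht => ?_)
  · have h1 := hx (s + s') (by have := abs_add_le s s'; linarith)
    rw [add_assoc, h1, e1]; push_cast; ring
  · rw [e1] at ht
    obtain ⟨t', ht', htt⟩ := hnear t (by
      rw [ht, add_sub_cancel_left, norm_mul, norm_real, Real.norm_eq_abs]; exact hs2)
    rcases hfib t' ht' with ⟨n, rfl⟩ | ⟨n, rfl⟩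
    · refine ⟨n, ?_⟩
      have h1 := hx (t - (x0 + n)) htt.le
      have h3 := L.per_int (x0 + (t - (x0 + n))) n
      rw [show x0 + (t - (x0 + n)) + n = t by ring] at h3
      rw [← h3, ht] at h1
      have h4 := mul_right_cancel₀ he (add_left_cancel h1)
      have h5 : s = t - (x0 + n) := by exact_mod_cast h4
      linarith
    · exfalso
      have h1 := hy (t - (y0 + n)) htt.le
      have h3 := L.per_int (y0 + (t - (y0 + n))) n
      rw [show y0 + (t - (y0 + n)) + n = t by ring] at h3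
      rw [← h3, ht, ← hxy] at h1
      have h4 := add_left_cancel h1
      apply hef
      have h5 : e / f = (((t - (y0 + n)) / s : ℝ) : ℂ) := by
        have : (s : ℂ) ≠ 0 := by exact_mod_cast hs
        rw [div_eq_iff hf]
        push_cast at h4 ⊢
        field_simp
        linear_combination h4
      rw [h5, ofReal_im]

theorem even_double (L : Loop c) (S : Sg c M κ) {x0 y0 η : ℝ} {e f : ℂ} (he : e ≠ 0) (hf : f ≠ 0)
    (hef : (e / f).im ≠ 0) (hη : 0 < η)
    (hx : Lin c x0 e η) (hy : Lin c y0 f η) (hxy : c x0 = c y0)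
    (hfib : ∀ t, c t = c x0 → (∃ n : ℤ, t = x0 + n) ∨ ∃ n : ℤ, t = y0 + n) :
    EvenAt M (c x0) := by
  have hne : 0 < ‖e‖ := norm_pos_iff.2 he
  have hnf : 0 < ‖f‖ := norm_pos_iff.2 hf
  obtain ⟨δ, hδ, hnear⟩ := L.near_fib (c x0) hη
  have hM := S.cont
  have hfe : (f / e).im ≠ 0 := by
    intro h
    apply hef
    have h1 : f / e = ((f / e).re : ℂ) := Complex.ext (by simp) (by simp [h])
    have h2 : e / f = (((f / e).re⁻¹ : ℝ) : ℂ) := by
      rw [ofReal_inv, ← h1, inv_div]
    rw [h2, ofReal_im]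
  have Bx : ∀ s : ℝ, s ≠ 0 → |s| < η / 2 → |s| * ‖e‖ < δ → OddAt M (c x0 + s * e) :=
    fun s h1 h2 h3 => branch L S he hf hef hη hx hy hxy hfib hnear h1 h2 h3
  have By : ∀ s : ℝ, s ≠ 0 → |s| < η / 2 → |s| * ‖f‖ < δ → OddAt M (c x0 + s * f) := by
    intro s h1 h2 h3
    have := branch (x0 := y0) (y0 := x0) (δ := δ) L S hf he hfe hη hy hx hxy.symm
      (fun t ht => (hfib t (ht.trans hxy.symm)).symm) (by rw [← hxy]; exact hnear) h1 h2 h3
    rwa [← hxy] at this
  set z := c x0 with hz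
  set R := min (δ / 2) (min (η * ‖e‖ / 2) (η * ‖f‖ / 2)) with hR
  have hR0 : 0 < R := by positivity
  have hR1 : R ≤ δ / 2 := min_le_left _ _
  have hR2 : R ≤ η * ‖e‖ / 2 := (min_le_right _ _).trans (min_le_left _ _)
  have hR3 : R ≤ η * ‖f‖ / 2 := (min_le_right _ _).trans (min_le_right _ _)
  have back : ∀ {a : ℂ}, a ≠ 0 → R ≤ η * ‖a‖ / 2 → ∀ w : ℂ, ‖w‖ < 2 * R → (w / a).im = 0 →
      w = ((w / a).re : ℂ) * a ∧ |(w / a).re| ≤ η := by
    intro a ha hRa w hw h
    have hna : 0 < ‖a‖ := norm_pos_iff.2 ha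
    have e1 : w = ((w / a).re : ℂ) * a := by
      have : w / a = ((w / a).re : ℂ) := Complex.ext (by simp) (by simp [h])
      rw [← this, div_mul_cancel₀ _ ha]
    refine ⟨e1, ?_⟩
    have : ‖w‖ = |(w / a).re| * ‖a‖ := by
      conv_lhs => rw [e1]
      rw [norm_mul, norm_real, Real.norm_eq_abs]
    rw [this] at hw
    have : |(w / a).re| * ‖a‖ < η * ‖a‖ := by linarith
    exact (lt_of_mul_lt_mul_right this hna.le).le
  have hmem : ∀ w : ℂ, ‖w‖ < 2 * R → (z + w ∈ range c ↔ (w / e).im = 0 ∨ (w / f).im = 0) := by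
    intro w hw
    constructor
    · rintro ⟨t, ht⟩
      obtain ⟨t', ht', htt⟩ := hnear t (by rw [ht, add_sub_cancel_left]; linarith)
      rcases hfib t' ht' with ⟨n, rfl⟩ | ⟨n, rfl⟩
      · left
        have h1 := hx (t - (x0 + n)) htt.le
        have h3 := L.per_int (x0 + (t - (x0 + n))) n
        rw [show x0 + (t - (x0 + n)) + n = t by ring] at h3
        rw [← h3, ht] at h1
        rw [add_left_cancel h1, mul_div_cancel_right₀ _ he, ofReal_im]
      · right
        have h1 := hy (t - (y0 + n)) htt.le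
        have h3 := L.per_int (y0 + (t - (y0 + n))) n
        rw [show y0 + (t - (y0 + n)) + n = t by ring] at h3
        rw [← h3, ht, ← hxy] at h1
        rw [add_left_cancel h1, mul_div_cancel_right₀ _ hf, ofReal_im]
    · rintro (h | h)
      · obtain ⟨e1, e2⟩ := back he hR2 w hw h
        exact ⟨x0 + (w / e).re, by rw [hx _ e2, ← e1]⟩
      · obtain ⟨e1, e2⟩ := back hf hR3 w hw h
        exact ⟨y0 + (w / f).re, by rw [hy _ e2, ← e1, hxy]⟩
  have hsymm : ∀ ζ : ℂ, ‖ζ‖ < R → |M (z + ζ)| = |M (z - ζ)| := by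
    intro ζ hζ
    rw [S.abs, S.abs]
    refine sym_dist (mem_range_self x0) (fun w hw => ?_) hζ
    rw [hmem w hw, sub_eq_add_neg, hmem (-w) (by rwa [norm_neg]), neg_div, neg_im, neg_eq_zero,
      neg_div, neg_im, neg_eq_zero]
  have cM : Continuous fun ζ : ℂ => M (z + ζ) := hM.comp (by fun_prop)
  -- sectors
  have hVc : ∀ (a : ℂ) (α : ℝ), Convex ℝ {ζ : ℂ | 0 < α * (ζ / a).im} := by
    intro a α x hx y hy p q hp hq hpq
    simp only [mem_ofPred_eq] at hx hy ⊢
    have e1 : ((p • x + q • y) / a).im = p * (x / a).im + q * (y / a).im := by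
      rw [add_div, add_im, real_smul, real_smul, mul_div_assoc, mul_div_assoc, im_ofReal_mul,
        im_ofReal_mul]
    rw [e1]
    have e2 : α * (p * (x / a).im + q * (y / a).im) =
        p * (α * (x / a).im) + q * (α * (y / a).im) := by ring
    rw [e2]
    rcases lt_or_eq_of_le hp with h | h
    · have := mul_pos h hx
      have := mul_nonneg hq hy.le
      linarith
    · have : q = 1 := by linarith
      rw [← h, this]; linarith
  have hBc : Convex ℝ {ζ : ℂ | ‖ζ‖ < R} := fun x hx y hy p q hp hq hpq => by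
    have := convex_ball (0:ℂ) R (x := x) (by simpa using hx) (y := y) (by simpa using hy)
      hp hq hpq
    simpa using this
  have sec : ∀ (α β : ℝ) (ζ ζ' : ℂ), ‖ζ‖ < R → ‖ζ'‖ < R → 0 < α * (ζ / e).im →
      0 < β * (ζ / f).im → 0 < α * (ζ' / e).im → 0 < β * (ζ' / f).im →
      0 < M (z + ζ) * M (z + ζ') := by
    intro α β ζ ζ' h1 h2 h3 h4 h5 h6
    refine sign_mul (V := {ζ : ℂ | ‖ζ‖ < R} ∩ ({ζ : ℂ | 0 < α * (ζ / e).im} ∩
      {ζ : ℂ | 0 < β * (ζ / f).im})) (hBc.inter ((hVc e α).inter (hVc f β))).isPreconnected cM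
      ?_ ⟨h1, h3, h4⟩ ⟨h2, h5, h6⟩
    rintro w ⟨w1, w2, w3⟩ h
    simp only [mem_ofPred_eq] at w1 w2 w3
    rcases (hmem w (by linarith)).1 ((S.zero L).1 h) with h | h
    · rw [h, mul_zero] at w2; exact lt_irrefl _ w2
    · rw [h, mul_zero] at w3; exact lt_irrefl _ w3
  have key : ∀ ζ : ℂ, ‖ζ‖ < R → (ζ / e).im ≠ 0 → (ζ / f).im ≠ 0 →
      0 < M (z + ζ) * M (z - ζ) := by
    intro ζ hζ hα hβ
    set α := (ζ / e).im with hαd
    set β := (ζ / f).im with hβd
    have α2 : 0 < α * α := mul_self_pos.2 hα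
    have β2 : 0 < β * β := mul_self_pos.2 hβ
    have k2 : 0 < (e / f).im * (e / f).im := mul_self_pos.2 hef
    have l2 : 0 < (f / e).im * (f / e).im := mul_self_pos.2 hfe
    -- point on the line e
    obtain ⟨ε, hε, h1, h2, h3⟩ := pick (P := fun ε : ℝ => |ε * (β * (e / f).im)| < η / 2 ∧
      |ε * (β * (e / f).im)| * ‖e‖ < δ ∧ |ε * (β * (e / f).im)| * ‖e‖ < R)
      ((ev_lt (by fun_prop) (by simpa using hη)).and ((ev_lt (by fun_prop)
      (by simpa using hδ)).and (ev_lt (by fun_prop) (by simpa using hR0))))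
    set s1 := ε * (β * (e / f).im) with hs1
    obtain ⟨R1, hR1', O1⟩ := Bx s1 (by rw [hs1]; positivity) h1 h2
    have im1 : ∀ d : ℝ, ((s1 * e + d * α * I * e) / e).im = d * α := by
      intro d
      rw [← add_mul, mul_div_cancel_right₀ _ he]; simp
    have im2 : ∀ d : ℝ, ((s1 * e + d * α * I * e) / f).im =
        s1 * (e / f).im + d * α * (e / f).re := by
      intro d
      rw [show (s1 * e + d * α * I * e) / f = ((s1 : ℝ) : ℂ) * (e / f) +
        ((d * α : ℝ) : ℂ) * (I * (e / f)) by push_cast; ring]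
      rw [add_im, im_ofReal_mul, im_ofReal_mul]
      simp
    obtain ⟨d, hd, g1, g2, g3, g4, g5⟩ := pick (P := fun d : ℝ =>
      ‖(s1 * e + d * α * I * e : ℂ)‖ < R ∧ ‖(s1 * e - d * α * I * e : ℂ)‖ < R ∧
      0 < β * (s1 * (e / f).im + d * α * (e / f).re) ∧
      0 < β * (s1 * (e / f).im - d * α * (e / f).re) ∧ ‖(d * α * I * e : ℂ)‖ < R1)
      ((ev_lt (by fun_prop) (by
          simp only [ofReal_zero, zero_mul, add_zero, norm_mul, norm_real, Real.norm_eq_abs]
          exact h3)).and ((ev_lt (by fun_prop) (by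
          simp only [ofReal_zero, zero_mul, sub_zero, norm_mul, norm_real, Real.norm_eq_abs]
          exact h3)).and
        ((ev_pos (by fun_prop) (by
          simp only [zero_mul, add_zero]; rw [hs1]
          have : β * (ε * (β * (e / f).im) * (e / f).im) =
            ε * (β * β) * ((e / f).im * (e / f).im) := by ring
          rw [this]; positivity)).and ((ev_pos (by fun_prop) (by
          simp only [zero_mul, sub_zero]; rw [hs1]
          have : β * (ε * (β * (e / f).im) * (e / f).im) =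
            ε * (β * β) * ((e / f).im * (e / f).im) := by ring
          rw [this]; positivity)).and (ev_lt (by fun_prop) (by simpa using hR1'))))))
    have q1 := sec α β ζ (s1 * e + d * α * I * e) hζ g1 (by rw [← hαd]; exact α2)
      (by rw [← hβd]; exact β2) (by rw [im1]; nlinarith [mul_pos hd α2]) (by rw [im2]; exact g3)
    have q2 := O1 (d * α * I * e) g5
    -- point on the line f
    obtain ⟨ε', hε', h1', h2', h3'⟩ := pick (P := fun ε : ℝ => |-(ε * (α * (f / e).im))| < η / 2 ∧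
      |-(ε * (α * (f / e).im))| * ‖f‖ < δ ∧ |-(ε * (α * (f / e).im))| * ‖f‖ < R)
      ((ev_lt (by fun_prop) (by simpa using hη)).and ((ev_lt (by fun_prop)
      (by simpa using hδ)).and (ev_lt (by fun_prop) (by simpa using hR0))))
    set s2 := -(ε' * (α * (f / e).im)) with hs2
    obtain ⟨R2, hR2', O2⟩ := By s2 (by rw [hs2, neg_ne_zero]; positivity) h1' h2'
    have im3 : ∀ d : ℝ, ((s2 * f + d * β * I * f) / f).im = d * β := by
      intro d
      rw [← add_mul, mul_div_cancel_right₀ _ hf]; simp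
    have im4 : ∀ d : ℝ, ((s2 * f + d * β * I * f) / e).im =
        s2 * (f / e).im + d * β * (f / e).re := by
      intro d
      rw [show (s2 * f + d * β * I * f) / e = ((s2 : ℝ) : ℂ) * (f / e) +
        ((d * β : ℝ) : ℂ) * (I * (f / e)) by push_cast; ring]
      rw [add_im, im_ofReal_mul, im_ofReal_mul]
      simp
    obtain ⟨d', hd', g1', g2', g3', g4', g5'⟩ := pick (P := fun d : ℝ =>
      ‖(s2 * f + d * β * I * f : ℂ)‖ < R ∧ ‖(s2 * f - d * β * I * f : ℂ)‖ < R ∧
      0 < -α * (s2 * (f / e).im + d * β * (f / e).re) ∧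
      0 < -α * (s2 * (f / e).im - d * β * (f / e).re) ∧ ‖(d * β * I * f : ℂ)‖ < R2)
      ((ev_lt (by fun_prop) (by
          simp only [ofReal_zero, zero_mul, add_zero, norm_mul, norm_real, Real.norm_eq_abs]
          exact h3')).and ((ev_lt (by fun_prop) (by
          simp only [ofReal_zero, zero_mul, sub_zero, norm_mul, norm_real, Real.norm_eq_abs]
          exact h3')).and
        ((ev_pos (by fun_prop) (by
          simp only [zero_mul, add_zero]; rw [hs2]
          have : -α * (-(ε' * (α * (f / e).im)) * (f / e).im) =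
            ε' * (α * α) * ((f / e).im * (f / e).im) := by ring
          rw [this]; positivity)).and ((ev_pos (by fun_prop) (by
          simp only [zero_mul, sub_zero]; rw [hs2]
          have : -α * (-(ε' * (α * (f / e).im)) * (f / e).im) =
            ε' * (α * α) * ((f / e).im * (f / e).im) := by ring
          rw [this]; positivity)).and (ev_lt (by fun_prop) (by simpa using hR2'))))))
    have em1 : ∀ d : ℝ, (s1 * e - d * α * I * e : ℂ) = s1 * e + ((-d : ℝ) : ℂ) * α * I * e := by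
      intro d; push_cast; ring
    have em2 : ∀ d : ℝ, (s2 * f - d * β * I * f : ℂ) = s2 * f + ((-d : ℝ) : ℂ) * β * I * f := by
      intro d; push_cast; ring
    have q3 := sec (-α) β (s1 * e - d * α * I * e) (s2 * f + d' * β * I * f) g2 g1'
      (by rw [em1, im1]; nlinarith [mul_pos hd α2])
      (by rw [em1, im2]; convert g4 using 1; ring) (by rw [im4]; exact g3')
      (by rw [im3]; nlinarith [mul_pos hd' β2])
    have q4 := O2 (d' * β * I * f) g5'
    have q5 := sec (-α) (-β) (s2 * f - d' * β * I * f) (-ζ) g2' (by rwa [norm_neg])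
      (by rw [em2, im4]; convert g4' using 1; ring)
      (by rw [em2, im3]; nlinarith [mul_pos hd' β2])
      (by rw [neg_div, neg_im, ← hαd]; nlinarith) (by rw [neg_div, neg_im, ← hβd]; nlinarith)
    rw [← sub_eq_add_neg] at q5
    rw [add_assoc, ← add_sub_assoc'] at q2
    rw [add_assoc, ← add_sub_assoc'] at q4
    rw [q2] at q1
    rw [q4] at q3
    exact sgn4 q1 q3 q5
  refine ⟨R, hR0, fun ζ hζ => ?_⟩
  have hs := hsymm ζ hζ
  by_cases h : (ζ / e).im = 0 ∨ (ζ / f).im = 0
  · have h1 := (hmem ζ (by linarith)).2 h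
    rw [← S.zero L] at h1
    rw [h1, abs_zero] at hs
    rw [h1, abs_eq_zero.1 hs.symm]
  · push Not at h
    have := key ζ hζ h.1 h.2
    rcases abs_eq_abs.1 hs with h2 | h2
    · exact h2
    · rw [h2] at this; nlinarith [mul_self_nonneg (M (z - ζ))]

end Pool.Agent.H763R2.An
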