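import Pool.Agent.H763R2.An.E

/-! Flat points are regular. -/

set_option autoImplicit false
open Complex Set Topology Metric

namespace Pool.Agent.H763R2.An

open Sq (Dv Cv Dv_re Dv_im Cv_re Cv_im)
open Dm (b b_true b_false NoSq)

variable {c : ℝ → ℂ} {M : ℂ → ℝ} {κ : ZMod 2}

theorem inV {a d : ℂ} (ha : |a.im| ≤ 2 / 5 * a.re) (hb : |d.im| ≤ 2 / 5 * d.re)
    (hab : 0 < a.re ∨ 0 < d.re) :
    2 / 5 * |(-a + I * (d + a)).re| < (-a + I * (d + a)).im ∧
      2 / 5 * |(d + I * (d + a)).re| < (d + I * (d + a)).im := by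
  have e1 : (-a + I * (d + a)).re = -a.re - (d.im + a.im) := by simp; ring
  have e2 : (-a + I * (d + a)).im = -a.im + (d.re + a.re) := by simp
  have e3 : (d + I * (d + a)).re = d.re - (d.im + a.im) := by simp; ring
  have e4 : (d + I * (d + a)).im = d.im + (d.re + a.re) := by simp
  rw [e1, e2, e3, e4]
  obtain ⟨a1, a2⟩ := abs_le.1 ha
  obtain ⟨b1, b2⟩ := abs_le.1 hb
  have a0 : 0 ≤ a.re := by linarith [abs_nonneg a.im]
  have b0 : 0 ≤ d.re := by linarith [abs_nonneg d.im]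
  have hs : 0 < a.re + d.re := by rcases hab with h | h <;> linarith
  constructor
  · have : |-a.re - (d.im + a.im)| ≤ 7 / 5 * a.re + 2 / 5 * d.re := by
      rw [abs_le]; constructor <;> linarith
    linarith
  · have : |d.re - (d.im + a.im)| ≤ 7 / 5 * d.re + 2 / 5 * a.re := by
      rw [abs_le]; constructor <;> linarith
    linarith

/-- the convex region on one side -/
def Vr (R : ℝ) : Set ℂ := {ζ | ‖ζ‖ < R ∧ 2 / 5 * |ζ.re| < ζ.im}

theorem Vr_convex (R : ℝ) : Convex ℝ (Vr R) := by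
  rintro z ⟨hz1, hz2⟩ w ⟨hw1, hw2⟩ a d ha hd had
  constructor
  · have := (convex_ball (0:ℂ) R) (x := z) (by simpa using hz1) (y := w) (by simpa using hw1)
      ha hd had
    simpa using this
  · have e1 : (a • z + d • w).re = a * z.re + d * w.re := by simp
    have e2 : (a • z + d • w).im = a * z.im + d * w.im := by simp
    rw [e1, e2]
    have h1 := abs_add_le (a * z.re) (d * w.re)
    rw [abs_mul, abs_mul, abs_of_nonneg ha, abs_of_nonneg hd] at h1
    rcases lt_or_eq_of_le ha with h | h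
    · nlinarith [mul_lt_mul_of_pos_left hz2 h, mul_le_mul_of_nonneg_left hw2.le hd]
    · have h2 : d = 1 := by linarith
      rw [← h, h2] at h1 ⊢
      simp only [zero_mul, zero_add, one_mul] at h1 ⊢
      exact hw2

theorem sign_const {V : Set ℂ} (hV : IsPreconnected V) {φ : ℂ → ℝ} (hφ : Continuous φ)
    (h : ∀ z ∈ V, φ z ≠ 0) {z w : ℂ} (hz : z ∈ V) (hw : w ∈ V) (h0 : 0 < φ z) : 0 < φ w := by
  by_contra hc
  push Not at hc
  obtain ⟨x, hx, hx0⟩ := hV.intermediate_value hw hz hφ.continuousOn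
    (show (0:ℝ) ∈ Icc (φ w) (φ z) from ⟨hc, h0.le⟩)
  exact h x hx hx0

theorem loc_main (J : Inj0 c) {M' : ℂ → ℝ} {p e : ℂ} {ε η : ℝ} (he : e ≠ 0)
    (hη : 0 < η) (hη2 : η < 1 / 2) (h0 : c 0 = p)
    (hcone : ∀ z ∈ range c, ‖z - p‖ < ε → |((z - p) / e).im| ≤ 2 / 5 * |((z - p) / e).re|)
    (hnear : ∀ t ∈ Icc (-η) η, ‖c t - p‖ < ε / 4)
    (hpos : ∀ t ∈ Ioc 0 η, 0 < ((c t - p) / e).re)
    (hneg : ∀ t ∈ Ico (-η) 0, ((c t - p) / e).re < 0)
    (hl : ∀ ζ ∈ Vr (ε / ‖e‖), 0 < M' (p + e * ζ)) (hr : ∀ ζ ∈ Vr (ε / ‖e‖), M' (p - e * ζ) < 0) :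
    Loc c M' η := by
  set ζ : ℝ → ℂ := fun t => (c t - p) / e with hζ
  have hζe : ∀ t, c t = p + e * ζ t := by
    intro t; rw [hζ]; simp only; field_simp; ring
  have z0 : ζ 0 = 0 := by rw [hζ]; simp only; rw [h0]; simp
  have hne : 0 < ‖e‖ := norm_pos_iff.2 he
  have hε : 0 < ε := by
    have := hnear 0 ⟨by linarith, hη.le⟩
    have := norm_nonneg (c 0 - p)
    linarith
  have K1 : ∀ t ∈ Icc 0 η, |(ζ t).im| ≤ 2 / 5 * (ζ t).re := by
    intro t ht
    rcases lt_or_eq_of_le ht.1 with h | h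
    · have h1 := hcone (c t) (mem_range_self t) (by
        have := hnear t ⟨by linarith, ht.2⟩; linarith)
      have h2 := hpos t ⟨h, ht.2⟩
      rw [abs_of_pos h2] at h1
      exact h1
    · rw [← h, z0]; simp
  have K2 : ∀ t ∈ Icc (-η) 0, |(-ζ t).im| ≤ 2 / 5 * (-ζ t).re := by
    intro t ht
    rcases lt_or_eq_of_le ht.2 with h | h
    · have h1 := hcone (c t) (mem_range_self t) (by
        have := hnear t ⟨ht.1, by linarith⟩; linarith)
      have h2 := hneg t ⟨ht.1, h⟩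
      rw [abs_of_neg h2] at h1
      rw [neg_im, neg_re, abs_neg]
      exact h1
    · rw [h, z0]; simp
  have nD : ∀ x ∈ Icc (-η) η, ∀ y ∈ Icc (-η) η,
      ‖(ζ x) + I * (ζ y - ζ x)‖ < ε / ‖e‖ ∧ ‖(ζ y) + I * (ζ y - ζ x)‖ < ε / ‖e‖ := by
    intro x hx y hy
    have n1 := hnear x hx
    have n2 := hnear y hy
    rw [hζe, add_sub_cancel_left, norm_mul] at n1 n2
    have n3 : ‖ζ x‖ < ε / ‖e‖ / 4 := by
      rw [div_div, mul_comm ‖e‖ 4, ← div_div, lt_div_iff₀ hne]; linarith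
    have n4 : ‖ζ y‖ < ε / ‖e‖ / 4 := by
      rw [div_div, mul_comm ‖e‖ 4, ← div_div, lt_div_iff₀ hne]; linarith
    have n5 := norm_sub_le (ζ y) (ζ x)
    have n6 := norm_add_le (ζ x) (I * (ζ y - ζ x))
    have n7 := norm_add_le (ζ y) (I * (ζ y - ζ x))
    rw [norm_mul, norm_I, one_mul] at n6 n7
    have hRR : 0 < ε / ‖e‖ := by positivity
    constructor <;> linarith
  have inn : ∀ x ∈ Icc (-η) 0, ∀ y ∈ Icc 0 η, (x = -η ∨ y = η) →
      0 < M' (DD c x y) ∧ 0 < M' (CC c x y) := by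
    intro x hx y hy hxy
    have hab : 0 < (-ζ x).re ∨ 0 < (ζ y).re := by
      rcases hxy with h | h
      · left
        have := hneg x ⟨hx.1, by rw [h]; linarith⟩
        rw [neg_re]; simp only [hζ]; linarith
      · right; exact hpos y ⟨by rw [h]; exact hη, hy.2⟩
    obtain ⟨v1, v2⟩ := inV (K2 x hx) (K1 y hy) hab
    obtain ⟨w1, w2⟩ := nD x ⟨hx.1, by linarith [hx.2]⟩ y ⟨by linarith [hy.1], hy.2⟩
    rw [neg_neg, ← sub_eq_add_neg] at v1
    rw [← sub_eq_add_neg] at v2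
    have e1 : DD c x y = p + e * (ζ x + I * (ζ y - ζ x)) := by
      unfold DD Sq.Dv; rw [hζe x, hζe y]; ring
    have e2 : CC c x y = p + e * (ζ y + I * (ζ y - ζ x)) := by
      unfold CC Sq.Cv; rw [hζe x, hζe y]; ring
    rw [e1, e2]
    exact ⟨hl _ ⟨w1, v1⟩, hl _ ⟨w2, v2⟩⟩
  have outt : ∀ x ∈ Icc 0 η, ∀ y ∈ Icc (-η) 0, (x = η ∨ y = -η) →
      M' (DD c x y) < 0 ∧ M' (CC c x y) < 0 := by
    intro x hx y hy hxy
    have hab : 0 < (ζ x).re ∨ 0 < (-ζ y).re := by
      rcases hxy with h | h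
      · left; exact hpos x ⟨by rw [h]; exact hη, hx.2⟩
      · right
        have := hneg y ⟨hy.1, by rw [h]; linarith⟩
        rw [neg_re]; simp only [hζ]; linarith
    obtain ⟨v1, v2⟩ := inV (K1 x hx) (K2 y hy) hab
    obtain ⟨w1, w2⟩ := nD x ⟨by linarith [hx.1], hx.2⟩ y ⟨hy.1, by linarith [hy.2]⟩
    have e1 : DD c x y = p - e * (-ζ x + I * (-ζ y + ζ x)) := by
      unfold DD Sq.Dv; rw [hζe x, hζe y]; ring
    have e2 : CC c x y = p - e * (-ζ y + I * (-ζ y + ζ x)) := by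
      unfold CC Sq.Cv; rw [hζe x, hζe y]; ring
    rw [e1, e2]
    refine ⟨hr _ ⟨?_, v1⟩, hr _ ⟨?_, v2⟩⟩
    · rw [show -ζ x + I * (-ζ y + ζ x) = -(ζ x + I * (ζ y - ζ x)) by ring, norm_neg]; exact w1
    · rw [show -ζ y + I * (-ζ y + ζ x) = -(ζ y + I * (ζ y - ζ x)) by ring, norm_neg]; exact w2
  have far : ∀ x ∈ Icc (-η) η, ∀ y ∈ Icc η (1 - η), ∀ w : ℂ, (w = I ∨ w = -I) →
      c y - p ≠ w * (c x - p) := by
    intro x hx y hy w hw h
    have nw : ‖w‖ = 1 := by rcases hw with rfl | rfl <;> simp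
    have n1 : ‖c y - p‖ = ‖c x - p‖ := by rw [h, norm_mul, nw, one_mul]
    have n2 := hnear x hx
    have k1 := hcone (c x) (mem_range_self x) (by linarith)
    have k2 := hcone (c y) (mem_range_self y) (by linarith)
    have e1 : (c y - p) / e = w * ((c x - p) / e) := by rw [h, mul_div_assoc]
    rw [e1] at k2
    set q := (c x - p) / e with hq
    have k3 : |q.re| ≤ 2 / 5 * |q.im| := by
      rcases hw with rfl | rfl
      · simpa using k2
      · simpa using k2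
    have r0 : |q.re| ≤ 0 := by linarith [abs_nonneg q.re, abs_nonneg q.im]
    have r1 : q.re = 0 := abs_eq_zero.1 (le_antisymm r0 (abs_nonneg _))
    have r2 : q.im = 0 := by
      rw [r1, abs_zero, mul_zero] at k1
      exact abs_eq_zero.1 (le_antisymm k1 (abs_nonneg _))
    have r3 : q = 0 := Complex.ext r1 r2
    rw [r3, mul_zero] at e1
    have r4 : c y - p = 0 := by
      rcases div_eq_zero_iff.1 e1 with h | h
      · exact h
      · exact absurd h he
    refine J y (by linarith [hy.1]) (by linarith [hy.2]) ?_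
    rw [h0, sub_eq_zero.1 r4]
  refine ⟨hη, hη2, fun x hx => inn x hx η ⟨hη.le, le_rfl⟩ (Or.inr rfl),
    fun y hy => inn (-η) ⟨le_rfl, by linarith⟩ y hy (Or.inl rfl),
    fun x hx => outt x hx (-η) ⟨le_rfl, by linarith⟩ (Or.inr rfl),
    fun y hy => outt η ⟨hη.le, le_rfl⟩ y hy (Or.inl rfl), fun x hx y hy => ?_⟩
  rw [h0]
  refine ⟨fun h => far x hx y hy (-I) (Or.inr rfl) ?_, fun h => far x hx y hy I (Or.inl rfl) h⟩
  rw [h]
  linear_combination (c y - p) * I_mul_I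

theorem arc_sign {f : ℝ → ℝ} {s : Set ℝ} (hs : IsPreconnected s) (hf : Continuous f)
    (h : ∀ t ∈ s, f t ≠ 0) : (∀ t ∈ s, 0 < f t) ∨ ∀ t ∈ s, f t < 0 := by
  by_cases h1 : ∀ t ∈ s, 0 < f t
  · exact Or.inl h1
  right
  push Not at h1
  obtain ⟨u, hu, hu'⟩ := h1
  intro t ht
  by_contra hc
  push Not at hc
  obtain ⟨x, hx, hx0⟩ := hs.intermediate_value hu ht hf.continuousOn
    (show (0:ℝ) ∈ Icc _ _ from ⟨hu', hc⟩)
  exact h x hx hx0

/-- near points have near parameters -/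
theorem Loop.near (L : Loop c) (J : Inj0 c) {η : ℝ} (hη : 0 < η) (hη2 : η < 1 / 2) :
    ∃ δ > 0, ∀ z ∈ range c, ‖z - c 0‖ < δ → ∃ t ∈ Ioo (-η) η, c t = z := by
  have hc := L.cont
  obtain ⟨x, hx, hmin⟩ := isCompact_Icc.exists_isMinOn
    (nonempty_Icc.2 (show η ≤ 1 - η by linarith)) (f := fun t => ‖c t - c 0‖) (by fun_prop)
  refine ⟨‖c x - c 0‖, norm_pos_iff.2 (sub_ne_zero.2
    (J x (by linarith [hx.1]) (by linarith [hx.2]))), ?_⟩
  rintro _ ⟨t, rfl⟩ ht
  have f0 := Int.fract_nonneg t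
  have f1 := Int.fract_lt_one t
  have e1 : c (Int.fract t) = c t := by
    have := L.per_int (Int.fract t) ⌊t⌋
    rw [Int.fract_add_floor] at this
    exact this.symm
  rcases lt_or_ge (Int.fract t) η with h | h
  · exact ⟨Int.fract t, ⟨by linarith, h⟩, e1⟩
  rcases lt_or_ge (1 - η) (Int.fract t) with h' | h'
  · refine ⟨Int.fract t - 1, ⟨by linarith, by linarith⟩, ?_⟩
    rw [← e1]
    have := L.per (Int.fract t - 1)
    rw [sub_add_cancel] at this
    exact this.symm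
  · exfalso
    have := hmin (show Int.fract t ∈ Icc η (1 - η) from ⟨h, h'⟩)
    simp only [mem_ofPred_eq] at this
    rw [e1] at this
    linarith

/-- a flat point -/
structure Flat (C : Set ℂ) (p e : ℂ) (ε : ℝ) : Prop where
  he : e ≠ 0
  hε : 0 < ε
  cone : ∀ z ∈ C, ‖z - p‖ < ε → |((z - p) / e).im| ≤ 2 / 5 * |((z - p) / e).re|
  rp : ∀ δ > 0, ∃ z ∈ C, ‖z - p‖ < δ ∧ 0 < ((z - p) / e).re
  rn : ∀ δ > 0, ∃ z ∈ C, ‖z - p‖ < δ ∧ ((z - p) / e).re < 0

theorem loc_of_signs (L : Loop c) (J : Inj0 c) (S : Sg c M κ) {p e : ℂ} {ε η : ℝ} (he : e ≠ 0)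
    (hη : 0 < η) (hη2 : η < 1 / 2) (h0 : c 0 = p)
    (hcone : ∀ z ∈ range c, ‖z - p‖ < ε → |((z - p) / e).im| ≤ 2 / 5 * |((z - p) / e).re|)
    (hnear : ∀ t ∈ Icc (-η) η, ‖c t - p‖ < ε / 4)
    (hpos : ∀ t ∈ Ioc 0 η, 0 < ((c t - p) / e).re)
    (hneg : ∀ t ∈ Ico (-η) 0, ((c t - p) / e).re < 0) :
    Loc c M η ∨ Loc c (fun z => - M z) η := by
  have hc := L.cont
  have hM := S.cont
  have hne : 0 < ‖e‖ := norm_pos_iff.2 he
  have hε : 0 < ε := by
    have := hnear 0 ⟨by linarith, hη.le⟩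
    have := norm_nonneg (c 0 - p)
    linarith
  set R := ε / ‖e‖ with hR
  have hR0 : 0 < R := by positivity
  have nn : ∀ ζ ∈ Vr R, ∀ w : ℂ, (w = e ∨ w = -e) → p + w * ζ ∉ range c := by
    rintro ζ ⟨h1, h2⟩ w hw hmem
    have hwn : ‖w‖ = ‖e‖ := by rcases hw with rfl | rfl <;> simp
    have h3 := hcone _ hmem (by
      rw [add_sub_cancel_left, norm_mul, hwn]
      rw [hR, lt_div_iff₀ hne] at h1
      linarith)
    rw [add_sub_cancel_left] at h3
    have h4 : |ζ.im| ≤ 2 / 5 * |ζ.re| := by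
      rcases hw with rfl | rfl
      · rwa [mul_div_cancel_left₀ _ he] at h3
      · rw [neg_mul, neg_div, mul_div_cancel_left₀ _ he, neg_im, neg_re, abs_neg, abs_neg] at h3
        exact h3
    have := le_abs_self ζ.im
    linarith
  have hL0 : ∀ ζ ∈ Vr R, M (p + e * ζ) ≠ 0 := fun ζ hζ h =>
    nn ζ hζ e (Or.inl rfl) ((S.zero L).1 h)
  have hR1 : ∀ ζ ∈ Vr R, M (p - e * ζ) ≠ 0 := fun ζ hζ h => by
    have := nn ζ hζ (-e) (Or.inr rfl)
    rw [neg_mul, ← sub_eq_add_neg] at this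
    exact this ((S.zero L).1 h)
  -- a small number
  obtain ⟨x, hx, hmin⟩ := isCompact_Icc.exists_isMinOn
    (nonempty_Icc.2 (show η ≤ 1 - η by linarith)) (f := fun t => ‖(c t - p) / e‖) (by fun_prop)
  have hx0 : 0 < ‖(c x - p) / e‖ := by
    refine norm_pos_iff.2 (div_ne_zero (sub_ne_zero.2 ?_) he)
    rw [← h0]
    exact J x (by linarith [hx.1]) (by linarith [hx.2])
  set δ := min (R / 2) (‖(c x - p) / e‖ / 2) with hδ
  have δ0 : 0 < δ := by positivity
  have δ1 : δ < R := lt_of_le_of_lt (min_le_left _ _) (by linarith)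
  have δ2 : δ < ‖(c x - p) / e‖ := lt_of_le_of_lt (min_le_right _ _) (by linarith)
  have hV : (δ : ℂ) * I ∈ Vr R := by
    constructor
    · rw [norm_mul, norm_I, norm_real, Real.norm_of_nonneg δ0.le, mul_one]; exact δ1
    · simp; exact δ0
  have e1 : p + δ * I * e = p + e * (δ * I) := by ring
  have e2 : p - δ * I * e = p - e * (δ * I) := by ring
  have m1 : p + δ * I * e ∉ range c := by rw [e1]; exact nn _ hV e (Or.inl rfl)
  have m2 : p - δ * I * e ∉ range c := by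
    have := nn _ hV (-e) (Or.inr rfl)
    rw [neg_mul, ← sub_eq_add_neg] at this
    rwa [e2]
  obtain ⟨n, hn⟩ := L.exW m1
  obtain ⟨n', hn'⟩ := L.exW m2
  have hcr := cross he δ0 hη hη2 L h0 hn hn' (fun t ht => lt_of_lt_of_le δ2 (hmin ht)) hpos hneg
  have p1 := S.par _ m1 n hn
  have p2 := S.par _ m2 n' hn'
  have hpre := (Vr_convex R).isPreconnected
  have cL : Continuous fun ζ : ℂ => M (p + e * ζ) := hM.comp (by fun_prop)
  have cR : Continuous fun ζ : ℂ => M (p - e * ζ) := hM.comp (by fun_prop)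
  have hcr2 : b (0 < M (p + δ * I * e)) = b (0 < M (p - δ * I * e)) + 1 := by
    rw [hcr] at p1
    push_cast at p1
    rw [p2] at p1
    linear_combination -p1
  rcases lt_or_gt_of_ne (hL0 _ hV) with hs | hs
  · -- left side negative
    right
    have hs' : 0 < M (p - e * (δ * I)) := by
      rw [e1, e2, b_false (not_lt.2 hs.le)] at hcr2
      by_contra hc
      rw [b_false hc] at hcr2
      exact absurd hcr2 (by decide)
    refine loc_main J he hη hη2 h0 hcone hnear hpos hneg (fun ζ hζ => ?_) (fun ζ hζ => ?_)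
    · exact sign_const hpre cL.neg (fun z hz => neg_ne_zero.2 (hL0 z hz)) hV hζ
        (show 0 < -M (p + e * (δ * I)) by linarith)
    · have := sign_const hpre cR hR1 hV hζ hs'
      linarith
  · left
    have hs' : M (p - e * (δ * I)) < 0 := by
      rw [e1, e2, b_true hs] at hcr2
      refine lt_of_le_of_ne ?_ (hR1 _ hV)
      by_contra hc
      push Not at hc
      rw [b_true hc] at hcr2
      exact absurd hcr2 (by decide)
    refine loc_main J he hη hη2 h0 hcone hnear hpos hneg (fun ζ hζ => ?_) (fun ζ hζ => ?_)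
    · exact sign_const hpre cL hL0 hV hζ hs
    · have : 0 < -M (p - e * ζ) := sign_const hpre cR.neg
        (fun z hz => neg_ne_zero.2 (hR1 z hz)) hV hζ (show 0 < -M (p - e * (δ * I)) by linarith)
      linarith

theorem loc_of_flat (L : Loop c) (J : Inj0 c) (S : Sg c M κ) {p e : ℂ} {ε : ℝ} (h0 : c 0 = p)
    (F : Flat (range c) p e ε) : ∃ m0 : ℕ, ∀ m : ℕ, m0 ≤ m →
      Loc c M (1 / m) ∨ Loc c (fun z => - M z) (1 / m) := by
  have hc := L.cont
  have he := F.he
  obtain ⟨d, hd, hd'⟩ := Metric.continuousAt_iff.1 (hc.continuousAt (x := 0)) (ε / 4)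
    (by have := F.hε; positivity)
  obtain ⟨m0, hm0⟩ := exists_nat_one_div_lt hd
  have hmr : (0:ℝ) ≤ m0 := Nat.cast_nonneg m0
  refine ⟨m0 + 3, fun m hm => ?_⟩
  set η : ℝ := 1 / m with hη'
  have hmc : (m0 : ℝ) + 3 ≤ m := by exact_mod_cast hm
  have hη : 0 < η := by rw [hη']; exact one_div_pos.2 (by linarith)
  have hη2 : η < 1 / 2 := by
    rw [hη']
    exact one_div_lt_one_div_of_lt (by norm_num) (by linarith)
  have hηd : η < d := by
    refine lt_of_le_of_lt ?_ hm0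
    rw [hη']
    exact one_div_le_one_div_of_le (by positivity) (by linarith)
  have hnear : ∀ t ∈ Icc (-η) η, ‖c t - p‖ < ε / 4 := by
    intro t ht
    have := hd' (x := t) (by rw [dist_zero_right, Real.norm_eq_abs, abs_lt]; constructor <;>
      linarith [ht.1, ht.2])
    rwa [dist_eq_norm, h0] at this
  have hre0 : ∀ t ∈ Icc (-η) η, t ≠ 0 → ((c t - p) / e).re ≠ 0 := by
    intro t ht ht0 h
    have h1 := F.cone (c t) (mem_range_self t) (by have := hnear t ht; have := F.hε; linarith)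
    rw [h, abs_zero, mul_zero] at h1
    have h2 : ((c t - p) / e).im = 0 := abs_eq_zero.1 (le_antisymm h1 (abs_nonneg _))
    have h3 : (c t - p) / e = 0 := Complex.ext h h2
    have h4 : c t = c 0 := by
      rcases div_eq_zero_iff.1 h3 with h | h
      · rw [h0]; exact sub_eq_zero.1 h
      · exact absurd h he
    rcases lt_or_gt_of_ne ht0 with h5 | h5
    · exact J (t + 1) (by linarith [ht.1]) (by linarith) (by rw [L.per, h4])
    · exact J t h5 (by linarith [ht.2]) h4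
  have cre : Continuous fun t => ((c t - p) / e).re := by fun_prop
  have s1 := arc_sign (s := Ioc 0 η) isPreconnected_Ioc cre
    (fun t ht => hre0 t ⟨by linarith [ht.1], ht.2⟩ ht.1.ne')
  have s2 := arc_sign (s := Ico (-η) 0) isPreconnected_Ico cre
    (fun t ht => hre0 t ⟨ht.1, by linarith [ht.2]⟩ ht.2.ne)
  obtain ⟨δ, hδ, hδ'⟩ := L.near J hη hη2
  obtain ⟨zp, hzp, np, rp⟩ := F.rp δ hδ
  obtain ⟨zn, hzn, nnn, rn⟩ := F.rn δ hδ
  obtain ⟨tp, htp, rfl⟩ := hδ' zp hzp (by rw [h0]; exact np)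
  obtain ⟨tn, htn, rfl⟩ := hδ' zn hzn (by rw [h0]; exact nnn)
  have tp0 : tp ≠ 0 := by
    rintro rfl; rw [h0] at rp; simp at rp
  have tn0 : tn ≠ 0 := by
    rintro rfl; rw [h0] at rn; simp at rn
  rcases s1 with s1 | s1
  · rcases s2 with s2 | s2
    · exfalso
      rcases lt_or_gt_of_ne tn0 with h | h
      · have := s2 tn ⟨htn.1.le, h⟩; linarith
      · have := s1 tn ⟨h, htn.2.le⟩; linarith
    · exact loc_of_signs L J S he hη hη2 h0 F.cone hnear s1 s2
  · rcases s2 with s2 | s2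
    · refine loc_of_signs L J S (e := -e) (neg_ne_zero.2 he) hη hη2 h0 (fun z hz hn => ?_) hnear
        (fun t ht => ?_) (fun t ht => ?_)
      · have := F.cone z hz hn
        rw [div_neg, neg_im, neg_re, abs_neg, abs_neg]; exact this
      · have := s1 t ht
        rw [div_neg, neg_re]; linarith
      · have := s2 t ht
        rw [div_neg, neg_re]; linarith
    · exfalso
      rcases lt_or_gt_of_ne tp0 with h | h
      · have := s2 tp ⟨htp.1.le, h⟩; linarith
      · have := s1 tp ⟨h, htp.2.le⟩; linarith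

end Pool.Agent.H763R2.An
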