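import Pool.Agent.H763R2.An.Cl

/-! Zeros of the map for a generic closed curve. -/

set_option autoImplicit false
open Complex Set Topology Metric

namespace Pool.Agent.H763R2.An

open Sq (Dv Cv)
open Dm (two_zero)

variable {c q : ℝ → ℂ} {M : ℂ → ℝ} {κ : ZMod 2} {θ : ℝ → ℝ → ℝ} {g : ℤ}

theorem Simple.shift {z : ℂ} (h : Simple q z) (s : ℝ) : Simple (fun t => q (t + s)) z := by
  obtain ⟨t, e, η, he, hη, ht, hl, hf⟩ := h
  refine ⟨t - s, e, η, he, hη, by simp only [sub_add_cancel]; exact ht, fun s' hs' => ?_,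
    fun t' ht' => ?_⟩
  · show q (t - s + s' + s) = q (t - s + s) + s' * e
    rw [show t - s + s' + s = t + s' by ring, sub_add_cancel]; exact hl s' hs'
  · obtain ⟨n, hn⟩ := hf (t' + s) ht'
    exact ⟨n, by linarith⟩

theorem Gen.shift (h : Gen q) (s : ℝ) : Gen (fun t => q (t + s)) where
  L := h.L.shift s
  sq x y hxy hD hC := by
    rw [range_shift] at hD hC
    obtain ⟨a1, a2, a3, a4⟩ := h.sq (x + s) (y + s) hxy hD hC
    exact ⟨a1.shift s, a2.shift s, a3.shift s, a4.shift s⟩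
  db x y h1 h2 hxy := by
    obtain ⟨e, f, η, he, hf, hef, hη, l1, l2, hfib⟩ :=
      h.db (x + s) (y + s) (by linarith) (by linarith) hxy
    refine ⟨e, f, η, he, hf, hef, hη, fun s' hs' => ?_, fun s' hs' => ?_, fun t ht => ?_⟩
    · show q (x + s' + s) = q (x + s) + s' * e
      rw [show x + s' + s = x + s + s' by ring]; exact l1 s' hs'
    · show q (y + s' + s) = q (y + s) + s' * f
      rw [show y + s' + s = y + s + s' by ring]; exact l2 s' hs'
    · rcases hfib (t + s) ht with ⟨n, hn⟩ | ⟨n, hn⟩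
      · exact Or.inl ⟨n, by linarith⟩
      · exact Or.inr ⟨n, by linarith⟩
  fin R := by
    refine ((h.fin (R + |s|)).image (fun p : ℝ × ℝ => (p.1 - s, p.2 - s))).subset ?_
    rintro ⟨x, y⟩ ⟨⟨⟨hU1, hU2⟩, hD, hC⟩, hR⟩
    simp only [mem_ofPred_eq] at hR hU1 hU2
    rw [range_shift] at hD hC
    refine ⟨(x + s, y + s), ⟨⟨⟨by simp only; linarith, by simp only; linarith⟩, hD, hC⟩, ?_⟩,
      by simp⟩
    simp only [mem_ofPred_eq]
    have := abs_add_le x s
    linarith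
  lin := by
    obtain ⟨a, b, hab, hl⟩ := h.lin
    refine ⟨a - s, b - s, by linarith, fun t ht => ?_⟩
    obtain ⟨e, η, he, hη, hl⟩ := hl (t + s) ⟨by linarith [ht.1], by linarith [ht.2]⟩
    refine ⟨e, η, he, hη, fun s' hs' => ?_⟩
    show q (t + s' + s) = q (t + s) + s' * e
    rw [show t + s' + s = t + s + s' by ring]; exact hl s' hs'

theorem Loop.par01' (L : Loop c) {z : ℂ} (hz : z ∈ range c) : ∃ t ∈ Ico (0:ℝ) 1, c t = z := by
  obtain ⟨u, rfl⟩ := hz
  refine ⟨Int.fract u, ⟨Int.fract_nonneg u, Int.fract_lt_one u⟩, ?_⟩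
  have := L.per_int (Int.fract u) ⌊u⌋
  rw [Int.fract_add_floor] at this
  exact this.symm

open Classical in
/-- a parameter in `[0, 1)` -/
noncomputable def pr (q : ℝ → ℂ) (z : ℂ) : ℝ :=
  if h : ∃ t ∈ Ico (0:ℝ) 1, q t = z then h.choose else 0

theorem pr_spec (L : Loop q) {z : ℂ} (hz : z ∈ range q) :
    pr q z ∈ Ico (0:ℝ) 1 ∧ q (pr q z) = z := by
  have h := L.par01' hz
  unfold pr
  rw [dif_pos h]
  exact h.choose_spec

theorem int_eq {a b : ℝ} {n : ℤ} (ha : a ∈ Ico (0:ℝ) 1) (hb : b ∈ Ico (0:ℝ) 1) (h : a = b + n) :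
    a = b := by
  have h1 : (n : ℝ) < 1 := by linarith [ha.2, hb.1]
  have h2 : (-1 : ℝ) < n := by linarith [ha.1, hb.2]
  have h3 : n < 1 := by exact_mod_cast h1
  have h4 : -1 < n := by exact_mod_cast h2
  have : n = 0 := by omega
  rw [h, this]; simp

theorem pr_eq (L : Loop q) {z : ℂ} (h : Simple q z) {t : ℝ} (ht : t ∈ Ico (0:ℝ) 1)
    (e : q t = z) : pr q z = t := by
  obtain ⟨t0, _, _, _, _, h0, _, hf⟩ := h
  obtain ⟨h1, h2⟩ := pr_spec L (z := z) ⟨t, e⟩
  obtain ⟨n, hn⟩ := hf _ h2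
  obtain ⟨n', hn'⟩ := hf _ e
  exact int_eq (n := n - n') h1 ht (by push_cast; linarith)

theorem Simple.lin (L : Loop q) {x : ℝ} (h : Simple q (q x)) :
    ∃ (e : ℂ) (η : ℝ), e ≠ 0 ∧ 0 < η ∧ Lin q x e η := by
  obtain ⟨t, e, η, he, hη, h0, hl, hf⟩ := h
  obtain ⟨n, hn⟩ := hf x rfl
  refine ⟨e, η, he, hη, fun s hs => ?_⟩
  rw [hn, show t + n + s = t + s + n by ring, L.per_int, L.per_int]
  exact hl s hs

-- rotation of the vertices
theorem rot_ne {a b t : ℝ} (h : q a ≠ q b) (e : q t = CC q a b) : q b ≠ q t := by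
  intro h2
  rw [e] at h2
  unfold CC Cv at h2
  have : I * (q b - q a) = 0 := by linear_combination -h2
  rcases mul_eq_zero.1 this with h3 | h3
  · exact I_ne_zero h3
  · exact h (sub_eq_zero.1 h3).symm
theorem rot_DD {a b t : ℝ} (e : q t = CC q a b) : DD q b t = q a := by
  unfold DD Dv; rw [e]; unfold CC Cv
  linear_combination (q b - q a) * I_mul_I
theorem rot_CC {a b t : ℝ} (e : q t = CC q a b) : CC q b t = DD q a b := by
  unfold CC Cv; rw [e]; unfold CC DD Cv Dv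
  linear_combination (q b - q a) * I_mul_I
theorem tor_ne {a b t : ℝ} (h : q a ≠ q b) (e : q t = DD q a b) : q t ≠ q a := by
  intro h2
  rw [e] at h2
  unfold DD Dv at h2
  have : I * (q b - q a) = 0 := by linear_combination h2
  rcases mul_eq_zero.1 this with h3 | h3
  · exact I_ne_zero h3
  · exact h (sub_eq_zero.1 h3).symm
theorem tor_DD {a b t : ℝ} (e : q t = DD q a b) : DD q t a = CC q a b := by
  unfold DD Dv; rw [e]; unfold CC DD Cv Dv
  linear_combination (q a - q b) * I_mul_I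
theorem tor_CC {a b t : ℝ} (e : q t = DD q a b) : CC q t a = q b := by
  unfold CC Cv; rw [e]; unfold DD Dv
  linear_combination (q a - q b) * I_mul_I

theorem dbl_mem {x y : ℝ} (h1 : x < y) (h2 : y < x + 1) (h : q x = q y) : (x, y) ∈ Zq q := by
  refine ⟨⟨h1, h2⟩, ⟨x, ?_⟩, ⟨x, ?_⟩⟩
  · simp only; unfold DD Dv; rw [h]; ring
  · simp only; unfold CC Cv; rw [h]; ring

theorem Zq_per (L : Loop q) {x y : ℝ} (h : (x, y) ∈ Zq q) (n : ℤ) : (x + n, y + n) ∈ Zq q := by
  obtain ⟨⟨h1, h2⟩, h3, h4⟩ := h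
  simp only at h1 h2 h3 h4
  refine ⟨⟨by simp only; linarith, by simp only; linarith⟩, ?_, ?_⟩
  · simp only
    have : DD q (x + n) (y + n) = DD q x y := by unfold DD; rw [L.per_int, L.per_int]
    rw [this]; exact h3
  · simp only
    have : CC q (x + n) (y + n) = CC q x y := by unfold CC; rw [L.per_int, L.per_int]
    rw [this]; exact h4

theorem Zq_iff (L : Loop q) (S : Sg q M κ) {x y : ℝ} (h : (x, y) ∈ UU) :
    GG q M x y = 0 ↔ (x, y) ∈ Zq q := by
  rw [← not_iff_not, ← ne_eq, GG_ne, S.zero L, S.zero L, not_iff_not]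
  exact ⟨fun h' => ⟨h, h'.1, h'.2⟩, fun h' => ⟨h'.2.1, h'.2.2⟩⟩

/-- no zero has an integral coordinate -/
theorem nint (L : Loop q) (h0 : ∀ y, (0, y) ∉ Zq q) {x y : ℝ} (h : (x, y) ∈ Zq q) (n : ℤ) :
    x ≠ n ∧ y ≠ n := by
  have key : ∀ x y : ℝ, (x, y) ∈ Zq q → ∀ n : ℤ, x ≠ n := by
    intro x y h n hx
    have := Zq_per L h (-n)
    rw [hx] at this
    push_cast at this
    rw [add_neg_cancel] at this
    exact h0 _ this
  refine ⟨key x y h n, fun hy => ?_⟩
  obtain ⟨⟨h1, h2⟩, h3, h4⟩ := h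
  simp only at h1 h2 h3 h4
  by_cases hxy : q x = q y
  · have : (y, x + 1) ∈ Zq q := dbl_mem h2 (by linarith) (by rw [L.per, hxy])
    exact key _ _ this n hy
  · obtain ⟨t, ht, e⟩ := (L.shift y).par01' (by rw [range_shift]; exact h4)
    have e' : q (t + y) = CC q x y := e
    have hne := rot_ne hxy e'
    have t0 : t ≠ 0 := by
      rintro rfl; rw [zero_add] at hne; exact hne rfl
    have tp := lt_of_le_of_ne ht.1 t0.symm
    refine key y (t + y) ⟨⟨by simp only; linarith, by simp only; linarith [ht.2]⟩, ?_, ?_⟩ n hy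
    · simp only; rw [rot_DD e']; exact mem_range_self x
    · simp only; rw [rot_CC e']; exact h3

theorem fin_pos {Z : Set (ℝ × ℝ)} (hZ : Z.Finite) {f : ℝ × ℝ → ℝ} (h : ∀ z ∈ Z, 0 < f z) :
    ∃ η > 0, ∀ z ∈ Z, η < f z := by
  rcases Z.eq_empty_or_nonempty with h0 | h0
  · exact ⟨1, one_pos, fun z hz => by rw [h0] at hz; exact absurd hz (notMem_empty z)⟩
  · obtain ⟨z, hz, hm⟩ := exists_min_image Z f hZ h0
    exact ⟨f z / 2, by have := h z hz; positivity, fun w hw => by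
      have := hm w hw; have := h z hz; linarith⟩

theorem margin (hG : Gen q) (h0 : ∀ y, (0, y) ∉ Zq q) :
    ∃ η > 0, ∀ x y, (x, y) ∈ Zq q → |x| ≤ 3 → ∀ n : ℤ, η < |x - n| ∧ η < |y - n| := by
  obtain ⟨η, hη, h⟩ := fin_pos (hG.fin 3)
    (f := fun z => min |z.1 - round z.1| |z.2 - round z.2|) (fun z hz => by
      have := fun n => nint hG.L h0 (x := z.1) (y := z.2) hz.1 n
      exact lt_min (abs_pos.2 (sub_ne_zero.2 (this _).1)) (abs_pos.2 (sub_ne_zero.2 (this _).2)))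
  refine ⟨η, hη, fun x y hz hx n => ?_⟩
  have := h (x, y) ⟨hz, hx⟩
  simp only [lt_min_iff] at this
  exact ⟨this.1.trans_le (round_le x n), this.2.trans_le (round_le y n)⟩

theorem germ {x y η1 η2 R σ : ℝ} {e f : ℂ} (h1 : 0 < η1) (h2 : 0 < η2) (hR : 0 < R)
    (l1 : Lin q x e η1) (l2 : Lin q y f η2)
    (o1 : ∀ ζ : ℂ, ‖ζ‖ < R → M (DD q x y + ζ) = σ * M (DD q x y - ζ))
    (o2 : ∀ ζ : ℂ, ‖ζ‖ < R → M (CC q x y + ζ) = σ * M (CC q x y - ζ)) :
    ∃ r > 0, ∀ s ∈ Icc (-r) r, ∀ t ∈ Icc (-r) r,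
      GG q M (x + s) (y + t) = σ * GG q M (x - s) (y - t) := by
  set m := 2 * ‖e‖ + 2 * ‖f‖ + 1 with hm
  have hm0 : 0 < m := by positivity
  refine ⟨min (min η1 η2) (R / (4 * m)), by positivity, fun s hs t ht => ?_⟩
  set r := min (min η1 η2) (R / (4 * m)) with hr
  have r1 : r ≤ η1 := (min_le_left _ _).trans (min_le_left _ _)
  have r2 : r ≤ η2 := (min_le_left _ _).trans (min_le_right _ _)
  have r3 : r ≤ R / (4 * m) := min_le_right _ _
  have r0 : 0 < r := by positivity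
  have hs' : |s| ≤ r := abs_le.2 hs
  have ht' : |t| ≤ r := abs_le.2 ht
  have bd : (|s| + |t|) * m < R := by
    rw [le_div_iff₀ (by positivity)] at r3
    have : (|s| + |t|) * m ≤ 2 * r * m := by
      apply mul_le_mul_of_nonneg_right _ hm0.le; linarith
    linarith
  have es : q (x + s) = q x + s * e := l1 s (hs'.trans r1)
  have es' : q (x - s) = q x - s * e := by
    have := l1 (-s) (by rw [abs_neg]; exact hs'.trans r1)
    rw [← sub_eq_add_neg] at this
    rw [this]; push_cast; ring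
  have et : q (y + t) = q y + t * f := l2 t (ht'.trans r2)
  have et' : q (y - t) = q y - t * f := by
    have := l2 (-t) (by rw [abs_neg]; exact ht'.trans r2)
    rw [← sub_eq_add_neg] at this
    rw [this]; push_cast; ring
  have d1 : DD q (x + s) (y + t) = DD q x y + (s * e - I * (s * e) + I * (t * f)) := by
    unfold DD Dv; rw [es, et]; ring
  have d2 : DD q (x - s) (y - t) = DD q x y - (s * e - I * (s * e) + I * (t * f)) := by
    unfold DD Dv; rw [es', et']; ring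
  have c1 : CC q (x + s) (y + t) = CC q x y + (t * f + I * (t * f) - I * (s * e)) := by
    unfold CC Cv; rw [es, et]; ring
  have c2 : CC q (x - s) (y - t) = CC q x y - (t * f + I * (t * f) - I * (s * e)) := by
    unfold CC Cv; rw [es', et']; ring
  have ne : ‖(s * e : ℂ)‖ = |s| * ‖e‖ := by rw [norm_mul, norm_real, Real.norm_eq_abs]
  have nf : ‖(t * f : ℂ)‖ = |t| * ‖f‖ := by rw [norm_mul, norm_real, Real.norm_eq_abs]
  have b1 := mul_nonneg (abs_nonneg s) (norm_nonneg f)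
  have b2 := mul_nonneg (abs_nonneg t) (norm_nonneg e)
  have b3 := mul_nonneg (abs_nonneg t) (norm_nonneg f)
  have b6 := mul_nonneg (abs_nonneg s) (norm_nonneg e)
  have b4 := abs_nonneg s
  have b5 := abs_nonneg t
  have n1 : ‖(s * e - I * (s * e) + I * (t * f) : ℂ)‖ ≤ (|s| + |t|) * m := by
    have a1 := norm_add_le (s * e - I * (s * e)) (I * (t * f))
    have a2 := norm_sub_le (s * e) (I * (s * e))
    rw [norm_mul I, norm_I, one_mul] at a1 a2
    rw [ne] at a2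
    rw [nf] at a1
    rw [hm]; nlinarith
  have n2 : ‖(t * f + I * (t * f) - I * (s * e) : ℂ)‖ ≤ (|s| + |t|) * m := by
    have a1 := norm_sub_le (t * f + I * (t * f)) (I * (s * e))
    have a2 := norm_add_le (t * f) (I * (t * f))
    rw [norm_mul I, norm_I, one_mul] at a1 a2
    rw [nf] at a2
    rw [ne] at a1
    rw [hm]; nlinarith
  have k1 := o1 _ (n1.trans_lt bd)
  have k2 := o2 _ (n2.trans_lt bd)
  unfold GG
  rw [d1, d2, c1, c2, k1, k2]
  push_cast
  ring

open Classical in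
/-- parity attached to a zero -/
noncomputable def io (q : ℝ → ℂ) (z : ℝ × ℝ) : ZMod 2 := if q z.1 = q z.2 then 0 else 1

theorem germ_io (hG : Gen q) (S : Sg q M κ) {z : ℝ × ℝ} (hz : z ∈ Zq q) :
    ∃ r > 0, ∀ s ∈ Icc (-r) r, ∀ t ∈ Icc (-r) r,
      GG q M (z.1 + s) (z.2 + t) = sg (io q z) * GG q M (z.1 - s) (z.2 - t) := by
  obtain ⟨⟨h1, h2⟩, h3, h4⟩ := hz
  by_cases h : q z.1 = q z.2
  · obtain ⟨e, f, η, he, hf, hef, hη, l1, l2, hfib⟩ := hG.db _ _ h1 h2 h
    obtain ⟨R, hR, hev⟩ := even_double hG.L S he hf hef hη l1 l2 h hfib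
    have e1 : DD q z.1 z.2 = q z.1 := by unfold DD Dv; rw [h]; ring
    have e2 : CC q z.1 z.2 = q z.1 := by unfold CC Cv; rw [h]; ring
    have : sg (io q z) = 1 := by unfold io; rw [if_pos h]; simp [sg]
    rw [this]
    exact germ hη hη hR l1 l2 (fun ζ hζ => by rw [e1, hev ζ hζ, one_mul])
      (fun ζ hζ => by rw [e2, hev ζ hζ, one_mul])
  · obtain ⟨s1, s2, s3, s4⟩ := hG.sq _ _ h h3 h4
    obtain ⟨e, η1, -, hη1, l1⟩ := s1.lin hG.L
    obtain ⟨f, η2, -, hη2, l2⟩ := s2.lin hG.L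
    obtain ⟨R1, hR1, o1⟩ := s4.odd hG.L S
    obtain ⟨R2, hR2, o2⟩ := s3.odd hG.L S
    have : sg (io q z) = -1 := by unfold io; rw [if_neg h]; simp [sg]
    rw [this]
    exact germ hη1 hη2 (lt_min hR1 hR2) l1 l2
      (fun ζ hζ => by rw [o1 ζ (lt_of_lt_of_le hζ (min_le_left _ _))]; ring)
      (fun ζ hζ => by rw [o2 ζ (lt_of_lt_of_le hζ (min_le_right _ _))]; ring)

end Pool.Agent.H763R2.An
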