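import Pool.Agent.H763R2.An.Co

/-! The degree of a square-free Jordan curve is odd. -/

set_option autoImplicit false
open Complex Set Topology Metric

namespace Pool.Agent.H763R2.An

open Sq (Dv Cv)
open Dm (NoSq)

variable {c q : ℝ → ℂ} {M : ℂ → ℝ} {κ : ZMod 2} {θ : ℝ → ℝ → ℝ} {g : ℤ}

theorem Stc_UU {η : ℝ} (h0 : 0 < η) (h1 : η < 1 / 2) {x y : ℝ} (h : Stc η (x, y)) :
    (x, y) ∈ UU ∧ |x| ≤ 3 ∧ ∃ n : ℤ, |x - n| ≤ η ∨ |y - n| ≤ η := by
  rcases h with ⟨e, h2, h3⟩ | ⟨e, h2, h3⟩ | ⟨e, h2, h3⟩ | ⟨e, h2, h3⟩ | ⟨e, h2, h3⟩ | ⟨e, h2, h3⟩ <;>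
  simp only at e h2 h3 <;> subst e
  · refine ⟨⟨by simp only; linarith, by simp only; linarith⟩, by simp, 0, Or.inl ?_⟩
    simp [h0.le]
  · refine ⟨⟨by simp only; linarith, by simp only; linarith⟩, by
      rw [abs_le]; constructor <;> linarith, 1, Or.inr ?_⟩
    rw [Int.cast_one, abs_le]; constructor <;> linarith
  · refine ⟨⟨by simp only; linarith, by simp only; linarith⟩, by
      rw [abs_le]; constructor <;> linarith, 0, Or.inl ?_⟩
    rw [Int.cast_zero, abs_le]; constructor <;> linarith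
  · refine ⟨⟨by simp only; linarith, by simp only; linarith⟩, by
      rw [abs_le]; constructor <;> linarith, 1, Or.inr ?_⟩
    rw [Int.cast_one, abs_le]; constructor <;> linarith
  · refine ⟨⟨by simp only; linarith, by simp only; linarith⟩, by
      rw [abs_le]; constructor <;> linarith, 1, Or.inl ?_⟩
    rw [Int.cast_one, abs_le]; constructor <;> linarith
  · refine ⟨⟨by simp only; linarith, by simp only; linarith⟩, by
      rw [abs_le]; constructor <;> linarith, 1, Or.inr ?_⟩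
    rw [Int.cast_one, abs_le]; constructor <;> linarith

theorem Stc_Kr {ρ : ℝ} (h0 : 0 < ρ) (h1 : ρ ≤ 1 / 8) {x y : ℝ} (h : Stc ρ (x, y)) :
    Kr ρ x y := by
  rcases h with ⟨e, h2, h3⟩ | ⟨e, h2, h3⟩ | ⟨e, h2, h3⟩ | ⟨e, h2, h3⟩ | ⟨e, h2, h3⟩ | ⟨e, h2, h3⟩ <;>
  simp only at e h2 h3 <;> subst e <;> constructor <;> linarith

/-- a base point gives a flat point -/
theorem flat_base (L : Loop q) (J : Inj0 q) {e : ℂ} {η : ℝ} (he : e ≠ 0) (hη : 0 < η)
    (hl : Lin q 0 e η) : ∃ ε, Flat (range q) (q 0) e ε := by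
  have hne : 0 < ‖e‖ := norm_pos_iff.2 he
  obtain ⟨δ, hδ, hn⟩ := L.near_fib (q 0) hη
  have hfib : ∀ t, q t = q 0 → ∃ n : ℤ, t = n := by
    intro t ht
    have e1 : q (Int.fract t) = q t := by
      have := L.per_int (Int.fract t) ⌊t⌋
      rw [Int.fract_add_floor] at this
      exact this.symm
    have f0 := Int.fract_nonneg t
    have f1 := Int.fract_lt_one t
    rcases lt_or_eq_of_le f0 with h | h
    · exact absurd (e1.trans ht) (J _ h f1)
    · refine ⟨⌊t⌋, ?_⟩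
      have := Int.fract_add_floor t
      rw [← h, zero_add] at this
      exact this.symm
  have pos : ∀ s : ℝ, |s| ≤ η → (q s - q 0) / e = s := by
    intro s hs
    have := hl s hs
    rw [zero_add] at this
    rw [this, add_sub_cancel_left, mul_div_cancel_right₀ _ he]
  refine ⟨δ, he, hδ, ?_, fun d hd => ?_, fun d hd => ?_⟩
  · rintro _ ⟨t, rfl⟩ ht
    obtain ⟨t', ht', htt⟩ := hn t ht
    obtain ⟨n, rfl⟩ := hfib t' ht'
    have h3 := L.per_int (t - n) n
    rw [sub_add_cancel] at h3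
    rw [h3, pos (t - n) htt.le]
    simp
  · set s := min η (d / (2 * ‖e‖)) with hs
    have hs0 : 0 < s := by positivity
    have hs1 : s ≤ η := min_le_left _ _
    have hs2 : s * ‖e‖ < d := by
      have : s ≤ d / (2 * ‖e‖) := min_le_right _ _
      rw [le_div_iff₀ (by positivity)] at this
      linarith
    have hp := pos s (by rw [abs_of_pos hs0]; exact hs1)
    refine ⟨q s, mem_range_self s, ?_, by rw [hp, ofReal_re]; exact hs0⟩
    rw [div_eq_iff he] at hp
    rw [hp, norm_mul, norm_real, Real.norm_of_nonneg hs0.le]; exact hs2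
  · set s := min η (d / (2 * ‖e‖)) with hs
    have hs0 : 0 < s := by positivity
    have hs1 : s ≤ η := min_le_left _ _
    have hs2 : s * ‖e‖ < d := by
      have : s ≤ d / (2 * ‖e‖) := min_le_right _ _
      rw [le_div_iff₀ (by positivity)] at this
      linarith
    have hp := pos (-s) (by rw [abs_neg, abs_of_pos hs0]; exact hs1)
    refine ⟨q (-s), mem_range_self _, ?_, by rw [hp, ofReal_re]; linarith⟩
    rw [div_eq_iff he] at hp
    rw [hp, norm_mul, norm_real, norm_neg, Real.norm_of_nonneg hs0.le]; exact hs2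

/-- the parity computed on a generic curve with a base point -/
theorem gen_parity (hG : Gen q) (S : Sg q M κ) (h0 : ∀ y, (0, y) ∉ Zq q) {e : ℂ} {η1 : ℝ}
    (he : e ≠ 0) (hη1 : 0 < η1) (hl : Lin q 0 e η1) {ρ : ℝ} (hρ0 : 0 < ρ) (hρ : ρ ≤ 1 / 8)
    (hK : ∀ x y, Kr ρ x y → (x, y) ∉ Zq q) : Pw (SS (GG q M) ρ) 1 := by
  classical
  have L := hG.L
  have J : Inj0 q := fun t h1 h2 h => h0 t (dbl_mem h1 (by linarith) h.symm)
  have hGc := GG_cont L S.cont
  have nz : ∀ x y, (x, y) ∈ UU → (x, y) ∉ Zq q → GG q M x y ≠ 0 := fun x y hU hz h =>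
    hz ((Zq_iff L S hU).1 h)
  have hz : NZ0 q M := by
    intro y h1 h2
    have u1 : ((0, y) : ℝ × ℝ) ∈ UU := ⟨h1, by simp only; linarith⟩
    have u2 : ((y, 1) : ℝ × ℝ) ∈ UU := ⟨h2, by simp only; linarith⟩
    refine ⟨GG_ne.1 (nz _ _ u1 (h0 y)), GG_ne.1 (nz _ _ u2 fun h => ?_)⟩
    have := (nint L h0 h 1).2
    simp at this
  obtain ⟨ε, F⟩ := flat_base L J he hη1 hl
  obtain ⟨m0, hm0⟩ := loc_of_flat L J S rfl F
  obtain ⟨η0, hη0, hmar⟩ := margin hG h0
  obtain ⟨k, hk⟩ := exists_nat_one_div_lt (show 0 < min η0 ρ by positivity)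
  set m := m0 + (k + 1) with hm
  have hmk : (1 : ℝ) / m ≤ 1 / (k + 1) := by
    apply one_div_le_one_div_of_le (by positivity)
    rw [hm]; push_cast
    have : (0:ℝ) ≤ m0 := Nat.cast_nonneg m0
    linarith
  have hm1 := hmk.trans_lt hk
  have hml := hm0 m (by omega)
  set η : ℝ := 1 / m with hη
  have hηp : 0 < η := by
    rw [hη]; apply one_div_pos.2
    have : 0 < m := by omega
    exact_mod_cast this
  have hη2 : η < η0 := hm1.trans_le (min_le_left _ _)
  have hη3 : η < ρ := hm1.trans_le (min_le_right _ _)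
  have hη4 : η < 1 / 2 := by linarith
  have hmar' : ∀ x y, (x, y) ∈ Zq q → |x| ≤ 3 → ∀ n : ℤ, η < |x - n| ∧ η < |y - n| :=
    fun x y h hx n => ⟨hη2.trans (hmar x y h hx n).1, hη2.trans (hmar x y h hx n).2⟩
  have nzm : ∀ x y, (x, y) ∈ UU → |x| ≤ 3 → ∀ n : ℤ, (|x - n| ≤ η ∨ |y - n| ≤ η) →
      GG q M x y ≠ 0 := by
    intro x y hU hx n h
    refine nz x y hU fun hz => ?_
    obtain ⟨a1, a2⟩ := hmar' x y hz hx n
    rcases h with h | h <;> linarith
  have hne : ∀ x y, Stc η (x, y) → GG q M x y ≠ 0 := by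
    intro x y h
    obtain ⟨hU, hx, n, hn⟩ := Stc_UU hηp hη4 h
    exact nzm x y hU hx n hn
  have hodd : Pw (SS (GG q M) η) 1 := by
    rcases hml with Λ | Λ
    · exact SS_odd L S hz Λ hne
    · have hz' : NZ0 q (fun z => - M z) := by
        intro y h1 h2
        have := hz y h1 h2
        simpa using this
      have := SS_odd L (S.neg L) hz' Λ (fun x y h => by
        rw [GG_neg]; exact neg_ne_zero.2 (hne x y h))
      have e1 : GG q (fun z => - M z) = fun x y => - GG q M x y := by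
        funext x y; exact GG_neg x y
      rw [e1, SS_neg hηp hη4 hGc hne] at this
      exact this
  have nK : ∀ x y, Kr ρ x y → GG q M x y ≠ 0 := fun x y h =>
    nz x y ⟨by simp only; linarith [h.1], by simp only; linarith [h.2]⟩ (hK x y h)
  have a0 : ∀ {x : ℝ}, 0 ≤ x → x ≤ 1 → |x| ≤ 3 := fun h1 h2 => by
    rw [abs_le]; constructor <;> linarith
  -- the sides
  have n1 : ∀ y ∈ Icc η (1 - η), GG q M 0 y ≠ 0 := fun y hy =>
    nzm 0 y ⟨by simp only; linarith [hy.1], by simp only; linarith [hy.2]⟩ (by simp) 0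
      (Or.inl (by simp [hηp.le]))
  have n2 : ∀ x ∈ Icc η (1 - η), GG q M x 1 ≠ 0 := fun x hx =>
    nzm x 1 ⟨by simp only; linarith [hx.2], by simp only; linarith [hx.1]⟩
      (a0 (by linarith [hx.1]) (by linarith [hx.2])) 1 (Or.inr (by simp [hηp.le]))
  have n3 : ∀ y ∈ Icc (1 - ρ) 1, GG q M ρ y ≠ 0 := fun y hy =>
    nK ρ y ⟨by linarith [hy.1], by linarith [hy.2]⟩
  have n4 : ∀ x ∈ Icc 0 ρ, GG q M x (1 - η) ≠ 0 := fun x hx =>
    nzm x (1 - η) ⟨by simp only; linarith [hx.2], by simp only; linarith [hx.1]⟩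
      (a0 hx.1 (by linarith [hx.2])) 1 (Or.inr (by
        rw [Int.cast_one, abs_le]; constructor <;> linarith))
  have n5 : ∀ y ∈ Icc 1 (1 + ρ), GG q M (1 - ρ) y ≠ 0 := fun y hy =>
    nK _ y ⟨by linarith [hy.1], by linarith [hy.2]⟩
  have n6 : ∀ x ∈ Icc (1 - ρ) 1, GG q M x (1 + η) ≠ 0 := fun x hx =>
    nzm x (1 + η) ⟨by simp only; linarith [hx.2], by simp only; linarith [hx.1]⟩
      (a0 (by linarith [hx.1]) hx.2) 1 (Or.inr (by
        rw [Int.cast_one, abs_le]; constructor <;> linarith))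
  have D := SS_diff hGc (GG_per L) hηp hη3 (by linarith) n1 n2 n3 n4 n5 n6
  have w2 : Wd (GG q M) η ρ (1 - η) 1 = 0 := Wd_zero hGc hη3.le (by linarith) (fun x hx y hy =>
    nzm x y ⟨by simp only; linarith [hx.2, hy.1], by simp only; linarith [hx.1, hy.2]⟩
      (a0 (by linarith [hx.1]) (by linarith [hx.2])) 1 (Or.inr (by
        rw [Int.cast_one, abs_le]; constructor <;> linarith [hy.1, hy.2])))
  have w4 : Wd (GG q M) (1 - ρ) (1 - η) 1 (1 + η) = 0 :=
    Wd_zero hGc (by linarith) (by linarith) (fun x hx y hy =>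
    nzm x y ⟨by simp only; linarith [hx.2, hy.1], by simp only; linarith [hx.1, hy.2]⟩
      (a0 (by linarith [hx.1]) (by linarith [hx.2])) 1 (Or.inr (by
        rw [Int.cast_one, abs_le]; constructor <;> linarith [hy.1, hy.2])))
  have hloc : ∀ z ∈ (hG.fin 3).toFinset, ∃ r > 0, ∀ s ∈ Icc (-r) r, ∀ t ∈ Icc (-r) r,
      GG q M (z.1 + s) (z.2 + t) = sg (io q z) * GG q M (z.1 - s) (z.2 - t) := fun z hz =>
    germ_io hG S ((Set.Finite.mem_toFinset _).1 hz).1
  have B1 : Bd (GG q M) 0 ρ (1 - ρ) (1 - η) := ⟨hρ0.le, by linarith,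
    fun x hx => nK _ _ ⟨by linarith [hx.2], by linarith [hx.1]⟩, n4,
    fun y hy => n1 y ⟨by linarith [hy.1], hy.2⟩,
    fun y hy => n3 y ⟨hy.1, by linarith [hy.2]⟩⟩
  have B3 : Bd (GG q M) (1 - ρ) 1 (1 + η) (1 + ρ) := ⟨by linarith, by linarith, n6,
    fun x hx => nK _ _ ⟨by linarith [hx.2], by linarith [hx.1]⟩,
    fun y hy => n5 y ⟨by linarith [hy.1], hy.2⟩,
    fun y hy => by
      have e1 := GG_per (M := M) L 0 (y - 1)
      rw [zero_add, sub_add_cancel] at e1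
      rw [e1]
      exact n1 (y - 1) ⟨by linarith [hy.1], by linarith [hy.2]⟩⟩
  have p1 := Wd_sum hGc (hG.fin 3).toFinset (io q) hloc _ 0 ρ (1 - ρ) (1 - η) B1
    (fun x hx y hy h => by
      rw [Set.Finite.mem_toFinset]
      exact ⟨(Zq_iff L S ⟨by simp only; linarith [hx.2, hy.1], by
        simp only; linarith [hx.1, hy.2]⟩).1 h, a0 hx.1 (by linarith [hx.2])⟩) rfl
  have p3 := Wd_sum hGc (hG.fin 3).toFinset (io q) hloc _ (1 - ρ) 1 (1 + η) (1 + ρ) B3
    (fun x hx y hy h => by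
      rw [Set.Finite.mem_toFinset]
      exact ⟨(Zq_iff L S ⟨by simp only; linarith [hx.2, hy.1], by
        simp only; linarith [hx.1, hy.2]⟩).1 h, a0 (by linarith [hx.1]) hx.2⟩) rfl
  have hs := sums_eq hG hρ0 hρ hηp hK hmar'
  rw [hs] at p1
  rw [w2, w4, sub_zero, add_zero] at D
  have e1 : SS (GG q M) ρ = SS (GG q M) η + (Wd (GG q M) 0 ρ (1 - ρ) (1 - η) +
      -Wd (GG q M) (1 - ρ) 1 (1 + η) (1 + ρ)) := by
    linear_combination -D
  rw [e1]
  have := hodd.add (p1.add p3.neg)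
  rwa [Dm.two_zero, add_zero] at this

/-- the degree is odd -/
theorem odd_all (L : Loop c) (J : Inj c) (nosq : NoSq (range c)) (A : Ang c (mgc c) θ g)
    (happ : ∀ ε > 0, ∃ q : ℝ → ℂ, Gen q ∧ ∀ t, ‖q t - c t‖ ≤ ε) : Odd g := by
  classical
  have S := mgc_sg L
  obtain ⟨δ, hδ, hKδ⟩ := Kr_bound L J S nosq (ρ := 1 / 8) (by norm_num) (by norm_num)
  obtain ⟨q, hG, hcl⟩ := happ (δ / 24) (by positivity)
  obtain ⟨a, b, hab, hlin⟩ := hG.lin
  obtain ⟨σ, hσ, hσ'⟩ := (Ioo_infinite hab).exists_notMem_finset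
    ((hG.fin (|a| + |b|)).toFinset.image Prod.fst)
  obtain ⟨e, η1, he, hη1, hl⟩ := hlin σ hσ
  have hG' := hG.shift σ
  have Sq' := (mgc_sg hG.L).shift hG.L σ
  have hc1 : ∀ x y, GG (fun t => c (t + σ)) (mgc c) x y = GG c (mgc c) (x + σ) (y + σ) :=
    fun x y => rfl
  have hq1 : ∀ x y, GG (fun t => q (t + σ)) (mgc q) x y = GG q (mgc q) (x + σ) (y + σ) :=
    fun x y => rfl
  have hclose : ∀ x y, Kr (1 / 8) x y → ‖GG (fun t => q (t + σ)) (mgc q) x y -
      GG (fun t => c (t + σ)) (mgc c) x y‖ < ‖GG (fun t => c (t + σ)) (mgc c) x y‖ := by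
    intro x y h
    rw [hc1, hq1]
    have h1 := GG_close L hG.L hcl (x + σ) (y + σ)
    have h2 := hKδ (x + σ) (y + σ) ⟨by linarith [h.1], by linarith [h.2]⟩
    linarith
  have h0 : ∀ y, ((0, y) : ℝ × ℝ) ∉ Zq (fun t => q (t + σ)) := by
    rintro y ⟨⟨h1, h2⟩, h3, h4⟩
    simp only at h1 h2
    rw [range_shift] at h3 h4
    refine hσ' (Finset.mem_image.2 ⟨(0 + σ, y + σ), ?_, by simp⟩)
    rw [Set.Finite.mem_toFinset]
    refine ⟨⟨⟨by simp only; linarith, by simp only; linarith⟩, h3, h4⟩, ?_⟩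
    simp only [mem_ofPred_eq, zero_add]
    rw [abs_le]
    have := neg_abs_le a
    have := le_abs_self b
    have := abs_nonneg a
    have := abs_nonneg b
    constructor <;> linarith [hσ.1, hσ.2]
  have hl' : Lin (fun t => q (t + σ)) 0 e η1 := by
    intro s hs
    show q (0 + s + σ) = q (0 + σ) + s * e
    rw [show 0 + s + σ = σ + s by ring, zero_add]
    exact hl s hs
  have hK : ∀ x y, Kr (1 / 8) x y → ((x, y) : ℝ × ℝ) ∉ Zq (fun t => q (t + σ)) := by
    intro x y h hz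
    have h1 := (Zq_iff hG'.L Sq' hz.1).2 hz
    have h2 := hclose x y h
    rw [h1, zero_sub, norm_neg] at h2
    exact lt_irrefl _ h2
  have P := gen_parity hG' Sq' h0 he hη1 hl' (ρ := 1 / 8) (by norm_num) le_rfl hK
  have Lc' := L.shift σ
  have e1 : SS (GG (fun t => q (t + σ)) (mgc q)) (1 / 8) =
      SS (GG (fun t => c (t + σ)) (mgc c)) (1 / 8) :=
    SS_close (by norm_num) (by norm_num) (GG_cont Lc' S.cont) (GG_cont hG'.L (mgc_sg hG.L).cont)
      (fun x y h => hclose x y (Stc_Kr (by norm_num) le_rfl h)) (GG_per1 Lc' _)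
      (GG_per1 hG'.L _)
  have e2 := SS_ang (η := 1 / 8) Lc' S.cont (A.shift σ) (by norm_num) (by norm_num)
    (fun x y h => (Stc_UU (by norm_num) (by norm_num) h).1)
  rw [e1, e2] at P
  have P' : Pw ((g : ℂ) * (2 * Real.pi * I)) (g : ZMod 2) := ⟨g, rfl, rfl⟩
  have := P.unique P'
  by_contra hodd
  rw [Int.not_odd_iff_even] at hodd
  obtain ⟨r, rfl⟩ := hodd
  push_cast at this
  rw [Dm.two_zero] at this
  exact absurd this (by decide)

end Pool.Agent.H763R2.An
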