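import Pool.Agent.H763R2.An.F

/-! The signed distance given by the parity of the winding number, for closed curves. -/

set_option autoImplicit false
open Complex Set Topology Metric

namespace Pool.Agent.H763R2.An

open Dm (b b_true b_false two_zero log_diff_unique)

variable {c : ℝ → ℂ} {M : ℂ → ℝ} {κ : ZMod 2}

theorem IsWc.unique {z : ℂ} {n m : ℤ} (h : IsWc c z n) (h' : IsWc c z m) : n = m := by
  obtain ⟨k, hk, ek, e⟩ := h
  obtain ⟨k', hk', ek', e'⟩ := h'
  rw [log_diff_unique hk hk' ek ek', e'] at e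
  have hpi : (2 * Real.pi * I : ℂ) ≠ 0 := by simp [Real.pi_ne_zero]
  have := mul_right_cancel₀ hpi e
  exact_mod_cast this.symm

theorem ne_of_notMem {z : ℂ} (hz : z ∉ range c) : ∀ t, c t - z ≠ 0 := fun t h =>
  hz (by rw [sub_eq_zero] at h; rw [← h]; exact mem_range_self t)

/-- homotopy invariance -/
theorem homW {F : ℝ → ℝ → ℂ} (hF : Continuous fun p : ℝ × ℝ => F p.1 p.2)
    (hper : ∀ s, F s 1 = F s 0) (hne : ∀ s t, F s t ≠ 0) {k : ℝ → ℂ} (hk : Continuous k)
    (ek : ∀ t, exp (k t) = F 0 t) {k' : ℝ → ℂ} (hk' : Continuous k')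
    (ek' : ∀ t, exp (k' t) = F 1 t) : k 1 - k 0 = k' 1 - k' 0 := by
  obtain ⟨K, hK, hKe⟩ := H777R2.exists_log (X := ℝ × ℝ) (g := fun x => F x.1 x.2)
    hF (fun x => hne _ _)
  have e := H777R2.exp_const (X := ℝ)
    (k := fun s => K (s, 1) - K (s, 0)) (by fun_prop) (c := 1)
    (fun s => by
      rw [exp_sub, hKe, hKe]
      simp only [hper]
      exact div_self (hne _ _)) 0 1
  rw [log_diff_unique hk (k' := fun t => K (0, t)) (by fun_prop) ek (fun t => hKe _),
    log_diff_unique hk' (k' := fun t => K (1, t)) (by fun_prop) ek' (fun t => hKe _)]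
  exact e

theorem Loop.pathW (L : Loop c) {β : ℝ → ℂ} (hβ : Continuous β) (hC : ∀ s, β s ∉ range c)
    {n : ℤ} (h : IsWc c (β 0) n) : IsWc c (β 1) n := by
  have hc := L.cont
  have h1 : c 1 = c 0 := by have := L.per 0; rwa [zero_add] at this
  obtain ⟨k', hk', ek'⟩ := H777R2.exists_log (X := ℝ) (g := fun t => c t - β 1)
    (by fun_prop) (ne_of_notMem (hC 1))
  obtain ⟨k, hk, ek, e⟩ := h
  refine ⟨k', hk', ek', ?_⟩
  rw [← e]
  exact (homW (F := fun s t => c t - β s) (by fun_prop) (fun s => by simp only [h1])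
    (fun s t => ne_of_notMem (hC s) t) hk ek hk' ek').symm

theorem Loop.segW (L : Loop c) {z w : ℂ} (hC : ∀ s ∈ Icc (0:ℝ) 1, z + s * (w - z) ∉ range c)
    {n : ℤ} (h : IsWc c z n) : IsWc c w n := by
  have := L.pathW (β := fun s => z + ((max 0 (min 1 s) : ℝ) : ℂ) * (w - z)) (by fun_prop)
    (fun s => hC _ ⟨le_max_left _ _, max_le zero_le_one (min_le_left _ _)⟩) (n := n)
    (by simpa using h)
  simpa using this

/-- the winding number vanishes when the curve is seen in a half plane -/
theorem Loop.half (L : Loop c) {z a : ℂ} (ha : a ≠ 0) (h : ∀ t, 0 < ((c t - z) / a).re) :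
    z ∉ range c ∧ IsWc c z 0 := by
  have hc := L.cont
  have h1 : c 1 = c 0 := by have := L.per 0; rwa [zero_add] at this
  have hz : z ∉ range c := by
    rintro ⟨t, rfl⟩
    have := h t
    simp at this
  refine ⟨hz, ?_⟩
  obtain ⟨n, k, hk, ek, e⟩ := L.exW hz
  have e1 := Sq.log_diff_on (g := fun t => c t - z) (k := k) (by fun_prop) hk ek
    (c := a) ha (fun t _ => Or.inl (h t))
  simp only [h1, sub_self] at e1
  exact ⟨k, hk, ek, by rw [e1]; push_cast; ring⟩

/-- odd winding number -/
def Odc (c : ℝ → ℂ) (z : ℂ) : Prop := ∃ n, IsWc c z n ∧ Odd n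

open Classical in
/-- signed distance -/
noncomputable def mgc (c : ℝ → ℂ) (z : ℂ) : ℝ :=
  if Odc c z then infDist z (range c) else - infDist z (range c)

theorem mgc_abs (z : ℂ) : |mgc c z| = infDist z (range c) := by
  unfold mgc; split_ifs <;> simp [abs_of_nonneg infDist_nonneg]

theorem mgc_sg (L : Loop c) : Sg c (mgc c) 0 where
  abs := mgc_abs
  lip z w := by
    by_cases h : ∀ s ∈ Icc (0:ℝ) 1, z + s * (w - z) ∉ range c
    · have hz : z ∉ range c := by simpa using h 0 (by norm_num)
      have e : Odc c z ↔ Odc c w := by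
        obtain ⟨n, hn⟩ := L.exW hz
        have hw := L.segW h hn
        constructor
        · rintro ⟨m, hm, ho⟩
          rw [hm.unique hn] at ho
          exact ⟨n, hw, ho⟩
        · rintro ⟨m, hm, ho⟩
          rw [hm.unique hw] at ho
          exact ⟨n, hn, ho⟩
      have hl : |infDist z (range c) - infDist w (range c)| ≤ ‖z - w‖ := by
        rw [← dist_eq_norm, abs_le]
        have h1 := infDist_le_infDist_add_dist (s := range c) (x := z) (y := w)
        have h2 := infDist_le_infDist_add_dist (s := range c) (x := w) (y := z)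
        rw [dist_comm w z] at h2
        constructor <;> linarith
      unfold mgc
      by_cases o : Odc c z
      · rw [if_pos o, if_pos (e.1 o)]; exact hl
      · rw [if_neg o, if_neg (fun h => o (e.2 h))]
        rw [← abs_neg]; convert hl using 2; ring
    · push Not at h
      obtain ⟨s, ⟨s0, s1⟩, hs⟩ := h
      set p := z + s * (w - z)
      have h1 : |mgc c z| ≤ ‖z - p‖ := by
        rw [mgc_abs, ← dist_eq_norm]; exact infDist_le_dist_of_mem hs
      have h2 : |mgc c w| ≤ ‖w - p‖ := by
        rw [mgc_abs, ← dist_eq_norm]; exact infDist_le_dist_of_mem hs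
      have e1 : ‖z - p‖ = s * ‖z - w‖ := by
        rw [show z - p = s * (z - w) by simp only [p]; ring, norm_mul, norm_real,
          Real.norm_of_nonneg s0]
      have e2 : ‖w - p‖ = (1 - s) * ‖z - w‖ := by
        rw [show w - p = -(((1 - s : ℝ) : ℂ) * (z - w)) by simp only [p]; push_cast; ring, norm_neg,
          norm_mul, norm_real, Real.norm_of_nonneg (by linarith)]
      rw [abs_le] at h1 h2 ⊢
      constructor <;> linarith
  par z hz n h := by
    have hpos := (L.closed.notMem_iff_infDist_pos L.ne).1 hz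
    rw [add_zero]
    rcases Int.even_or_odd n with he | ho
    · have : ¬ Odc c z := by
        rintro ⟨m, hm, ho⟩
        rw [hm.unique h] at ho
        exact (Int.not_even_iff_odd.2 ho) he
      have h2 : ¬ (0 < mgc c z) := by
        unfold mgc; rw [if_neg this]; linarith
      rw [b_false h2]
      obtain ⟨r, rfl⟩ := he
      push_cast
      exact two_zero _
    · have h2 : 0 < mgc c z := by
        unfold mgc; rw [if_pos ⟨n, h, ho⟩]; exact hpos
      rw [b_true h2]
      obtain ⟨r, rfl⟩ := ho
      push_cast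
      have : (2 : ZMod 2) = 0 := by decide
      rw [this]; ring

theorem mgc_out {z : ℂ} (hw : IsWc c z 0) : mgc c z ≤ 0 := by
  have : ¬ Odc c z := by
    rintro ⟨m, hm, ho⟩
    rw [hm.unique hw] at ho
    exact absurd ho (by decide)
  unfold mgc
  rw [if_neg this]
  simpa using infDist_nonneg

/-- above the strip -/
theorem mgc_top (L : Loop c) (h : ∀ t, (c t).im ≤ 1) {z : ℂ} (hz : 1 ≤ z.im) : mgc c z ≤ 0 := by
  refine le_of_forall_pos_le_add fun ε hε => ?_
  have h1 := mgc_out (L.half (z := z + ε * I) (a := -I) (by simp) (fun t => by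
    have : (c t - (z + ε * I)) / (-I) = I * (c t - (z + ε * I)) := by rw [div_neg, div_I]; ring
    rw [this]
    have := h t
    simp
    linarith)).2
  have h2 := (abs_le.1 ((mgc_sg L).lip z (z + ε * I))).2
  have h3 : ‖z - (z + ε * I)‖ = ε := by
    rw [show z - (z + ε * I) = -(ε * I) by ring, norm_neg, norm_mul, norm_I, norm_real,
      Real.norm_of_nonneg hε.le, mul_one]
  linarith

theorem mgc_bot (L : Loop c) (h : ∀ t, -1 ≤ (c t).im) {z : ℂ} (hz : z.im ≤ -1) :
    mgc c z ≤ 0 := by
  refine le_of_forall_pos_le_add fun ε hε => ?_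
  have h1 := mgc_out (L.half (z := z - ε * I) (a := I) (by simp) (fun t => by
    have : (c t - (z - ε * I)) / I = -I * (c t - (z - ε * I)) := by rw [div_I]; ring
    rw [this]
    have := h t
    simp
    linarith)).2
  have h2 := (abs_le.1 ((mgc_sg L).lip z (z - ε * I))).2
  have h3 : ‖z - (z - ε * I)‖ = ε := by
    rw [show z - (z - ε * I) = ε * I by ring, norm_mul, norm_I, norm_real,
      Real.norm_of_nonneg hε.le, mul_one]
  linarith

end Pool.Agent.H763R2.An
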