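import Pool.Agent.H763R2.An.G

/-! Transformations of the angle function, and the half turn. -/

set_option autoImplicit false
open Complex Set Topology Metric

namespace Pool.Agent.H763R2.An

open Sq (Dv Cv Dv_re Dv_im Cv_re Cv_im)
open Dm (floor_const NoSq)

variable {c : ℝ → ℂ} {M : ℂ → ℝ} {κ : ZMod 2} {θ : ℝ → ℝ → ℝ} {g : ℤ}

theorem Ang.shift (A : Ang c M θ g) (s : ℝ) :
    Ang (fun t => c (t + s)) M (fun x y => θ (x + s) (y + s)) g where
  cont := by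
    refine A.cont.comp (f := fun p : ℝ × ℝ => (p.1 + s, p.2 + s)) (by fun_prop) ?_
    rintro ⟨x, y⟩ ⟨h1, h2⟩
    exact ⟨by simp only at h1 ⊢; linarith, by simp only at h2 ⊢; linarith⟩
  ex x y h1 h2 := by
    obtain ⟨ρ, hρ, e1, e2⟩ := A.ex (x + s) (y + s) (by linarith) (by linarith)
    exact ⟨ρ, hρ, e1, e2⟩
  per x y h1 h2 := by
    have := A.per (x + s) (y + s) (by linarith) (by linarith)
    rw [← this]; congr 1 <;> ring

theorem Ang.neg (A : Ang c M θ g) :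
    Ang c (fun z => - M z) (fun x y => θ x y + Real.pi) g where
  cont := A.cont.add continuousOn_const
  ex x y h1 h2 := by
    obtain ⟨ρ, hρ, e1, e2⟩ := A.ex x y h1 h2
    refine ⟨ρ, hρ, ?_, ?_⟩
    · rw [Real.cos_add_pi, e1]; ring
    · rw [Real.sin_add_pi, e2]; ring
  per x y h1 h2 := by
    rw [A.per x y h1 h2]; ring

theorem DD_neg (c : ℝ → ℂ) (x y : ℝ) : DD (fun t => - c t) x y = - DD c x y := by
  unfold DD Dv; ring
theorem CC_neg (c : ℝ → ℂ) (x y : ℝ) : CC (fun t => - c t) x y = - CC c x y := by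
  unfold CC Cv; ring

theorem Ang.rot (A : Ang c M θ g) :
    Ang (fun t => - c t) (fun z => M (-z)) θ g where
  cont := A.cont
  ex x y h1 h2 := by
    obtain ⟨ρ, hρ, e1, e2⟩ := A.ex x y h1 h2
    refine ⟨ρ, hρ, ?_, ?_⟩
    · rw [DD_neg, neg_neg, e1]
    · rw [CC_neg, neg_neg, e2]
  per := A.per

theorem Loop.negc (L : Loop c) : Loop (fun t => - c t) where
  cont := L.cont.neg
  per t := by rw [L.per]

/-- the degree is odd if the curve is flat at one point -/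
theorem odd_of_flat (L : Loop c) (J : Inj c) (S : Sg c M κ) (nosq : NoSq (range c))
    (A : Ang c M θ g) {p e : ℂ} {ε : ℝ} (hp : p ∈ range c) (F : Flat (range c) p e ε) :
    Odd g := by
  obtain ⟨s, rfl⟩ := hp
  have L' := L.shift s
  have J' := J.shift s
  have S' := S.shift L s
  have A' := A.shift s
  rw [← range_shift s] at F nosq
  obtain ⟨m, hm⟩ := loc_of_flat L' J'.inj0 S' (by simp) F
  rcases hm m le_rfl with Λ | Λ
  · exact odd_of_loc L' S' (nz0 L' J' S' nosq) A' Λ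
  · exact odd_of_loc L' (S'.neg L') (nz0 L' J' (S'.neg L') nosq) A'.neg Λ

/-- number of half turns -/
noncomputable def Nf (θ : ℝ → ℝ → ℝ) (x y : ℝ) : ℤ := ⌊(θ x y - Real.pi / 2) / (2 * Real.pi)⌋

theorem Ang.Nf_per (A : Ang c M θ g) {x y : ℝ} (h1 : x < y) (h2 : y < x + 1) :
    Nf θ (x + 1) (y + 1) = Nf θ x y + g := by
  have hπ := Real.pi_pos
  unfold Nf
  rw [A.per x y h1 h2, show θ x y + g * (2 * Real.pi) - Real.pi / 2 =
    (θ x y - Real.pi / 2) + g * (2 * Real.pi) by ring, add_div, mul_div_assoc,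
    div_self (by positivity), mul_one, Int.floor_add_intCast]

theorem Ang.Nf_path (A : Ang c M θ g) {p : ℝ → ℝ × ℝ} (hp : Continuous p) (hU : ∀ t, p t ∈ UU)
    (h : ∀ t, ¬ (0 < M (DD c (p t).1 (p t).2) ∧ 0 < M (CC c (p t).1 (p t).2))) (s t : ℝ) :
    Nf θ (p s).1 (p s).2 = Nf θ (p t).1 (p t).2 := by
  refine floor_const (ψ := fun t => θ (p t).1 (p t).2 - Real.pi / 2)
    ((A.path hp hU).sub continuous_const) (fun t hh => ?_) s t
  rw [Real.sin_sub_pi_div_two, Real.cos_sub_pi_div_two, neg_lt_zero] at hh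
  exact h t ⟨(A.sx (hU t).1 (hU t).2).2.2 hh.1, (A.sy (hU t).1 (hU t).2).2.2 hh.2⟩

theorem Ang.Nf_y (A : Ang c M θ g) {x y1 y2 : ℝ} (h1 : x < y1) (h12 : y1 ≤ y2) (h2 : y2 < x + 1)
    (h : ∀ y ∈ Icc y1 y2, ¬ (0 < M (DD c x y) ∧ 0 < M (CC c x y))) :
    Nf θ x y1 = Nf θ x y2 := by
  have hm : ∀ t, max y1 (min y2 t) ∈ Icc y1 y2 := fun t =>
    ⟨le_max_left _ _, max_le h12 (min_le_left _ _)⟩
  have := A.Nf_path (p := fun t => (x, max y1 (min y2 t))) (by fun_prop)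
    (fun t => ⟨by have := (hm t).1; simp only; linarith, by have := (hm t).2; simp only; linarith⟩)
    (fun t => h _ (hm t)) y1 y2
  simpa [h12] using this

theorem Ang.Nf_x (A : Ang c M θ g) {y x1 x2 : ℝ} (h1 : y < x1 + 1) (h12 : x1 ≤ x2) (h2 : x2 < y)
    (h : ∀ x ∈ Icc x1 x2, ¬ (0 < M (DD c x y) ∧ 0 < M (CC c x y))) :
    Nf θ x1 y = Nf θ x2 y := by
  have hm : ∀ t, max x1 (min x2 t) ∈ Icc x1 x2 := fun t =>
    ⟨le_max_left _ _, max_le h12 (min_le_left _ _)⟩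
  have := A.Nf_path (p := fun t => (max x1 (min x2 t), y)) (by fun_prop)
    (fun t => ⟨by have := (hm t).2; simp only; linarith, by have := (hm t).1; simp only; linarith⟩)
    (fun t => h _ (hm t)) x1 x2
  simpa [h12] using this

/-- the loop criterion -/
theorem Ang.zero_of_loop (A : Ang c M θ g) {x y : ℝ → ℝ} (hx : ContinuousOn x (Icc 0 1))
    (hy : ContinuousOn y (Icc 0 1)) (h1 : ∀ t ∈ Icc (0:ℝ) 1, x t < y t)
    (h2 : ∀ t ∈ Icc (0:ℝ) 1, y t < x t + 1) (ex : x 1 = x 0 + 1) (ey : y 1 = y 0 + 1)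
    (h : ∀ t ∈ Icc (0:ℝ) 1, ¬ (0 < M (DD c (x t) (y t)) ∧ 0 < M (CC c (x t) (y t)))) : g = 0 := by
  set cl : ℝ → ℝ := fun t => max 0 (min 1 t) with hcl
  have ccl : Continuous cl := by rw [hcl]; fun_prop
  have hm : ∀ t, cl t ∈ Icc (0:ℝ) 1 := fun t =>
    ⟨le_max_left _ _, max_le zero_le_one (min_le_left _ _)⟩
  have := A.Nf_path (p := fun t => (x (cl t), y (cl t)))
    ((hx.comp_continuous ccl hm).prodMk (hy.comp_continuous ccl hm))
    (fun t => ⟨h1 _ (hm t), h2 _ (hm t)⟩) (fun t => h _ (hm t)) 0 1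
  have e0 : cl 0 = 0 := by simp [hcl]
  have e1 : cl 1 = 1 := by simp [hcl]
  simp only [e0, e1, ex, ey] at this
  rw [A.Nf_per (h1 0 (by norm_num)) (h2 0 (by norm_num))] at this
  linarith

theorem DD_im (c : ℝ → ℂ) (x y : ℝ) : (DD c x y).im = (c x).im + (c y).re - (c x).re := by
  unfold DD; rw [Dv_im]; try ring
theorem CC_im (c : ℝ → ℂ) (x y : ℝ) : (CC c x y).im = (c y).im + (c y).re - (c x).re := by
  unfold CC; rw [Cv_im]; try ring

/-- half of a curve in the strip -/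
structure Hf (c : ℝ → ℂ) (M : ℂ → ℝ) (q : ℝ) : Prop where
  q0 : 0 < q
  q1 : q < 1
  P : c 0 = -I
  P1 : c 1 = -I
  st : ∀ t, |(c t).im| ≤ 1
  rp : ∀ t ∈ Icc 0 q, 0 ≤ (c t).re
  rn : ∀ t ∈ Icc q 1, (c t).re ≤ 0
  out : ∀ z : ℂ, z.im ≤ -1 → M z ≤ 0

/-- the corner -/
def Corner (θ : ℝ → ℝ → ℝ) (q : ℝ) : Prop :=
  ∃ y1 ∈ Ico q 1, ∃ x1 ∈ Ioc 0 q, Nf θ 0 y1 = Nf θ x1 1

theorem Hf.turn {q : ℝ} (H : Hf c M q) (A : Ang c M θ g) (K : Corner θ q) :
    Nf θ 0 q = Nf θ q 1 := by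
  obtain ⟨y1, hy1, x1, hx1, e⟩ := K
  have s1 := A.Nf_y (x := 0) (y1 := q) (y2 := y1) H.q0 hy1.1 (by linarith [hy1.2])
    (fun y hy => by
      rintro ⟨h, -⟩
      have := H.out (DD c 0 y) (by
        rw [DD_im, H.P]
        have := H.rn y ⟨hy.1, by linarith [hy.2, hy1.2]⟩
        simp; linarith)
      linarith)
  have s3 := A.Nf_x (y := 1) (x1 := x1) (x2 := q) (by linarith [hx1.1]) hx1.2 H.q1
    (fun x hx => by
      rintro ⟨-, h⟩
      have := H.out (CC c x 1) (by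
        rw [CC_im, H.P1]
        have := H.rp x ⟨by linarith [hx.1, hx1.1], hx.2⟩
        simp; linarith)
      linarith)
  rw [s1, e, s3]

/-- corner condition, first form -/
theorem Hf.corner1 {q : ℝ} (H : Hf c M q) (A : Ang c M θ g) {y0 x' : ℝ} (hy0 : y0 ∈ Ioo q 1)
    (hx' : x' ∈ Ioc 0 q) (h0 : 1 + (c y0).im ≤ -(c y0).re)
    (h : ∀ y ∈ Icc y0 1, 1 + (c y).im ≤ (c x').re - (c y).re) : Corner θ q := by
  refine ⟨y0, ⟨hy0.1.le, hy0.2⟩, x', hx', ?_⟩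
  have s1 := A.Nf_x (y := y0) (x1 := 0) (x2 := x') (by linarith [hy0.2]) hx'.1.le
    (by linarith [hx'.2, hy0.1]) (fun x hx => by
      rintro ⟨-, hh⟩
      have := H.out (CC c x y0) (by
        rw [CC_im]
        have := H.rp x ⟨hx.1, hx.2.trans hx'.2⟩
        linarith)
      linarith)
  have s2 := A.Nf_y (x := x') (y1 := y0) (y2 := 1) (by linarith [hx'.2, hy0.1]) hy0.2.le
    (by linarith [hx'.1]) (fun y hy => by
      rintro ⟨-, hh⟩
      have := H.out (CC c x' y) (by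
        rw [CC_im]
        have := h y hy
        linarith)
      linarith)
  rw [s1, s2]

/-- corner condition, second form -/
theorem Hf.corner2 {q : ℝ} (H : Hf c M q) (A : Ang c M θ g) {x0 y' : ℝ} (hx0 : x0 ∈ Ioo 0 q)
    (hy' : y' ∈ Ico q 1) (h0 : 1 + (c x0).im ≤ (c x0).re)
    (h : ∀ x ∈ Icc 0 x0, 1 + (c x).im ≤ (c x).re - (c y').re) : Corner θ q := by
  refine ⟨y', hy', x0, ⟨hx0.1, hx0.2.le⟩, ?_⟩
  have s1 := A.Nf_x (y := y') (x1 := 0) (x2 := x0) (by linarith [hy'.2]) hx0.1.le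
    (by linarith [hx0.2, hy'.1]) (fun x hx => by
      rintro ⟨hh, -⟩
      have := H.out (DD c x y') (by
        rw [DD_im]
        have := h x hx
        linarith)
      linarith)
  have s2 := A.Nf_y (x := x0) (y1 := y') (y2 := 1) (by linarith [hx0.2, hy'.1]) hy'.2.le
    (by linarith [hx0.1]) (fun y hy => by
      rintro ⟨hh, -⟩
      have := H.out (DD c x0 y) (by
        rw [DD_im]
        have := H.rn y ⟨hy'.1.trans hy.1, hy.2⟩
        linarith)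
      linarith)
  rw [s1, s2]

/-- corner condition, third form -/
theorem Hf.corner3 {q : ℝ} (H : Hf c M q) (A : Ang c M θ g) {x0 y0 k : ℝ} (hx0 : x0 ∈ Ioo 0 q)
    (hy0 : y0 ∈ Ico q 1) (k0 : 0 ≤ k) (k1 : k ≤ 1)
    (hx : ∀ x ∈ Icc 0 x0, k * (1 + (c x).im) ≤ (c x).re)
    (hy : ∀ y ∈ Icc y0 1, (c y).re ≤ -((1 - k) * (1 + (c y).im))) : Corner θ q := by
  have key : ∀ x ∈ Icc 0 x0, ∀ y ∈ Icc y0 1, ¬ (0 < M (DD c x y) ∧ 0 < M (CC c x y)) := by
    rintro x hx' y hy' ⟨h1, h2⟩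
    have a1 := hx x hx'
    have a2 := hy y hy'
    rcases le_total (1 + (c x).im) (1 + (c y).im) with h | h
    · have := H.out (DD c x y) (by rw [DD_im]; nlinarith)
      linarith
    · have := H.out (CC c x y) (by rw [CC_im]; nlinarith)
      linarith
  refine ⟨y0, hy0, x0, ⟨hx0.1, hx0.2.le⟩, ?_⟩
  have s1 := A.Nf_x (y := y0) (x1 := 0) (x2 := x0) (by linarith [hy0.2]) hx0.1.le
    (by linarith [hx0.2, hy0.1]) (fun x hx => key x hx y0 ⟨le_rfl, hy0.2.le⟩)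
  have s2 := A.Nf_y (x := x0) (y1 := y0) (y2 := 1) (by linarith [hx0.2, hy0.1]) hy0.2.le
    (by linarith [hx0.1]) (fun y hy => key x0 ⟨hx0.1.le, le_rfl⟩ y hy)
  rw [s1, s2]

end Pool.Agent.H763R2.An
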