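import Pool.Agent.H763R2.An.H

/-! Curves in a strip: the degree vanishes. -/

set_option autoImplicit false
open Complex Set Topology Metric

namespace Pool.Agent.H763R2.An

open Dm (NoSq)

variable {c : ℝ → ℂ} {M : ℂ → ℝ} {κ : ZMod 2} {θ : ℝ → ℝ → ℝ} {g : ℤ}

/-- the condition at the lower point -/
def CondP (C : Set ℂ) : Prop :=
  (∀ ε > 0, ∃ z ∈ C, z ≠ -I ∧ ‖z + I‖ < ε ∧ 1 + z.im ≤ |z.re|) ∨
  (∃ k ∈ Icc (0:ℝ) 1, ∃ ε > 0, ∀ z ∈ C, ‖z + I‖ < ε →
    z.re ≤ -((1 - k) * (1 + z.im)) ∨ k * (1 + z.im) ≤ z.re) ∨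
  (∃ z ∈ C, ∃ a ∈ C, z.re * a.re < 0 ∧ 1 + z.im ≤ |z.re| ∧ 1 + a.im ≤ |a.re|)

/-- corner condition, fourth form -/
theorem Hf.corner4 {q : ℝ} (H : Hf c M q) (A : Ang c M θ g) {x0 y0 : ℝ} (hx0 : x0 ∈ Ioo 0 q)
    (hy0 : y0 ∈ Ioo q 1) (h0 : 1 + (c x0).im ≤ (c x0).re) (h1 : 1 + (c y0).im ≤ -(c y0).re) :
    Corner θ q := by
  refine ⟨y0, ⟨hy0.1.le, hy0.2⟩, x0, ⟨hx0.1, hx0.2.le⟩, ?_⟩
  have s1 := A.Nf_x (y := y0) (x1 := 0) (x2 := x0) (by linarith [hy0.2]) hx0.1.le
    (by linarith [hx0.2, hy0.1]) (fun x hx => by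
      rintro ⟨-, hh⟩
      have := H.out (CC c x y0) (by
        rw [CC_im]
        have := H.rp x ⟨hx.1, hx.2.trans hx0.2.le⟩
        linarith)
      linarith)
  have s2 := A.Nf_y (x := x0) (y1 := y0) (y2 := 1) (by linarith [hx0.2, hy0.1]) hy0.2.le
    (by linarith [hx0.1]) (fun y hy => by
      rintro ⟨hh, -⟩
      have := H.out (DD c x0 y) (by
        rw [DD_im]
        have := H.rn y ⟨hy0.1.le.trans hy.1, hy.2⟩
        linarith)
      linarith)
  rw [s1, s2]

theorem Loop.par01 (L : Loop c) {z : ℂ} (hz : z ∈ range c) : ∃ t ∈ Ico (0:ℝ) 1, c t = z := by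
  obtain ⟨u, rfl⟩ := hz
  refine ⟨Int.fract u, ⟨Int.fract_nonneg u, Int.fract_lt_one u⟩, ?_⟩
  have := L.per_int (Int.fract u) ⌊u⌋
  rw [Int.fract_add_floor] at this
  exact this.symm

theorem corner_of_cond (L : Loop c) (J : Inj c) {q : ℝ} (H : Hf c M q) (A : Ang c M θ g)
    (rp : ∀ t ∈ Ioo 0 q, 0 < (c t).re) (rn : ∀ t ∈ Ioo q 1, (c t).re < 0)
    (K : CondP (range c)) : Corner θ q := by
  have q0 := H.q0
  have q1 := H.q1
  have hc := L.cont
  have hre0 : ∀ t ∈ Ico (0:ℝ) 1, 0 < (c t).re → t ∈ Ioo 0 q := by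
    intro t ht h
    refine ⟨lt_of_le_of_ne ht.1 (fun h0 => ?_), ?_⟩
    · rw [← h0, H.P] at h; simp at h
    · by_contra hh
      push Not at hh
      linarith [H.rn t ⟨hh, ht.2.le⟩]
  have hre1 : ∀ t ∈ Ico (0:ℝ) 1, (c t).re < 0 → t ∈ Ioo q 1 := by
    intro t ht h
    refine ⟨?_, ht.2⟩
    by_contra hh
    push Not at hh
    linarith [H.rp t ⟨ht.1, hh⟩]
  rcases K with K | ⟨k, hk, ε, hε, K⟩ | ⟨z, hz, a, ha, hza, h0, h2⟩
  · -- not sharp
    set x' := q / 2 with hx'
    set y' := (q + 1) / 2 with hy'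
    have hx0 : x' ∈ Ioo 0 q := ⟨by positivity, by linarith⟩
    have hy0 : y' ∈ Ioo q 1 := ⟨by linarith, by linarith⟩
    have r1 := rp x' hx0
    have r2 := rn y' hy0
    obtain ⟨d, hd, hd'⟩ := Metric.continuousAt_iff.1 (hc.continuousAt (x := 0))
      (min (c x').re (-(c y').re)) (lt_min r1 (by linarith))
    have him : ∀ t, |t| < d → 1 + (c t).im ≤ min (c x').re (-(c y').re) := by
      intro t ht
      have h1 := hd' (x := t) (by rwa [dist_zero_right, Real.norm_eq_abs])
      rw [dist_eq_norm, H.P, sub_neg_eq_add] at h1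
      have h3 := (abs_le.1 (abs_im_le_norm (c t + I))).2
      simp at h3
      linarith
    set η := min (d / 2) (min (q / 2) ((1 - q) / 2)) with hη
    have η0 : 0 < η := lt_min (by positivity) (lt_min (by positivity) (by linarith))
    have η1 : η ≤ d / 2 := min_le_left _ _
    have η2 : η ≤ q / 2 := (min_le_right _ _).trans (min_le_left _ _)
    have η3 : η ≤ (1 - q) / 2 := (min_le_right _ _).trans (min_le_right _ _)
    obtain ⟨δ, hδ, hδ'⟩ := L.near J.inj0 η0 (by linarith)
    obtain ⟨z, hz, hz1, hz2, hz3⟩ := K δ hδ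
    obtain ⟨t, ht, rfl⟩ := hδ' z hz (by rw [H.P, sub_neg_eq_add]; exact hz2)
    have t0 : t ≠ 0 := by rintro rfl; exact hz1 H.P
    rcases lt_or_gt_of_ne t0 with ht0 | ht0
    · -- left arc
      have e : c (t + 1) = c t := L.per t
      have hm : t + 1 ∈ Ioo q 1 := ⟨by linarith [ht.1], by linarith⟩
      have := rn _ hm
      rw [e] at this
      refine H.corner1 A (y0 := t + 1) (x' := x') hm ⟨hx0.1, hx0.2.le⟩ ?_ ?_
      · rw [e]
        rw [abs_of_neg this] at hz3
        exact hz3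
      · intro y hy
        have h1 := him (y - 1) (by rw [abs_lt]; constructor <;> linarith [hy.1, hy.2, ht.1])
        have e2 : c y = c (y - 1) := by
          have := L.per (y - 1); rwa [sub_add_cancel] at this
        rw [← e2] at h1
        have h2 := h1.trans (min_le_left _ _)
        have h3 := H.rn y ⟨by linarith [hy.1, hm.1], hy.2⟩
        linarith
    · have hm : t ∈ Ioo 0 q := ⟨ht0, by linarith [ht.2]⟩
      have := rp _ hm
      refine H.corner2 A (x0 := t) (y' := y') hm ⟨hy0.1.le, hy0.2⟩ ?_ ?_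
      · rw [abs_of_pos this] at hz3
        exact hz3
      · intro x hx
        have h1 := him x (by rw [abs_lt]; constructor <;> linarith [hx.1, hx.2, ht.2])
        have h2 := h1.trans (min_le_right _ _)
        have h3 := H.rp x ⟨hx.1, by linarith [hx.2, hm.2]⟩
        linarith
  · -- sector
    obtain ⟨d, hd, hd'⟩ := Metric.continuousAt_iff.1 (hc.continuousAt (x := 0)) ε hε
    set η := min (d / 2) (min (q / 2) ((1 - q) / 2)) with hη
    have η0 : 0 < η := lt_min (by positivity) (lt_min (by positivity) (by linarith))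
    have η1 : η ≤ d / 2 := min_le_left _ _
    have η2 : η ≤ q / 2 := (min_le_right _ _).trans (min_le_left _ _)
    have η3 : η ≤ (1 - q) / 2 := (min_le_right _ _).trans (min_le_right _ _)
    have hn : ∀ t, |t| < d → ‖c t + I‖ < ε := by
      intro t ht
      have h1 := hd' (x := t) (by rwa [dist_zero_right, Real.norm_eq_abs])
      rwa [dist_eq_norm, H.P, sub_neg_eq_add] at h1
    have hi : ∀ t, 0 ≤ 1 + (c t).im := fun t => by have := (abs_le.1 (H.st t)).1; linarith
    refine H.corner3 A (x0 := η) (y0 := 1 - η) (k := k) ⟨η0, by linarith⟩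
      ⟨by linarith, by linarith⟩ hk.1 hk.2 (fun x hx => ?_) (fun y hy => ?_)
    · rcases lt_or_eq_of_le hx.1 with h | h
      · have h1 := rp x ⟨h, by linarith [hx.2]⟩
        rcases K (c x) (mem_range_self x) (hn x (by
          rw [abs_lt]; constructor <;> linarith [hx.1, hx.2])) with h2 | h2
        · have : 0 ≤ (1 - k) * (1 + (c x).im) := mul_nonneg (by linarith [hk.2]) (hi x)
          linarith
        · exact h2
      · rw [← h, H.P]; simp
    · have e2 : c y = c (y - 1) := by
        have := L.per (y - 1); rwa [sub_add_cancel] at this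
      rcases lt_or_eq_of_le hy.2 with h | h
      · have h1 := rn y ⟨by linarith [hy.1], h⟩
        have h3 := hn (y - 1) (by rw [abs_lt]; constructor <;> linarith [hy.1, hy.2])
        rw [← e2] at h3
        rcases K (c y) (mem_range_self y) h3 with h2 | h2
        · exact h2
        · have : 0 ≤ k * (1 + (c y).im) := mul_nonneg hk.1 (hi y)
          linarith
      · rw [h, H.P1]; simp
  · -- global
    obtain ⟨s, hs, rfl⟩ := L.par01 hz
    obtain ⟨t, ht, rfl⟩ := L.par01 ha
    rcases mul_neg_iff.1 hza with ⟨g1, g2⟩ | ⟨g1, g2⟩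
    · rw [abs_of_pos g1] at h0
      rw [abs_of_neg g2] at h2
      exact H.corner4 A (hre0 s hs g1) (hre1 t ht g2) h0 h2
    · rw [abs_of_neg g1] at h0
      rw [abs_of_pos g2] at h2
      exact H.corner4 A (hre0 t ht g2) (hre1 s hs g1) h2 h0

theorem strip_zero (L : Loop c) (J : Inj c) {q : ℝ} (q0 : 0 < q) (q1 : q < 1) (P : c 0 = -I)
    (Q : c q = I) (st : ∀ t, |(c t).im| ≤ 1) (rp : ∀ t ∈ Ioo 0 q, 0 < (c t).re)
    (rn : ∀ t ∈ Ioo q 1, (c t).re < 0) (hM1 : ∀ z : ℂ, z.im ≤ -1 → M z ≤ 0)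
    (hM2 : ∀ z : ℂ, 1 ≤ z.im → M z ≤ 0) (A : Ang c M θ g) (KP : CondP (range c))
    (KQ : CondP {z | -z ∈ range c}) : g = 0 := by
  have P1 : c 1 = -I := by have := L.per 0; rwa [zero_add, P] at this
  have rp' : ∀ t ∈ Icc 0 q, 0 ≤ (c t).re := by
    intro t ht
    rcases lt_or_eq_of_le ht.1 with h | h
    · rcases lt_or_eq_of_le ht.2 with h' | h'
      · exact (rp t ⟨h, h'⟩).le
      · rw [h', Q]; simp
    · rw [← h, P]; simp
  have rn' : ∀ t ∈ Icc q 1, (c t).re ≤ 0 := by
    intro t ht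
    rcases lt_or_eq_of_le ht.1 with h | h
    · rcases lt_or_eq_of_le ht.2 with h' | h'
      · exact (rn t ⟨h, h'⟩).le
      · rw [h', P1]; simp
    · rw [← h, Q]; simp
  have H1 : Hf c M q := ⟨q0, q1, P, P1, st, rp', rn', hM1⟩
  have T1 := H1.turn A (corner_of_cond L J H1 A rp rn KP)
  have A2 := (A.shift q).rot
  have L2 := (L.shift q).negc
  have J2 : Inj (fun t => - c (t + q)) := fun x y h1 h2 h =>
    (J.shift q) x y h1 h2 (neg_injective h)
  have H2 : Hf (fun t => - c (t + q)) (fun z => M (-z)) (1 - q) := by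
    refine ⟨by linarith, by linarith, ?_, ?_, ?_, ?_, ?_, ?_⟩
    · simp only [zero_add, Q]
    · have := L.per q
      rw [add_comm, Q] at this
      simp only [this]
    · intro t; rw [neg_im, abs_neg]; exact st _
    · intro t ht
      have := rn' (t + q) ⟨by linarith [ht.1], by linarith [ht.2]⟩
      rw [neg_re]; linarith
    · intro t ht
      have := rp' (t + q - 1) ⟨by linarith [ht.1], by linarith [ht.2]⟩
      have e := L.per (t + q - 1)
      rw [sub_add_cancel] at e
      rw [neg_re, e]; linarith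
    · intro z hz
      exact hM2 _ (by rw [neg_im]; linarith)
  have hrange : range (fun t => - c (t + q)) = {z | -z ∈ range c} := by
    ext z
    simp only [mem_range, mem_ofPred_eq]
    constructor
    · rintro ⟨t, rfl⟩; exact ⟨t + q, by ring⟩
    · rintro ⟨t, ht⟩; exact ⟨t - q, by rw [sub_add_cancel, ht, neg_neg]⟩
  have T2 := H2.turn A2 (corner_of_cond L2 J2 H2 A2 (fun t ht => by
      have := rn (t + q) ⟨by linarith [ht.1], by linarith [ht.2]⟩
      rw [neg_re]; linarith) (fun t ht => by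
      have := rp (t + q - 1) ⟨by linarith [ht.1], by linarith [ht.2]⟩
      have e := L.per (t + q - 1)
      rw [sub_add_cancel] at e
      rw [neg_re, e]; linarith) (by rw [hrange]; exact KQ))
  have T2' : Nf θ q 1 = Nf θ (0 + 1) (q + 1) := by
    have e1 : Nf (fun x y => θ (x + q) (y + q)) 0 (1 - q) = Nf θ q 1 := by
      unfold Nf; simp only [zero_add, sub_add_cancel]
    have e2 : Nf (fun x y => θ (x + q) (y + q)) (1 - q) 1 = Nf θ (0 + 1) (q + 1) := by
      unfold Nf; simp only [zero_add, sub_add_cancel]; rw [add_comm 1 q]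
    rw [← e1, ← e2]; exact T2
  rw [A.Nf_per q0 (by linarith)] at T2'
  linarith

/-- a loop from a map of the circle -/
noncomputable def lp (γ : Circle → ℂ) (t : ℝ) : ℂ := γ (Circle.exp (2 * Real.pi * t))

theorem lp_loop {γ : Circle → ℂ} (hγ : Continuous γ) : Loop (lp γ) where
  cont := hγ.comp (Circle.exp.continuous.comp (by fun_prop))
  per t := by
    unfold lp
    rw [show 2 * Real.pi * (t + 1) = 2 * Real.pi * t + 2 * Real.pi by ring, Circle.exp_add,
      Circle.exp_two_pi, mul_one]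

theorem lp_inj {γ : Circle → ℂ} (hinj : Function.Injective γ) : Inj (lp γ) := by
  intro x y h1 h2 h
  have hπ := Real.pi_pos
  have := Circle.exp_injOn_Ico (a := 2 * Real.pi * x) (b := 2 * Real.pi * x + 2 * Real.pi)
    (by linarith) ⟨le_rfl, by linarith⟩ ⟨by nlinarith, by nlinarith⟩ (hinj h)
  have h3 := mul_left_cancel₀ (by positivity) this
  exact h1.ne h3

theorem lp_range {γ : Circle → ℂ} : range (lp γ) = range γ := by
  apply Subset.antisymm
  · rintro _ ⟨t, rfl⟩; exact mem_range_self _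
  · rintro _ ⟨w, rfl⟩
    obtain ⟨a, rfl⟩ := Circle.exp_surjective w
    refine ⟨a / (2 * Real.pi), ?_⟩
    unfold lp
    rw [mul_div_cancel₀ _ (by positivity)]

/-- reversed curve -/
theorem Loop.rev (L : Loop c) : Loop (fun t => c (-t)) where
  cont := L.cont.comp continuous_neg
  per t := by
    have := L.per (-(t + 1))
    rw [← this]; congr 1; ring

theorem Inj.rev (L : Loop c) (J : Inj c) : Inj (fun t => c (-t)) := fun x y h1 h2 h =>
  J (-y) (-x) (by linarith) (by linarith) h.symm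

theorem range_rev : range (fun t => c (-t)) = range c := by
  apply Subset.antisymm
  · rintro _ ⟨t, rfl⟩; exact mem_range_self _
  · rintro _ ⟨t, rfl⟩; exact ⟨-t, by simp⟩

/-- normal form of a curve in the strip -/
theorem normal {C : Set ℂ} (h : ∃ c, Loop c ∧ Inj c ∧ range c = C)
    (haxis : ∀ z ∈ C, z.re = 0 → z = I ∨ z = -I)
    (hR : ∃ z ∈ C, 0 < z.re) (hL : ∃ z ∈ C, z.re < 0) :
    ∃ c, Loop c ∧ Inj c ∧ range c = C ∧ ∃ q, 0 < q ∧ q < 1 ∧ c 0 = -I ∧ c q = I ∧
      (∀ t ∈ Ioo 0 q, 0 < (c t).re) ∧ ∀ t ∈ Ioo q 1, (c t).re < 0 := by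
  obtain ⟨c, L, J, rfl⟩ := h
  -- both points are on the curve
  have hc := L.cont
  obtain ⟨_, ⟨a, rfl⟩, ha⟩ := hR
  obtain ⟨z, hz, hb⟩ := hL
  obtain ⟨b', hb', hb2⟩ : ∃ b ∈ Ioo a (a + 1), (c b).re < 0 := by
    obtain ⟨t, ht, e⟩ := (L.shift a).par01 (by rw [range_shift]; exact hz)
    refine ⟨t + a, ⟨?_, by linarith [ht.2]⟩, by rw [e]; exact hb⟩
    have : t ≠ 0 := by
      rintro rfl
      rw [zero_add] at e
      rw [e] at ha; linarith
    have := lt_of_le_of_ne ht.1 this.symm
    linarith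
  have cre : Continuous fun t => (c t).re := by fun_prop
  obtain ⟨s, hs, es⟩ := intermediate_value_Ioo' hb'.1.le cre.continuousOn
    (show (0:ℝ) ∈ Ioo _ _ from ⟨hb2, ha⟩)
  obtain ⟨t, ht, et⟩ := intermediate_value_Ioo hb'.2.le cre.continuousOn
    (show (0:ℝ) ∈ Ioo _ _ from ⟨hb2, by rw [L.per]; exact ha⟩)
  simp only at es et
  have hne : c s ≠ c t := J s t (by linarith [hs.2, ht.1]) (by linarith [hs.1, ht.2])
  have hPm : ∃ p r, p < r ∧ r < p + 1 ∧ c p = -I ∧ c r = I := by
    rcases haxis _ (mem_range_self s) es with h1 | h1 <;>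
    rcases haxis _ (mem_range_self t) et with h2 | h2
    · exact absurd (h1.trans h2.symm) hne
    · refine ⟨t, s + 1, by linarith [hs.1, ht.2], by linarith [hs.2, ht.1], h2, ?_⟩
      rw [L.per]; exact h1
    · exact ⟨s, t, by linarith [hs.2, ht.1], by linarith [hs.1, ht.2], h1, h2⟩
    · exact absurd (h1.trans h2.symm) hne
  obtain ⟨p, r, h1, h2, hp, hr⟩ := hPm
  -- signs on the arcs
  have hnz : ∀ u, p < u → u < p + 1 → u ≠ r → (c u).re ≠ 0 := by
    intro u g1 g2 g3 h0
    rcases haxis _ (mem_range_self u) h0 with h | h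
    · rcases lt_or_gt_of_ne g3 with h' | h'
      · exact J u r h' (by linarith) (h.trans hr.symm)
      · exact J r u h' (by linarith) (hr.trans h.symm)
    · exact J p u g1 g2 (hp.trans h.symm)
  have A1 := arc_sign (s := Ioo p r) isPreconnected_Ioo cre
    (fun u hu => hnz u hu.1 (by linarith [hu.2]) hu.2.ne)
  have A2 := arc_sign (s := Ioo r (p + 1)) isPreconnected_Ioo cre
    (fun u hu => hnz u (by linarith [hu.1]) hu.2 hu.1.ne')
  -- both signs occur
  have cover : ∀ z ∈ range c, z.re ≠ 0 → (∃ u ∈ Ioo p r, c u = z) ∨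
      ∃ u ∈ Ioo r (p + 1), c u = z := by
    intro z hz h0
    obtain ⟨t, ht, e⟩ := (L.shift p).par01 (by rw [range_shift]; exact hz)
    have t0 : t ≠ 0 := by
      rintro rfl
      rw [zero_add, hp] at e
      rw [← e] at h0; simp at h0
    have tr : t + p ≠ r := by
      intro h
      rw [h, hr] at e
      rw [← e] at h0; simp at h0
    have tp := lt_of_le_of_ne ht.1 t0.symm
    rcases lt_or_gt_of_ne tr with h | h
    · exact Or.inl ⟨t + p, ⟨by linarith, h⟩, e⟩
    · exact Or.inr ⟨t + p, ⟨h, by linarith [ht.2]⟩, e⟩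
  rcases A1 with A1 | A1
  · rcases A2 with A2 | A2
    · exfalso
      rcases cover z hz hb.ne with ⟨u, hu, e⟩ | ⟨u, hu, e⟩
      · have := A1 u hu; rw [e] at this; linarith
      · have := A2 u hu; rw [e] at this; linarith
    · refine ⟨fun t => c (t + p), L.shift p, J.shift p, range_shift p, r - p, by linarith,
        by linarith, by simp only [zero_add]; exact hp, by simp only [sub_add_cancel]; exact hr,
        fun t ht => A1 _ ⟨by linarith [ht.1], by linarith [ht.2]⟩,
        fun t ht => A2 _ ⟨by linarith [ht.1], by linarith [ht.2]⟩⟩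
  · rcases A2 with A2 | A2
    · refine ⟨fun t => c (-t + p), (L.shift p).rev, Inj.rev (L.shift p) (J.shift p),
        ?_, p + 1 - r, by linarith, by linarith, by simp only [neg_zero, zero_add]; exact hp, ?_,
        fun t ht => ?_, fun t ht => ?_⟩
      · have := range_rev (c := fun t => c (t + p))
        rw [range_shift] at this
        exact this
      · simp only
        rw [show -(p + 1 - r) + p = r - 1 by ring]
        have := L.per (r - 1)
        rw [sub_add_cancel] at this
        rw [← this]; exact hr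
      · have e := L.per (-t + p)
        show 0 < (c (-t + p)).re
        rw [← e]
        exact A2 _ ⟨by linarith [ht.2], by linarith [ht.1]⟩
      · have e := L.per (-t + p)
        show (c (-t + p)).re < 0
        rw [← e]
        exact A1 _ ⟨by linarith [ht.2], by linarith [ht.1]⟩
    · exfalso
      rcases cover (c a) (mem_range_self a) ha.ne' with ⟨u, hu, e⟩ | ⟨u, hu, e⟩
      · have := A1 u hu; rw [e] at this; linarith
      · have := A2 u hu; rw [e] at this; linarith

end Pool.Agent.H763R2.An
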