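import Pool.Agent.H763R2.An.St

/-! Local structure of the signed distance near points where the curve is straight. -/

set_option autoImplicit false
open Complex Set Topology Metric

namespace Pool.Agent.H763R2.An

open Sq (Dv Cv)
open Dm (b b_true b_false two_zero)

variable {c : ℝ → ℂ} {M : ℂ → ℝ} {κ : ZMod 2}

theorem Loop.near_fib (L : Loop c) (z : ℂ) {η : ℝ} (hη : 0 < η) :
    ∃ δ > 0, ∀ t, ‖c t - z‖ < δ → ∃ t', c t' = z ∧ |t - t'| < η := by
  have hc := L.cont
  set K : Set ℝ := Icc 0 1 ∩ {t | ∀ t', c t' = z → η ≤ |t - t'|} with hK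
  have hKc : IsCompact K := by
    refine isCompact_Icc.inter_right ?_
    have : {t : ℝ | ∀ t', c t' = z → η ≤ |t - t'|} = ⋂ t' ∈ {t' | c t' = z}, {t | η ≤ |t - t'|} := by
      ext t; simp
    rw [this]
    exact isClosed_biInter fun t' _ => isClosed_le continuous_const (by fun_prop)
  have key : ∃ δ > 0, ∀ t ∈ K, δ ≤ ‖c t - z‖ := by
    rcases K.eq_empty_or_nonempty with h | h
    · exact ⟨1, one_pos, fun t ht => by rw [h] at ht; exact absurd ht (notMem_empty t)⟩
    · obtain ⟨x, hx, hmin⟩ := hKc.exists_isMinOn h (f := fun t => ‖c t - z‖) (by fun_prop)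
      refine ⟨‖c x - z‖, norm_pos_iff.2 (sub_ne_zero.2 fun h2 => ?_), fun t ht => hmin ht⟩
      have := hx.2 x h2
      rw [sub_self, abs_zero] at this
      linarith
  obtain ⟨δ, hδ, h⟩ := key
  refine ⟨δ, hδ, fun t ht => ?_⟩
  have e : c (Int.fract t) = c t := by
    have := L.per_int (Int.fract t) ⌊t⌋
    rw [Int.fract_add_floor] at this
    exact this.symm
  by_contra hcon
  push Not at hcon
  have hm : Int.fract t ∈ K := by
    refine ⟨⟨Int.fract_nonneg t, (Int.fract_lt_one t).le⟩, fun t' ht' => ?_⟩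
    have := hcon (t' + ⌊t⌋) (by rw [L.per_int]; exact ht')
    have e2 : t - (t' + ⌊t⌋) = Int.fract t - t' := by unfold Int.fract; ring
    rwa [e2] at this
  have := h _ hm
  rw [e] at this
  linarith

theorem sym_dist {C : Set ℂ} {z : ℂ} (hz : z ∈ C) {R : ℝ}
    (h : ∀ w : ℂ, ‖w‖ < 2 * R → (z + w ∈ C ↔ z - w ∈ C)) {ζ : ℂ} (hζ : ‖ζ‖ < R) :
    infDist (z + ζ) C = infDist (z - ζ) C := by
  have key : ∀ ζ : ℂ, ‖ζ‖ < R → infDist (z - ζ) C ≤ infDist (z + ζ) C := by
    intro ζ hζ
    refine le_of_forall_gt fun d hd => ?_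
    have h0 : infDist (z + ζ) C < R := by
      refine lt_of_le_of_lt (infDist_le_dist_of_mem hz) ?_
      rw [dist_eq_norm, add_sub_cancel_left]; exact hζ
    obtain ⟨w, hw, hwd⟩ := (infDist_lt_iff ⟨z, hz⟩).1 (lt_min hd h0)
    obtain ⟨w1, w2⟩ := lt_min_iff.1 hwd
    have hn : ‖w - z‖ < 2 * R := by
      have e : w - z = (w - (z + ζ)) + ζ := by ring
      rw [e]
      have := norm_add_le (w - (z + ζ)) ζ
      rw [dist_comm, dist_eq_norm] at w2
      linarith
    have hm : z - (w - z) ∈ C := (h (w - z) hn).1 (by rw [add_sub_cancel]; exact hw)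
    refine (infDist_le_dist_of_mem hm).trans_lt ?_
    rw [dist_eq_norm, show z - ζ - (z - (w - z)) = -(z + ζ - w) by ring, norm_neg,
      ← dist_eq_norm]
    exact w1
  refine le_antisymm ?_ (key ζ hζ)
  have := key (-ζ) (by rwa [norm_neg])
  rwa [sub_neg_eq_add, ← sub_eq_add_neg] at this

/-- straight near the parameter `t` -/
def Lin (c : ℝ → ℂ) (t : ℝ) (e : ℂ) (η : ℝ) : Prop := ∀ s : ℝ, |s| ≤ η → c (t + s) = c t + s * e

def OddAt (M : ℂ → ℝ) (z : ℂ) : Prop := ∃ R > 0, ∀ ζ : ℂ, ‖ζ‖ < R → M (z + ζ) = - M (z - ζ)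
def EvenAt (M : ℂ → ℝ) (z : ℂ) : Prop := ∃ R > 0, ∀ ζ : ℂ, ‖ζ‖ < R → M (z + ζ) = M (z - ζ)

theorem sign_mul {V : Set ℂ} (hV : IsPreconnected V) {φ : ℂ → ℝ} (hφ : Continuous φ)
    (h : ∀ z ∈ V, φ z ≠ 0) {z w : ℂ} (hz : z ∈ V) (hw : w ∈ V) : 0 < φ z * φ w := by
  rcases lt_or_gt_of_ne (h z hz) with h1 | h1
  · have := sign_const hV hφ.neg (fun z hz => neg_ne_zero.2 (h z hz)) hz hw
      (show 0 < -φ z by linarith)
    have h2 : 0 < -φ w := this
    nlinarith
  · exact mul_pos h1 (sign_const hV hφ h hz hw h1)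

theorem odd_simple (L : Loop c) (S : Sg c M κ) {t0 η : ℝ} {e : ℂ} (he : e ≠ 0) (hη : 0 < η)
    (hl : Lin c t0 e η) (hfib : ∀ t, c t = c t0 → ∃ n : ℤ, t = t0 + n) : OddAt M (c t0) := by
  set z := c t0 with hz
  have hne : 0 < ‖e‖ := norm_pos_iff.2 he
  -- reduce the size
  obtain ⟨η', hη', hη'2, hη'3⟩ : ∃ η' > 0, η' ≤ η ∧ η' < 1 / 2 :=
    ⟨min η (1 / 4), by positivity, min_le_left _ _, lt_of_le_of_lt (min_le_right _ _) (by norm_num)⟩
  obtain ⟨δ, hδ, hnear⟩ := L.near_fib z hη'
  have hM := S.cont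
  set R := min (δ / 2) (η' * ‖e‖ / 2) with hR
  have hR0 : 0 < R := by positivity
  have hR1 : R ≤ δ / 2 := min_le_left _ _
  have hR2 : R ≤ η' * ‖e‖ / 2 := min_le_right _ _
  -- points of the curve near z
  have hmem : ∀ w : ℂ, ‖w‖ < 2 * R → (z + w ∈ range c ↔ (w / e).im = 0) := by
    intro w hw
    constructor
    · rintro ⟨t, ht⟩
      obtain ⟨t', ht', htt⟩ := hnear t (by rw [ht, add_sub_cancel_left]; linarith)
      obtain ⟨n, rfl⟩ := hfib t' ht'
      have e1 : c t = z + ((t - (t0 + n) : ℝ) : ℂ) * e := by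
        have := hl (t - (t0 + n)) (by linarith)
        rw [← hz] at this
        have h3 := L.per_int (t0 + (t - (t0 + n))) n
        rw [show t0 + (t - (t0 + n)) + n = t by ring] at h3
        rw [h3, this]
      rw [ht] at e1
      have e2 : w = ((t - (t0 + n) : ℝ) : ℂ) * e := add_left_cancel e1
      rw [e2, mul_div_cancel_right₀ _ he, ofReal_im]
    · intro h
      have e1 : w = ((w / e).re : ℂ) * e := by
        have : w / e = ((w / e).re : ℂ) := Complex.ext (by simp) (by simp [h])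
        rw [← this, div_mul_cancel₀ _ he]
      refine ⟨t0 + (w / e).re, ?_⟩
      rw [hl, ← e1]
      have : ‖w‖ = |(w / e).re| * ‖e‖ := by
        conv_lhs => rw [e1]
        rw [norm_mul, norm_real, Real.norm_eq_abs]
      rw [this] at hw
      have : |(w / e).re| * ‖e‖ < η' * ‖e‖ := by linarith
      exact (lt_of_mul_lt_mul_right this hne.le).le.trans hη'2
  have hsymm : ∀ ζ : ℂ, ‖ζ‖ < R → |M (z + ζ)| = |M (z - ζ)| := by
    intro ζ hζ
    rw [S.abs, S.abs]
    refine sym_dist (mem_range_self t0) (fun w hw => ?_) hζ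
    rw [hmem w hw, sub_eq_add_neg, hmem (-w) (by rwa [norm_neg]), neg_div, neg_im, neg_eq_zero]
  -- far part
  have hfar : ∃ d > 0, ∀ t ∈ Icc η' (1 - η'), d < ‖(c (t + t0) - z) / e‖ := by
    have hc := L.cont
    obtain ⟨x, hx, hmin⟩ := isCompact_Icc.exists_isMinOn
      (nonempty_Icc.2 (show η' ≤ 1 - η' by linarith)) (f := fun t => ‖(c (t + t0) - z) / e‖)
      (by fun_prop)
    have : 0 < ‖(c (x + t0) - z) / e‖ := by
      rw [norm_pos_iff]
      refine div_ne_zero (sub_ne_zero.2 fun h => ?_) he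
      obtain ⟨n, hn⟩ := hfib _ h
      have : x = n := by linarith
      have h1 : (0:ℝ) < n := by rw [← this]; linarith [hx.1]
      have h2 : (n:ℝ) < 1 := by rw [← this]; linarith [hx.2]
      have h3 : 0 < n := by exact_mod_cast h1
      have h4 : n < 1 := by exact_mod_cast h2
      omega
    exact ⟨‖(c (x + t0) - z) / e‖ / 2, by positivity, fun t ht =>
      lt_of_lt_of_le (half_lt_self this) (hmin ht)⟩
  obtain ⟨d, hd, hfar⟩ := hfar
  set d' := min d (R / (2 * ‖e‖)) with hd'
  have hd'0 : 0 < d' := by positivity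
  have hd'1 : d' ≤ d := min_le_left _ _
  have hd'2 : d' * ‖e‖ < R := by
    have : d' ≤ R / (2 * ‖e‖) := min_le_right _ _
    have h3 : d' * ‖e‖ ≤ R / (2 * ‖e‖) * ‖e‖ := mul_le_mul_of_nonneg_right this hne.le
    have h4 : R / (2 * ‖e‖) * ‖e‖ = R / 2 := by field_simp
    linarith
  have him : ((d' : ℂ) * I * e / e).im = d' := by
    rw [mul_div_cancel_right₀ _ he]; simp
  have hnn : ‖(d' : ℂ) * I * e‖ < R := by
    rw [norm_mul, norm_mul, norm_I, mul_one, norm_real, Real.norm_of_nonneg hd'0.le]; exact hd'2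
  have m1 : z + d' * I * e ∉ range c := by
    rw [hmem _ (by linarith), him]; exact hd'0.ne'
  have m2 : z - d' * I * e ∉ range c := by
    rw [sub_eq_add_neg, hmem _ (by rw [norm_neg]; linarith), neg_div, neg_im, him]
    simpa using hd'0.ne'
  have L' := L.shift t0
  have S' := S.shift L t0
  have r' := range_shift (c := c) t0
  obtain ⟨n, hn⟩ := L'.exW (z := z + d' * I * e) (by rw [r']; exact m1)
  obtain ⟨n', hn'⟩ := L'.exW (z := z - d' * I * e) (by rw [r']; exact m2)
  have hval : ∀ t, |t| ≤ η' → (c (t + t0) - z) / e = t := by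
    intro t ht
    rw [add_comm t t0, hl t (ht.trans hη'2), ← hz, add_sub_cancel_left, mul_div_cancel_right₀ _ he]
  have hcr := cross (c := fun t => c (t + t0)) he hd'0 hη' hη'3 L' (by simp only [zero_add]; rfl)
    hn hn' (fun t ht => lt_of_le_of_lt hd'1 (hfar t ht))
    (fun t ht => by
      rw [hval t (by rw [abs_of_pos ht.1]; exact ht.2), ofReal_re]; exact ht.1)
    (fun t ht => by
      rw [hval t (by rw [abs_of_neg ht.2]; linarith [ht.1]), ofReal_re]; exact ht.2)
  have p1 := S'.par _ (by rw [r']; exact m1) n hn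
  have p2 := S'.par _ (by rw [r']; exact m2) n' hn'
  have hopp : M (z + d' * I * e) * M (z - d' * I * e) < 0 := by
    have k1 : M (z + d' * I * e) ≠ 0 := fun h => m1 ((S.zero L).1 h)
    have k2 : M (z - d' * I * e) ≠ 0 := fun h => m2 ((S.zero L).1 h)
    rw [hcr] at p1
    push_cast at p1
    rw [p2] at p1
    rcases lt_or_gt_of_ne k1 with h1 | h1 <;> rcases lt_or_gt_of_ne k2 with h2 | h2
    · rw [b_false (not_lt.2 h1.le), b_false (not_lt.2 h2.le)] at p1
      exact absurd (show (1 : ZMod 2) = 0 by linear_combination p1) (by decide)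
    · exact mul_neg_of_neg_of_pos h1 h2
    · exact mul_neg_of_pos_of_neg h1 h2
    · rw [b_true h1, b_true h2] at p1
      exact absurd (show (1 : ZMod 2) = 0 by linear_combination p1) (by decide)
  refine ⟨R, hR0, ?_⟩
  -- convex half discs
  have hVc : ∀ a : ℂ, Convex ℝ {ζ : ℂ | ‖ζ‖ < R ∧ 0 < (ζ / a).im} := by
    intro a
    have h1 : Convex ℝ {ζ : ℂ | ‖ζ‖ < R} := fun x hx y hy p q hp hq hpq => by
      have := convex_ball (0:ℂ) R (x := x) (by simpa using hx) (y := y) (by simpa using hy)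
        hp hq hpq
      simpa using this
    have h2 : Convex ℝ {ζ : ℂ | 0 < (ζ / a).im} := by
      intro x hx y hy p q hp hq hpq
      simp only [mem_ofPred_eq] at hx hy ⊢
      have e1 : ((p • x + q • y) / a).im = p * (x / a).im + q * (y / a).im := by
        rw [add_div, add_im, real_smul, real_smul, mul_div_assoc, mul_div_assoc, im_ofReal_mul,
          im_ofReal_mul]
      rw [e1]
      rcases lt_or_eq_of_le hp with h | h
      · nlinarith [mul_pos h hx, mul_nonneg hq hy.le]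
      · have : q = 1 := by linarith
        rw [← h, this]; linarith
    exact h1.inter h2
  have cM : Continuous fun ζ : ℂ => M (z + ζ) := hM.comp (by fun_prop)
  have key : ∀ ζ : ℂ, ‖ζ‖ < R → 0 < (ζ / e).im → M (z + ζ) * M (z - ζ) < 0 := by
    intro ζ hζ hi
    have a1 : 0 < M (z + ζ) * M (z + d' * I * e) :=
      sign_mul (hVc e).isPreconnected cM (fun w hw h => by
        have := (hmem w (by have := hw.1; linarith)).1 ((S.zero L).1 h)
        exact hw.2.ne' this) ⟨hζ, hi⟩ ⟨hnn, by rw [him]; exact hd'0⟩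
    have a2 : 0 < M (z + -ζ) * M (z + -(d' * I * e)) :=
      sign_mul (hVc (-e)).isPreconnected cM (fun w hw h => by
        have := (hmem w (by have := hw.1; linarith)).1 ((S.zero L).1 h)
        have h2 := hw.2
        rw [div_neg, neg_im] at h2
        linarith) ⟨by rwa [norm_neg], by rwa [neg_div_neg_eq]⟩
        ⟨by rwa [norm_neg], by rw [neg_div_neg_eq, him]; exact hd'0⟩
    rw [← sub_eq_add_neg, ← sub_eq_add_neg] at a2
    by_contra hcon
    push Not at hcon
    nlinarith [mul_pos a1 a2, mul_nonneg hcon (show 0 ≤ -(M (z + d' * I * e) * M (z - d' * I * e))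
      by linarith)]
  intro ζ hζ
  have hs := hsymm ζ hζ
  have fin : ∀ x y : ℝ, |x| = |y| → x * y < 0 → x = -y := by
    intro x y h1 h2
    rcases abs_eq_abs.1 h1 with h | h
    · rw [h] at h2; nlinarith [mul_self_nonneg y]
    · exact h
  rcases lt_trichotomy ((ζ / e).im) 0 with h | h | h
  · have := key (-ζ) (by rwa [norm_neg]) (by rw [neg_div, neg_im]; linarith)
    rw [← sub_eq_add_neg, sub_neg_eq_add, mul_comm] at this
    exact fin _ _ hs this
  · have h1 := (hmem ζ (by linarith)).2 h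
    rw [← S.zero L] at h1
    rw [h1, abs_zero] at hs
    rw [h1, abs_eq_zero.1 hs.symm, neg_zero]
  · exact fin _ _ hs (key ζ hζ h)

end Pool.Agent.H763R2.An
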