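import Pool.Agent.H763R2.An.Di

/-! Generic lines. -/

set_option autoImplicit false
open Complex Set

namespace Pool.Agent.H763R2.An

variable {ι : Type*} {d : ι → ℂ} {k : ι → ℝ}

/-- the point is on the line -/
def On (d : ι → ℂ) (k : ι → ℝ) (i : ι) (z : ℂ) : Prop := cr (d i) z = k i

/-- a square inscribed in four lines -/
structure Sqr (d : ι → ℂ) (k : ι → ℝ) (a b c e : ι) (A w : ℂ) : Prop where
  w0 : w ≠ 0
  ha : On d k a A
  hb : On d k b (A + w)
  hc : On d k c (A + w + I * w)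
  he : On d k e (A + I * w)

theorem Sqr.rot {a b c e : ι} {A w : ℂ} (h : Sqr d k a b c e A w) :
    Sqr d k b c e a (A + w) (I * w) := by
  refine ⟨mul_ne_zero I_ne_zero h.w0, h.hb, h.hc, ?_, ?_⟩
  · have : A + w + I * w + I * (I * w) = A + I * w := by linear_combination w * I_mul_I
    rw [this]; exact h.he
  · have : A + w + I * (I * w) = A := by linear_combination w * I_mul_I
    rw [this]; exact h.ha

theorem On.sub {i : ι} {z w : ℂ} (h : On d k i z) (h' : On d k i w) : cr (d i) (w - z) = 0 := by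
  unfold On at h h'
  rw [cr_sub, h, h', sub_self]

theorem cr_par {u B : ℂ} (hu : u ≠ 0) (h : cr u B = 0) : ∃ s : ℝ, B = s * u := by
  have hn := normSq_pos.2 hu
  rw [normSq_apply] at hn
  refine ⟨(u.re * B.re + u.im * B.im) / (u.re * u.re + u.im * u.im), ?_⟩
  unfold cr at h
  apply Complex.ext
  · simp only [mul_re, ofReal_re, ofReal_im, zero_mul, sub_zero]
    rw [div_mul_eq_mul_div, eq_div_iff hn.ne']
    linear_combination (-u.im) * h
  · simp only [mul_im, ofReal_re, ofReal_im, zero_mul, add_zero]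
    rw [div_mul_eq_mul_div, eq_div_iff hn.ne']
    linear_combination u.re * h

theorem kill {u u' v r : ℂ} (hu : u ≠ 0) (hv : v ≠ 0) (h : cr u v = 0) (h' : cr u' (r * v) = 0) :
    cr u' (r * u) = 0 := by
  obtain ⟨s, rfl⟩ := cr_par hu h
  have hs : s ≠ 0 := by rintro rfl; simp at hv
  rw [show r * (s * u) = s * (r * u) by ring, cr_smul] at h'
  rcases mul_eq_zero.1 h' with h | h
  · exact absurd h hs
  · exact h

theorem cr_I_pos {u : ℂ} (hu : u ≠ 0) : cr u (I * u) ≠ 0 := by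
  have hn := normSq_pos.2 hu
  rw [normSq_apply] at hn
  have : cr u (I * u) = u.re * u.re + u.im * u.im := by unfold cr; simp
  rw [this]; exact hn.ne'

theorem cr_1I_pos {u : ℂ} (hu : u ≠ 0) : cr u ((1 + I) * u) ≠ 0 := by
  have : cr u ((1 + I) * u) = cr u (I * u) := by unfold cr; simp; ring
  rw [this]; exact cr_I_pos hu

theorem uniq0 (hd : ∀ i, d i ≠ 0) (h2 : D2 d) {a b c e : ι} {A w A' w' : ℂ} (n1 : a ≠ b)
    (n2 : a ≠ c) (n3 : a ≠ e) (h : Sqr d k a b c e A w) (h' : Sqr d k a b c e A' w') :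
    A = A' ∧ w = w' := by
  have e0 := h'.ha.sub h.ha
  have e1 := h'.hb.sub h.hb
  have e2 := h'.hc.sub h.hc
  have e3 := h'.he.sub h.he
  obtain ⟨s, hs⟩ := cr_par (hd a) e0
  obtain ⟨t, ht⟩ := cr_par (hd b) e1
  have hv : w - w' = t * d b - s * d a := by linear_combination ht - hs
  have f2 : t * cr (d c) ((1 + I) * d b) + s * cr (d c) (-I * d a) = 0 := by
    rw [← cr_smul, ← cr_smul, ← cr_add, ← e2]
    congr 1
    linear_combination -ht - I * hv
  have f3 : s * cr (d e) ((1 - I) * d a) + t * cr (d e) (I * d b) = 0 := by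
    rw [← cr_smul, ← cr_smul, ← cr_add, ← e3]
    congr 1
    linear_combination -hs - I * hv
  have hD := h2 a b c e n1 n2 n3
  have ft : t * Dt (d a) (d b) (d c) (d e) = 0 := by
    unfold Dt
    linear_combination cr (d e) ((1 - I) * d a) * f2 - cr (d c) (-I * d a) * f3
  have fs : s * Dt (d a) (d b) (d c) (d e) = 0 := by
    unfold Dt
    linear_combination cr (d c) ((1 + I) * d b) * f3 - cr (d e) (I * d b) * f2
  have ht0 : t = 0 := by
    rcases mul_eq_zero.1 ft with h | h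
    · exact h
    · exact absurd h hD
  have hs0 : s = 0 := by
    rcases mul_eq_zero.1 fs with h | h
    · exact h
    · exact absurd h hD
  rw [hs0] at hs hv
  rw [ht0] at hv
  simp only [ofReal_zero, zero_mul, sub_zero] at hs hv
  exact ⟨sub_eq_zero.1 hs, sub_eq_zero.1 hv⟩

theorem nosq2 (hd : ∀ i, d i ≠ 0) (h1 : D1 d) {a b c e : ι} {A w : ℂ}
    (h : Sqr d k a b c e A w) (ha : a = b ∨ a = c ∨ a = e) (hb : b = c ∨ b = e ∨ b = a)
    (hc : c = e ∨ c = a ∨ c = b) : False := by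
  have iw : I * w ≠ 0 := mul_ne_zero I_ne_zero h.w0
  have ab : a = b → cr (d a) w = 0 := fun hh => by
    have := h.ha.sub (hh ▸ h.hb); rwa [add_sub_cancel_left] at this
  have ae : a = e → cr (d a) (I * w) = 0 := fun hh => by
    have := h.ha.sub (hh ▸ h.he); rwa [add_sub_cancel_left] at this
  have ac : a = c → cr (d a) ((1 + I) * w) = 0 := fun hh => by
    have := h.ha.sub (hh ▸ h.hc)
    rwa [show A + w + I * w - A = (1 + I) * w by ring] at this
  have bc : b = c → cr (d b) (I * w) = 0 := fun hh => by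
    have := h.hb.sub (hh ▸ h.hc); rwa [add_sub_cancel_left] at this
  have be : b = e → cr (d b) ((1 - I) * w) = 0 := fun hh => by
    have := (show On d k b (A + I * w) from hh ▸ h.he).sub h.hb
    rwa [show A + w - (A + I * w) = (1 - I) * w by ring] at this
  have ce : c = e → cr (d c) w = 0 := fun hh => by
    have := (show On d k c (A + I * w) from hh ▸ h.he).sub h.hc
    rwa [show A + w + I * w - (A + I * w) = w by ring] at this
  -- three equal lines
  have t1 : a = b → a = c → False := fun g1 g2 =>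
    cr_1I_pos (hd a) (kill (hd a) h.w0 (ab g1) (ac g2))
  have t2 : a = b → a = e → False := fun g1 g2 =>
    cr_I_pos (hd a) (kill (hd a) h.w0 (ab g1) (ae g2))
  rcases ha with ha | ha | ha
  · rcases hc with hc | hc | hc
    · by_cases hac : a = c
      · exact t1 ha hac
      · exact (h1 c a (Ne.symm hac)).1 (kill (hd a) h.w0 (ab ha) (by rw [one_mul]; exact ce hc))
    · exact t1 ha hc.symm
    · exact t1 ha (ha.trans hc.symm)
  · rcases hb with hb | hb | hb
    · exact t1 (ha.trans hb.symm) ha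
    · by_cases hab : a = b
      · exact t1 hab ha
      · have v0 : (1 + I) * w ≠ 0 := by
          refine mul_ne_zero (fun h' => ?_) h.w0
          have := congrArg Complex.re h'; simp at this
        refine (h1 b a (Ne.symm hab)).2.1 (kill (hd a) v0 (ac ha) ?_)
        have : I * ((1 + I) * w) = -((1 - I) * w) := by linear_combination w * I_mul_I
        rw [this, cr_neg, be hb, neg_zero]
    · exact t1 hb.symm ha
  · rcases hb with hb | hb | hb
    · by_cases hab : a = b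
      · exact t2 hab ha
      · exact (h1 b a (Ne.symm hab)).1 (kill (hd a) iw (ae ha) (by rw [one_mul]; exact bc hb))
    · exact t2 (ha.trans hb.symm) ha
    · exact t2 hb.symm ha

theorem uniq (hd : ∀ i, d i ≠ 0) (h1 : D1 d) (h2 : D2 d) {a b c e : ι} {A w A' w' : ℂ}
    (h : Sqr d k a b c e A w) (h' : Sqr d k a b c e A' w') : A = A' ∧ w = w' := by
  have hI : ∀ {x y : ℂ}, I * x = I * y → x = y := fun h => mul_left_cancel₀ I_ne_zero h
  by_cases p0 : a = b ∨ a = c ∨ a = e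
  swap
  · push Not at p0
    exact uniq0 hd h2 p0.1 p0.2.1 p0.2.2 h h'
  by_cases p1 : b = c ∨ b = e ∨ b = a
  swap
  · push Not at p1
    obtain ⟨g1, g2⟩ := uniq0 hd h2 p1.1 p1.2.1 p1.2.2 h.rot h'.rot
    have g3 := hI g2
    rw [g3] at g1
    exact ⟨add_right_cancel g1, g3⟩
  by_cases p2 : c = e ∨ c = a ∨ c = b
  swap
  · push Not at p2
    obtain ⟨g1, g2⟩ := uniq0 hd h2 p2.1 p2.2.1 p2.2.2 h.rot.rot h'.rot.rot
    have g3 := hI (hI g2)
    rw [g3] at g1
    exact ⟨add_right_cancel (add_right_cancel g1), g3⟩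
  exact (nosq2 hd h1 h p0 p1 p2).elim

def D3 (d : ι → ℂ) (k : ι → ℝ) : Prop := ∀ a b c e f A w, Sqr d k a b c e A w → f ≠ a → f ≠ b →
  f ≠ c → f ≠ e → ¬ On d k f A

def D4 (d : ι → ℂ) (k : ι → ℝ) : Prop := ∀ a b c z, a ≠ b → a ≠ c → b ≠ c →
  ¬ (On d k a z ∧ On d k b z ∧ On d k c z)

/-- a vertex of an inscribed square is on one line only -/
theorem only (hd : ∀ i, d i ≠ 0) (h1 : D1 d) (h3 : D3 d k) {a b c e f : ι} {A w : ℂ}
    (h : Sqr d k a b c e A w) (hf : On d k f A) : f = a := by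
  by_contra hfa
  have iw : I * w ≠ 0 := mul_ne_zero I_ne_zero h.w0
  have e1 : (1 + I) * w = (1 - I) * (I * w) := by linear_combination w * I_mul_I
  have fb : f = b → cr (d f) w = 0 := fun hh => by
    have := hf.sub (hh ▸ h.hb); rwa [add_sub_cancel_left] at this
  have fe : f = e → cr (d f) (I * w) = 0 := fun hh => by
    have := hf.sub (hh ▸ h.he); rwa [add_sub_cancel_left] at this
  have fc : f = c → cr (d f) ((1 + I) * w) = 0 := fun hh => by
    have := hf.sub (hh ▸ h.hc)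
    rwa [show A + w + I * w - A = (1 + I) * w by ring] at this
  have ab : a = b → cr (d a) w = 0 := fun hh => by
    have := h.ha.sub (hh ▸ h.hb); rwa [add_sub_cancel_left] at this
  have ae : a = e → cr (d a) (I * w) = 0 := fun hh => by
    have := h.ha.sub (hh ▸ h.he); rwa [add_sub_cancel_left] at this
  have ac : a = c → cr (d a) ((1 + I) * w) = 0 := fun hh => by
    have := h.ha.sub (hh ▸ h.hc)
    rwa [show A + w + I * w - A = (1 + I) * w by ring] at this
  by_cases hfm : f = b ∨ f = c ∨ f = e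
  swap
  · push Not at hfm
    exact h3 a b c e f A w h hfa hfm.1 hfm.2.1 hfm.2.2 hf
  by_cases ham : a = b ∨ a = c ∨ a = e
  swap
  · push Not at ham
    exact h3 f b c e a A w ⟨h.w0, hf, h.hb, h.hc, h.he⟩ (Ne.symm hfa) ham.1 ham.2.1 ham.2.2 h.ha
  rcases hfm with g | g | g <;> rcases ham with g' | g' | g'
  · exact hfa (g.trans g'.symm)
  · exact (h1 a f (Ne.symm hfa)).2.2.1 (kill (hd f) h.w0 (fb g) (ac g'))
  · exact (h1 a f (Ne.symm hfa)).2.1 (kill (hd f) h.w0 (fb g) (ae g'))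
  · exact (h1 f a hfa).2.2.1 (kill (hd a) h.w0 (ab g') (fc g))
  · exact hfa (g.trans g'.symm)
  · exact (h1 f a hfa).2.2.2 (kill (hd a) iw (ae g') (by rw [← e1]; exact fc g))
  · exact (h1 f a hfa).2.1 (kill (hd a) h.w0 (ab g') (fe g))
  · exact (h1 a f (Ne.symm hfa)).2.2.2 (kill (hd f) iw (fe g) (by rw [← e1]; exact ac g'))
  · exact hfa (g.trans g'.symm)

theorem meet (hd : ∀ i, d i ≠ 0) (h1 : D1 d) {a b : ι} (hab : a ≠ b) {z z' : ℂ}
    (ha : On d k a z) (ha' : On d k a z') (hb : On d k b z) (hb' : On d k b z') : z = z' := by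
  by_contra hne
  have g1 := ha'.sub ha
  have g2 := hb'.sub hb
  exact (h1 b a (Ne.symm hab)).1 (kill (hd a) (sub_ne_zero.2 hne) g1 (by rw [one_mul]; exact g2))

theorem stageB [Fintype ι] [DecidableEq ι] (hd : ∀ i, d i ≠ 0) (h1 : D1 d) (h2 : D2 d)
    (S : ι → Set ℝ) (hS : ∀ i, (S i).Infinite) :
    ∃ k : ι → ℝ, (∀ i, k i ∈ S i) ∧ D3 d k ∧ D4 d k := by
  have onu : ∀ (k : ι → ℝ) (f i : ι) (x : ℝ) (z : ℂ), i ≠ f →
      (On d (Function.update k f x) i z ↔ On d k i z) := by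
    intro k f i x z h
    unfold On; rw [Function.update_of_ne h]
  have onf : ∀ (k : ι → ℝ) (f : ι) (x : ℝ) (z : ℂ),
      (On d (Function.update k f x) f z ↔ cr (d f) z = x) := by
    intro k f x z
    unfold On; rw [Function.update_self]
  have squ : ∀ (k : ι → ℝ) (a b c e f : ι) (x : ℝ) (A w : ℂ), f ≠ a → f ≠ b → f ≠ c → f ≠ e →
      Sqr d (Function.update k f x) a b c e A w → Sqr d k a b c e A w := by
    intro k a b c e f x A w n1 n2 n3 n4 h
    exact ⟨h.w0, (onu k f a x A n1.symm).1 h.ha, (onu k f b x _ n2.symm).1 h.hb,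
      (onu k f c x _ n3.symm).1 h.hc, (onu k f e x _ n4.symm).1 h.he⟩
  obtain ⟨k, hk, hbad⟩ := pigeon (ι := ι) (J := (ι × ι × ι) ⊕ (ι × ι × ι × ι × ι))
    (fun j => Sum.elim (fun p => p.2.2) (fun p => p.2.2.2.2) j)
    (fun j k => Sum.elim
      (fun p => (p.1 ≠ p.2.1 ∧ p.1 ≠ p.2.2 ∧ p.2.1 ≠ p.2.2) ∧
        ∃ z, On d k p.1 z ∧ On d k p.2.1 z ∧ On d k p.2.2 z)
      (fun p => (p.2.2.2.2 ≠ p.1 ∧ p.2.2.2.2 ≠ p.2.1 ∧ p.2.2.2.2 ≠ p.2.2.1 ∧
        p.2.2.2.2 ≠ p.2.2.2.1) ∧ ∃ A w, Sqr d k p.1 p.2.1 p.2.2.1 p.2.2.2.1 A w ∧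
          On d k p.2.2.2.2 A) j)
    (by
      rintro (⟨a, b, c⟩ | ⟨a, b, c, e, f⟩) k x y g g'
      · simp only [Sum.elim_inl] at g g'
        obtain ⟨⟨n1, n2, n3⟩, z, g1, g2, g3⟩ := g
        obtain ⟨-, z', g1', g2', g3'⟩ := g'
        rw [onu _ _ _ _ _ n2] at g1 g1'
        rw [onu _ _ _ _ _ n3] at g2 g2'
        rw [onf] at g3 g3'
        have := meet hd h1 n1 g1 g1' g2 g2'
        rw [← g3, ← g3', this]
      · simp only [Sum.elim_inr] at g g'
        obtain ⟨⟨n1, n2, n3, n4⟩, A, w, g1, g2⟩ := g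
        obtain ⟨-, A', w', g1', g2'⟩ := g'
        rw [onf] at g2 g2'
        have := (uniq hd h1 h2 (squ _ _ _ _ _ _ _ _ _ n1 n2 n3 n4 g1)
          (squ _ _ _ _ _ _ _ _ _ n1 n2 n3 n4 g1')).1
        rw [← g2, ← g2', this])
    S hS
  refine ⟨k, hk, ?_, ?_⟩
  · intro a b c e f A w h n1 n2 n3 n4 hf
    exact hbad (Sum.inr (a, b, c, e, f)) ⟨⟨n1, n2, n3, n4⟩, A, w, h, hf⟩
  · rintro a b c z n1 n2 n3 ⟨g1, g2, g3⟩
    exact hbad (Sum.inl (a, b, c)) ⟨⟨n1, n2, n3⟩, z, g1, g2, g3⟩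

end Pool.Agent.H763R2.An
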