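import Mathlib

/-! Avoiding finitely many conditions by counting. -/

set_option autoImplicit false
open Set

namespace Pool.Agent.H763R2.An

theorem pigeon {ι : Type*} [Fintype ι] [DecidableEq ι] {J : Type*} [Fintype J] (e : J → ι)
    (bad : J → (ι → ℝ) → Prop)
    (h : ∀ j f x y, bad j (Function.update f (e j) x) → bad j (Function.update f (e j) y) → x = y)
    (S : ι → Set ℝ) (hS : ∀ i, (S i).Infinite) :
    ∃ f : ι → ℝ, (∀ i, f i ∈ S i) ∧ ∀ j, ¬ bad j f := by
  classical
  set K := Fintype.card J + 1 with hK
  choose T hT1 hT2 using fun i => (hS i).exists_subset_card_eq K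
  set P := Fintype.piFinset T with hP
  have hmem : ∀ f, f ∈ P ↔ ∀ i, f i ∈ T i := fun f => Fintype.mem_piFinset
  have hPn : 0 < P.card := by
    rw [Finset.card_pos]
    have : ∀ i, (T i).Nonempty := fun i => by
      rw [← Finset.card_pos, hT2]; omega
    exact Fintype.piFinset_nonempty.2 this
  by_contra hcon
  push Not at hcon
  have hB : ∀ j, (P.filter (bad j)).card * K ≤ P.card := by
    intro j
    rw [← hT2 (e j), ← Finset.card_product]
    refine Finset.card_le_card_of_injOn (fun z => Function.update z.1 (e j) z.2) ?_ ?_
    · rintro ⟨f, x⟩ hz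
      simp only [Finset.coe_product, mem_prod, Finset.mem_coe, Finset.mem_filter] at hz
      simp only [Finset.mem_coe]
      rw [hmem]
      intro i
      by_cases hi : i = e j
      · subst hi; rw [Function.update_self]; exact hz.2
      · rw [Function.update_of_ne hi]; exact (hmem f).1 hz.1.1 i
    · rintro ⟨f, x⟩ hz ⟨f', x'⟩ hz' heq
      simp only [Finset.coe_product, mem_prod, Finset.mem_coe, Finset.mem_filter] at hz hz'
      simp only at heq
      have e1 : x = x' := by
        have := congrFun heq (e j)
        rwa [Function.update_self, Function.update_self] at this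
      have e2 : ∀ i, i ≠ e j → f i = f' i := by
        intro i hi
        have := congrFun heq i
        rwa [Function.update_of_ne hi, Function.update_of_ne hi] at this
      have e3 : f' = Function.update f (e j) (f' (e j)) := by
        funext i
        by_cases hi : i = e j
        · subst hi; rw [Function.update_self]
        · rw [Function.update_of_ne hi, e2 i hi]
      have e4 := h j f (f (e j)) (f' (e j)) (by rw [Function.update_eq_self]; exact hz.1.2)
        (by rw [← e3]; exact hz'.1.2)
      have e5 : f = f' := by
        rw [e3, ← e4, Function.update_eq_self]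
      rw [e1, e5]
  have hsub : P ⊆ Finset.univ.biUnion (fun j => P.filter (bad j)) := by
    intro f hf
    obtain ⟨j, hj⟩ := hcon f (fun i => hT1 i ((hmem f).1 hf i))
    exact Finset.mem_biUnion.2 ⟨j, Finset.mem_univ j, Finset.mem_filter.2 ⟨hf, hj⟩⟩
  have h1 : P.card ≤ ∑ j, (P.filter (bad j)).card :=
    (Finset.card_le_card hsub).trans Finset.card_biUnion_le
  have h2 : P.card * K ≤ ∑ j : J, P.card := by
    refine (Nat.mul_le_mul_right K h1).trans ?_
    rw [Finset.sum_mul]
    exact Finset.sum_le_sum fun j _ => hB j
  rw [Finset.sum_const, Finset.card_univ, smul_eq_mul, mul_comm] at h2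
  have := Nat.le_of_mul_le_mul_right h2 hPn
  omega

end Pool.Agent.H763R2.An
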