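import Pool.Agent.H763R2.An.Cl
import Pool.Agent.H763R2.An.Of

/-! Generic closed polygons. -/

set_option autoImplicit false
open Complex Set Topology Metric

namespace Pool.Agent.H763R2.An

/-- intersection of two lines -/
noncomputable def Xl (u v : ℂ) (a b : ℝ) : ℂ := ((a : ℂ) * v - b * u) / (cr u v : ℝ)

theorem Xl_eq (u v : ℂ) (a b : ℝ) : Xl u v a b =
    ((a / cr u v : ℝ) : ℂ) * v - ((b / cr u v : ℝ) : ℂ) * u := by
  unfold Xl; push_cast; ring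

theorem cr_comm (u v : ℂ) : cr v u = - cr u v := by unfold cr; ring

theorem Xl_fst {u v : ℂ} (a b : ℝ) (h : cr u v ≠ 0) : cr u (Xl u v a b) = a := by
  rw [Xl_eq, cr_sub, cr_smul, cr_smul, cr_self, mul_zero, sub_zero, div_mul_cancel₀ _ h]

theorem Xl_snd {u v : ℂ} (a b : ℝ) (h : cr u v ≠ 0) : cr v (Xl u v a b) = b := by
  rw [Xl_eq, cr_sub, cr_smul, cr_smul, cr_self, mul_zero, zero_sub, cr_comm u v, mul_neg, neg_neg,
    div_mul_cancel₀ _ h]

variable {m : ℕ} {d : ZMod m → ℂ} {k : ZMod m → ℝ}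

/-- generic lines -/
structure Gl (d : ZMod m → ℂ) (k : ZMod m → ℝ) : Prop where
  m3 : 3 ≤ m
  hd : ∀ i, d i ≠ 0
  h1 : D1 d
  h2 : D2 d
  h3 : D3 d k
  h4 : D4 d k

/-- vertex -/
noncomputable def Vx (d : ZMod m → ℂ) (k : ZMod m → ℝ) (n : ℤ) : ℂ :=
  Xl (d ((n - 1 : ℤ) : ZMod m)) (d (n : ZMod m)) (k ((n - 1 : ℤ) : ZMod m)) (k (n : ZMod m))

theorem Vx_congr {n n' : ℤ} (h : (n : ZMod m) = n') : Vx d k n = Vx d k n' := by
  unfold Vx
  have h' : ((n - 1 : ℤ) : ZMod m) = ((n' - 1 : ℤ) : ZMod m) := by push_cast; rw [h]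
  rw [h, h']

/-- edge -/
noncomputable def Ux (d : ZMod m → ℂ) (k : ZMod m → ℝ) (n : ℤ) : ℂ := Vx d k (n + 1) - Vx d k n

theorem Ux_congr {n n' : ℤ} (h : (n : ZMod m) = n') : Ux d k n = Ux d k n' := by
  unfold Ux
  have h' : ((n + 1 : ℤ) : ZMod m) = ((n' + 1 : ℤ) : ZMod m) := by push_cast; rw [h]
  rw [Vx_congr h, Vx_congr h']

theorem cast_ne {a b : ℤ} (h : ¬ (m : ℤ) ∣ b - a) : (a : ZMod m) ≠ (b : ZMod m) := fun h' =>
  h ((ZMod.intCast_eq_intCast_iff_dvd_sub a b m).1 h')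

theorem Gl.ne1 (G : Gl d k) (n : ℤ) : ((n - 1 : ℤ) : ZMod m) ≠ (n : ZMod m) := by
  apply cast_ne
  rw [show n - (n - 1) = 1 by ring]
  intro h
  have := Int.le_of_dvd one_pos h
  have := G.m3
  omega

theorem Gl.ne1' (G : Gl d k) (n : ℤ) : (n : ZMod m) ≠ ((n + 1 : ℤ) : ZMod m) := by
  have := G.ne1 (n + 1)
  rwa [add_sub_cancel_right] at this

theorem Gl.ne2 (G : Gl d k) (n : ℤ) : ((n - 1 : ℤ) : ZMod m) ≠ ((n + 1 : ℤ) : ZMod m) := by
  apply cast_ne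
  rw [show n + 1 - (n - 1) = 2 by ring]
  intro h
  have := Int.le_of_dvd two_pos h
  have := G.m3
  omega

theorem Gl.crne (G : Gl d k) (n : ℤ) : cr (d ((n - 1 : ℤ) : ZMod m)) (d (n : ZMod m)) ≠ 0 := by
  have := (G.h1 _ _ (G.ne1 n)).1
  rwa [one_mul] at this

theorem Gl.onV (G : Gl d k) (n : ℤ) : On d k (n : ZMod m) (Vx d k n) := Xl_snd _ _ (G.crne n)

theorem Gl.onV' (G : Gl d k) (n : ℤ) : On d k ((n - 1 : ℤ) : ZMod m) (Vx d k n) :=
  Xl_fst _ _ (G.crne n)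

theorem Gl.onVs (G : Gl d k) (n : ℤ) : On d k (n : ZMod m) (Vx d k (n + 1)) := by
  have := G.onV' (n + 1)
  rwa [add_sub_cancel_right] at this

theorem Gl.Ux_ne (G : Gl d k) (n : ℤ) : Ux d k n ≠ 0 := by
  intro h
  have e : Vx d k (n + 1) = Vx d k n := sub_eq_zero.1 h
  have h1 := G.onV' n
  have h2 := G.onV n
  have h3 := G.onV (n + 1)
  rw [e] at h3
  exact G.h4 _ _ _ _ (G.ne1 n) (G.ne2 n) (G.ne1' n) ⟨h1, h2, h3⟩

theorem Gl.cr_Ux (G : Gl d k) (n : ℤ) : cr (d (n : ZMod m)) (Ux d k n) = 0 :=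
  (G.onV n).sub (G.onVs n)

/-- the polygon, vertices at the integers -/
noncomputable def pp (d : ZMod m → ℂ) (k : ZMod m → ℝ) (s : ℝ) : ℂ :=
  Vx d k ⌊s⌋ + (Int.fract s : ℝ) * Ux d k ⌊s⌋

theorem pp_near (n : ℤ) {s : ℝ} (h1 : (n : ℝ) - 1 < s) (h2 : s < n + 1) :
    pp d k s = Vx d k n + (max (s - n) 0 : ℝ) * Ux d k n +
      (min (s - n) 0 : ℝ) * Ux d k (n - 1) := by
  rcases le_or_gt (n:ℝ) s with h | h
  · have hf : ⌊s⌋ = n := Int.floor_eq_iff.2 ⟨h, h2⟩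
    have e : Int.fract s = s - n := by rw [← Int.self_sub_floor, hf]
    unfold pp
    rw [hf, e, max_eq_left (by linarith), min_eq_right (by linarith)]
    simp
  · have hf : ⌊s⌋ = n - 1 := Int.floor_eq_iff.2 ⟨by push_cast; linarith, by push_cast; linarith⟩
    have e : Int.fract s = s - n + 1 := by rw [← Int.self_sub_floor, hf]; push_cast; ring
    unfold pp
    rw [hf, e, max_eq_right (by linarith), min_eq_left (by linarith)]
    unfold Ux; rw [sub_add_cancel]; push_cast; ring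

theorem pp_cont : Continuous (pp d k) := by
  rw [continuous_iff_continuousAt]
  intro s
  have h1 := Int.floor_le s
  have h2 := Int.lt_floor_add_one s
  obtain ⟨n, hn⟩ : ∃ n, n = ⌊s⌋ := ⟨_, rfl⟩
  rw [← hn] at h1 h2
  have hc : Continuous fun s : ℝ => Vx d k n + (max (s - n) 0 : ℝ) * Ux d k n +
      (min (s - n) 0 : ℝ) * Ux d k (n - 1) := by fun_prop
  refine hc.continuousAt.congr ?_
  filter_upwards [Ioo_mem_nhds (show (n:ℝ) - 1 < s by linarith) h2] with x hx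
  exact (pp_near n hx.1 hx.2).symm

theorem pp_per (s : ℝ) : pp d k (s + m) = pp d k s := by
  unfold pp
  have h : ((⌊s⌋ + (m : ℤ) : ℤ) : ZMod m) = (⌊s⌋ : ZMod m) := by push_cast; simp
  rw [Int.floor_add_natCast, Int.fract_add_natCast, Vx_congr h, Ux_congr h]

theorem Gl.on (G : Gl d k) (s : ℝ) : On d k (⌊s⌋ : ZMod m) (pp d k s) := by
  have h1 := G.onV ⌊s⌋
  unfold On at h1 ⊢
  unfold pp
  rw [cr_add, cr_smul, G.cr_Ux, mul_zero, add_zero, h1]

theorem Gl.on' (G : Gl d k) {s : ℝ} (h : Int.fract s = 0) :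
    On d k ((⌊s⌋ - 1 : ℤ) : ZMod m) (pp d k s) := by
  have := G.onV' ⌊s⌋
  unfold pp
  rwa [h, ofReal_zero, zero_mul, add_zero]

theorem Gl.inj (G : Gl d k) {s s' : ℝ} (h : (⌊s⌋ : ZMod m) = (⌊s'⌋ : ZMod m))
    (e : pp d k s = pp d k s') : ∃ j : ℤ, s' = s + m * j := by
  obtain ⟨j, hj⟩ := (ZMod.intCast_eq_intCast_iff_dvd_sub _ _ m).1 h
  refine ⟨j, ?_⟩
  unfold pp at e
  rw [Vx_congr h, Ux_congr h] at e
  have e2 : ((Int.fract s : ℝ) : ℂ) = (Int.fract s' : ℝ) :=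
    mul_right_cancel₀ (G.Ux_ne _) (add_left_cancel e)
  have e3 : Int.fract s = Int.fract s' := by exact_mod_cast e2
  have e4 := Int.floor_add_fract s
  have e5 := Int.floor_add_fract s'
  have e6 : (⌊s'⌋ : ℝ) - ⌊s⌋ = m * j := by exact_mod_cast hj
  linarith

theorem pp_lin {s : ℝ} (h : Int.fract s ≠ 0) : ∃ η > 0, ∀ r : ℝ, |r| ≤ η →
    pp d k (s + r) = pp d k s + r * Ux d k ⌊s⌋ := by
  have h0 := lt_of_le_of_ne (Int.fract_nonneg s) h.symm
  have h1 := Int.fract_lt_one s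
  have e := Int.floor_add_fract s
  refine ⟨min (Int.fract s) (1 - Int.fract s) / 2, by
    have := lt_min h0 (show 0 < 1 - Int.fract s by linarith); positivity, fun r hr => ?_⟩
  have m1 := min_le_left (Int.fract s) (1 - Int.fract s)
  have m2 := min_le_right (Int.fract s) (1 - Int.fract s)
  have hr1 := (abs_le.1 hr).1
  have hr2 := (abs_le.1 hr).2
  have hf : ⌊s + r⌋ = ⌊s⌋ := Int.floor_eq_iff.2 ⟨by linarith, by linarith⟩
  have hfr : Int.fract (s + r) = Int.fract s + r := by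
    rw [← Int.self_sub_floor, hf]; linarith
  unfold pp
  rw [hf, hfr]; push_cast; ring

/-- the closed polygon -/
noncomputable def qq (d : ZMod m → ℂ) (k : ZMod m → ℝ) (t : ℝ) : ℂ := pp d k (m * t)

theorem qq_loop : Loop (qq d k) where
  cont := pp_cont.comp (by fun_prop)
  per t := by unfold qq; rw [mul_add, mul_one, pp_per]

theorem Gl.mpos (G : Gl d k) : (0:ℝ) < m := by
  have := G.m3
  have : 0 < m := by omega
  exact_mod_cast this

theorem Gl.lin (G : Gl d k) {t : ℝ} (h : Int.fract (m * t) ≠ 0) : ∃ η > 0,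
    Lin (qq d k) t (m * Ux d k ⌊m * t⌋) η := by
  obtain ⟨η, h0, hη⟩ := pp_lin (d := d) (k := k) h
  have hm := G.mpos
  refine ⟨η / m, by positivity, fun r hr => ?_⟩
  unfold qq
  rw [mul_add, hη _ (by rw [abs_mul, abs_of_pos hm]; rwa [le_div_iff₀' hm] at hr)]
  push_cast; ring

theorem Gl.e_ne (G : Gl d k) (n : ℤ) : (m : ℂ) * Ux d k n ≠ 0 := by
  refine mul_ne_zero ?_ (G.Ux_ne n)
  have := G.mpos
  exact_mod_cast this.ne'

theorem Gl.fib (G : Gl d k) {t t' : ℝ} (h : (⌊m * t⌋ : ZMod m) = (⌊m * t'⌋ : ZMod m))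
    (e : qq d k t = qq d k t') : ∃ j : ℤ, t' = t + j := by
  obtain ⟨j, hj⟩ := G.inj h e
  refine ⟨j, ?_⟩
  have hm := G.mpos
  rw [← mul_add] at hj
  exact mul_left_cancel₀ hm.ne' hj

theorem Gl.simple (G : Gl d k) {t : ℝ} (h : ∀ f, On d k f (qq d k t) →
    f = (⌊m * t⌋ : ZMod m)) : Simple (qq d k) (qq d k t) := by
  have hnv : Int.fract (m * t) ≠ 0 := fun h0 =>
    G.ne1 _ (h _ (G.on' h0))
  obtain ⟨η, hη, hl⟩ := G.lin hnv
  refine ⟨t, _, η, G.e_ne _, hη, rfl, hl, fun t' e => ?_⟩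
  refine G.fib (h _ ?_).symm e.symm
  rw [← e]; exact G.on _

theorem Gl.sqr {x y tc td : ℝ} (G : Gl d k) (h : qq d k x ≠ qq d k y)
    (hc : qq d k tc = CC (qq d k) x y) (hd : qq d k td = DD (qq d k) x y) :
    Sqr d k (⌊m * x⌋ : ZMod m) (⌊m * y⌋ : ZMod m) (⌊m * tc⌋ : ZMod m) (⌊m * td⌋ : ZMod m)
      (qq d k x) (qq d k y - qq d k x) := by
  refine ⟨sub_ne_zero.2 (Ne.symm h), G.on _, ?_, ?_, ?_⟩
  · rw [add_sub_cancel]; exact G.on _
  · have : qq d k x + (qq d k y - qq d k x) + I * (qq d k y - qq d k x) = CC (qq d k) x y := by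
      unfold CC Sq.Cv; ring
    rw [this, ← hc]; exact G.on _
  · have : qq d k x + I * (qq d k y - qq d k x) = DD (qq d k) x y := by
      unfold DD Sq.Dv; ring
    rw [this, ← hd]; exact G.on _

theorem Gl.sqs (G : Gl d k) {a b c e : ZMod m} {A w : ℂ} (h : Sqr d k a b c e A w) {t : ℝ}
    (ht : qq d k t = A) : Simple (qq d k) A := by
  rw [← ht]
  apply G.simple
  intro f hf
  rw [ht] at hf
  have h1 := only G.hd G.h1 G.h3 h hf
  have h2 : On d k (⌊m * t⌋ : ZMod m) A := by rw [← ht]; exact G.on _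
  rw [h1, only G.hd G.h1 G.h3 h h2]

end Pool.Agent.H763R2.An
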