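import Pool.Agent.H763R2.An.Po

/-! Generic closed polygons are generic curves. -/

set_option autoImplicit false
open Complex Set Topology Metric

namespace Pool.Agent.H763R2.An

variable {m : ℕ} {d : ZMod m → ℂ} {k : ZMod m → ℝ}

theorem Gl.inj1 (G : Gl d k) {x y : ℝ} (h : ⌊m * x⌋ = ⌊m * y⌋) (e : qq d k x = qq d k y) :
    x = y := by
  obtain ⟨j, rfl⟩ := G.fib (by rw [h]) e
  have h2 : (m:ℝ) * (x + j) = m * x + ((m * j : ℤ) : ℝ) := by push_cast; ring
  rw [h2, Int.floor_add_intCast] at h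
  have h3 : (m:ℤ) * j = 0 := by linarith
  have h4 : (m:ℤ) ≠ 0 := by have := G.m3; omega
  have h5 : j = 0 := by
    rcases mul_eq_zero.1 h3 with h | h
    · exact absurd h h4
    · exact h
  rw [h5]; simp

theorem Gl.nv (G : Gl d k) {x y : ℝ} (h : (⌊m * x⌋ : ZMod m) ≠ (⌊m * y⌋ : ZMod m))
    (e : qq d k x = qq d k y) : Int.fract (m * x) ≠ 0 := by
  intro h0
  have o1 := G.on (m * x)
  have o2 := G.on' h0
  have o3 := G.on (m * y)
  change pp d k (m * x) = pp d k (m * y) at e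
  rw [← e] at o3
  have hb : (⌊m * y⌋ : ZMod m) = ((⌊m * x⌋ - 1 : ℤ) : ZMod m) := by
    by_contra hne
    exact G.h4 _ _ _ _ (G.ne1 ⌊m * x⌋) (Ne.symm hne) h ⟨o2, o1, o3⟩
  unfold pp at e
  rw [Vx_congr hb, Ux_congr hb, h0, ofReal_zero, zero_mul, add_zero] at e
  have e1 : Ux d k (⌊m * x⌋ - 1) = Vx d k ⌊m * x⌋ - Vx d k (⌊m * x⌋ - 1) := by
    unfold Ux; rw [sub_add_cancel]
  have e2 : ((1 - Int.fract (m * y) : ℝ) : ℂ) * Ux d k (⌊m * x⌋ - 1) = 0 := by
    push_cast; linear_combination e + e1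
  rcases mul_eq_zero.1 e2 with h' | h'
  · have h3 : 1 - Int.fract (m * y) = 0 := by exact_mod_cast h'
    linarith [Int.fract_lt_one ((m:ℝ) * y)]
  · exact G.Ux_ne _ h'

theorem im_div {e f : ℂ} (h : cr f e ≠ 0) : (e / f).im ≠ 0 := by
  have hf : f ≠ 0 := by rintro rfl; unfold cr at h; simp at h
  have hn := normSq_pos.2 hf
  rw [Complex.div_im]
  have : e.im * f.re / normSq f - e.re * f.im / normSq f = cr f e / normSq f := by
    unfold cr; ring
  rw [this]
  exact div_ne_zero h hn.ne'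

theorem Gl.fe (G : Gl d k) {i j : ℤ} (h : (i : ZMod m) ≠ (j : ZMod m)) :
    (((m : ℂ) * Ux d k i) / ((m : ℂ) * Ux d k j)).im ≠ 0 := by
  have hm : (m : ℂ) ≠ 0 := by have := G.mpos; exact_mod_cast this.ne'
  rw [mul_div_mul_left _ _ hm]
  apply im_div
  intro h0
  have k1 := kill (G.hd i) (G.Ux_ne i) (G.cr_Ux i) (u' := Ux d k j) (r := 1) (by rwa [one_mul])
  rw [one_mul, cr_comm, neg_eq_zero] at k1
  have k2 := kill (G.hd j) (G.Ux_ne j) (G.cr_Ux j) (u' := d i) (r := 1) (by rwa [one_mul])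
  exact (G.h1 _ _ h).1 k2

theorem Gl.gen (G : Gl d k) : Gen (qq d k) where
  L := qq_loop
  sq x y h hd hc := by
    obtain ⟨td, htd⟩ := hd
    obtain ⟨tc, htc⟩ := hc
    have hs := G.sqr h htc htd
    have e1 : qq d k x + (qq d k y - qq d k x) = qq d k y := by ring
    have e2 : qq d k x + (qq d k y - qq d k x) + I * (qq d k y - qq d k x) = CC (qq d k) x y := by
      unfold CC Sq.Cv; ring
    have e3 : qq d k x + (qq d k y - qq d k x) + I * (qq d k y - qq d k x) +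
        I * (I * (qq d k y - qq d k x)) = DD (qq d k) x y := by
      unfold DD Sq.Dv; linear_combination (qq d k y - qq d k x) * I_mul_I
    refine ⟨G.sqs hs rfl, ?_, ?_, ?_⟩
    · have := G.sqs hs.rot (t := y) e1.symm
      rwa [e1] at this
    · have := G.sqs hs.rot.rot (t := tc) (htc.trans e2.symm)
      rwa [e2] at this
    · have := G.sqs hs.rot.rot.rot (t := td) (htd.trans e3.symm)
      rwa [e3] at this
  db x y h1 h2 h := by
    have hab : (⌊m * x⌋ : ZMod m) ≠ (⌊m * y⌋ : ZMod m) := by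
      intro hh
      obtain ⟨j, rfl⟩ := G.fib hh h
      have j1 : (0:ℝ) < j := by linarith
      have j2 : (j:ℝ) < 1 := by linarith
      have j1' : 0 < j := by exact_mod_cast j1
      have j2' : j < 1 := by exact_mod_cast j2
      omega
    obtain ⟨η1, g1, l1⟩ := G.lin (G.nv hab h)
    obtain ⟨η2, g2, l2⟩ := G.lin (G.nv hab.symm h.symm)
    refine ⟨_, _, min η1 η2, G.e_ne _, G.e_ne _, G.fe hab, lt_min g1 g2,
      fun s hs => l1 s (hs.trans (min_le_left _ _)), fun s hs => l2 s (hs.trans (min_le_right _ _)),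
      fun t ht => ?_⟩
    by_contra hcon
    push Not at hcon
    have n1 : (⌊m * x⌋ : ZMod m) ≠ (⌊m * t⌋ : ZMod m) := fun hh => by
      obtain ⟨j, hj⟩ := G.fib hh ht.symm
      exact hcon.1 j hj
    have n2 : (⌊m * y⌋ : ZMod m) ≠ (⌊m * t⌋ : ZMod m) := fun hh => by
      obtain ⟨j, hj⟩ := G.fib hh (h.symm.trans ht.symm)
      exact hcon.2 j hj
    refine G.h4 _ _ _ (qq d k x) hab n1 n2 ⟨G.on _, ?_, ?_⟩
    · rw [h]; exact G.on _
    · rw [← ht]; exact G.on _
  fin R := by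
    have : NeZero m := ⟨by have := G.m3; omega⟩
    have hm := G.mpos
    set D : ℤ → ℤ → Set (ℝ × ℝ) := fun i j => {p | ⌊m * p.1⌋ = i ∧ ⌊m * p.2⌋ = j ∧
      qq d k p.1 = qq d k p.2 ∧ (i : ZMod m) ≠ (j : ZMod m)} with hD
    set Q : ℤ → ℤ → ZMod m → ZMod m → Set (ℝ × ℝ) := fun i j c e => {p | ⌊m * p.1⌋ = i ∧
      ⌊m * p.2⌋ = j ∧ Sqr d k i j c e (qq d k p.1) (qq d k p.2 - qq d k p.1)} with hQ
    set a : ℤ := ⌊m * (-(R + 1))⌋ with ha
    set b : ℤ := ⌊m * (R + 1)⌋ with hb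
    refine Set.Finite.subset (s := ⋃ i ∈ Icc a b, ⋃ j ∈ Icc a b, (D i j ∪ ⋃ c, ⋃ e, Q i j c e))
      ?_ ?_
    · refine (Set.finite_Icc a b).biUnion fun i _ => (Set.finite_Icc a b).biUnion fun j _ =>
        Set.Finite.union ?_ (Set.finite_iUnion fun c => Set.finite_iUnion fun e => ?_)
      · refine Set.Subsingleton.finite ?_
        rintro p ⟨p1, p2, p3, p4⟩ p' ⟨p1', p2', p3', -⟩
        have e1 : qq d k p.1 = qq d k p'.1 := by
          refine meet G.hd G.h1 p4 (k := k) ?_ ?_ ?_ ?_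
          · rw [← p1]; exact G.on _
          · rw [← p1']; exact G.on _
          · rw [p3, ← p2]; exact G.on _
          · rw [p3', ← p2']; exact G.on _
        have e2 : qq d k p.2 = qq d k p'.2 := by rw [← p3, ← p3', e1]
        exact Prod.ext (G.inj1 (p1.trans p1'.symm) e1) (G.inj1 (p2.trans p2'.symm) e2)
      · refine Set.Subsingleton.finite ?_
        rintro p ⟨p1, p2, p3⟩ p' ⟨p1', p2', p3'⟩
        obtain ⟨e1, e2⟩ := uniq G.hd G.h1 G.h2 p3 p3'
        have e3 : qq d k p.2 = qq d k p'.2 := by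
          rw [e1] at e2; exact sub_left_injective e2
        exact Prod.ext (G.inj1 (p1.trans p1'.symm) e1) (G.inj1 (p2.trans p2'.symm) e3)
    · rintro ⟨x, y⟩ ⟨⟨⟨h1, h2⟩, ⟨td, htd⟩, ⟨tc, htc⟩⟩, hR⟩
      simp only [mem_ofPred_eq] at h1 h2 htd htc hR
      rw [abs_le] at hR
      have fx : ⌊m * x⌋ ∈ Icc a b := ⟨Int.floor_mono (mul_le_mul_of_nonneg_left (by linarith) hm.le),
        Int.floor_mono (mul_le_mul_of_nonneg_left (by linarith) hm.le)⟩
      have fy : ⌊m * y⌋ ∈ Icc a b := ⟨Int.floor_mono (mul_le_mul_of_nonneg_left (by linarith) hm.le),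
        Int.floor_mono (mul_le_mul_of_nonneg_left (by linarith) hm.le)⟩
      refine mem_iUnion₂.2 ⟨_, fx, mem_iUnion₂.2 ⟨_, fy, ?_⟩⟩
      by_cases he : qq d k x = qq d k y
      · refine Or.inl ⟨rfl, rfl, he, fun hh => ?_⟩
        obtain ⟨j, rfl⟩ := G.fib hh he
        have j1 : (0:ℝ) < j := by linarith
        have j2 : (j:ℝ) < 1 := by linarith
        have j1' : 0 < j := by exact_mod_cast j1
        have j2' : j < 1 := by exact_mod_cast j2
        omega
      · exact Or.inr (mem_iUnion₂.2 ⟨_, _, rfl, rfl, G.sqr he htc htd⟩)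
  lin := by
    have hm := G.mpos
    refine ⟨0, 1 / m, by positivity, fun t ht => ?_⟩
    have h1 : 0 < (m:ℝ) * t := mul_pos hm ht.1
    have h2 : (m:ℝ) * t < 1 := by have := ht.2; rwa [lt_div_iff₀' hm] at this
    have hf : Int.fract ((m:ℝ) * t) = m * t := Int.fract_eq_self.2 ⟨h1.le, h2⟩
    obtain ⟨η, hη, hl⟩ := G.lin (t := t) (by rw [hf]; exact h1.ne')
    exact ⟨_, η, G.e_ne _, hη, hl⟩

end Pool.Agent.H763R2.An
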