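import Pool.Agent.H763R2.An.Pq
import Pool.Agent.H763R2.An.C

/-! Generic closed polygons near a closed curve. -/

set_option autoImplicit false
open Complex Set Topology Metric

namespace Pool.Agent.H763R2.An

variable {c : ℝ → ℂ} {m : ℕ}

/-- base directions -/
noncomputable def bd (m : ℕ) (a : ZMod m) : ℂ := if Even a.val then 1 else I

/-- base offsets -/
noncomputable def bk (c : ℝ → ℂ) (m : ℕ) (a : ZMod m) : ℝ :=
  if Even a.val then (c ((a.val : ℝ) / m)).im else -(c (((a.val : ℝ) + 1) / m)).re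

theorem bd_ne (a : ZMod m) : bd m a ≠ 0 := by
  unfold bd; split_ifs
  · exact one_ne_zero
  · exact I_ne_zero

theorem val_even [NeZero m] (hm : Even m) (n : ℤ) : Even ((n : ZMod m).val) ↔ Even n := by
  have h1 : (((n : ZMod m).val : ℕ) : ℤ) = n % m := ZMod.val_intCast n
  have h2 : n % m = n - m * (n / m) := by
    have := Int.emod_add_mul_ediv n m; linarith
  rw [← Int.even_coe_nat, h1, h2, Int.even_sub]
  have h3 : Even ((m : ℤ) * (n / m)) := (show Even (m:ℤ) by exact_mod_cast hm).mul_right _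
  constructor
  · intro h; exact h.2 h3
  · intro h; exact ⟨fun _ => h3, fun _ => h⟩

theorem bd_cast [NeZero m] (hm : Even m) (n : ℤ) :
    bd m (n : ZMod m) = if Even n then 1 else I := by
  unfold bd
  simp only [val_even hm]

theorem bk_cast [NeZero m] (L : Loop c) (hm : Even m) (n : ℤ) :
    bk c m (n : ZMod m) = if Even n then (c ((n : ℝ) / m)).im
      else -(c (((n : ℝ) + 1) / m)).re := by
  have h1 : (((n : ZMod m).val : ℕ) : ℤ) = n % m := ZMod.val_intCast n
  have h2 : (n : ℤ) = ((n : ZMod m).val : ℤ) + m * (n / m) := by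
    rw [h1]; have := Int.emod_add_mul_ediv n m; linarith
  have h3 : (n : ℝ) = ((n : ZMod m).val : ℝ) + m * ((n / m : ℤ) : ℝ) := by exact_mod_cast h2
  have hm0 : (m : ℝ) ≠ 0 := by exact_mod_cast NeZero.ne m
  have e1 : (n : ℝ) / m = ((n : ZMod m).val : ℝ) / m + ((n / m : ℤ) : ℝ) := by
    rw [div_add' _ _ _ hm0, mul_comm ((n / m : ℤ) : ℝ), ← h3]
  have e2 : ((n : ℝ) + 1) / m = (((n : ZMod m).val : ℝ) + 1) / m + ((n / m : ℤ) : ℝ) := by
    rw [add_div, e1, add_div]; ring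
  unfold bk
  simp only [val_even hm]
  rw [e1, e2, L.per_int, L.per_int]

/-- base vertices are near the curve -/
theorem bv_near [NeZero m] (L : Loop c) (hm : Even m) {ε : ℝ}
    (hε : ∀ s t : ℝ, |s - t| ≤ 2 / m → ‖c s - c t‖ < ε) (n : ℤ) {t : ℝ}
    (ht : |t - n / m| ≤ 1 / m) :
    ‖Xl (bd m ((n - 1 : ℤ) : ZMod m)) (bd m (n : ZMod m)) (bk c m ((n - 1 : ℤ) : ZMod m))
      (bk c m (n : ZMod m)) - c t‖ ≤ 2 * ε := by
  rw [bd_cast hm, bd_cast hm, bk_cast L hm, bk_cast L hm]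
  have hm0 : (0 : ℝ) < m := by exact_mod_cast Nat.pos_of_ne_zero (NeZero.ne m)
  have h12 : (1:ℝ) / m ≤ 2 / m := by gcongr; norm_num
  have h00 : (2:ℝ) / m = 1 / m + 1 / m := by ring
  have a1 := abs_le.1 ht
  by_cases hn : Even n
  · have hn1 : ¬ Even (n - 1) := by rw [Int.even_sub_one]; exact not_not.2 hn
    rw [if_pos hn, if_pos hn, if_neg hn1, if_neg hn1]
    have e : Xl I 1 (-(c ((((n - 1 : ℤ) : ℝ) + 1) / m)).re) (c ((n : ℝ) / m)).im =
        c ((n : ℝ) / m) := by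
      have e0 : (((n - 1 : ℤ) : ℝ) + 1) = n := by push_cast; ring
      rw [e0]
      unfold Xl cr
      simp only [I_re, I_im, one_re, one_im, mul_zero, mul_one, zero_sub, ofReal_neg, ofReal_one]
      rw [div_neg, div_one]
      apply Complex.ext <;> simp
    rw [e]
    have h1 := hε (n / m) t (by rw [abs_sub_comm]; exact ht.trans h12)
    have := norm_nonneg (c ((n:ℝ) / m) - c t)
    linarith
  · have hn1 : Even (n - 1) := by rw [Int.even_sub_one]; exact hn
    rw [if_neg hn, if_neg hn, if_pos hn1, if_pos hn1]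
    have e : Xl 1 I (c (((n - 1 : ℤ) : ℝ) / m)).im (-(c (((n : ℝ) + 1) / m)).re) - c t =
        (((c (((n : ℝ) + 1) / m) - c t).re : ℝ) : ℂ) +
        (((c (((n - 1 : ℤ) : ℝ) / m) - c t).im : ℝ) : ℂ) * I := by
      unfold Xl cr
      simp only [I_re, I_im, one_re, one_im, mul_zero, mul_one, sub_zero, ofReal_neg, ofReal_one,
        div_one]
      apply Complex.ext <;> simp
    rw [e]
    have h1 := hε (((n : ℝ) + 1) / m) t (by
      rw [add_div, abs_le]; constructor <;> linarith)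
    have h2 := hε ((((n - 1 : ℤ) : ℝ)) / m) t (by
      push_cast
      rw [sub_div, abs_le]; constructor <;> linarith)
    have h3 := abs_re_le_norm (c (((n : ℝ) + 1) / m) - c t)
    have h4 := abs_im_le_norm (c (((n - 1 : ℤ) : ℝ) / m) - c t)
    refine (norm_add_le _ _).trans ?_
    rw [norm_mul, norm_I, mul_one, norm_real, norm_real, Real.norm_eq_abs, Real.norm_eq_abs]
    linarith

theorem bcr [NeZero m] (hm : Even m) (n : ℤ) :
    cr (bd m ((n - 1 : ℤ) : ZMod m)) (bd m (n : ZMod m)) ≠ 0 := by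
  rw [bd_cast hm, bd_cast hm]
  by_cases hn : Even n
  · have hn1 : ¬ Even (n - 1) := by rw [Int.even_sub_one]; exact not_not.2 hn
    rw [if_pos hn, if_neg hn1]; unfold cr; simp
  · have hn1 : Even (n - 1) := by rw [Int.even_sub_one]; exact hn
    rw [if_neg hn, if_pos hn1]; unfold cr; simp

/-- small perturbations -/
theorem pert [NeZero m] (hm : Even m) (k0 : ZMod m → ℝ) {ε : ℝ} (hε : 0 < ε) : ∃ δ > 0,
    ∀ f k : ZMod m → ℝ, (∀ i, f i ∈ Ioo 0 δ) → (∀ i, k i ∈ Ioo (k0 i) (k0 i + δ)) → ∀ n : ℤ,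
    ‖Vx (dp (bd m) f) k n - Vx (bd m) k0 n‖ < ε := by
  have key : ∀ᶠ p : (ZMod m → ℝ) × (ZMod m → ℝ) in 𝓝 ((0 : ZMod m → ℝ), k0), ∀ a : ZMod m,
      ‖Xl (dp (bd m) p.1 (a - 1)) (dp (bd m) p.1 a) (p.2 (a - 1)) (p.2 a) -
        Xl (bd m (a - 1)) (bd m a) (k0 (a - 1)) (k0 a)‖ < ε := by
    rw [Filter.eventually_all]
    intro a
    obtain ⟨n, rfl⟩ := ZMod.intCast_surjective a
    have hcr := bcr hm n
    push_cast at hcr
    have dp0 : ∀ a, dp (bd m) 0 a = bd m a := by intro a; unfold dp; simp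
    have hc : ContinuousAt (fun p : (ZMod m → ℝ) × (ZMod m → ℝ) =>
        Xl (dp (bd m) p.1 ((n : ZMod m) - 1)) (dp (bd m) p.1 n) (p.2 ((n : ZMod m) - 1))
          (p.2 n)) ((0 : ZMod m → ℝ), k0) := by
      unfold Xl
      refine ContinuousAt.div ?_ ?_ ?_
      · unfold dp
        apply Continuous.continuousAt
        fun_prop
      · unfold cr dp
        apply Continuous.continuousAt
        fun_prop
      · simp only [dp0]
        exact_mod_cast hcr
    have h2 := Metric.continuousAt_iff'.1 hc ε hε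
    filter_upwards [h2] with p hp
    rw [dist_eq_norm] at hp
    simpa only [dp0] using hp
  obtain ⟨δ, hδ, hk⟩ := Metric.eventually_nhds_iff.1 key
  refine ⟨δ, hδ, fun f k hf hkk n => ?_⟩
  have := hk (y := (f, k)) (by
    rw [Prod.dist_eq]
    refine max_lt ((dist_pi_lt_iff hδ).2 fun i => ?_) ((dist_pi_lt_iff hδ).2 fun i => ?_)
    · change dist (f i) 0 < δ
      rw [Real.dist_eq, sub_zero, abs_of_pos (hf i).1]; exact (hf i).2
    · change dist (k i) (k0 i) < δ
      rw [Real.dist_eq, abs_of_pos (by linarith [(hkk i).1])]; linarith [(hkk i).2]) (n : ZMod m)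
  unfold Vx
  push_cast
  exact this

theorem approx (L : Loop c) {ε : ℝ} (hε : 0 < ε) :
    ∃ q : ℝ → ℂ, Gen q ∧ ∀ t, ‖q t - c t‖ ≤ ε := by
  obtain ⟨N0, hN0, hN⟩ := L.fine (δ := ε / 4) (by positivity)
  obtain ⟨m, hmd⟩ : ∃ m, m = 2 * (N0 + 1) := ⟨_, rfl⟩
  have hme : Even m := by rw [hmd]; exact even_two_mul _
  have hm3 : 3 ≤ m := by omega
  have : NeZero m := ⟨by omega⟩
  have hm0 : (0 : ℝ) < m := by exact_mod_cast Nat.pos_of_ne_zero (NeZero.ne m)
  have huc : ∀ s t : ℝ, |s - t| ≤ 2 / m → ‖c s - c t‖ < ε / 4 := by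
    intro s t h
    refine hN (N0 + 1) (by omega) s t (h.trans (le_of_eq ?_))
    rw [hmd]; push_cast
    field_simp
  obtain ⟨δ, hδ, hp⟩ := pert hme (bk c m) (ε := ε / 2) (by positivity)
  obtain ⟨f, hf, h1, h2⟩ := stageA (d0 := bd m) bd_ne (fun _ => Ioo 0 δ)
    (fun _ => Ioo_infinite hδ)
  obtain ⟨k, hk, h3, h4⟩ := stageB (dp_ne bd_ne f) h1 h2
    (fun i => Ioo (bk c m i) (bk c m i + δ)) (fun i => Ioo_infinite (by linarith))
  have G : Gl (dp (bd m) f) k := ⟨hm3, dp_ne bd_ne f, h1, h2, h3, h4⟩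
  refine ⟨qq (dp (bd m) f) k, G.gen, fun t => ?_⟩
  have near : ∀ n : ℤ, |t - n / m| ≤ 1 / m → ‖Vx (dp (bd m) f) k n - c t‖ ≤ ε := by
    intro n hn
    have g1 := hp f k hf hk n
    have g2 := bv_near L hme huc n hn
    change ‖Vx (bd m) (bk c m) n - c t‖ ≤ 2 * (ε / 4) at g2
    have g3 := norm_add_le (Vx (dp (bd m) f) k n - Vx (bd m) (bk c m) n)
      (Vx (bd m) (bk c m) n - c t)
    rw [sub_add_sub_cancel] at g3
    linarith
  set n : ℤ := ⌊m * t⌋ with hn
  have f0 := Int.fract_nonneg ((m:ℝ) * t)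
  have f1 := (Int.fract_lt_one ((m:ℝ) * t)).le
  have fe : (n:ℝ) + Int.fract (m * t) = m * t := Int.floor_add_fract _
  have et : t = n / m + Int.fract (m * t) / m := by
    rw [← add_div, fe, mul_div_cancel_left₀ _ hm0.ne']
  have n1 := near n (by
    rw [show t - n / m = Int.fract (m * t) / m by linarith, abs_of_nonneg (by positivity)]
    gcongr)
  have n2 := near (n + 1) (by
    push_cast
    rw [show t - ((n:ℝ) + 1) / m = -((1 - Int.fract (m * t)) / m) by
      rw [add_div, sub_div]; linarith, abs_neg, abs_of_nonneg (div_nonneg (by linarith) hm0.le)]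
    gcongr
    linarith)
  have e : qq (dp (bd m) f) k t - c t =
      ((1 - Int.fract (m * t) : ℝ) : ℂ) * (Vx (dp (bd m) f) k n - c t) +
      ((Int.fract (m * t) : ℝ) : ℂ) * (Vx (dp (bd m) f) k (n + 1) - c t) := by
    unfold qq pp Ux; rw [← hn]; push_cast; ring
  rw [e]
  refine (norm_add_le _ _).trans ?_
  rw [norm_mul, norm_mul, norm_real, norm_real, Real.norm_eq_abs, Real.norm_eq_abs,
    abs_of_nonneg f0, abs_of_nonneg (by linarith)]
  nlinarith

end Pool.Agent.H763R2.An
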