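import Pool.Agent.H763R2.An.Pr
import Pool.Agent.H763R2.An.Fn
import Pool.Agent.H763R2.An.K

/-! The degree is odd, and the theorem for curves in a strip. -/

set_option autoImplicit false
open Complex Set Topology Metric

namespace Pool.Agent.H763R2.An

open Dm (NoSq)

/-- a curve without inscribed squares has an angle function of odd degree -/
theorem exists_odd {c : ℝ → ℂ} (L : Loop c) (J : Inj c) (nosq : NoSq (range c)) :
    ∃ θ g, Ang c (mgc c) θ g ∧ Odd g := by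
  obtain ⟨θ, g, A⟩ := exists_ang L J (mgc_sg L) nosq
  exact ⟨θ, g, A, odd_all L J nosq A fun ε hε => approx L hε⟩

/-- the theorem for curves in a strip -/
theorem strip_main {C : Set ℂ} (h : ∃ c, Loop c ∧ Inj c ∧ range c = C)
    (hstrip : ∀ z ∈ C, |z.im| ≤ 1)
    (haxis : ∀ z ∈ C, z.re = 0 → z = I ∨ z = -I)
    (hR : ∃ z ∈ C, 0 < z.re) (hL : ∃ z ∈ C, z.re < 0)
    (KP : CondP C) (KQ : CondP {z | -z ∈ C}) : ¬ NoSq C := by
  intro nosq
  obtain ⟨c, L, J, rfl, q, q0, q1, P, Q, rp, rn⟩ := normal h haxis hR hL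
  obtain ⟨θ, g, A, ho⟩ := exists_odd L J nosq
  have st : ∀ t, |(c t).im| ≤ 1 := fun t => hstrip _ (mem_range_self t)
  have hg := strip_zero L J q0 q1 P Q st rp rn
    (fun z hz => mgc_bot L (fun t => (abs_le.1 (st t)).1) hz)
    (fun z hz => mgc_top L (fun t => (abs_le.1 (st t)).2) hz) A KP KQ
  rw [hg] at ho
  exact absurd ho (by decide)

theorem CondP.flip {C : Set ℂ} (h : (∀ ε > 0, ∃ z ∈ C, z ≠ I ∧ ‖z - I‖ < ε ∧ 1 - z.im ≤ |z.re|) ∨
      (∃ k ∈ Icc (0:ℝ) 1, ∃ ε > 0, ∀ z ∈ C, ‖z - I‖ < ε →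
        z.re ≤ -((1 - k) * (1 - z.im)) ∨ k * (1 - z.im) ≤ z.re) ∨
      (∃ z ∈ C, ∃ a ∈ C, z.re * a.re < 0 ∧ 1 - z.im ≤ |z.re| ∧ 1 - a.im ≤ |a.re|)) :
    CondP {z | -z ∈ C} := by
  rcases h with h | ⟨k, hk, ε, hε, h⟩ | ⟨z, hz, a, ha, h1, h2, h3⟩
  · refine Or.inl fun ε hε => ?_
    obtain ⟨z, hz, h0, h1, h2⟩ := h ε hε
    refine ⟨-z, by simpa using hz, fun h => h0 (neg_injective h), ?_, ?_⟩
    · rw [show -z + I = -(z - I) by ring, norm_neg]; exact h1
    · rw [neg_im, neg_re, abs_neg]; exact h2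
  · refine Or.inr (Or.inl ⟨1 - k, ⟨by linarith [hk.2], by linarith [hk.1]⟩, ε, hε,
      fun z hz hn => ?_⟩)
    have := h (-z) hz (by rw [show -z - I = -(z + I) by ring, norm_neg]; exact hn)
    rw [neg_im, neg_re] at this
    rcases this with h' | h'
    · right; linarith
    · left; rw [sub_sub_cancel]; linarith
  · refine Or.inr (Or.inr ⟨-z, by simpa using hz, -a, by simpa using ha, ?_, ?_, ?_⟩)
    · rw [neg_re, neg_re, neg_mul_neg]; exact h1
    · rw [neg_im, neg_re, abs_neg]; exact h2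
    · rw [neg_im, neg_re, abs_neg]; exact h3

end Pool.Agent.H763R2.An
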