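import Pool.Agent.H763R2.An.Se

/-! The degree vanishes if one direction is missing on a set of chords separating the short
chords at the beginning from those at the end. -/

set_option autoImplicit false
open Complex Set Topology Metric

namespace Pool.Agent.H763R2.An

open Dm (NoSq)

theorem sep_dir {f : ℝ → ℝ → ℂ} {θ ψ : ℝ → ℝ → ℝ} {g : ℤ}
    (cf : Continuous fun p : ℝ × ℝ => f p.1 p.2)
    (pf : ∀ x y, f (x + 1) (y + 1) = f x y)
    (Ac : ContinuousOn (fun p : ℝ × ℝ => θ p.1 p.2) UU)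
    (Ae : ∀ x y, x < y → y < x + 1 → ∃ ρ : ℝ, 0 < ρ ∧ f x y = ρ * exp (θ x y * I))
    (Ap : ∀ x y, x < y → y < x + 1 → θ (x + 1) (y + 1) = θ x y + g * (2 * Real.pi))
    (hψ : Continuous fun p : ℝ × ℝ => ψ p.1 p.2) (pψ : ∀ x y, ψ (x + 1) (y + 1) = ψ x y)
    {η : ℝ} (h0 : 0 < η) (h1 : η < 1 / 2) (hlo : ∀ x, ψ x (x + η) < 0)
    (hhi : ∀ x, 0 < ψ x (x + (1 - η))) {w : ℂ} (hw : w ≠ 0)
    (H : ∀ x y, x < y → y < x + 1 → ψ x y = 0 → ¬ ∃ ρ : ℝ, 0 < ρ ∧ f x y = ρ * w) : g = 0 := by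
  have hπ := Real.pi_pos
  obtain ⟨cl, hcl⟩ : ∃ cl : ℝ → ℝ, cl = fun s => max 0 (min 1 s) := ⟨_, rfl⟩
  have ccl : Continuous cl := by rw [hcl]; fun_prop
  have clm : ∀ s, cl s ∈ Icc (0:ℝ) 1 := fun s => by
    rw [hcl]; exact ⟨le_max_left _ _, max_le zero_le_one (min_le_left _ _)⟩
  have cl0 : cl 0 = 0 := by simp [hcl]
  have cl1 : cl 1 = 1 := by simp [hcl]
  have clcl : ∀ s, cl (cl s) = cl s := fun s => by
    have := clm s
    rw [hcl] at this ⊢
    simp only at this ⊢
    rw [min_eq_right this.2, max_eq_right this.1]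
  obtain ⟨h, hh⟩ : ∃ h : ℝ → ℝ, h = fun s => η + cl s * (1 - 2 * η) := ⟨_, rfl⟩
  have ch : Continuous h := by rw [hh]; fun_prop
  have hm : ∀ s, 0 < h s ∧ h s < 1 := fun s => by
    have := clm s
    rw [hh]; simp only
    constructor
    · nlinarith [this.1]
    · nlinarith [this.2]
  have hc : ∀ s, h (cl s) = h s := fun s => by rw [hh]; simp only [clcl]
  have he0 : h 0 = η := by rw [hh]; simp [cl0]
  have he1 : h 1 = 1 - η := by rw [hh]; simp [cl1]; ring
  -- the field in the direction of `w`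
  obtain ⟨F, hF⟩ : ∃ F : ℝ → ℝ → ℂ, F = fun s t => f t (t + h s) / w := ⟨_, rfl⟩
  obtain ⟨P, hP⟩ : ∃ F : ℝ → ℝ → ℝ, F = fun s t => ψ t (t + h s) := ⟨_, rfl⟩
  have d1 : Continuous fun p : ℝ × ℝ => F p.1 p.2 := by
    rw [hF]
    exact (cf.comp (f := fun p : ℝ × ℝ => (p.2, p.2 + h p.1)) (by fun_prop)).div_const w
  have d3 : Continuous fun p : ℝ × ℝ => P p.1 p.2 := by
    rw [hP]; exact hψ.comp (f := fun p : ℝ × ℝ => (p.2, p.2 + h p.1)) (by fun_prop)
  have r1 : ∀ s t, F (cl s) (Int.fract t) = F s t := fun s t => by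
    rw [hF]
    simp only
    have hp : Function.Periodic (fun x => f x (x + h s)) 1 := fun x => by
      simp only
      rw [← pf x (x + h s)]; congr 1; ring
    have := hp.sub_zsmul_eq ⌊t⌋ (x := t)
    simp only [zsmul_eq_mul, mul_one] at this
    rw [hc]
    exact congrArg (· / w) this
  have r3 : ∀ s t, P (cl s) (Int.fract t) = P s t := fun s t => by
    rw [hP]
    simp only
    have hp : Function.Periodic (fun x => ψ x (x + h s)) 1 := fun x => by
      simp only
      rw [← pψ x (x + h s)]; congr 1; ring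
    have := hp.sub_zsmul_eq ⌊t⌋ (x := t)
    simp only [zsmul_eq_mul, mul_one] at this
    rw [hc]
    exact this
  have hK : IsCompact (Icc (0:ℝ) 1 ×ˢ Icc (0:ℝ) 1) := isCompact_Icc.prod isCompact_Icc
  have mK : ∀ s t, ((cl s, Int.fract t) : ℝ × ℝ) ∈ Icc (0:ℝ) 1 ×ˢ Icc (0:ℝ) 1 := fun s t =>
    ⟨clm s, Int.fract_nonneg _, (Int.fract_lt_one _).le⟩
  have hne : ∀ s t, F s t ≠ 0 := by
    intro s t e
    rw [hF] at e
    simp only at e
    obtain ⟨ρ, hρ, e3⟩ := Ae t (t + h s) (by linarith [(hm s).1]) (by linarith [(hm s).2])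
    have e4 := (div_eq_zero_iff.1 e).resolve_right hw
    rw [e3] at e4
    rcases mul_eq_zero.1 e4 with h' | h'
    · exact hρ.ne' (by exact_mod_cast h')
    · exact exp_ne_zero _ h'
  obtain ⟨B, hB⟩ := hK.exists_bound_of_continuousOn
    (f := fun p : ℝ × ℝ => F p.1 p.2) d1.continuousOn
  have hBb : ∀ s t, ‖F s t‖ ≤ B := by
    intro s t
    have := hB _ (mK s t)
    simpa only [r1] using this
  have hB0 : 0 ≤ B := (norm_nonneg _).trans (hBb 0 0)
  have dre : Continuous fun p : ℝ × ℝ => (F p.1 p.2).re := by fun_prop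
  have dim : Continuous fun p : ℝ × ℝ => (F p.1 p.2).im := by fun_prop
  obtain ⟨m, hm0, hmm⟩ := posmin (f := fun p => P p.1 p.2) d3
    (Z := (Icc (0:ℝ) 1 ×ˢ Icc (0:ℝ) 1) ∩ {p | (F p.1 p.2).im = 0 ∧ 0 ≤ (F p.1 p.2).re ∧
      0 ≤ P p.1 p.2})
    (hK.inter_right ((isClosed_eq dim continuous_const).inter
      ((isClosed_le continuous_const dre).inter (isClosed_le continuous_const d3)))) (by
    rintro ⟨s, t⟩ ⟨-, e1, e2, e3⟩
    simp only at e1 e2 e3
    refine lt_of_le_of_ne e3 fun e4 => ?_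
    have e5 : (F s t).re ≠ 0 := fun e5 => hne s t (Complex.ext e5 e1)
    have e6 := lt_of_le_of_ne e2 e5.symm
    simp only at e4
    rw [hP] at e4
    refine H t (t + h s) (by linarith [(hm s).1]) (by linarith [(hm s).2]) e4.symm
      ⟨(F s t).re, e6, ?_⟩
    have e7 : F s t = ((F s t).re : ℂ) := Complex.ext (by simp) (by simp [e1])
    rw [← e7, hF]
    simp only
    rw [div_mul_cancel₀ _ hw])
  obtain ⟨m', hm0', hmm'⟩ := posmin (f := fun p => P 1 p.2)
    (d3.comp (f := fun p : ℝ × ℝ => ((1:ℝ), p.2)) (by fun_prop)) hK (by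
    rintro ⟨s, t⟩ -
    simp only
    rw [hP]; simp only; rw [he1]; exact hhi t)
  have km : ∀ s t, (F s t).im = 0 → 0 ≤ (F s t).re → 0 ≤ P s t → m ≤ P s t := by
    intro s t e1 e2 e3
    have := hmm (cl s, Int.fract t) ⟨mK s t, by
      simp only [mem_ofPred_eq, r1, r3]; exact ⟨e1, e2, e3⟩⟩
    simpa only [r3] using this
  have km' : ∀ t, m' ≤ P 1 t := by
    intro t
    have := hmm' (cl 1, Int.fract t) (mK 1 t)
    have e := r3 1 t
    rw [cl1] at e
    simpa only [e] using this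
  obtain ⟨lam, hlam⟩ : ∃ l, l = (B + 1) / min m m' := ⟨_, rfl⟩
  have hmin : 0 < min m m' := lt_min hm0 hm0'
  have lam0 : 0 < lam := by rw [hlam]; positivity
  have lamm : lam * min m m' = B + 1 := by rw [hlam]; field_simp
  have lm1 : ∀ v, m ≤ v → B + 1 ≤ lam * v := fun v hv => by
    rw [← lamm]; exact mul_le_mul_of_nonneg_left ((min_le_left _ _).trans hv) lam0.le
  have lm2 : ∀ v, m' ≤ v → B + 1 ≤ lam * v := fun v hv => by
    rw [← lamm]; exact mul_le_mul_of_nonneg_left ((min_le_right _ _).trans hv) lam0.le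
  obtain ⟨G, hG⟩ : ∃ G : ℝ → ℝ → ℂ, G = fun s t => F s t - ((lam * max (P s t) 0 : ℝ) : ℂ) :=
    ⟨_, rfl⟩
  have Gre : ∀ s t, (G s t).re = (F s t).re - lam * max (P s t) 0 := fun s t => by
    rw [hG]; simp only [sub_re, ofReal_re]
  have Gim : ∀ s t, (G s t).im = (F s t).im := fun s t => by
    rw [hG]; simp only [sub_im, ofReal_im, sub_zero]
  have dG : Continuous fun p : ℝ × ℝ => G p.1 p.2 := by rw [hG]; fun_prop
  have s10 : ∀ s, F s 1 = F s 0 ∧ P s 1 = P s 0 := by
    intro s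
    have i0 : Int.fract (0:ℝ) = 0 := Int.fract_zero
    have i1 : Int.fract (1:ℝ) = 0 := Int.fract_one
    have e1 := r1 s 0
    have e2 := r1 s 1
    have e5 := r3 s 0
    have e6 := r3 s 1
    rw [i0] at e1 e5
    rw [i1] at e2 e6
    exact ⟨e2.symm.trans e1, e6.symm.trans e5⟩
  have perG : ∀ s, G s 1 = G s 0 := by
    intro s
    rw [hG]; simp only [(s10 s).1, (s10 s).2]
  have neG : ∀ s t, G s t ≠ 0 := by
    intro s t e
    have e1 := congrArg Complex.re e
    have e2 := congrArg Complex.im e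
    rw [Gre, zero_re] at e1
    rw [Gim, zero_im] at e2
    rcases le_or_gt (P s t) 0 with hp | hp
    · rw [max_eq_right hp, mul_zero, sub_zero] at e1
      exact hne s t (Complex.ext e1 e2)
    · rw [max_eq_left hp.le] at e1
      have e3 : 0 ≤ (F s t).re := by
        have := mul_pos lam0 hp
        linarith
      have e4 := lm1 _ (km s t e2 e3 hp.le)
      have e5 := hBb s t
      have e6 := (le_abs_self _).trans (Complex.abs_re_le_norm (F s t))
      linarith
  have g0 : ∀ t, G 0 t = f t (t + η) / w := by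
    intro t
    have : P 0 t < 0 := by rw [hP]; simp only; rw [he0]; exact hlo t
    rw [hG]
    simp only
    rw [max_eq_right this.le, mul_zero, ofReal_zero, sub_zero, hF]
    simp only [he0]
  have g1 : ∀ t, (G 1 t).re < 0 := by
    intro t
    have e := km' t
    have e2 := lm2 _ e
    rw [Gre, max_eq_left (hm0'.le.trans e)]
    have e5 := hBb 1 t
    have e6 := (le_abs_self _).trans (Complex.abs_re_le_norm (F 1 t))
    linarith
  have θc : Continuous fun t : ℝ => θ t (t + η) :=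
    Ac.comp_continuous (f := fun t : ℝ => (t, t + η)) (by fun_prop)
      (fun t => ⟨by simp only; linarith, by simp only; linarith⟩)
  have key := homW (F := G) dG perG neG
    (k := fun t => ((Real.log (‖G 0 t‖ * ‖w‖) : ℝ) : ℂ) + (θ t (t + η) : ℝ) * I - Complex.log w)
    (by
      have e1 : Continuous fun t => Real.log (‖G 0 t‖ * ‖w‖) :=
        ((Continuous.norm (dG.comp (f := fun t : ℝ => ((0:ℝ), t)) (by fun_prop))).mul
          continuous_const).log
          (fun t => mul_ne_zero (norm_ne_zero_iff.2 (neG 0 t)) (norm_ne_zero_iff.2 hw))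
      exact ((continuous_ofReal.comp e1).add
        ((continuous_ofReal.comp θc).mul continuous_const)).sub continuous_const)
    (fun t => by
      obtain ⟨ρ, hρ, e1⟩ := Ae t (t + η) (by linarith) (by linarith)
      have hwn : 0 < ‖w‖ := norm_pos_iff.2 hw
      have e5 : ‖G 0 t‖ * ‖w‖ = ρ := by
        rw [g0, e1, norm_div, norm_mul, norm_real, Real.norm_of_nonneg hρ.le,
          norm_exp_ofReal_mul_I, mul_one, div_mul_cancel₀ _ hwn.ne']
      rw [Complex.exp_sub, Complex.exp_add, Complex.exp_log hw, e5, ← ofReal_exp,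
        Real.exp_log hρ, ← e1, g0])
    (k' := fun t => Complex.log (-G 1 t) + Real.pi * I)
    (by
      refine Continuous.add (Continuous.clog ?_ ?_) continuous_const
      · exact (dG.comp (f := fun t : ℝ => ((1:ℝ), t)) (by fun_prop)).neg
      · intro t
        left
        rw [neg_re]; linarith [g1 t])
    (fun t => by
      rw [Complex.exp_add, Complex.exp_log (neg_ne_zero.2 (neG 1 t)), exp_pi_mul_I]; ring)
  simp only [perG, sub_self] at key
  have e1 := Ap 0 η h0 (by linarith)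
  have e2 := congrArg Complex.im key
  simp only [sub_im, add_im, mul_im, ofReal_im, ofReal_re, I_re, I_im, zero_im] at e2
  rw [show (0:ℝ) + η = η by ring, add_comm 1 η] at e2
  rw [zero_add] at e1
  have e3 : (g:ℝ) * (2 * Real.pi) = 0 := by linarith
  rcases mul_eq_zero.1 e3 with h' | h'
  · exact_mod_cast h'
  · exact absurd h' (by positivity)

/-- all directions occur on separating sets of chords -/
theorem directions {c : ℝ → ℂ} (L : Loop c) (J : Inj c) (nosq : NoSq (range c))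
    {ψ : ℝ → ℝ → ℝ} (hψ : Continuous fun p : ℝ × ℝ => ψ p.1 p.2)
    (pψ : ∀ x y, ψ (x + 1) (y + 1) = ψ x y)
    {η : ℝ} (h0 : 0 < η) (h1 : η < 1 / 2) (hlo : ∀ x, ψ x (x + η) < 0)
    (hhi : ∀ x, 0 < ψ x (x + (1 - η))) {w : ℂ} (hw : w ≠ 0) :
    ∃ x y ρ : ℝ, x < y ∧ y < x + 1 ∧ ψ x y = 0 ∧ 0 < ρ ∧ mgc c (DD c x y) = ρ * w.re ∧
      mgc c (CC c x y) = ρ * w.im := by
  by_contra hcon
  push Not at hcon
  obtain ⟨θ, g, A, ho⟩ := exists_odd L J nosq
  have hM := (mgc_sg L).cont
  have hD := hM.comp L.DD_cont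
  have hC := hM.comp L.CC_cont
  have := sep_dir (ψ := ψ) (f := fun x y => ((mgc c (DD c x y) : ℝ) : ℂ) +
      ((mgc c (CC c x y) : ℝ) : ℂ) * I) (θ := θ) (g := g)
    ((continuous_ofReal.comp hD).add ((continuous_ofReal.comp hC).mul continuous_const))
    (fun x y => by simp only [L.DD_per, L.CC_per]) A.cont (fun x y g1 g2 => by
      obtain ⟨ρ, hρ, e1, e2⟩ := A.ex x y g1 g2
      refine ⟨ρ, hρ, ?_⟩
      rw [e1, e2, Complex.exp_mul_I, ← ofReal_cos, ← ofReal_sin]; push_cast; ring)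
    A.per hψ pψ h0 h1 hlo hhi hw (by
      rintro x y g1 g2 g3 ⟨ρ, hρ, e⟩
      have e1 := congrArg Complex.re e
      have e2 := congrArg Complex.im e
      simp only [add_re, mul_re, add_im, mul_im, ofReal_re, ofReal_im, I_re, I_im, mul_zero,
        mul_one, zero_mul, add_zero, zero_add, sub_zero] at e1 e2
      exact hcon x y ρ g1 g2 g3 hρ e1 e2)
  rw [this] at ho
  exact absurd ho (by decide)

end Pool.Agent.H763R2.An
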