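import Pool.Agent.H763R2.An.Re

/-! The degree vanishes if one sign pattern is missing on a set of chords separating the short
chords at the beginning from those at the end. -/

set_option autoImplicit false
open Complex Set Topology Metric

namespace Pool.Agent.H763R2.An

/-- angle function of a plane vector field on the annulus -/
structure AngF (f1 f2 : ℝ → ℝ → ℝ) (θ : ℝ → ℝ → ℝ) (g : ℤ) : Prop where
  cont : ContinuousOn (fun p : ℝ × ℝ => θ p.1 p.2) UU
  ex : ∀ x y, x < y → y < x + 1 → ∃ ρ > 0, f1 x y = ρ * Real.cos (θ x y) ∧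
    f2 x y = ρ * Real.sin (θ x y)
  per : ∀ x y, x < y → y < x + 1 → θ (x + 1) (y + 1) = θ x y + g * (2 * Real.pi)

theorem posmin {f : ℝ × ℝ → ℝ} (hf : Continuous f) {Z : Set (ℝ × ℝ)} (hZ : IsCompact Z)
    (h : ∀ p ∈ Z, 0 < f p) : ∃ m > 0, ∀ p ∈ Z, m ≤ f p := by
  rcases Z.eq_empty_or_nonempty with h0 | h0
  · exact ⟨1, one_pos, fun p hp => by rw [h0] at hp; exact absurd hp (notMem_empty _)⟩
  · obtain ⟨p, hp, hm⟩ := hZ.exists_isMinOn h0 hf.continuousOn
    exact ⟨f p, h p hp, fun q hq => hm hq⟩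

theorem sep_zero {f1 f2 θ ψ : ℝ → ℝ → ℝ} {g : ℤ} (c1 : Continuous fun p : ℝ × ℝ => f1 p.1 p.2)
    (c2 : Continuous fun p : ℝ × ℝ => f2 p.1 p.2) (p1 : ∀ x y, f1 (x + 1) (y + 1) = f1 x y)
    (p2 : ∀ x y, f2 (x + 1) (y + 1) = f2 x y) (A : AngF f1 f2 θ g)
    (hψ : Continuous fun p : ℝ × ℝ => ψ p.1 p.2) (pψ : ∀ x y, ψ (x + 1) (y + 1) = ψ x y)
    {η : ℝ} (h0 : 0 < η) (h1 : η < 1 / 2) (hlo : ∀ x, ψ x (x + η) < 0)
    (hhi : ∀ x, 0 < ψ x (x + (1 - η)))
    (H : ∀ x y, x < y → y < x + 1 → ψ x y = 0 → ¬ (0 < f1 x y ∧ 0 < f2 x y)) : g = 0 := by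
  have hπ := Real.pi_pos
  obtain ⟨cl, hcl⟩ : ∃ cl : ℝ → ℝ, cl = fun s => max 0 (min 1 s) := ⟨_, rfl⟩
  have ccl : Continuous cl := by rw [hcl]; fun_prop
  have clm : ∀ s, cl s ∈ Icc (0:ℝ) 1 := fun s => by
    rw [hcl]; exact ⟨le_max_left _ _, max_le zero_le_one (min_le_left _ _)⟩
  have cl0 : cl 0 = 0 := by simp [hcl]
  have cl1 : cl 1 = 1 := by simp [hcl]
  have clcl : ∀ s, cl (cl s) = cl s := fun s => by
    have := clm s
    rw [hcl] at this ⊢
    simp only at this ⊢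
    rw [min_eq_right this.2, max_eq_right this.1]
  obtain ⟨h, hh⟩ : ∃ h : ℝ → ℝ, h = fun s => η + cl s * (1 - 2 * η) := ⟨_, rfl⟩
  have ch : Continuous h := by rw [hh]; fun_prop
  have hm : ∀ s, 0 < h s ∧ h s < 1 := fun s => by
    have := clm s
    rw [hh]; simp only
    constructor
    · nlinarith [this.1]
    · nlinarith [this.2]
  have hc : ∀ s, h (cl s) = h s := fun s => by rw [hh]; simp only [clcl]
  have he0 : h 0 = η := by rw [hh]; simp [cl0]
  have he1 : h 1 = 1 - η := by rw [hh]; simp [cl1]; ring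
  obtain ⟨F1, hF1⟩ : ∃ F : ℝ → ℝ → ℝ, F = fun s t => f1 t (t + h s) := ⟨_, rfl⟩
  obtain ⟨F2, hF2⟩ : ∃ F : ℝ → ℝ → ℝ, F = fun s t => f2 t (t + h s) := ⟨_, rfl⟩
  obtain ⟨P, hP⟩ : ∃ F : ℝ → ℝ → ℝ, F = fun s t => ψ t (t + h s) := ⟨_, rfl⟩
  have d1 : Continuous fun p : ℝ × ℝ => F1 p.1 p.2 := by
    rw [hF1]; exact c1.comp (f := fun p : ℝ × ℝ => (p.2, p.2 + h p.1)) (by fun_prop)
  have d2 : Continuous fun p : ℝ × ℝ => F2 p.1 p.2 := by
    rw [hF2]; exact c2.comp (f := fun p : ℝ × ℝ => (p.2, p.2 + h p.1)) (by fun_prop)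
  have d3 : Continuous fun p : ℝ × ℝ => P p.1 p.2 := by
    rw [hP]; exact hψ.comp (f := fun p : ℝ × ℝ => (p.2, p.2 + h p.1)) (by fun_prop)
  have red : ∀ (f : ℝ → ℝ → ℝ), (∀ x y, f (x + 1) (y + 1) = f x y) → ∀ s t,
      f (Int.fract t) (Int.fract t + h (cl s)) = f t (t + h s) := by
    intro f hf s t
    have hp : Function.Periodic (fun x => f x (x + h s)) 1 := fun x => by
      simp only
      rw [← hf x (x + h s)]; congr 1; ring
    have := hp.sub_zsmul_eq ⌊t⌋ (x := t)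
    simp only [zsmul_eq_mul, mul_one] at this
    rw [hc]
    exact this
  have r1 : ∀ s t, F1 (cl s) (Int.fract t) = F1 s t := fun s t => by
    rw [hF1]; exact red f1 p1 s t
  have r2 : ∀ s t, F2 (cl s) (Int.fract t) = F2 s t := fun s t => by
    rw [hF2]; exact red f2 p2 s t
  have r3 : ∀ s t, P (cl s) (Int.fract t) = P s t := fun s t => by
    rw [hP]; exact red ψ pψ s t
  have hK : IsCompact (Icc (0:ℝ) 1 ×ˢ Icc (0:ℝ) 1) := isCompact_Icc.prod isCompact_Icc
  have mK : ∀ s t, ((cl s, Int.fract t) : ℝ × ℝ) ∈ Icc (0:ℝ) 1 ×ˢ Icc (0:ℝ) 1 := fun s t =>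
    ⟨clm s, Int.fract_nonneg _, (Int.fract_lt_one _).le⟩
  have hne : ∀ s t, ¬ (F1 s t = 0 ∧ F2 s t = 0) := by
    rintro s t ⟨e1, e2⟩
    rw [hF1] at e1; rw [hF2] at e2
    simp only at e1 e2
    obtain ⟨ρ, hρ, e3, e4⟩ := A.ex t (t + h s) (by linarith [(hm s).1]) (by linarith [(hm s).2])
    rw [e3] at e1; rw [e4] at e2
    have a1 := (mul_eq_zero.1 e1).resolve_left hρ.ne'
    have a2 := (mul_eq_zero.1 e2).resolve_left hρ.ne'
    have := Real.sin_sq_add_cos_sq (θ t (t + h s))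
    rw [a1, a2] at this; norm_num at this
  obtain ⟨B, hB⟩ := hK.exists_bound_of_continuousOn
    (f := fun p : ℝ × ℝ => |F1 p.1 p.2| + |F2 p.1 p.2|) (by fun_prop)
  have hBb : ∀ s t, |F1 s t| + |F2 s t| ≤ B := by
    intro s t
    have := hB _ (mK s t)
    simp only [r1, r2] at this
    rwa [Real.norm_eq_abs, abs_of_nonneg (by positivity)] at this
  have hB0 : 0 ≤ B := (by positivity : (0:ℝ) ≤ |F1 0 0| + |F2 0 0|).trans (hBb 0 0)
  obtain ⟨m, hm0, hmm⟩ := posmin (f := fun p => P p.1 p.2) d3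
    (Z := (Icc (0:ℝ) 1 ×ˢ Icc (0:ℝ) 1) ∩ {p | F1 p.1 p.2 = F2 p.1 p.2 ∧ 0 ≤ F1 p.1 p.2 ∧
      0 ≤ P p.1 p.2})
    (hK.inter_right ((isClosed_eq d1 d2).inter ((isClosed_le continuous_const d1).inter
      (isClosed_le continuous_const d3)))) (by
    rintro ⟨s, t⟩ ⟨-, e1, e2, e3⟩
    simp only at e1 e2 e3
    refine lt_of_le_of_ne e3 fun e4 => ?_
    have e5 : F1 s t ≠ 0 := fun e5 => hne s t ⟨e5, by rw [← e1]; exact e5⟩
    have e6 := lt_of_le_of_ne e2 e5.symm
    simp only at e4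
    rw [hP] at e4
    have e7 := e6
    rw [e1] at e7
    rw [hF1] at e6
    rw [hF2] at e7
    exact H t (t + h s) (by linarith [(hm s).1]) (by linarith [(hm s).2]) e4.symm ⟨e6, e7⟩)
  obtain ⟨m', hm0', hmm'⟩ := posmin (f := fun p => P 1 p.2)
    (d3.comp (f := fun p : ℝ × ℝ => ((1:ℝ), p.2)) (by fun_prop)) hK (by
    rintro ⟨s, t⟩ -
    simp only
    rw [hP]; simp only; rw [he1]; exact hhi t)
  have km : ∀ s t, F1 s t = F2 s t → 0 ≤ F1 s t → 0 ≤ P s t → m ≤ P s t := by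
    intro s t e1 e2 e3
    have := hmm (cl s, Int.fract t) ⟨mK s t, by simp only [mem_ofPred_eq, r1, r2, r3]; exact ⟨e1, e2, e3⟩⟩
    simpa only [r3] using this
  have km' : ∀ t, m' ≤ P 1 t := by
    intro t
    have := hmm' (cl 1, Int.fract t) (mK 1 t)
    have e := r3 1 t
    rw [cl1] at e
    simpa only [e] using this
  obtain ⟨lam, hlam⟩ : ∃ l, l = (B + 1) / min m m' := ⟨_, rfl⟩
  have hmin : 0 < min m m' := lt_min hm0 hm0'
  have lam0 : 0 < lam := by rw [hlam]; positivity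
  have lamm : lam * min m m' = B + 1 := by rw [hlam]; field_simp
  have lm1 : ∀ v, m ≤ v → B + 1 ≤ lam * v := fun v hv => by
    rw [← lamm]; exact mul_le_mul_of_nonneg_left ((min_le_left _ _).trans hv) lam0.le
  have lm2 : ∀ v, m' ≤ v → B + 1 ≤ lam * v := fun v hv => by
    rw [← lamm]; exact mul_le_mul_of_nonneg_left ((min_le_right _ _).trans hv) lam0.le
  obtain ⟨G, hG⟩ : ∃ G : ℝ → ℝ → ℂ, G = fun s t => ((F1 s t - lam * max (P s t) 0 : ℝ) : ℂ) +
    ((F2 s t - lam * max (P s t) 0 : ℝ) : ℂ) * I := ⟨_, rfl⟩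
  have Gre : ∀ s t, (G s t).re = F1 s t - lam * max (P s t) 0 := fun s t => by
    rw [hG]; simp only [add_re, ofReal_re, mul_re, ofReal_im, I_re, I_im]; ring
  have Gim : ∀ s t, (G s t).im = F2 s t - lam * max (P s t) 0 := fun s t => by
    rw [hG]; simp only [add_im, ofReal_re, mul_im, ofReal_im, I_re, I_im]; ring
  have dG : Continuous fun p : ℝ × ℝ => G p.1 p.2 := by rw [hG]; fun_prop
  have s10 : ∀ s, F1 s 1 = F1 s 0 ∧ F2 s 1 = F2 s 0 ∧ P s 1 = P s 0 := by
    intro s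
    have i0 : Int.fract (0:ℝ) = 0 := Int.fract_zero
    have i1 : Int.fract (1:ℝ) = 0 := Int.fract_one
    have e1 := r1 s 0
    have e2 := r1 s 1
    have e3 := r2 s 0
    have e4 := r2 s 1
    have e5 := r3 s 0
    have e6 := r3 s 1
    rw [i0] at e1 e3 e5
    rw [i1] at e2 e4 e6
    exact ⟨e2.symm.trans e1, e4.symm.trans e3, e6.symm.trans e5⟩
  have perG : ∀ s, G s 1 = G s 0 := by
    intro s
    rw [hG]; simp only [(s10 s).1, (s10 s).2.1, (s10 s).2.2]
  have neG : ∀ s t, G s t ≠ 0 := by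
    intro s t e
    have e1 := congrArg Complex.re e
    have e2 := congrArg Complex.im e
    rw [Gre, zero_re] at e1
    rw [Gim, zero_im] at e2
    rcases le_or_gt (P s t) 0 with hp | hp
    · rw [max_eq_right hp, mul_zero, sub_zero] at e1 e2
      exact hne s t ⟨e1, e2⟩
    · rw [max_eq_left hp.le] at e1 e2
      have e3 : 0 ≤ F1 s t := by
        have := mul_pos lam0 hp
        linarith
      have e4 := lm1 _ (km s t (by linarith) e3 hp.le)
      have e5 := hBb s t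
      have e6 := le_abs_self (F1 s t)
      have e7 := abs_nonneg (F2 s t)
      linarith
  have g0 : ∀ t, (G 0 t).re = F1 0 t ∧ (G 0 t).im = F2 0 t := by
    intro t
    have : P 0 t < 0 := by rw [hP]; simp only; rw [he0]; exact hlo t
    rw [Gre, Gim, max_eq_right this.le, mul_zero, sub_zero, sub_zero]
    exact ⟨rfl, rfl⟩
  have g1 : ∀ t, (G 1 t).re < 0 ∧ (G 1 t).im < 0 := by
    intro t
    have e := km' t
    have e2 := lm2 _ e
    rw [Gre, Gim, max_eq_left (hm0'.le.trans e)]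
    have e5 := hBb 1 t
    have e6 := le_abs_self (F1 1 t)
    have e7 := le_abs_self (F2 1 t)
    have e8 := abs_nonneg (F2 1 t)
    have e9 := abs_nonneg (F1 1 t)
    constructor <;> linarith
  have θc : Continuous fun t : ℝ => θ t (t + η) :=
    A.cont.comp_continuous (f := fun t : ℝ => (t, t + η)) (by fun_prop)
      (fun t => ⟨by simp only; linarith, by simp only; linarith⟩)
  have key := homW (F := G) dG perG neG
    (k := fun t => ((Real.log ‖G 0 t‖ : ℝ) : ℂ) + (θ t (t + η) : ℝ) * I)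
    (by
      have e1 : Continuous fun t => Real.log ‖G 0 t‖ :=
        (Continuous.norm (dG.comp (f := fun t : ℝ => ((0:ℝ), t)) (by fun_prop))).log
          (fun t => norm_ne_zero_iff.2 (neG 0 t))
      exact (continuous_ofReal.comp e1).add ((continuous_ofReal.comp θc).mul continuous_const))
    (fun t => by
      obtain ⟨ρ, hρ, e1, e2⟩ := A.ex t (t + η) (by linarith) (by linarith)
      have e3 : G 0 t = ρ * (Real.cos (θ t (t + η)) + Real.sin (θ t (t + η)) * I) := by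
        apply Complex.ext
        · rw [(g0 t).1, hF1]; simp only; rw [he0, e1]
          simp only [mul_re, add_re, ofReal_re, ofReal_im, I_re, I_im, mul_im, add_im]; ring
        · rw [(g0 t).2, hF2]; simp only; rw [he0, e2]
          simp only [mul_re, add_re, ofReal_re, ofReal_im, I_re, I_im, mul_im, add_im]; ring
      have e4 : Complex.exp ((θ t (t + η) : ℝ) * I) =
          Real.cos (θ t (t + η)) + Real.sin (θ t (t + η)) * I := by
        rw [Complex.exp_mul_I, ofReal_cos, ofReal_sin]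
      have e5 : ‖G 0 t‖ = ρ := by
        rw [e3, norm_mul, norm_real, Real.norm_of_nonneg hρ.le, ← e4, norm_exp_ofReal_mul_I,
          mul_one]
      rw [Complex.exp_add, e4, e5, ← ofReal_exp, Real.exp_log hρ, ← e3])
    (k' := fun t => Complex.log (-G 1 t) + Real.pi * I)
    (by
      refine Continuous.add (Continuous.clog ?_ ?_) continuous_const
      · exact (dG.comp (f := fun t : ℝ => ((1:ℝ), t)) (by fun_prop)).neg
      · intro t
        left
        rw [neg_re]; linarith [(g1 t).1])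
    (fun t => by
      rw [Complex.exp_add, Complex.exp_log (neg_ne_zero.2 (neG 1 t)), exp_pi_mul_I]; ring)
  simp only [perG, sub_self] at key
  have e1 := A.per 0 η h0 (by linarith)
  have e2 := congrArg Complex.im key
  simp only [sub_im, add_im, mul_im, ofReal_im, ofReal_re, I_re, I_im, zero_im] at e2
  rw [show (0:ℝ) + η = η by ring, add_comm 1 η] at e2
  rw [zero_add] at e1
  have e3 : (g:ℝ) * (2 * Real.pi) = 0 := by linarith
  rcases mul_eq_zero.1 e3 with h' | h'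
  · exact_mod_cast h'
  · exact absurd h' (by positivity)

end Pool.Agent.H763R2.An
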