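import Pool.Agent.H763R2.An.Se

/-! Curves around the origin. -/

set_option autoImplicit false
open Complex Set Topology Metric

namespace Pool.Agent.H763R2.An

open Dm (NoSq)

variable {c : ℝ → ℂ} {M : ℂ → ℝ} {κ : ZMod 2} {θ : ℝ → ℝ → ℝ} {g : ℤ}

/-- the curve winds once around the origin -/
structure Pol (c : ℝ → ℂ) (φ : ℝ → ℝ) : Prop where
  cont : Continuous φ
  per : ∀ t, φ (t + 1) = φ t + 2 * Real.pi
  ne : ∀ t, c t ≠ 0
  eq : ∀ t, c t = ‖c t‖ * exp (φ t * I)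

theorem Pol.wind {φ : ℝ → ℝ} (L : Loop c) (P : Pol c φ) : IsWc c 0 1 := by
  have hc := L.cont
  have hφ := P.cont
  refine ⟨fun t => ((Real.log ‖c t‖ : ℝ) : ℂ) + φ t * I, ?_, fun t => ?_, ?_⟩
  · have e1 : Continuous fun t => Real.log ‖c t‖ :=
      hc.norm.log (fun t => norm_ne_zero_iff.2 (P.ne t))
    exact (continuous_ofReal.comp e1).add ((continuous_ofReal.comp hφ).mul continuous_const)
  · have h0 : 0 < ‖c t‖ := norm_pos_iff.2 (P.ne t)
    rw [Complex.exp_add, ← ofReal_exp, Real.exp_log h0, ← P.eq, sub_zero]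
  · have h1 : c 1 = c 0 := by have := L.per 0; rwa [zero_add] at this
    have h2 : φ 1 = φ 0 + 2 * Real.pi := by have := P.per 0; rwa [zero_add] at this
    simp only [h1, h2]; push_cast; ring

/-- beyond a point inside there is a point of the curve -/
theorem beyond (L : Loop c) {z : ℂ} (hz : z ≠ 0) (h : 0 < mgc c z) :
    ∃ μ : ℝ, 1 < μ ∧ μ * z ∈ range c := by
  by_contra hcon
  push Not at hcon
  have hzc : z ∉ range c := by
    intro hm
    rw [← (mgc_sg L).zero L] at hm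
    linarith
  have hn := norm_pos_iff.2 hz
  obtain ⟨R, hR⟩ := L.compact.isBounded.exists_norm_le
  have hR0 : 0 ≤ R := (norm_nonneg _).trans (hR _ (mem_range_self 0))
  obtain ⟨T, hT⟩ : ∃ T, T = R / ‖z‖ + 2 := ⟨_, rfl⟩
  have hq : 0 ≤ R / ‖z‖ := by positivity
  have e1 := (L.half (z := T * z) (a := -z) (neg_ne_zero.2 hz) (fun t => by
    have e2 : (c t - T * z) / (-z) = T - c t / z := by
      field_simp; ring
    rw [e2, sub_re, ofReal_re]
    have e3 := Complex.abs_re_le_norm (c t / z)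
    rw [norm_div] at e3
    have e4 : ‖c t‖ / ‖z‖ ≤ R / ‖z‖ := by
      gcongr; exact hR _ (mem_range_self t)
    have e5 := le_abs_self (c t / z).re
    linarith)).2
  have e2 := L.segW (z := T * z) (w := z) (fun s hs hm => by
    have e3 : (T * z + s * (z - T * z) : ℂ) = ((T - s * (T - 1) : ℝ) : ℂ) * z := by
      push_cast; ring
    rw [e3] at hm
    rcases lt_or_eq_of_le hs.2 with h1 | h1
    · refine hcon _ ?_ hm
      have hT1 : 1 < T := by linarith
      nlinarith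
    · rw [h1] at hm
      apply hzc
      convert hm using 1
      push_cast; ring) e1
  have := mgc_out e2
  linarith

/-- before a point outside there is a point of the curve -/
theorem before (L : Loop c) {φ : ℝ → ℝ} (P : Pol c φ) {z : ℂ} (h : mgc c z < 0) :
    ∃ μ : ℝ, 0 < μ ∧ μ < 1 ∧ μ * z ∈ range c := by
  by_contra hcon
  push Not at hcon
  have hzc : z ∉ range c := by
    intro hm
    rw [← (mgc_sg L).zero L] at hm
    linarith
  have e2 := L.segW (z := 0) (w := z) (fun s hs hm => by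
    have e3 : (0 + s * (z - 0) : ℂ) = (s : ℂ) * z := by ring
    rw [e3] at hm
    rcases lt_or_eq_of_le hs.1 with h0 | h0
    · rcases lt_or_eq_of_le hs.2 with h1 | h1
      · exact hcon s h0 h1 hm
      · rw [h1, ofReal_one, one_mul] at hm; exact hzc hm
    · rw [← h0, ofReal_zero, zero_mul] at hm
      obtain ⟨t, ht⟩ := hm
      exact P.ne t ht) (P.wind L)
  have : Odc c z := ⟨1, e2, odd_one⟩
  unfold mgc at h
  rw [if_pos this] at h
  linarith [infDist_nonneg (x := z) (s := range c)]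

theorem ray (L : Loop c) {φ : ℝ → ℝ} (P : Pol c φ) {z : ℂ} {σ : ℝ} (hz : σ = 1 → z ≠ 0)
    (hσ : σ = 1 ∨ σ = -1) (h : 0 < σ * mgc c z) :
    ∃ μ : ℝ, 0 < μ ∧ 0 < σ * (μ - 1) ∧ μ * z ∈ range c := by
  rcases hσ with rfl | rfl
  · obtain ⟨μ, h1, h2⟩ := beyond L (hz rfl) (by linarith)
    exact ⟨μ, by linarith, by linarith, h2⟩
  · obtain ⟨μ, h1, h2, h3⟩ := before L P (z := z) (by linarith)
    exact ⟨μ, h1, by linarith, h3⟩

/-- sign changes of the vector field -/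
theorem Ang.signs (A : Ang c M θ g) {σ τ : ℝ} (hσ : σ = 1 ∨ σ = -1) (hτ : τ = 1 ∨ τ = -1) :
    ∃ θ' g', AngF (fun x y => σ * M (DD c x y)) (fun x y => τ * M (CC c x y)) θ' g' ∧
      (Odd g → Odd g') := by
  rcases hσ with rfl | rfl <;> rcases hτ with rfl | rfl
  · refine ⟨θ, g, ⟨A.cont, fun x y h1 h2 => ?_, A.per⟩, id⟩
    obtain ⟨ρ, hρ, e1, e2⟩ := A.ex x y h1 h2
    exact ⟨ρ, hρ, by rw [one_mul, e1], by rw [one_mul, e2]⟩
  · refine ⟨fun x y => - θ x y, -g, ⟨A.cont.neg, fun x y h1 h2 => ?_, fun x y h1 h2 => ?_⟩,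
      fun h => h.neg⟩
    · obtain ⟨ρ, hρ, e1, e2⟩ := A.ex x y h1 h2
      exact ⟨ρ, hρ, by rw [one_mul, e1, Real.cos_neg], by rw [e2, Real.sin_neg]; ring⟩
    · rw [A.per x y h1 h2]; push_cast; ring
  · refine ⟨fun x y => Real.pi - θ x y, -g, ⟨continuousOn_const.sub A.cont,
      fun x y h1 h2 => ?_, fun x y h1 h2 => ?_⟩, fun h => h.neg⟩
    · obtain ⟨ρ, hρ, e1, e2⟩ := A.ex x y h1 h2
      exact ⟨ρ, hρ, by rw [e1, Real.cos_pi_sub]; ring, by rw [one_mul, e2, Real.sin_pi_sub]⟩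
    · rw [A.per x y h1 h2]; push_cast; ring
  · refine ⟨fun x y => θ x y + Real.pi, g, ⟨A.cont.add continuousOn_const,
      fun x y h1 h2 => ?_, fun x y h1 h2 => ?_⟩, id⟩
    · obtain ⟨ρ, hρ, e1, e2⟩ := A.ex x y h1 h2
      exact ⟨ρ, hρ, by rw [e1, Real.cos_add_pi]; ring, by rw [e2, Real.sin_add_pi]; ring⟩
    · rw [A.per x y h1 h2]; ring

/-- all sign patterns occur on separating sets of chords -/
theorem patterns (L : Loop c) (J : Inj c) (nosq : NoSq (range c)) {ψ : ℝ → ℝ → ℝ}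
    (hψ : Continuous fun p : ℝ × ℝ => ψ p.1 p.2) (pψ : ∀ x y, ψ (x + 1) (y + 1) = ψ x y)
    {η : ℝ} (h0 : 0 < η) (h1 : η < 1 / 2) (hlo : ∀ x, ψ x (x + η) < 0)
    (hhi : ∀ x, 0 < ψ x (x + (1 - η))) {σ τ : ℝ} (hσ : σ = 1 ∨ σ = -1) (hτ : τ = 1 ∨ τ = -1) :
    ∃ x y, x < y ∧ y < x + 1 ∧ ψ x y = 0 ∧ 0 < σ * mgc c (DD c x y) ∧
      0 < τ * mgc c (CC c x y) := by
  by_contra hcon
  push Not at hcon
  obtain ⟨θ, g, A, ho⟩ := exists_odd L J nosq
  obtain ⟨θ', g', A', ho'⟩ := A.signs hσ hτ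
  have hM := (mgc_sg L).cont
  have := sep_zero (ψ := ψ)
    (continuous_const.mul (hM.comp L.DD_cont) : Continuous fun p : ℝ × ℝ =>
      σ * mgc c (DD c p.1 p.2))
    (continuous_const.mul (hM.comp L.CC_cont) : Continuous fun p : ℝ × ℝ =>
      τ * mgc c (CC c p.1 p.2))
    (fun x y => by rw [L.DD_per]) (fun x y => by rw [L.CC_per]) A' hψ pψ h0 h1 hlo hhi
    (fun x y g1 g2 g3 g4 => by
      have := hcon x y g1 g2 g3 g4.1
      linarith [g4.2])
  have h3 := ho' ho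
  rw [this] at h3
  exact absurd h3 (by decide)

/-- short chords are seen under small angles -/
theorem Pol.fine {φ : ℝ → ℝ} (P : Pol c φ) {δ : ℝ} (hδ : 0 < δ) : ∃ η > 0, η < 1 / 2 ∧
    ∀ s, |φ (s + η) - φ s| < δ := by
  have hφ := P.cont
  have hπ := Real.pi_pos
  have L' : Loop (fun t => ((φ t - 2 * Real.pi * t : ℝ) : ℂ)) :=
    ⟨by fun_prop, fun t => by rw [P.per]; push_cast; ring⟩
  obtain ⟨N0, hN0, hN⟩ := L'.fine (δ := δ / 2) (by positivity)
  obtain ⟨n, hn⟩ := exists_nat_gt (4 * Real.pi / δ)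
  obtain ⟨N, hNd⟩ : ∃ N, N = N0 + n + 3 := ⟨_, rfl⟩
  have hNr : (3:ℝ) ≤ N := by rw [hNd]; push_cast; have : (0:ℝ) ≤ N0 := Nat.cast_nonneg _; have : (0:ℝ) ≤ n := Nat.cast_nonneg _; linarith
  have hNn : 4 * Real.pi / δ < N := by
    rw [hNd]; push_cast; have : (0:ℝ) ≤ N0 := Nat.cast_nonneg _; linarith
  have hN0' : (0:ℝ) < N := by linarith
  refine ⟨1 / N, by positivity, ?_, fun s => ?_⟩
  · rw [div_lt_div_iff₀ hN0' (by norm_num)]; linarith
  · have e1 := hN N (by omega) (s + 1 / N) s (by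
      rw [add_sub_cancel_left, abs_of_pos (by positivity)])
    rw [← ofReal_sub, norm_real, Real.norm_eq_abs] at e1
    have e2 : 2 * Real.pi * (1 / N) < δ / 2 := by
      rw [div_lt_iff₀ hδ] at hNn
      rw [mul_one_div, div_lt_iff₀ hN0']; linarith
    have e3 : 0 < 2 * Real.pi * (1 / (N:ℝ)) := by positivity
    rw [abs_lt] at e1 ⊢
    constructor <;> linarith [e1.1, e1.2]

theorem star_main (L : Loop c) (J : Inj c) {φ : ℝ → ℝ} (P : Pol c φ) {Ψ : ℂ → ℂ → ℝ}
    (hΨ : Continuous fun p : ℂ × ℂ => Ψ p.1 p.2)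
    (h12 : ∀ z ∈ range c, ∀ w ∈ range c, 0 < Ψ z w ∧ Ψ z w < 2 * Real.pi) {σ τ : ℝ}
    (h3' : ∀ z ∈ range c, ∀ w ∈ range c, Ψ z w = Real.pi / 4 → σ = -1 ∧ τ = -1)
    (hσ : σ = 1 ∨ σ = -1) (hτ : τ = 1 ∨ τ = -1)
    (H : ∀ x y, x < y → y < x + 1 → φ y = φ x + Ψ (c x) (c y) →
      (∃ μ : ℝ, 0 < μ ∧ 0 < σ * (μ - 1) ∧ μ * (c x + I * (c y - c x)) ∈ range c) →
      (∃ ν : ℝ, 0 < ν ∧ 0 < τ * (ν - 1) ∧ ν * (c y + I * (c y - c x)) ∈ range c) → False) :
    ¬ NoSq (range c) := by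
  intro nosq
  have hc := L.cont
  have hφ := P.cont
  have hπ := Real.pi_pos
  have hCC : IsCompact (range c ×ˢ range c) := L.compact.prod L.compact
  have hCn : (range c ×ˢ range c).Nonempty := L.ne.prod L.ne
  obtain ⟨p, hp, hpm⟩ := hCC.exists_isMinOn hCn
    (f := fun p => min (Ψ p.1 p.2) (2 * Real.pi - Ψ p.1 p.2))
    (hΨ.min (continuous_const.sub hΨ)).continuousOn
  obtain ⟨δ, hδ⟩ : ∃ δ, δ = min (Ψ p.1 p.2) (2 * Real.pi - Ψ p.1 p.2) := ⟨_, rfl⟩
  have hδ0 : 0 < δ := by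
    rw [hδ]
    have := h12 p.1 hp.1 p.2 hp.2
    exact lt_min this.1 (by linarith [this.2])
  have hδm : ∀ x y, δ ≤ Ψ (c x) (c y) ∧ δ ≤ 2 * Real.pi - Ψ (c x) (c y) := by
    intro x y
    have : δ ≤ min (Ψ (c x) (c y)) (2 * Real.pi - Ψ (c x) (c y)) := by
      rw [hδ]; exact hpm (show (c x, c y) ∈ range c ×ˢ range c from
        ⟨mem_range_self _, mem_range_self _⟩)
    exact ⟨this.trans (min_le_left _ _), this.trans (min_le_right _ _)⟩
  obtain ⟨η, g0, g1, g2⟩ := P.fine hδ0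
  obtain ⟨x, y, e1, e2, e3, e4, e5⟩ := patterns L J nosq
    (ψ := fun x y => φ y - φ x - Ψ (c x) (c y))
    (by
      have : Continuous fun p : ℝ × ℝ => Ψ (c p.1) (c p.2) :=
        hΨ.comp (f := fun p : ℝ × ℝ => (c p.1, c p.2)) (by fun_prop)
      fun_prop) (fun x y => by rw [P.per, P.per, L.per, L.per]; ring) g0 g1 (fun x => by
      have := (abs_lt.1 (g2 x)).2
      have := (hδm x (x + η)).1
      linarith) (fun x => by
      have h4 := (abs_lt.1 (g2 (x + (1 - η)))).2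
      rw [show x + (1 - η) + η = x + 1 by ring, P.per] at h4
      have := (hδm x (x + (1 - η))).2
      linarith) hσ hτ
  obtain ⟨ψ, hψd⟩ : ∃ ψ, ψ = Ψ (c x) (c y) := ⟨_, rfl⟩
  have h1 : 0 < ψ := by rw [hψd]; exact (h12 _ (mem_range_self x) _ (mem_range_self y)).1
  have h2 : ψ < 2 * Real.pi := by
    rw [hψd]; exact (h12 _ (mem_range_self x) _ (mem_range_self y)).2
  have h3 : ψ = Real.pi / 4 → σ = -1 ∧ τ = -1 := by
    rw [hψd]; exact h3' _ (mem_range_self x) _ (mem_range_self y)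
  have hA := norm_pos_iff.2 (P.ne x)
  have hB := norm_pos_iff.2 (P.ne y)
  have hxy : φ y = φ x + ψ := by rw [hψd]; linarith
  -- the vertices are not the origin
  have key : ∀ u v : ℝ, 0 < u → u * Real.cos ψ = v → u * Real.sin ψ = v → 0 < v →
      ψ = Real.pi / 4 := by
    intro u v hu k1 k2 hv
    have k3 : Real.cos ψ = Real.sin ψ := by
      have : u * (Real.cos ψ - Real.sin ψ) = 0 := by linarith
      rcases mul_eq_zero.1 this with h | h
      · exact absurd h hu.ne'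
      · linarith
    have k4 : Real.sin (ψ - Real.pi / 4) = 0 := by
      rw [Real.sin_sub, Real.cos_pi_div_four, Real.sin_pi_div_four, k3]; ring
    obtain ⟨n, hn⟩ := Real.sin_eq_zero_iff.1 k4
    have n1 : (-1:ℝ) < n := by
      by_contra hh
      push Not at hh
      nlinarith
    have n2 : (n:ℝ) < 2 := by
      by_contra hh
      push Not at hh
      nlinarith
    have n1' : -1 < n := by exact_mod_cast n1
    have n2' : n < 2 := by exact_mod_cast n2
    have n3 : n = 0 ∨ n = 1 := by omega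
    rcases n3 with rfl | rfl
    · have : ψ - Real.pi / 4 = 0 := by rw [← hn]; simp
      linarith
    · exfalso
      have k5 : ψ = Real.pi / 4 + Real.pi := by
        have : ψ - Real.pi / 4 = Real.pi := by rw [← hn]; simp
        linarith
      have k6 : Real.cos ψ < 0 := by
        rw [k5, Real.cos_add_pi, Real.cos_pi_div_four]
        have : 0 < √2 / 2 := by positivity
        linarith
      nlinarith
  have hBA : c y = ((‖c y‖ / ‖c x‖ : ℝ) : ℂ) * exp (ψ * I) * c x := by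
    have hx := P.eq x
    have hy := P.eq y
    rw [hxy] at hy
    obtain ⟨a, ha⟩ : ∃ a, a = ‖c x‖ := ⟨_, rfl⟩
    obtain ⟨b, hb⟩ : ∃ b, b = ‖c y‖ := ⟨_, rfl⟩
    rw [← ha] at hx hA ⊢
    rw [← hb] at hy ⊢
    have e : (a : ℂ) ≠ 0 := by exact_mod_cast hA.ne'
    rw [hx, hy]
    push_cast
    rw [add_mul, Complex.exp_add]
    field_simp
  obtain ⟨r, hr⟩ : ∃ r, r = ‖c y‖ / ‖c x‖ := ⟨_, rfl⟩
  have r0 : 0 < r := by rw [hr]; positivity
  rw [← hr] at hBA
  have hexp : exp ((ψ : ℂ) * I) = Real.cos ψ + Real.sin ψ * I := by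
    rw [Complex.exp_mul_I, ofReal_cos, ofReal_sin]
  have nD : σ = 1 → DD c x y ≠ 0 := by
    intro hs h0
    have : (1 + I * (r * exp (ψ * I) - 1)) * c x = 0 := by
      rw [← h0]; unfold DD Sq.Dv; rw [hBA]; ring
    have h4 := (mul_eq_zero.1 this).resolve_right (P.ne x)
    rw [hexp] at h4
    have h5 := congrArg Complex.re h4
    have h6 := congrArg Complex.im h4
    simp only [add_re, one_re, mul_re, I_re, sub_re, ofReal_re, ofReal_im, add_im, mul_im, I_im,
      sub_im, one_im, zero_re, zero_im] at h5 h6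
    have h7 := (h3 (key r 1 r0 (by linarith) (by linarith) one_pos)).1
    linarith
  have nC : τ = 1 → CC c x y ≠ 0 := by
    intro hs h0
    have : (r * exp (ψ * I) + I * (r * exp (ψ * I) - 1)) * c x = 0 := by
      rw [← h0]; unfold CC Sq.Cv; rw [hBA]; ring
    have h4 := (mul_eq_zero.1 this).resolve_right (P.ne x)
    rw [hexp] at h4
    have h5 := congrArg Complex.re h4
    have h6 := congrArg Complex.im h4
    simp only [add_re, one_re, mul_re, I_re, sub_re, ofReal_re, ofReal_im, add_im, mul_im, I_im,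
      sub_im, one_im, zero_re, zero_im] at h5 h6
    have h7 := (h3 (key r (1 / 2) r0 (by linarith) (by linarith) (by norm_num))).2
    linarith
  refine H x y e1 e2 (by rw [hxy, hψd]) ?_ ?_
  · obtain ⟨μ, m1, m2, m3⟩ := ray L P nD hσ e4
    refine ⟨μ, m1, m2, ?_⟩
    have : c x + I * (c y - c x) = DD c x y := by unfold DD Sq.Dv; ring
    rw [this]; exact m3
  · obtain ⟨μ, m1, m2, m3⟩ := ray L P nC hτ e5
    refine ⟨μ, m1, m2, ?_⟩
    have : c y + I * (c y - c x) = CC c x y := by unfold CC Sq.Cv; ring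
    rw [this]; exact m3

end Pool.Agent.H763R2.An
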