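import Pool.Agent.H763R2.An.Sp
import Pool.Agent.H763R2.An.Sd

/-! Curves around the origin, all directions. -/

set_option autoImplicit false
open Complex Set Topology Metric

namespace Pool.Agent.H763R2.An

open Dm (NoSq)

variable {c : ℝ → ℂ}

theorem cast0 {σ : SignType} (h : (σ : ℝ) = 0) : σ = 0 := by
  cases σ
  · rfl
  · simp at h
  · simp at h

theorem raySign (L : Loop c) {φ : ℝ → ℝ} (P : Pol c φ) {z : ℂ} {σ : SignType}
    (hz : σ = 1 → z ≠ 0) {ρ : ℝ} (hρ : 0 < ρ) (h : mgc c z = ρ * (σ : ℝ)) :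
    ∃ μ : ℝ, 0 < μ ∧ SignType.sign (μ - 1) = σ ∧ μ * z ∈ range c := by
  cases σ
  · refine ⟨1, one_pos, by simp, ?_⟩
    have h0 : mgc c z = 0 := by simpa using h
    rw [(mgc_sg L).zero L] at h0
    simpa using h0
  · have h0 : mgc c z < 0 := by
      have : mgc c z = -ρ := by simpa using h
      linarith
    obtain ⟨μ, h1, h2, h3⟩ := before L P h0
    exact ⟨μ, h1, sign_neg (by linarith), h3⟩
  · have h0 : 0 < mgc c z := by
      have : mgc c z = ρ := by simpa using h
      linarith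
    obtain ⟨μ, h1, h2⟩ := beyond L (hz rfl) h0
    exact ⟨μ, by linarith, sign_pos (by linarith), h2⟩

theorem star_dir (L : Loop c) (J : Inj c) {φ : ℝ → ℝ} (P : Pol c φ) {Ψ : ℂ → ℂ → ℝ}
    (hΨ : Continuous fun p : ℂ × ℂ => Ψ p.1 p.2)
    (h12 : ∀ z ∈ range c, ∀ w ∈ range c, 0 < Ψ z w ∧ Ψ z w < 2 * Real.pi) {σ τ : SignType}
    (h3' : ∀ z ∈ range c, ∀ w ∈ range c, Ψ z w = Real.pi / 4 → σ ≠ 1 ∧ τ ≠ 1)
    (hστ : ¬ (σ = 0 ∧ τ = 0))
    (H : ∀ x y, x < y → y < x + 1 → φ y = φ x + Ψ (c x) (c y) →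
      (∃ μ : ℝ, 0 < μ ∧ SignType.sign (μ - 1) = σ ∧ μ * (c x + I * (c y - c x)) ∈ range c) →
      (∃ ν : ℝ, 0 < ν ∧ SignType.sign (ν - 1) = τ ∧ ν * (c y + I * (c y - c x)) ∈ range c) → False) :
    ¬ NoSq (range c) := by
  intro nosq
  have hc := L.cont
  have hφ := P.cont
  have hπ := Real.pi_pos
  have hCC : IsCompact (range c ×ˢ range c) := L.compact.prod L.compact
  have hCn : (range c ×ˢ range c).Nonempty := L.ne.prod L.ne
  obtain ⟨p, hp, hpm⟩ := hCC.exists_isMinOn hCn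
    (f := fun p => min (Ψ p.1 p.2) (2 * Real.pi - Ψ p.1 p.2))
    (hΨ.min (continuous_const.sub hΨ)).continuousOn
  obtain ⟨δ, hδ⟩ : ∃ δ, δ = min (Ψ p.1 p.2) (2 * Real.pi - Ψ p.1 p.2) := ⟨_, rfl⟩
  have hδ0 : 0 < δ := by
    rw [hδ]
    have := h12 p.1 hp.1 p.2 hp.2
    exact lt_min this.1 (by linarith [this.2])
  have hδm : ∀ x y, δ ≤ Ψ (c x) (c y) ∧ δ ≤ 2 * Real.pi - Ψ (c x) (c y) := by
    intro x y
    have : δ ≤ min (Ψ (c x) (c y)) (2 * Real.pi - Ψ (c x) (c y)) := by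
      rw [hδ]; exact hpm (show (c x, c y) ∈ range c ×ˢ range c from
        ⟨mem_range_self _, mem_range_self _⟩)
    exact ⟨this.trans (min_le_left _ _), this.trans (min_le_right _ _)⟩
  obtain ⟨η, g0, g1, g2⟩ := P.fine hδ0
  have hw : (((σ : ℝ) : ℂ) + ((τ : ℝ) : ℂ) * I) ≠ 0 := by
    intro h
    have h1 := congrArg Complex.re h
    have h2 := congrArg Complex.im h
    simp only [add_re, mul_re, add_im, mul_im, ofReal_re, ofReal_im, I_re, I_im, mul_zero,
      mul_one, zero_mul, add_zero, zero_add, sub_zero, zero_re, zero_im] at h1 h2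
    exact hστ ⟨cast0 h1, cast0 h2⟩
  obtain ⟨x, y, ρ, e1, e2, e3, hρ, e4, e5⟩ := directions L J nosq
    (ψ := fun x y => φ y - φ x - Ψ (c x) (c y))
    (by
      have : Continuous fun p : ℝ × ℝ => Ψ (c p.1) (c p.2) :=
        hΨ.comp (f := fun p : ℝ × ℝ => (c p.1, c p.2)) (by fun_prop)
      fun_prop) (fun x y => by rw [P.per, P.per, L.per, L.per]; ring) g0 g1 (fun x => by
      have := (abs_lt.1 (g2 x)).2
      have := (hδm x (x + η)).1
      linarith) (fun x => by
      have h4 := (abs_lt.1 (g2 (x + (1 - η)))).2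
      rw [show x + (1 - η) + η = x + 1 by ring, P.per] at h4
      have := (hδm x (x + (1 - η))).2
      linarith) hw
  simp only [add_re, mul_re, add_im, mul_im, ofReal_re, ofReal_im, I_re, I_im, mul_zero,
      mul_one, zero_mul, add_zero, zero_add, sub_zero] at e4 e5
  obtain ⟨ψ, hψd⟩ : ∃ ψ, ψ = Ψ (c x) (c y) := ⟨_, rfl⟩
  have h1 : 0 < ψ := by rw [hψd]; exact (h12 _ (mem_range_self x) _ (mem_range_self y)).1
  have h2 : ψ < 2 * Real.pi := by
    rw [hψd]; exact (h12 _ (mem_range_self x) _ (mem_range_self y)).2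
  have h3 : ψ = Real.pi / 4 → σ ≠ 1 ∧ τ ≠ 1 := by
    rw [hψd]; exact h3' _ (mem_range_self x) _ (mem_range_self y)
  have hA := norm_pos_iff.2 (P.ne x)
  have hB := norm_pos_iff.2 (P.ne y)
  have hxy : φ y = φ x + ψ := by rw [hψd]; linarith
  -- the vertices are not the origin
  have key : ∀ u v : ℝ, 0 < u → u * Real.cos ψ = v → u * Real.sin ψ = v → 0 < v →
      ψ = Real.pi / 4 := by
    intro u v hu k1 k2 hv
    have k3 : Real.cos ψ = Real.sin ψ := by
      have : u * (Real.cos ψ - Real.sin ψ) = 0 := by linarith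
      rcases mul_eq_zero.1 this with h | h
      · exact absurd h hu.ne'
      · linarith
    have k4 : Real.sin (ψ - Real.pi / 4) = 0 := by
      rw [Real.sin_sub, Real.cos_pi_div_four, Real.sin_pi_div_four, k3]; ring
    obtain ⟨n, hn⟩ := Real.sin_eq_zero_iff.1 k4
    have n1 : (-1:ℝ) < n := by
      by_contra hh
      push Not at hh
      nlinarith
    have n2 : (n:ℝ) < 2 := by
      by_contra hh
      push Not at hh
      nlinarith
    have n1' : -1 < n := by exact_mod_cast n1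
    have n2' : n < 2 := by exact_mod_cast n2
    have n3 : n = 0 ∨ n = 1 := by omega
    rcases n3 with rfl | rfl
    · have : ψ - Real.pi / 4 = 0 := by rw [← hn]; simp
      linarith
    · exfalso
      have k5 : ψ = Real.pi / 4 + Real.pi := by
        have : ψ - Real.pi / 4 = Real.pi := by rw [← hn]; simp
        linarith
      have k6 : Real.cos ψ < 0 := by
        rw [k5, Real.cos_add_pi, Real.cos_pi_div_four]
        have : 0 < √2 / 2 := by positivity
        linarith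
      nlinarith
  have hBA : c y = ((‖c y‖ / ‖c x‖ : ℝ) : ℂ) * exp (ψ * I) * c x := by
    have hx := P.eq x
    have hy := P.eq y
    rw [hxy] at hy
    obtain ⟨a, ha⟩ : ∃ a, a = ‖c x‖ := ⟨_, rfl⟩
    obtain ⟨b, hb⟩ : ∃ b, b = ‖c y‖ := ⟨_, rfl⟩
    rw [← ha] at hx hA ⊢
    rw [← hb] at hy ⊢
    have e : (a : ℂ) ≠ 0 := by exact_mod_cast hA.ne'
    rw [hx, hy]
    push_cast
    rw [add_mul, Complex.exp_add]
    field_simp
  obtain ⟨r, hr⟩ : ∃ r, r = ‖c y‖ / ‖c x‖ := ⟨_, rfl⟩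
  have r0 : 0 < r := by rw [hr]; positivity
  rw [← hr] at hBA
  have hexp : exp ((ψ : ℂ) * I) = Real.cos ψ + Real.sin ψ * I := by
    rw [Complex.exp_mul_I, ofReal_cos, ofReal_sin]
  have nD : σ = 1 → DD c x y ≠ 0 := by
    intro hs h0
    have : (1 + I * (r * exp (ψ * I) - 1)) * c x = 0 := by
      rw [← h0]; unfold DD Sq.Dv; rw [hBA]; ring
    have h4 := (mul_eq_zero.1 this).resolve_right (P.ne x)
    rw [hexp] at h4
    have h5 := congrArg Complex.re h4
    have h6 := congrArg Complex.im h4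
    simp only [add_re, one_re, mul_re, I_re, sub_re, ofReal_re, ofReal_im, add_im, mul_im, I_im,
      sub_im, one_im, zero_re, zero_im] at h5 h6
    exact (h3 (key r 1 r0 (by linarith) (by linarith) one_pos)).1 hs
  have nC : τ = 1 → CC c x y ≠ 0 := by
    intro hs h0
    have : (r * exp (ψ * I) + I * (r * exp (ψ * I) - 1)) * c x = 0 := by
      rw [← h0]; unfold CC Sq.Cv; rw [hBA]; ring
    have h4 := (mul_eq_zero.1 this).resolve_right (P.ne x)
    rw [hexp] at h4
    have h5 := congrArg Complex.re h4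
    have h6 := congrArg Complex.im h4
    simp only [add_re, one_re, mul_re, I_re, sub_re, ofReal_re, ofReal_im, add_im, mul_im, I_im,
      sub_im, one_im, zero_re, zero_im] at h5 h6
    exact (h3 (key r (1 / 2) r0 (by linarith) (by linarith) (by norm_num))).2 hs
  refine H x y e1 e2 (by rw [hxy, hψd]) ?_ ?_
  · obtain ⟨μ, m1, m2, m3⟩ := raySign L P nD hρ e4
    refine ⟨μ, m1, m2, ?_⟩
    have : c x + I * (c y - c x) = DD c x y := by unfold DD Sq.Dv; ring
    rw [this]; exact m3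
  · obtain ⟨μ, m1, m2, m3⟩ := raySign L P nC hρ e5
    refine ⟨μ, m1, m2, ?_⟩
    have : c y + I * (c y - c x) = CC c x y := by unfold CC Sq.Cv; ring
    rw [this]; exact m3

end Pool.Agent.H763R2.An
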