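import Pool.Agent.H763R2.An.D2

/-! Winding along staircases. -/

set_option autoImplicit false
open Complex Set Topology Metric

namespace Pool.Agent.H763R2.An

variable {c : ℝ → ℂ} {M : ℂ → ℝ} {κ : ZMod 2} {θ : ℝ → ℝ → ℝ} {g : ℤ}

/-- clamp -/
noncomputable def cl (v l : ℝ) : ℝ := max 0 (min l v)

theorem cl_lo {v l : ℝ} (hl : 0 ≤ l) (h : v ≤ 0) : cl v l = 0 := by
  unfold cl; rw [min_eq_right (h.trans hl), max_eq_left h]
theorem cl_mid {v l : ℝ} (h1 : 0 ≤ v) (h2 : v ≤ l) : cl v l = v := by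
  unfold cl; rw [min_eq_right h2, max_eq_right h1]
theorem cl_hi {v l : ℝ} (hl : 0 ≤ l) (h : l ≤ v) : cl v l = l := by
  unfold cl; rw [min_eq_left h, max_eq_right hl]

/-- coordinates of the staircase -/
noncomputable def sx (η s : ℝ) : ℝ := cl (s - (1 - η)) η + cl (s - (1 + η)) (1 - 2 * η) + cl (s - 2) η
noncomputable def sy (η s : ℝ) : ℝ := η + cl (s - η) (1 - 2 * η) + cl (s - 1) η + cl (s - (2 - η)) η

theorem sx_cont (η : ℝ) : Continuous (sx η) := by unfold sx cl; fun_prop
theorem sy_cont (η : ℝ) : Continuous (sy η) := by unfold sy cl; fun_prop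

theorem st_mem {η : ℝ} (h0 : 0 < η) (h1 : η < 1 / 2) (s : ℝ) : Stc η (sx η s, sy η s) := by
  have hη := h0.le
  have hl : 0 ≤ 1 - 2 * η := by linarith
  unfold sx sy
  rcases le_total s η with g1 | g1
  · rw [cl_lo hη (by linarith), cl_lo hl (by linarith), cl_lo hη (by linarith),
      cl_lo hl (by linarith), cl_lo hη (by linarith), cl_lo hη (by linarith)]
    exact Or.inl ⟨by simp, by simp only; constructor <;> linarith⟩
  rcases le_total s (1 - η) with g2 | g2
  · rw [cl_lo hη (by linarith), cl_lo hl (by linarith), cl_lo hη (by linarith),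
      cl_mid (v := s - η) (by linarith) (by linarith), cl_lo hη (by linarith),
      cl_lo hη (by linarith)]
    exact Or.inl ⟨by simp, by simp only; constructor <;> linarith⟩
  rcases le_total s 1 with g3 | g3
  · rw [cl_mid (v := s - (1 - η)) (by linarith) (by linarith), cl_lo hl (by linarith),
      cl_lo hη (by linarith),
      cl_hi (v := s - η) hl (by linarith), cl_lo hη (by linarith),
      cl_lo hη (by linarith)]
    exact Or.inr (Or.inl ⟨by ring, by simp only; constructor <;> linarith⟩)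
  rcases le_total s (1 + η) with g4 | g4
  · rw [cl_hi (v := s - (1 - η)) hη (by linarith), cl_lo hl (by linarith),
      cl_lo (v := s - 2) hη (by linarith),
      cl_hi (v := s - η) hl (by linarith), cl_mid (v := s - 1) (by linarith) (by linarith),
      cl_lo hη (by linarith)]
    exact Or.inr (Or.inr (Or.inl ⟨by ring, by simp only; constructor <;> linarith⟩))
  rcases le_total s (2 - η) with g5 | g5
  · rw [cl_hi (v := s - (1 - η)) hη (by linarith),
      cl_mid (v := s - (1 + η)) (by linarith) (by linarith),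
      cl_lo (v := s - 2) hη (by linarith),
      cl_hi (v := s - η) hl (by linarith), cl_hi (v := s - 1) hη (by linarith),
      cl_lo hη (by linarith)]
    exact Or.inr (Or.inr (Or.inr (Or.inl ⟨by ring, by simp only; constructor <;> linarith⟩)))
  rcases le_total s 2 with g6 | g6
  · rw [cl_hi (v := s - (1 - η)) hη (by linarith),
      cl_hi (v := s - (1 + η)) hl (by linarith),
      cl_lo (v := s - 2) hη (by linarith),
      cl_hi (v := s - η) hl (by linarith), cl_hi (v := s - 1) hη (by linarith),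
      cl_mid (v := s - (2 - η)) (by linarith) (by linarith)]
    exact Or.inr (Or.inr (Or.inr (Or.inr (Or.inl ⟨by ring, by simp only; constructor <;>
      linarith⟩))))
  rcases le_total s (2 + η) with g7 | g7
  · rw [cl_hi (v := s - (1 - η)) hη (by linarith),
      cl_hi (v := s - (1 + η)) hl (by linarith),
      cl_mid (v := s - 2) (by linarith) (by linarith),
      cl_hi (v := s - η) hl (by linarith), cl_hi (v := s - 1) hη (by linarith),
      cl_hi (v := s - (2 - η)) hη (by linarith)]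
    exact Or.inr (Or.inr (Or.inr (Or.inr (Or.inr ⟨by ring, by simp only; constructor <;>
      linarith⟩))))
  · rw [cl_hi (v := s - (1 - η)) hη (by linarith),
      cl_hi (v := s - (1 + η)) hl (by linarith),
      cl_hi (v := s - 2) hη (by linarith),
      cl_hi (v := s - η) hl (by linarith), cl_hi (v := s - 1) hη (by linarith),
      cl_hi (v := s - (2 - η)) hη (by linarith)]
    exact Or.inr (Or.inr (Or.inr (Or.inr (Or.inr ⟨by ring, by simp only; constructor <;>
      linarith⟩))))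

theorem st_inv {η : ℝ} (h0 : 0 < η) (h1 : η < 1 / 2) {x y : ℝ} (h : Stc η (x, y)) :
    sx η (x + y) = x ∧ sy η (x + y) = y := by
  have hη := h0.le
  have hl : 0 ≤ 1 - 2 * η := by linarith
  unfold sx sy
  rcases h with ⟨e, h2, h3⟩ | ⟨e, h2, h3⟩ | ⟨e, h2, h3⟩ | ⟨e, h2, h3⟩ | ⟨e, h2, h3⟩ | ⟨e, h2, h3⟩ <;>
  simp only at e h2 h3 <;> subst e
  · rw [cl_lo (v := 0 + y - (1 - η)) hη (by linarith), cl_lo hl (by linarith),
      cl_lo (v := 0 + y - 2) hη (by linarith),
      cl_mid (v := 0 + y - η) (by linarith) (by linarith), cl_lo hη (by linarith),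
      cl_lo hη (by linarith)]
    constructor <;> ring
  · rw [cl_mid (v := x + (1 - η) - (1 - η)) (by linarith) (by linarith), cl_lo hl (by linarith),
      cl_lo hη (by linarith),
      cl_hi (v := x + (1 - η) - η) hl (by linarith), cl_lo hη (by linarith),
      cl_lo hη (by linarith)]
    constructor <;> ring
  · rw [cl_hi (v := x + y - (1 - x)) hη (by linarith), cl_lo hl (by linarith),
      cl_lo (v := x + y - 2) hη (by linarith),
      cl_hi (v := x + y - x) hl (by linarith),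
      cl_mid (v := x + y - 1) (by linarith) (by linarith),
      cl_lo hη (by linarith)]
    constructor <;> ring
  · rw [cl_hi (v := x + 1 - (1 - η)) hη (by linarith),
      cl_mid (v := x + 1 - (1 + η)) (by linarith) (by linarith),
      cl_lo (v := x + 1 - 2) hη (by linarith),
      cl_hi (v := x + 1 - η) hl (by linarith), cl_hi (v := x + 1 - 1) hη (by linarith),
      cl_lo hη (by linarith)]
    constructor <;> ring
  · rw [cl_hi (v := 1 - η + y - (1 - η)) hη (by linarith),
      cl_hi (v := 1 - η + y - (1 + η)) hl (by linarith),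
      cl_lo (v := 1 - η + y - 2) hη (by linarith),
      cl_hi (v := 1 - η + y - η) hl (by linarith), cl_hi (v := 1 - η + y - 1) hη (by linarith),
      cl_mid (v := 1 - η + y - (2 - η)) (by linarith) (by linarith)]
    constructor <;> ring
  · rw [cl_hi (v := x + (1 + η) - (1 - η)) hη (by linarith),
      cl_hi (v := x + (1 + η) - (1 + η)) hl (by linarith),
      cl_mid (v := x + (1 + η) - 2) (by linarith) (by linarith),
      cl_hi (v := x + (1 + η) - η) hl (by linarith),
      cl_hi (v := x + (1 + η) - 1) hη (by linarith),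
      cl_hi (v := x + (1 + η) - (2 - η)) hη (by linarith)]
    constructor <;> ring

/-- total change of the logarithm along the staircase -/
noncomputable def SS (G : ℝ → ℝ → ℂ) (η : ℝ) : ℂ :=
  dl (fun y => G 0 y) η (1 - η) + dl (fun x => G x (1 - η)) 0 η + dl (fun y => G η y) (1 - η) 1 +
  dl (fun x => G x 1) η (1 - η) + dl (fun y => G (1 - η) y) 1 (1 + η) +
  dl (fun x => G x (1 + η)) (1 - η) 1

variable {G : ℝ → ℝ → ℂ}

theorem SS_eq {η : ℝ} (h0 : 0 < η) (h1 : η < 1 / 2) {K : ℝ → ℂ} (hK : Continuous K)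
    (hKe : ∀ x y, Stc η (x, y) → exp (K (x + y)) = G x y) : SS G η = K (2 + η) - K η := by
  unfold SS
  rw [dl_eq (K := fun y => K (0 + y)) (by linarith) (by fun_prop)
      (fun t ht => hKe 0 t (Or.inl ⟨rfl, ht⟩)),
    dl_eq (K := fun x => K (x + (1 - η))) (by linarith) (by fun_prop)
      (fun t ht => hKe t _ (Or.inr (Or.inl ⟨rfl, ht⟩))),
    dl_eq (K := fun y => K (η + y)) (by linarith) (by fun_prop)
      (fun t ht => hKe η t (Or.inr (Or.inr (Or.inl ⟨rfl, ht⟩)))),
    dl_eq (K := fun x => K (x + 1)) (by linarith) (by fun_prop)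
      (fun t ht => hKe t _ (Or.inr (Or.inr (Or.inr (Or.inl ⟨rfl, ht⟩))))),
    dl_eq (K := fun y => K (1 - η + y)) (by linarith) (by fun_prop)
      (fun t ht => hKe (1 - η) t (Or.inr (Or.inr (Or.inr (Or.inr (Or.inl ⟨rfl, ht⟩)))))),
    dl_eq (K := fun x => K (x + (1 + η))) (by linarith) (by fun_prop)
      (fun t ht => hKe t _ (Or.inr (Or.inr (Or.inr (Or.inr (Or.inr ⟨rfl, ht⟩))))))]
  rw [show η + (1 - η) = 1 by ring, show 0 + (1 - η) = 1 - η by ring,
    show 1 - η + 1 = 2 - η by ring, show 1 - η + (1 + η) = 2 by ring,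
    show 1 + (1 + η) = 2 + η by ring, show (0:ℝ) + η = η by ring, show η + 1 = 1 + η by ring]
  ring

theorem ex_stair {η : ℝ} (h0 : 0 < η) (h1 : η < 1 / 2)
    (hG : Continuous fun p : ℝ × ℝ => G p.1 p.2) (hne : ∀ x y, Stc η (x, y) → G x y ≠ 0) :
    ∃ K : ℝ → ℂ, Continuous K ∧ (∀ s, exp (K s) = G (sx η s) (sy η s)) ∧
      ∀ x y, Stc η (x, y) → exp (K (x + y)) = G x y := by
  obtain ⟨K, hK, hKe⟩ := H777R2.exists_log (X := ℝ) (g := fun s => G (sx η s) (sy η s))
    (hG.comp ((sx_cont η).prodMk (sy_cont η))) (fun s => hne _ _ (st_mem h0 h1 s))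
  refine ⟨K, hK, hKe, fun x y h => ?_⟩
  rw [hKe, (st_inv h0 h1 h).1, (st_inv h0 h1 h).2]

/-- comparison -/
theorem SS_close {η : ℝ} (h0 : 0 < η) (h1 : η < 1 / 2) {G' : ℝ → ℝ → ℂ}
    (hG : Continuous fun p : ℝ × ℝ => G p.1 p.2) (hG' : Continuous fun p : ℝ × ℝ => G' p.1 p.2)
    (hcl : ∀ x y, Stc η (x, y) → ‖G' x y - G x y‖ < ‖G x y‖)
    (hp : G 1 (1 + η) = G 0 η) (hp' : G' 1 (1 + η) = G' 0 η) : SS G' η = SS G η := by
  have hne : ∀ x y, Stc η (x, y) → G x y ≠ 0 := fun x y h => by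
    have := (norm_nonneg (G' x y - G x y)).trans_lt (hcl x y h)
    exact norm_pos_iff.1 this
  obtain ⟨K, hK, hKs, hKe⟩ := ex_stair h0 h1 hG hne
  have hq : ∀ s, G' (sx η s) (sy η s) / G (sx η s) (sy η s) ∈ slitPlane := by
    intro s
    have hm := st_mem h0 h1 s
    have h2 := hcl _ _ hm
    have h3 := hne _ _ hm
    left
    have e : G' (sx η s) (sy η s) / G (sx η s) (sy η s) =
        1 + (G' (sx η s) (sy η s) - G (sx η s) (sy η s)) / G (sx η s) (sy η s) := by
      field_simp; ring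
    have h4 : ‖(G' (sx η s) (sy η s) - G (sx η s) (sy η s)) / G (sx η s) (sy η s)‖ < 1 := by
      rw [norm_div, div_lt_one (norm_pos_iff.2 h3)]; exact h2
    rw [e, add_re, one_re]
    have := (abs_le.1 (abs_re_le_norm
      ((G' (sx η s) (sy η s) - G (sx η s) (sy η s)) / G (sx η s) (sy η s)))).1
    linarith
  have cG : Continuous fun s => G (sx η s) (sy η s) := hG.comp ((sx_cont η).prodMk (sy_cont η))
  have cG' : Continuous fun s => G' (sx η s) (sy η s) :=
    hG'.comp ((sx_cont η).prodMk (sy_cont η))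
  have cq : Continuous fun s => G' (sx η s) (sy η s) / G (sx η s) (sy η s) :=
    cG'.div cG (fun s => hne _ _ (st_mem h0 h1 s))
  set Q : ℝ → ℂ := fun s => log (G' (sx η s) (sy η s) / G (sx η s) (sy η s)) with hQ
  have cQ : Continuous Q := cq.clog hq
  have e2 := SS_eq (G := G') h0 h1 (K := fun s => K s + Q s) (hK.add cQ) (fun x y h => by
    rw [exp_add, hKe x y h, hQ]
    simp only
    rw [exp_log (slitPlane_ne_zero (hq _)), (st_inv h0 h1 h).1, (st_inv h0 h1 h).2]
    have := hne x y h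
    field_simp)
  rw [e2, SS_eq h0 h1 hK hKe]
  have a1 := st_inv h0 h1 (x := 1) (y := 1 + η)
    (Or.inr (Or.inr (Or.inr (Or.inr (Or.inr ⟨rfl, by linarith, by simp⟩)))))
  have a2 := st_inv h0 h1 (x := 0) (y := η) (Or.inl ⟨rfl, le_rfl, by linarith⟩)
  rw [show (1:ℝ) + (1 + η) = 2 + η by ring] at a1
  rw [zero_add] at a2
  have : Q (2 + η) = Q η := by
    simp only [hQ]
    rw [a1.1, a1.2, a2.1, a2.2, hp, hp']
  simp only [this]
  ring

/-- the map into the plane -/
noncomputable def GG (c : ℝ → ℂ) (M : ℂ → ℝ) (x y : ℝ) : ℂ :=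
  ((M (DD c x y) : ℝ) : ℂ) + ((M (CC c x y) : ℝ) : ℂ) * I

theorem GG_cont (L : Loop c) (hM : Continuous M) : Continuous fun p : ℝ × ℝ => GG c M p.1 p.2 := by
  have hD := L.DD_cont
  have hC := L.CC_cont
  unfold GG
  have h1 : Continuous fun p : ℝ × ℝ => M (DD c p.1 p.2) := hM.comp hD
  have h2 : Continuous fun p : ℝ × ℝ => M (CC c p.1 p.2) := hM.comp hC
  fun_prop

theorem GG_per (L : Loop c) (x y : ℝ) : GG c M (x + 1) (y + 1) = GG c M x y := by
  unfold GG; rw [L.DD_per, L.CC_per]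

theorem GG_per1 (L : Loop c) (η : ℝ) : GG c M 1 (1 + η) = GG c M 0 η := by
  rw [← GG_per L 0 η, zero_add, add_comm η 1]

theorem GG_ne {x y : ℝ} : GG c M x y ≠ 0 ↔ ¬ (M (DD c x y) = 0 ∧ M (CC c x y) = 0) := by
  unfold GG
  rw [not_iff_not]
  constructor
  · intro h
    have e1 := congrArg Complex.re h
    have e2 := congrArg Complex.im h
    simp at e1 e2
    exact ⟨e1, e2⟩
  · rintro ⟨h1, h2⟩
    rw [h1, h2]; simp

/-- value for a curve with a global angle -/
theorem SS_ang (L : Loop c) (hM : Continuous M) (A : Ang c M θ g) {η : ℝ} (h0 : 0 < η)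
    (h1 : η < 1 / 2) (hU : ∀ x y, Stc η (x, y) → (x, y) ∈ UU) :
    SS (GG c M) η = g * (2 * Real.pi * I) := by
  have hne : ∀ x y, Stc η (x, y) → GG c M x y ≠ 0 := fun x y h => by
    rw [GG_ne]
    rintro ⟨e1, e2⟩
    obtain ⟨ρ, hρ, f1, f2⟩ := A.ex x y (hU x y h).1 (hU x y h).2
    rw [e1] at f1
    rw [e2] at f2
    have g1 : Real.cos (θ x y) = 0 := by
      rcases mul_eq_zero.1 f1.symm with h | h
      · exact absurd h hρ.ne'
      · exact h
    have g2 : Real.sin (θ x y) = 0 := by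
      rcases mul_eq_zero.1 f2.symm with h | h
      · exact absurd h hρ.ne'
      · exact h
    have := Real.sin_sq_add_cos_sq (θ x y)
    rw [g1, g2] at this
    norm_num at this
  obtain ⟨K, hK, hKs, hKe⟩ := ex_stair h0 h1 (GG_cont L hM) hne
  rw [SS_eq h0 h1 hK hKe]
  have hθc : Continuous fun s => θ (sx η s) (sy η s) :=
    A.path (p := fun s => (sx η s, sy η s)) ((sx_cont η).prodMk (sy_cont η))
      (fun s => hU _ _ (st_mem h0 h1 s))
  have key : ∀ s, exp ((((K s).im - θ (sx η s) (sy η s) : ℝ) : ℂ) * I) = 1 := by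
    intro s
    obtain ⟨ρ, hρ, f1, f2⟩ := A.ex _ _ (hU _ _ (st_mem h0 h1 s)).1 (hU _ _ (st_mem h0 h1 s)).2
    have e := hKs s
    unfold GG at e
    have e1 := congrArg Complex.re e
    have e2 := congrArg Complex.im e
    rw [exp_re] at e1
    rw [exp_im] at e2
    simp only [add_re, ofReal_re, mul_re, I_re, mul_zero, ofReal_im, I_im, mul_one, sub_self,
      add_zero, add_im, mul_im, zero_add] at e1 e2
    rw [f1] at e1
    rw [f2] at e2
    set a := (K s).im
    set t := θ (sx η s) (sy η s)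
    set r := Real.exp (K s).re with hr
    have hr0 : 0 < r := Real.exp_pos _
    have c1 : r * Real.cos (a - t) = ρ := by
      rw [Real.cos_sub]
      have := Real.sin_sq_add_cos_sq t
      linear_combination Real.cos t * e1 + Real.sin t * e2 + ρ * this
    have c2 : r * Real.sin (a - t) = 0 := by
      rw [Real.sin_sub]
      linear_combination Real.cos t * e2 - Real.sin t * e1
    have c3 : Real.sin (a - t) = 0 := by
      rcases mul_eq_zero.1 c2 with h | h
      · exact absurd h hr0.ne'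
      · exact h
    have c4 : 0 < Real.cos (a - t) := by
      by_contra hc
      push Not at hc
      nlinarith
    have c5 : Real.cos (a - t) = 1 := by
      have := Real.sin_sq_add_cos_sq (a - t)
      rw [c3] at this
      nlinarith
    rw [exp_mul_I, ← ofReal_cos, ← ofReal_sin, c3, c5]
    simp
  have hkc : Continuous fun s => (((K s).im - θ (sx η s) (sy η s) : ℝ) : ℂ) * I :=
    (continuous_ofReal.comp ((continuous_im.comp hK).sub hθc)).mul continuous_const
  have hconst := H777R2.exp_const (X := ℝ)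
    (k := fun s => (((K s).im - θ (sx η s) (sy η s) : ℝ) : ℂ) * I) hkc (c := 1)
    key (2 + η) η
  have hc2 := mul_right_cancel₀ I_ne_zero hconst
  have hc3 : (K (2 + η)).im - θ (sx η (2 + η)) (sy η (2 + η)) =
      (K η).im - θ (sx η η) (sy η η) := by exact_mod_cast hc2
  have a1 := st_inv h0 h1 (x := 1) (y := 1 + η)
    (Or.inr (Or.inr (Or.inr (Or.inr (Or.inr ⟨rfl, by linarith, by simp⟩)))))
  have a2 := st_inv h0 h1 (x := 0) (y := η) (Or.inl ⟨rfl, le_rfl, by linarith⟩)
  rw [show (1:ℝ) + (1 + η) = 2 + η by ring] at a1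
  rw [zero_add] at a2
  have hper := A.per 0 η h0 (by linarith)
  rw [zero_add, add_comm η 1] at hper
  rw [a1.1, a1.2, a2.1, a2.2, hper] at hc3
  have hre : (K (2 + η)).re = (K η).re := by
    have f1 := hKs (2 + η)
    have f2 := hKs η
    rw [a1.1, a1.2, GG_per1 L] at f1
    rw [a2.1, a2.2] at f2
    have := congrArg norm (f1.trans f2.symm)
    rw [norm_exp, norm_exp] at this
    exact Real.exp_injective this
  apply Complex.ext
  · simp [hre]
  · simp
    linarith

/-- the count with a flat apex -/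
theorem SS_odd (L : Loop c) (S : Sg c M κ) (hz : NZ0 c M) {m : ℕ} (Λ : Loc c M (1 / m))
    (hne : ∀ x y, Stc (1 / m) (x, y) → GG c M x y ≠ 0) : Pw (SS (GG c M) (1 / m)) 1 := by
  have h0 := Λ.pos
  have h1 := Λ.lt
  obtain ⟨K, hK, hKs, hKe⟩ := ex_stair h0 h1 (GG_cont L S.cont) hne
  set η : ℝ := 1 / m with hη
  have a1 := hKe 1 (1 + η)
    (Or.inr (Or.inr (Or.inr (Or.inr (Or.inr ⟨rfl, by linarith, by simp⟩)))))
  have a2 := hKe 0 η (Or.inl ⟨rfl, le_rfl, by linarith⟩)
  rw [show (1:ℝ) + (1 + η) = 2 + η by ring, GG_per1 L] at a1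
  rw [zero_add] at a2
  obtain ⟨g, hg⟩ : ∃ g : ℤ, K (2 + η) - K η = g * (2 * Real.pi * I) := by
    refine exp_eq_one_iff.1 ?_
    rw [exp_sub, a1, a2]
    exact div_self (by rw [← a2]; exact exp_ne_zero _)
  have A : AngS c M (1 / m) (fun x y => (K (x + y)).im) g := by
    refine ⟨by fun_prop, fun x y h => ?_, ?_⟩
    · refine ⟨Real.exp (K (x + y)).re, Real.exp_pos _, ?_⟩
      have e := hKe x y h
      unfold GG at e
      have e1 := congrArg Complex.re e
      have e2 := congrArg Complex.im e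
      rw [exp_re] at e1
      rw [exp_im] at e2
      simp only [add_re, ofReal_re, mul_re, I_re, mul_zero, ofReal_im, I_im, mul_one, sub_self,
        add_zero, add_im, mul_im, zero_add] at e1 e2
      exact ⟨e1.symm, e2.symm⟩
    · have e := congrArg Complex.im hg
      simp at e
      rw [← hη, show (1:ℝ) + (η + 1) = 2 + η by ring, zero_add]
      linarith
  have hodd := odd_of_locS L S hz A Λ
  refine ⟨g, by rw [SS_eq h0 h1 hK hKe, hg], ?_⟩
  obtain ⟨r, rfl⟩ := hodd
  push_cast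
  have h2 : (2 : ZMod 2) = 0 := by decide
  rw [h2]; ring

theorem dl_neg {f : ℝ → ℂ} {a b : ℝ} (hab : a ≤ b) (hf : Continuous f)
    (h0 : ∀ t ∈ Icc a b, f t ≠ 0) : dl (fun t => - f t) a b = dl f a b := by
  obtain ⟨K, hK, hKe⟩ := ex_log hab hf h0
  rw [dl_eq hab hK.continuousOn hKe, dl_eq (K := fun t => K t + Real.pi * I) hab (by fun_prop)
    (fun t ht => by rw [exp_add, hKe t ht, exp_pi_mul_I]; ring)]
  ring

theorem SS_neg {η : ℝ} (h0 : 0 < η) (h1 : η < 1 / 2)
    (hG : Continuous fun p : ℝ × ℝ => G p.1 p.2) (hne : ∀ x y, Stc η (x, y) → G x y ≠ 0) :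
    SS (fun x y => - G x y) η = SS G η := by
  obtain ⟨K, hK, hKs, hKe⟩ := ex_stair h0 h1 hG hne
  rw [SS_eq h0 h1 hK hKe, SS_eq (K := fun t => K t + Real.pi * I) h0 h1 (by fun_prop)
    (fun x y h => by rw [exp_add, hKe x y h, exp_pi_mul_I]; ring)]
  ring

theorem GG_neg (x y : ℝ) : GG c (fun z => - M z) x y = - GG c M x y := by
  unfold GG; push_cast; ring

/-- comparison of two staircases -/
theorem SS_diff (hG : Continuous fun p : ℝ × ℝ => G p.1 p.2)
    (hper : ∀ x y, G (x + 1) (y + 1) = G x y) {η ρ : ℝ} (h0 : 0 < η) (h1 : η < ρ) (h2 : ρ < 1 / 2)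
    (n1 : ∀ y ∈ Icc η (1 - η), G 0 y ≠ 0) (n2 : ∀ x ∈ Icc η (1 - η), G x 1 ≠ 0)
    (n3 : ∀ y ∈ Icc (1 - ρ) 1, G ρ y ≠ 0) (n4 : ∀ x ∈ Icc 0 ρ, G x (1 - η) ≠ 0)
    (n5 : ∀ y ∈ Icc 1 (1 + ρ), G (1 - ρ) y ≠ 0) (n6 : ∀ x ∈ Icc (1 - ρ) 1, G x (1 + η) ≠ 0) :
    SS G η - SS G ρ = - Wd G 0 ρ (1 - ρ) (1 - η) - Wd G η ρ (1 - η) 1 +
      Wd G (1 - ρ) 1 (1 + η) (1 + ρ) + Wd G (1 - ρ) (1 - η) 1 (1 + η) := by
  have e1 : dl (fun y => G 0 y) η (1 - η) = dl (fun y => G 0 y) η ρ +
      dl (fun y => G 0 y) ρ (1 - ρ) + dl (fun y => G 0 y) (1 - ρ) (1 - η) := by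
    rw [dl_add (b := ρ) h1.le (by linarith) (Gy hG 0) n1,
      dl_add (a := ρ) (b := 1 - ρ) (by linarith) (by linarith) (Gy hG 0)
      (fun t ht => n1 t ⟨by linarith [ht.1], ht.2⟩)]
    ring
  have e2 : dl (fun x => G x 1) η (1 - η) = dl (fun x => G x 1) η ρ +
      dl (fun x => G x 1) ρ (1 - ρ) + dl (fun x => G x 1) (1 - ρ) (1 - η) := by
    rw [dl_add (b := ρ) h1.le (by linarith) (Gx hG 1) n2,
      dl_add (a := ρ) (b := 1 - ρ) (by linarith) (by linarith) (Gx hG 1)
      (fun t ht => n2 t ⟨by linarith [ht.1], ht.2⟩)]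
    ring
  have e3 : dl (fun y => G ρ y) (1 - ρ) 1 = dl (fun y => G ρ y) (1 - ρ) (1 - η) +
      dl (fun y => G ρ y) (1 - η) 1 :=
    dl_add (by linarith) (by linarith) (Gy hG ρ) n3
  have e4 : dl (fun x => G x (1 - η)) 0 ρ = dl (fun x => G x (1 - η)) 0 η +
      dl (fun x => G x (1 - η)) η ρ :=
    dl_add h0.le h1.le (Gx hG _) n4
  have e5 : dl (fun y => G (1 - ρ) y) 1 (1 + ρ) = dl (fun y => G (1 - ρ) y) 1 (1 + η) +
      dl (fun y => G (1 - ρ) y) (1 + η) (1 + ρ) :=
    dl_add (by linarith) (by linarith) (Gy hG _) n5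
  have e6 : dl (fun x => G x (1 + η)) (1 - ρ) 1 = dl (fun x => G x (1 + η)) (1 - ρ) (1 - η) +
      dl (fun x => G x (1 + η)) (1 - η) 1 :=
    dl_add (by linarith) (by linarith) (Gx hG _) n6
  have e7 : dl (fun y => G 0 y) η ρ = dl (fun y => G 1 y) (1 + η) (1 + ρ) := by
    rw [dl_shift (f' := fun y => G 1 y) (s := 1) h1.le (Gy hG 0)
      (fun t ht => n1 t ⟨ht.1, by linarith [ht.2]⟩) (fun t _ => by
        have := hper 0 t; rw [zero_add] at this; exact this.symm)]
    rw [add_comm η 1, add_comm ρ 1]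
  unfold SS Wd
  rw [e1, e2, e3, e4, e5, e6, e7]
  ring

end Pool.Agent.H763R2.An
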