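import Pool.Agent.H763R2.An.H

/-! Changes of the logarithm along sides of rectangles. -/

set_option autoImplicit false
open Complex Set Topology Metric

namespace Pool.Agent.H763R2.An

open Classical in
/-- change of the logarithm of `f` along `[a, b]` -/
noncomputable def dl (f : ℝ → ℂ) (a b : ℝ) : ℂ :=
  if h : ∃ K : ℝ → ℂ, Continuous K ∧ ∀ t ∈ Icc a b, exp (K t) = f t then
    h.choose b - h.choose a else 0

theorem dl_eq {f K : ℝ → ℂ} {a b : ℝ} (hab : a ≤ b) (hK : ContinuousOn K (Icc a b))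
    (hKe : ∀ t ∈ Icc a b, exp (K t) = f t) : dl f a b = K b - K a := by
  have ha : a ∈ Icc a b := ⟨le_rfl, hab⟩
  have hb : b ∈ Icc a b := ⟨hab, le_rfl⟩
  have hex : ∃ K : ℝ → ℂ, Continuous K ∧ ∀ t ∈ Icc a b, exp (K t) = f t := by
    refine ⟨fun t => K (max a (min b t)), hK.comp_continuous (by fun_prop) (fun t =>
      ⟨le_max_left _ _, max_le hab (min_le_left _ _)⟩), fun t ht => ?_⟩
    show exp (K (max a (min b t))) = f t
    rw [min_eq_right ht.2, max_eq_right ht.1]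
    exact hKe t ht
  unfold dl
  rw [dif_pos hex]
  obtain ⟨h1, h2⟩ := hex.choose_spec
  have := H777R2.exp_const_on (A := Icc a b) isPreconnected_Icc
    (k := fun t => hex.choose t - K t) (h1.continuousOn.sub hK) (c := 1) (fun t ht => by
      rw [exp_sub, h2 t ht, hKe t ht]
      exact div_self (by rw [← hKe t ht]; exact exp_ne_zero _)) hb ha
  linear_combination this

theorem ex_log {f : ℝ → ℂ} {a b : ℝ} (hab : a ≤ b) (hf : Continuous f)
    (h0 : ∀ t ∈ Icc a b, f t ≠ 0) : ∃ K : ℝ → ℂ, Continuous K ∧ ∀ t ∈ Icc a b, exp (K t) = f t := by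
  obtain ⟨K, hK, hKe⟩ := H777R2.exists_log (X := ℝ) (g := fun t => f (max a (min b t)))
    (by fun_prop) (fun t => h0 _ ⟨le_max_left _ _, max_le hab (min_le_left _ _)⟩)
  refine ⟨K, hK, fun t ht => ?_⟩
  rw [hKe t, min_eq_right ht.2, max_eq_right ht.1]

theorem dl_add {f : ℝ → ℂ} {a b c : ℝ} (hab : a ≤ b) (hbc : b ≤ c) (hf : Continuous f)
    (h0 : ∀ t ∈ Icc a c, f t ≠ 0) : dl f a c = dl f a b + dl f b c := by
  obtain ⟨K, hK, hKe⟩ := ex_log (hab.trans hbc) hf h0
  rw [dl_eq (hab.trans hbc) hK.continuousOn hKe,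
    dl_eq hab hK.continuousOn (fun t ht => hKe t ⟨ht.1, ht.2.trans hbc⟩),
    dl_eq hbc hK.continuousOn (fun t ht => hKe t ⟨hab.trans ht.1, ht.2⟩)]
  ring

theorem dl_exp {f : ℝ → ℂ} {a b : ℝ} (hab : a ≤ b) (hf : Continuous f)
    (h0 : ∀ t ∈ Icc a b, f t ≠ 0) : exp (dl f a b) = f b / f a := by
  obtain ⟨K, hK, hKe⟩ := ex_log hab hf h0
  rw [dl_eq hab hK.continuousOn hKe, exp_sub, hKe b ⟨hab, le_rfl⟩, hKe a ⟨le_rfl, hab⟩]

theorem dl_congr {f f' : ℝ → ℂ} {a b : ℝ} (hab : a ≤ b) (hf : Continuous f)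
    (h0 : ∀ t ∈ Icc a b, f t ≠ 0) (h : ∀ t ∈ Icc a b, f t = f' t) : dl f a b = dl f' a b := by
  obtain ⟨K, hK, hKe⟩ := ex_log hab hf h0
  rw [dl_eq hab hK.continuousOn hKe, dl_eq hab hK.continuousOn (fun t ht => by
    rw [hKe t ht, h t ht])]

/-- two functions with an affine change of variable of slope one -/
theorem dl_shift {f f' : ℝ → ℂ} {a b s : ℝ} (hab : a ≤ b) (hf : Continuous f)
    (h0 : ∀ t ∈ Icc a b, f t ≠ 0) (h : ∀ t ∈ Icc a b, f t = f' (t + s)) :
    dl f a b = dl f' (a + s) (b + s) := by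
  obtain ⟨K, hK, hKe⟩ := ex_log hab hf h0
  rw [dl_eq hab hK.continuousOn hKe, dl_eq (K := fun t => K (t - s)) (by linarith)
    (by fun_prop) (fun t ht => by
      rw [hKe (t - s) ⟨by linarith [ht.1], by linarith [ht.2]⟩, h (t - s)
        ⟨by linarith [ht.1], by linarith [ht.2]⟩]
      congr 1; ring)]
  simp only [add_sub_cancel_right]

/-- a point reflection of the variable -/
theorem dl_refl {f f' : ℝ → ℂ} {a b s σ : ℝ} (hab : a ≤ b) (hf : Continuous f)
    (hσ : σ = 1 ∨ σ = -1)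
    (h0 : ∀ t ∈ Icc a b, f t ≠ 0) (h : ∀ t ∈ Icc a b, f' (s - t) = σ * f t) :
    dl f' (s - b) (s - a) = - dl f a b := by
  obtain ⟨K, hK, hKe⟩ := ex_log hab hf h0
  have hσe : exp (log (σ : ℂ)) = σ := exp_log (by rcases hσ with rfl | rfl <;> simp)
  rw [dl_eq hab hK.continuousOn hKe, dl_eq (K := fun t => K (s - t) + log (σ : ℂ)) (by linarith)
    (by fun_prop) (fun t ht => by
      rw [exp_add, hKe (s - t) ⟨by linarith [ht.2], by linarith [ht.1]⟩, hσe,
        ← sub_sub_cancel s t, h (s - t) ⟨by linarith [ht.2], by linarith [ht.1]⟩]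
      rw [sub_sub_cancel]; ring)]
  simp only [sub_sub_cancel]
  ring

variable {G : ℝ → ℝ → ℂ}

/-- winding around a rectangle -/
noncomputable def Wd (G : ℝ → ℝ → ℂ) (a b c d : ℝ) : ℂ :=
  dl (fun x => G x c) a b + dl (fun y => G b y) c d - dl (fun x => G x d) a b
    - dl (fun y => G a y) c d

/-- no zeros on the boundary -/
structure Bd (G : ℝ → ℝ → ℂ) (a b c d : ℝ) : Prop where
  ab : a ≤ b
  cd : c ≤ d
  h1 : ∀ x ∈ Icc a b, G x c ≠ 0
  h2 : ∀ x ∈ Icc a b, G x d ≠ 0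
  h3 : ∀ y ∈ Icc c d, G a y ≠ 0
  h4 : ∀ y ∈ Icc c d, G b y ≠ 0

theorem Gx (hG : Continuous fun p : ℝ × ℝ => G p.1 p.2) (y : ℝ) : Continuous fun x => G x y :=
  hG.comp (by fun_prop : Continuous fun x : ℝ => ((x, y) : ℝ × ℝ))
theorem Gy (hG : Continuous fun p : ℝ × ℝ => G p.1 p.2) (x : ℝ) : Continuous fun y => G x y :=
  hG.comp (by fun_prop : Continuous fun y : ℝ => ((x, y) : ℝ × ℝ))

theorem Wd_cutx (hG : Continuous fun p : ℝ × ℝ => G p.1 p.2) {a b c d e : ℝ} (B : Bd G a b c d)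
    (h1 : a ≤ e) (h2 : e ≤ b) : Wd G a b c d = Wd G a e c d + Wd G e b c d := by
  unfold Wd
  rw [dl_add h1 h2 (Gx hG c) B.h1, dl_add h1 h2 (Gx hG d) B.h2]
  ring

theorem Wd_cuty (hG : Continuous fun p : ℝ × ℝ => G p.1 p.2) {a b c d e : ℝ} (B : Bd G a b c d)
    (h1 : c ≤ e) (h2 : e ≤ d) : Wd G a b c d = Wd G a b c e + Wd G a b e d := by
  unfold Wd
  rw [dl_add h1 h2 (Gy hG a) B.h3, dl_add h1 h2 (Gy hG b) B.h4]
  ring

theorem Wd_zero (hG : Continuous fun p : ℝ × ℝ => G p.1 p.2) {a b c d : ℝ} (hab : a ≤ b)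
    (hcd : c ≤ d) (h : ∀ x ∈ Icc a b, ∀ y ∈ Icc c d, G x y ≠ 0) : Wd G a b c d = 0 := by
  obtain ⟨K, hK, hKe⟩ := H777R2.exists_log (X := ℝ × ℝ)
    (g := fun p => G (max a (min b p.1)) (max c (min d p.2)))
    (hG.comp (by fun_prop : Continuous fun p : ℝ × ℝ =>
      ((max a (min b p.1), max c (min d p.2)) : ℝ × ℝ)))
    (fun p => h _ ⟨le_max_left _ _, max_le hab (min_le_left _ _)⟩ _
      ⟨le_max_left _ _, max_le hcd (min_le_left _ _)⟩)
  have e : ∀ x ∈ Icc a b, ∀ y ∈ Icc c d, exp (K (x, y)) = G x y := by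
    intro x hx y hy
    rw [hKe]
    simp only
    rw [min_eq_right hx.2, max_eq_right hx.1, min_eq_right hy.2, max_eq_right hy.1]
  have ha : a ∈ Icc a b := ⟨le_rfl, hab⟩
  have hb : b ∈ Icc a b := ⟨hab, le_rfl⟩
  have hc : c ∈ Icc c d := ⟨le_rfl, hcd⟩
  have hd : d ∈ Icc c d := ⟨hcd, le_rfl⟩
  unfold Wd
  rw [dl_eq (K := fun x => K (x, c)) hab (by fun_prop) (fun t ht => e t ht c hc),
    dl_eq (K := fun x => K (x, d)) hab (by fun_prop) (fun t ht => e t ht d hd),
    dl_eq (K := fun y => K (b, y)) hcd (by fun_prop) (fun t ht => e b hb t ht),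
    dl_eq (K := fun y => K (a, y)) hcd (by fun_prop) (fun t ht => e a ha t ht)]
  ring

/-- parity of an integer multiple of `2 π i` -/
def Pw (w : ℂ) (p : ZMod 2) : Prop := ∃ k : ℤ, w = k * (2 * Real.pi * I) ∧ ((k : ℤ) : ZMod 2) = p

theorem Pw.add {w w' : ℂ} {p p' : ZMod 2} (h : Pw w p) (h' : Pw w' p') :
    Pw (w + w') (p + p') := by
  obtain ⟨k, e, f⟩ := h
  obtain ⟨k', e', f'⟩ := h'
  exact ⟨k + k', by rw [e, e']; push_cast; ring, by push_cast; rw [f, f']⟩

theorem Pw.neg {w : ℂ} {p : ZMod 2} (h : Pw w p) : Pw (-w) p := by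
  obtain ⟨k, e, f⟩ := h
  refine ⟨-k, by rw [e]; push_cast; ring, ?_⟩
  push_cast
  rw [f]
  have : ∀ x : ZMod 2, -x = x := by decide
  exact this p

theorem Pw.zero : Pw 0 0 := ⟨0, by simp, by simp⟩

theorem Pw.unique {w : ℂ} {p p' : ZMod 2} (h : Pw w p) (h' : Pw w p') : p = p' := by
  obtain ⟨k, e, f⟩ := h
  obtain ⟨k', e', f'⟩ := h'
  have hpi : (2 * Real.pi * I : ℂ) ≠ 0 := by simp [Real.pi_ne_zero]
  have := mul_right_cancel₀ hpi (e.symm.trans e')
  have h2 : k = k' := by exact_mod_cast this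
  rw [← f, ← f', h2]

/-- the sign attached to a parity -/
noncomputable def sg (p : ZMod 2) : ℝ := if p = 1 then -1 else 1

theorem sg_or (p : ZMod 2) : sg p = 1 ∨ sg p = -1 := by
  unfold sg; split_ifs <;> simp

/-- winding around a symmetric box -/
theorem Wd_sym (hG : Continuous fun p : ℝ × ℝ => G p.1 p.2) {x0 y0 r : ℝ} (hr : 0 ≤ r)
    {p : ZMod 2} (B : Bd G (x0 - r) (x0 + r) (y0 - r) (y0 + r))
    (hs : ∀ s ∈ Icc (-r) r, ∀ t ∈ Icc (-r) r, G (x0 + s) (y0 + t) = sg p * G (x0 - s) (y0 - t)) :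
    Pw (Wd G (x0 - r) (x0 + r) (y0 - r) (y0 + r)) p := by
  have ss : (sg p : ℂ) * sg p = 1 := by
    rcases sg_or p with h | h <;> rw [h] <;> simp
  have e1 : dl (fun x => G x (y0 + r)) (x0 - r) (x0 + r) =
      - dl (fun x => G x (y0 - r)) (x0 - r) (x0 + r) := by
    have := dl_refl (f := fun x => G x (y0 - r)) (f' := fun x => G x (y0 + r)) (a := x0 - r)
      (b := x0 + r) (s := 2 * x0) B.ab (Gx hG _) (sg_or p) B.h1 (fun t ht => by
        have := hs (x0 - t) ⟨by linarith [ht.2], by linarith [ht.1]⟩ r ⟨by linarith, le_rfl⟩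
        rw [show x0 + (x0 - t) = 2 * x0 - t by ring, sub_sub_cancel] at this
        exact this)
    rw [← this]; congr 1 <;> ring
  have e2 : dl (fun y => G (x0 + r) y) (y0 - r) (y0 + r) =
      - dl (fun y => G (x0 - r) y) (y0 - r) (y0 + r) := by
    have := dl_refl (f := fun y => G (x0 - r) y) (f' := fun y => G (x0 + r) y) (a := y0 - r)
      (b := y0 + r) (s := 2 * y0) B.cd (Gy hG _) (sg_or p) B.h3 (fun t ht => by
        have := hs r ⟨by linarith, le_rfl⟩ (y0 - t) ⟨by linarith [ht.2], by linarith [ht.1]⟩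
        rw [show y0 + (y0 - t) = 2 * y0 - t by ring, sub_sub_cancel] at this
        exact this)
    rw [← this]; congr 1 <;> ring
  set w := dl (fun x => G x (y0 - r)) (x0 - r) (x0 + r) +
    dl (fun y => G (x0 + r) y) (y0 - r) (y0 + r) with hw
  have hW : Wd G (x0 - r) (x0 + r) (y0 - r) (y0 + r) = 2 * w := by
    unfold Wd
    rw [e1, hw]
    linear_combination -e2
  have hexp : exp w = sg p := by
    rw [hw, exp_add, dl_exp B.ab (Gx hG _) B.h1, dl_exp B.cd (Gy hG _) B.h4]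
    have h1 := B.h1 (x0 + r) ⟨B.ab, le_rfl⟩
    have h2 := B.h1 (x0 - r) ⟨le_rfl, B.ab⟩
    have h3 := hs r ⟨by linarith, le_rfl⟩ r ⟨by linarith, le_rfl⟩
    rw [h3]
    field_simp
  rw [hW]
  have hpi : exp (Real.pi * I) = -1 := exp_pi_mul_I
  by_cases hp : p = 1
  · have : exp (w - Real.pi * I) = 1 := by
      rw [exp_sub, hexp, hpi, hp]; simp [sg]
    obtain ⟨n, hn⟩ := exp_eq_one_iff.1 this
    refine ⟨2 * n + 1, ?_, ?_⟩
    · push_cast; linear_combination 2 * hn
    · push_cast; rw [hp]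
      have h2 : (2 : ZMod 2) = 0 := by decide
      rw [h2]; ring
  · have hp0 : p = 0 := by
      have : ∀ x : ZMod 2, x ≠ 1 → x = 0 := by decide
      exact this p hp
    have : exp w = 1 := by rw [hexp, hp0]; simp [sg]
    obtain ⟨n, hn⟩ := exp_eq_one_iff.1 this
    refine ⟨2 * n, ?_, ?_⟩
    · push_cast; linear_combination 2 * hn
    · push_cast; rw [hp0]
      have h2 : (2 : ZMod 2) = 0 := by decide
      rw [h2]; ring

/-- membership in an open rectangle -/
def InR (a b c d : ℝ) (z : ℝ × ℝ) : Prop := (a < z.1 ∧ z.1 < b) ∧ (c < z.2 ∧ z.2 < d)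

open Classical in
/-- winding modulo two is the number of zeros -/
theorem Wd_sum (hG : Continuous fun p : ℝ × ℝ => G p.1 p.2) (Z : Finset (ℝ × ℝ))
    (ι : ℝ × ℝ → ZMod 2) (hloc : ∀ z ∈ Z, ∃ r > 0, ∀ s ∈ Icc (-r) r, ∀ t ∈ Icc (-r) r,
      G (z.1 + s) (z.2 + t) = sg (ι z) * G (z.1 - s) (z.2 - t)) :
    ∀ n : ℕ, ∀ a b c d : ℝ, Bd G a b c d →
      (∀ x ∈ Icc a b, ∀ y ∈ Icc c d, G x y = 0 → (x, y) ∈ Z) →
      (Z.filter (InR a b c d)).card = n →
      Pw (Wd G a b c d) (∑ z ∈ Z.filter (InR a b c d), ι z) := by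
  intro n
  induction n using Nat.strong_induction_on with
  | _ n ih =>
  intro a b c d B hZ hn
  rcases Nat.lt_or_ge 1 n with h1 | h1
  · -- two zeros
    rw [← hn, Finset.one_lt_card] at h1
    obtain ⟨z1, hz1, z2, hz2, hne⟩ := h1
    -- cut in the first coordinate
    have cutx : ∀ z1 ∈ Z.filter (InR a b c d), ∀ z2 ∈ Z.filter (InR a b c d), z1.1 < z2.1 →
        Pw (Wd G a b c d) (∑ z ∈ Z.filter (InR a b c d), ι z) := by
      intro z1 hz1 z2 hz2 hlt
      obtain ⟨e, he, he'⟩ := (Ioo_infinite hlt).exists_notMem_finset (Z.image Prod.fst)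
      rw [Finset.mem_filter] at hz1 hz2
      have hae : a < e := lt_trans hz1.2.1.1 he.1
      have heb : e < b := lt_trans he.2 hz2.2.1.2
      have hGe : ∀ y ∈ Icc c d, G e y ≠ 0 := fun y hy h =>
        he' (Finset.mem_image.2 ⟨(e, y), hZ e ⟨hae.le, heb.le⟩ y hy h, rfl⟩)
      have B1 : Bd G a e c d := ⟨hae.le, B.cd, fun x hx => B.h1 x ⟨hx.1, hx.2.trans heb.le⟩,
        fun x hx => B.h2 x ⟨hx.1, hx.2.trans heb.le⟩, B.h3, hGe⟩
      have B2 : Bd G e b c d := ⟨heb.le, B.cd, fun x hx => B.h1 x ⟨hae.le.trans hx.1, hx.2⟩,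
        fun x hx => B.h2 x ⟨hae.le.trans hx.1, hx.2⟩, hGe, B.h4⟩
      have hun : Z.filter (InR a b c d) = Z.filter (InR a e c d) ∪ Z.filter (InR e b c d) := by
        ext z
        simp only [Finset.mem_union, Finset.mem_filter]
        constructor
        · rintro ⟨hz, ⟨g1, g2⟩, g3⟩
          rcases lt_trichotomy z.1 e with h | h | h
          · exact Or.inl ⟨hz, ⟨g1, h⟩, g3⟩
          · exact absurd (Finset.mem_image.2 ⟨z, hz, h⟩) he'
          · exact Or.inr ⟨hz, ⟨h, g2⟩, g3⟩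
        · rintro (⟨hz, ⟨g1, g2⟩, g3⟩ | ⟨hz, ⟨g1, g2⟩, g3⟩)
          · exact ⟨hz, ⟨g1, g2.trans heb⟩, g3⟩
          · exact ⟨hz, ⟨hae.trans g1, g2⟩, g3⟩
      have hdis : Disjoint (Z.filter (InR a e c d)) (Z.filter (InR e b c d)) := by
        rw [Finset.disjoint_left]
        intro z h h'
        rw [Finset.mem_filter] at h h'
        exact absurd h.2.1.2 (not_lt.2 h'.2.1.1.le)
      have c1 : (Z.filter (InR a e c d)).card < n := by
        rw [← hn]
        refine Finset.card_lt_card ⟨?_, fun h => ?_⟩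
        · rw [hun]; exact Finset.subset_union_left
        · have := h (Finset.mem_filter.2 hz2)
          rw [Finset.mem_filter] at this
          exact absurd this.2.1.2 (not_lt.2 he.2.le)
      have c2 : (Z.filter (InR e b c d)).card < n := by
        rw [← hn]
        refine Finset.card_lt_card ⟨?_, fun h => ?_⟩
        · rw [hun]; exact Finset.subset_union_right
        · have := h (Finset.mem_filter.2 hz1)
          rw [Finset.mem_filter] at this
          exact absurd this.2.1.1 (not_lt.2 he.1.le)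
      rw [Wd_cutx hG B hae.le heb.le, hun, Finset.sum_union hdis]
      exact (ih _ c1 a e c d B1 (fun x hx y hy => hZ x ⟨hx.1, hx.2.trans heb.le⟩ y hy) rfl).add
        (ih _ c2 e b c d B2 (fun x hx y hy => hZ x ⟨hae.le.trans hx.1, hx.2⟩ y hy) rfl)
    have cuty : ∀ z1 ∈ Z.filter (InR a b c d), ∀ z2 ∈ Z.filter (InR a b c d), z1.2 < z2.2 →
        Pw (Wd G a b c d) (∑ z ∈ Z.filter (InR a b c d), ι z) := by
      intro z1 hz1 z2 hz2 hlt
      obtain ⟨e, he, he'⟩ := (Ioo_infinite hlt).exists_notMem_finset (Z.image Prod.snd)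
      rw [Finset.mem_filter] at hz1 hz2
      have hce : c < e := lt_trans hz1.2.2.1 he.1
      have hed : e < d := lt_trans he.2 hz2.2.2.2
      have hGe : ∀ x ∈ Icc a b, G x e ≠ 0 := fun x hx h =>
        he' (Finset.mem_image.2 ⟨(x, e), hZ x hx e ⟨hce.le, hed.le⟩ h, rfl⟩)
      have B1 : Bd G a b c e := ⟨B.ab, hce.le, B.h1, hGe,
        fun x hx => B.h3 x ⟨hx.1, hx.2.trans hed.le⟩,
        fun x hx => B.h4 x ⟨hx.1, hx.2.trans hed.le⟩⟩
      have B2 : Bd G a b e d := ⟨B.ab, hed.le, hGe, B.h2,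
        fun x hx => B.h3 x ⟨hce.le.trans hx.1, hx.2⟩,
        fun x hx => B.h4 x ⟨hce.le.trans hx.1, hx.2⟩⟩
      have hun : Z.filter (InR a b c d) = Z.filter (InR a b c e) ∪ Z.filter (InR a b e d) := by
        ext z
        simp only [Finset.mem_union, Finset.mem_filter]
        constructor
        · rintro ⟨hz, g3, ⟨g1, g2⟩⟩
          rcases lt_trichotomy z.2 e with h | h | h
          · exact Or.inl ⟨hz, g3, ⟨g1, h⟩⟩
          · exact absurd (Finset.mem_image.2 ⟨z, hz, h⟩) he'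
          · exact Or.inr ⟨hz, g3, ⟨h, g2⟩⟩
        · rintro (⟨hz, g3, ⟨g1, g2⟩⟩ | ⟨hz, g3, ⟨g1, g2⟩⟩)
          · exact ⟨hz, g3, ⟨g1, g2.trans hed⟩⟩
          · exact ⟨hz, g3, ⟨hce.trans g1, g2⟩⟩
      have hdis : Disjoint (Z.filter (InR a b c e)) (Z.filter (InR a b e d)) := by
        rw [Finset.disjoint_left]
        intro z h h'
        rw [Finset.mem_filter] at h h'
        exact absurd h.2.2.2 (not_lt.2 h'.2.2.1.le)
      have c1 : (Z.filter (InR a b c e)).card < n := by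
        rw [← hn]
        refine Finset.card_lt_card ⟨?_, fun h => ?_⟩
        · rw [hun]; exact Finset.subset_union_left
        · have := h (Finset.mem_filter.2 hz2)
          rw [Finset.mem_filter] at this
          exact absurd this.2.2.2 (not_lt.2 he.2.le)
      have c2 : (Z.filter (InR a b e d)).card < n := by
        rw [← hn]
        refine Finset.card_lt_card ⟨?_, fun h => ?_⟩
        · rw [hun]; exact Finset.subset_union_right
        · have := h (Finset.mem_filter.2 hz1)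
          rw [Finset.mem_filter] at this
          exact absurd this.2.2.1 (not_lt.2 he.1.le)
      rw [Wd_cuty hG B hce.le hed.le, hun, Finset.sum_union hdis]
      exact (ih _ c1 a b c e B1 (fun x hx y hy => hZ x hx y ⟨hy.1, hy.2.trans hed.le⟩) rfl).add
        (ih _ c2 a b e d B2 (fun x hx y hy => hZ x hx y ⟨hce.le.trans hy.1, hy.2⟩) rfl)
    rcases lt_trichotomy z1.1 z2.1 with h | h | h
    · exact cutx z1 hz1 z2 hz2 h
    · rcases lt_trichotomy z1.2 z2.2 with h' | h' | h'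
      · exact cuty z1 hz1 z2 hz2 h'
      · exact absurd (Prod.ext h h') hne
      · exact cuty z2 hz2 z1 hz1 h'
    · exact cutx z2 hz2 z1 hz1 h
  -- zeros are interior
  have hint : ∀ x ∈ Icc a b, ∀ y ∈ Icc c d, G x y = 0 → (x, y) ∈ Z.filter (InR a b c d) := by
    intro x hx y hy h0
    rw [Finset.mem_filter]
    refine ⟨hZ x hx y hy h0, ⟨lt_of_le_of_ne hx.1 ?_, lt_of_le_of_ne hx.2 ?_⟩,
      ⟨lt_of_le_of_ne hy.1 ?_, lt_of_le_of_ne hy.2 ?_⟩⟩
    · rintro rfl; exact B.h3 y hy h0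
    · rintro rfl; exact B.h4 y hy h0
    · rintro rfl; exact B.h1 x hx h0
    · rintro rfl; exact B.h2 x hx h0
  rcases Nat.eq_zero_or_pos n with h0 | h0
  · rw [h0, Finset.card_eq_zero] at hn
    rw [hn, Finset.sum_empty, Wd_zero hG B.ab B.cd (fun x hx y hy h => by
      have := hint x hx y hy h
      rw [hn] at this
      simp at this)]
    exact Pw.zero
  · have h2 : n = 1 := by omega
    rw [h2, Finset.card_eq_one] at hn
    obtain ⟨z, hz⟩ := hn
    have hzm : z ∈ Z.filter (InR a b c d) := by rw [hz]; exact Finset.mem_singleton_self z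
    rw [hz, Finset.sum_singleton]
    rw [Finset.mem_filter] at hzm
    obtain ⟨hzZ, ⟨a1, b1⟩, ⟨c1, d1⟩⟩ := hzm
    obtain ⟨r0, hr0, hs⟩ := hloc z hzZ
    set r := min (r0 / 2) (min (min ((z.1 - a) / 2) ((b - z.1) / 2))
      (min ((z.2 - c) / 2) ((d - z.2) / 2))) with hr
    have hrp : 0 < r := by
      refine lt_min (by positivity) (lt_min (lt_min ?_ ?_) (lt_min ?_ ?_)) <;> linarith
    have r1 : r ≤ r0 / 2 := min_le_left _ _
    have r2 : r ≤ (z.1 - a) / 2 :=
      (min_le_right _ _).trans ((min_le_left _ _).trans (min_le_left _ _))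
    have r3 : r ≤ (b - z.1) / 2 :=
      (min_le_right _ _).trans ((min_le_left _ _).trans (min_le_right _ _))
    have r4 : r ≤ (z.2 - c) / 2 :=
      (min_le_right _ _).trans ((min_le_right _ _).trans (min_le_left _ _))
    have r5 : r ≤ (d - z.2) / 2 :=
      (min_le_right _ _).trans ((min_le_right _ _).trans (min_le_right _ _))
    have hnz : ∀ x ∈ Icc a b, ∀ y ∈ Icc c d, (x, y) ≠ z → G x y ≠ 0 := by
      intro x hx y hy hne h0
      have := hint x hx y hy h0
      rw [hz, Finset.mem_singleton] at this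
      exact hne this
    have n1 : ∀ x y : ℝ, x ≠ z.1 → (x, y) ≠ z := fun x y h h' => h (by rw [← h'])
    have n2 : ∀ x y : ℝ, y ≠ z.2 → (x, y) ≠ z := fun x y h h' => h (by rw [← h'])
    have Bm : Bd G (z.1 - r) (z.1 + r) c d := ⟨by linarith, B.cd,
      fun x hx => B.h1 x ⟨by linarith [hx.1], by linarith [hx.2]⟩,
      fun x hx => B.h2 x ⟨by linarith [hx.1], by linarith [hx.2]⟩,
      fun y hy => hnz _ ⟨by linarith, by linarith⟩ y hy (n1 _ _ (by linarith)),
      fun y hy => hnz _ ⟨by linarith, by linarith⟩ y hy (n1 _ _ (by linarith))⟩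
    have Br : Bd G (z.1 - r) b c d := ⟨by linarith, B.cd,
      fun x hx => B.h1 x ⟨by linarith [hx.1], hx.2⟩,
      fun x hx => B.h2 x ⟨by linarith [hx.1], hx.2⟩, Bm.h3, B.h4⟩
    have Bt : Bd G (z.1 - r) (z.1 + r) (z.2 - r) d := ⟨by linarith, by linarith,
      fun x hx => hnz x ⟨by linarith [hx.1], by linarith [hx.2]⟩ _ ⟨by linarith, by linarith⟩
        (n2 _ _ (by linarith)), Bm.h2,
      fun y hy => Bm.h3 y ⟨by linarith [hy.1], hy.2⟩,
      fun y hy => Bm.h4 y ⟨by linarith [hy.1], hy.2⟩⟩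
    have Bb : Bd G (z.1 - r) (z.1 + r) (z.2 - r) (z.2 + r) := ⟨by linarith, by linarith,
      Bt.h1, fun x hx => hnz x ⟨by linarith [hx.1], by linarith [hx.2]⟩ _
        ⟨by linarith, by linarith⟩ (n2 _ _ (by linarith)),
      fun y hy => Bm.h3 y ⟨by linarith [hy.1], by linarith [hy.2]⟩,
      fun y hy => Bm.h4 y ⟨by linarith [hy.1], by linarith [hy.2]⟩⟩
    rw [Wd_cutx hG B (e := z.1 - r) (by linarith) (by linarith),
      Wd_cutx hG Br (e := z.1 + r) (by linarith) (by linarith),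
      Wd_cuty hG Bm (e := z.2 - r) (by linarith) (by linarith),
      Wd_cuty hG Bt (e := z.2 + r) (by linarith) (by linarith),
      Wd_zero hG (a := a) (b := z.1 - r) (by linarith) B.cd (fun x hx y hy =>
        hnz x ⟨hx.1, by linarith [hx.2]⟩ y hy (n1 _ _ (by linarith [hx.2]))),
      Wd_zero hG (a := z.1 + r) (b := b) (by linarith) B.cd (fun x hx y hy =>
        hnz x ⟨by linarith [hx.1], hx.2⟩ y hy (n1 _ _ (by linarith [hx.1]))),
      Wd_zero hG (c := c) (d := z.2 - r) Bm.ab (by linarith) (fun x hx y hy =>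
        hnz x ⟨by linarith [hx.1], by linarith [hx.2]⟩ y ⟨hy.1, by linarith [hy.2]⟩
          (n2 _ _ (by linarith [hy.2]))),
      Wd_zero hG (c := z.2 + r) (d := d) Bm.ab (by linarith) (fun x hx y hy =>
        hnz x ⟨by linarith [hx.1], by linarith [hx.2]⟩ y ⟨by linarith [hy.1], hy.2⟩
          (n2 _ _ (by linarith [hy.1]))),
      zero_add, zero_add, add_zero, add_zero]
    exact Wd_sym hG hrp.le Bb (fun s hs' t ht' => hs s ⟨by linarith [hs'.1], by linarith [hs'.2]⟩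
      t ⟨by linarith [ht'.1], by linarith [ht'.2]⟩)

end Pool.Agent.H763R2.An
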